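import Pool.Agent.TH375.KL.Series

set_option autoImplicit false

/-!
# Families of sieve problems: bounds on average over the family
-/

namespace Pool.Agent.TH375.KL

open Finset

/-- **The maximal inequality for decaying weights**, on average over a family -/
theorem bounded_max_fam : ∃ C : ℝ, 0 < C ∧ ∀ (ι : Type) (S : Finset ι) (φ : ι → ℕ → ℤ → ℝ),
    (∀ (i : ι) (p : ℕ) (t u : ℤ), p.Prime → (p : ℤ) ∣ t - u → φ i p t = φ i p u) →
    ∀ D : ℝ, 0 ≤ D → ∀ (M : ℤ) (N z : ℕ),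
    (∀ p : ℕ, p.Prime → p ≤ z →
      ∑ i ∈ S, (∑ u ∈ range p, φ i p (u : ℤ) ^ 2) / p ≤ D / (p * Real.sqrt p)) →
    ∀ X : ι → ℤ → ℕ, (∀ i t, X i t ≤ z) →
    ∑ i ∈ S, ∑ n ∈ Icc 1 N,
      (∑ p ∈ Prm (X i (M + (n : ℤ))), (φ i p (M + (n : ℤ)) - mv (φ i) p)) ^ 2 ≤
      C * (N + (z : ℝ) ^ 2) * D := by
  obtain ⟨C1, hC1, h1⟩ := const_one
  obtain ⟨C2, hC2, h2⟩ := const_two
  refine ⟨C1 * (6 * C2), by positivity, ?_⟩
  intro ι S φ hφ D hD M N z hvar X hX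
  set L := Nat.log 2 z + 1 with hL
  set T : ι → ℕ → ℕ → ℝ := fun i j n => ∑ p ∈ Prm (min (X i (M + (n : ℤ))) (2 ^ (j + 1))),
    (blk (φ i) j p (M + (n : ℤ)) - mv (blk (φ i) j) p) with hT
  -- the variance of a block
  have hblock : ∀ j, ∑ i ∈ S, ∑ n ∈ Icc 1 N, T i j n ^ 2 ≤
      6 * ((j : ℝ) + 3) ^ 2 * (N + (z : ℝ) ^ 2) * (D * (1 / Real.sqrt 2) ^ j) := by
    intro j
    set zj := min z (2 ^ (j + 1)) with hzj
    have h3 : ∑ i ∈ S, ∑ n ∈ Icc 1 N, T i j n ^ 2 ≤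
        ∑ i ∈ S, 6 * (Nat.log 2 zj + 2) ^ 2 * (N + (zj : ℝ) ^ 2) *
          ∑ p ∈ Prm zj, (∑ u ∈ range p, blk (φ i) j p (u : ℤ) ^ 2) / p :=
      sum_le_sum fun i _ => maximal_dual (blk (φ i) j) (blk_per (hφ i) j) M N zj
        (fun t => min (X i t) (2 ^ (j + 1))) fun t => min_le_min_right _ (hX i t)
    refine h3.trans ?_
    rw [← mul_sum, sum_comm]
    have h4 : (Nat.log 2 zj : ℝ) + 2 ≤ (j : ℝ) + 3 := by
      have h5 : Nat.log 2 zj ≤ j + 1 := by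
        have h6 := Nat.log_mono_right (b := 2) (min_le_right z (2 ^ (j + 1)))
        rwa [Nat.log_pow (by norm_num)] at h6
      have h6 : (Nat.log 2 zj : ℝ) ≤ j + 1 := by exact_mod_cast h5
      linarith
    have h5 : (N : ℝ) + (zj : ℝ) ^ 2 ≤ N + (z : ℝ) ^ 2 := by
      have h6 : (zj : ℝ) ≤ z := by exact_mod_cast min_le_left _ _
      have h7 : (0 : ℝ) ≤ zj := Nat.cast_nonneg _
      nlinarith
    have h6 : ∑ p ∈ Prm zj, ∑ i ∈ S, (∑ u ∈ range p, blk (φ i) j p (u : ℤ) ^ 2) / p ≤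
        D * (1 / Real.sqrt 2) ^ j := by
      have h7 : ∀ p ∈ Prm zj, ∑ i ∈ S, (∑ u ∈ range p, blk (φ i) j p (u : ℤ) ^ 2) / p ≤
          if p ∈ Ico (2 ^ j) (2 ^ (j + 1)) then D / (2 ^ j * Real.sqrt 2 ^ j) else 0 := by
        intro p hp
        unfold Prm at hp
        rw [mem_filter, mem_range] at hp
        have hpz : p ≤ z := by
          have := min_le_left z (2 ^ (j + 1))
          omega
        unfold blk
        by_cases h8 : Nat.log 2 p = j
        · simp only [if_pos h8]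
          have h9 : 2 ^ j ≤ p := by
            rw [← h8]
            exact Nat.pow_log_le_self 2 hp.2.ne_zero
          have h10 : p < 2 ^ (j + 1) := by
            rw [← h8]
            exact Nat.lt_pow_succ_log_self (by norm_num) p
          rw [if_pos (mem_Ico.2 ⟨h9, h10⟩)]
          refine (hvar p hp.2 hpz).trans ?_
          have h11 : (2 : ℝ) ^ j ≤ p := by exact_mod_cast h9
          have h12 : Real.sqrt 2 ^ j ≤ Real.sqrt p := by
            refine Real.le_sqrt_of_sq_le ?_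
            rw [← pow_mul, mul_comm j 2, pow_mul, Real.sq_sqrt (by norm_num : (0 : ℝ) ≤ 2)]
            exact h11
          exact div_le_div_of_nonneg_left hD (by positivity)
            (mul_le_mul h11 h12 (by positivity) (by positivity))
        · simp only [if_neg h8]
          have h9 : ∑ _i ∈ S, (∑ _u ∈ range p, (0 : ℝ) ^ 2) / p = 0 := by simp
          rw [h9]
          split_ifs
          · positivity
          · exact le_refl _
      refine (sum_le_sum h7).trans ?_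
      rw [← sum_filter, sum_const, nsmul_eq_mul]
      have h8 : ((Prm zj).filter fun p => p ∈ Ico (2 ^ j) (2 ^ (j + 1))).card ≤ 2 ^ j := by
        have h9 : (Prm zj).filter (fun p => p ∈ Ico (2 ^ j) (2 ^ (j + 1))) ⊆
            Ico (2 ^ j) (2 ^ (j + 1)) := fun p hp => (mem_filter.1 hp).2
        have h10 := card_le_card h9
        rw [Nat.card_Ico] at h10
        have h11 : 2 ^ (j + 1) = 2 ^ j * 2 := pow_succ 2 j
        refine h10.trans ?_
        omega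
      have h9 : (((Prm zj).filter fun p => p ∈ Ico (2 ^ j) (2 ^ (j + 1))).card : ℝ) ≤ 2 ^ j := by
        exact_mod_cast h8
      calc (((Prm zj).filter fun p => p ∈ Ico (2 ^ j) (2 ^ (j + 1))).card : ℝ) *
            (D / (2 ^ j * Real.sqrt 2 ^ j)) ≤ 2 ^ j * (D / (2 ^ j * Real.sqrt 2 ^ j)) :=
            mul_le_mul_of_nonneg_right h9 (by positivity)
        _ = D * (1 / Real.sqrt 2) ^ j := by
            rw [div_pow, one_pow]
            field_simp
    have h7 : (0 : ℝ) ≤ Nat.log 2 zj := Nat.cast_nonneg _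
    have h8 : ((Nat.log 2 zj : ℝ) + 2) ^ 2 ≤ ((j : ℝ) + 3) ^ 2 :=
      pow_le_pow_left₀ (by linarith) h4 2
    have h9 : 6 * ((Nat.log 2 zj : ℝ) + 2) ^ 2 * (N + (zj : ℝ) ^ 2) ≤
        6 * ((j : ℝ) + 3) ^ 2 * (N + (z : ℝ) ^ 2) :=
      mul_le_mul (by linarith) h5 (by positivity) (by positivity)
    exact mul_le_mul h9 h6 (sum_nonneg fun p _ => sum_nonneg fun i _ =>
      div_nonneg (sum_nonneg fun u _ => sq_nonneg _) (Nat.cast_nonneg _)) (by positivity)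
  -- Cauchy-Schwarz over the blocks
  have hCS : ∀ (i : ι) (n : ℕ),
      (∑ p ∈ Prm (X i (M + (n : ℤ))), (φ i p (M + (n : ℤ)) - mv (φ i) p)) ^ 2 ≤
      C1 * ∑ j ∈ range L, ((j : ℝ) + 1) ^ 2 * T i j n ^ 2 := by
    intro i n
    rw [sum_blk (φ i) (hX i _) (M + (n : ℤ))]
    have h3 : ∑ j ∈ range L, T i j n =
        ∑ j ∈ range L, (1 / ((j : ℝ) + 1)) * (((j : ℝ) + 1) * T i j n) := by
      refine sum_congr rfl fun j _ => ?_
      have : (j : ℝ) + 1 ≠ 0 := by positivity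
      field_simp
    have h4 := Finset.sum_mul_sq_le_sq_mul_sq (range L) (fun j : ℕ => 1 / ((j : ℝ) + 1))
      (fun j : ℕ => ((j : ℝ) + 1) * T i j n)
    rw [← h3] at h4
    refine h4.trans ?_
    have h5 : ∑ j ∈ range L, (1 / ((j : ℝ) + 1)) ^ 2 ≤ C1 := by
      refine le_trans (le_of_eq ?_) (h1 L)
      exact sum_congr rfl fun j _ => by rw [div_pow, one_pow]
    have h6 : ∑ j ∈ range L, (((j : ℝ) + 1) * T i j n) ^ 2 =
        ∑ j ∈ range L, ((j : ℝ) + 1) ^ 2 * T i j n ^ 2 :=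
      sum_congr rfl fun j _ => by rw [mul_pow]
    rw [h6]
    exact mul_le_mul_of_nonneg_right h5 (sum_nonneg fun j _ => by positivity)
  refine (sum_le_sum fun i _ => sum_le_sum fun n _ => hCS i n).trans ?_
  simp only [← mul_sum]
  have h3 : ∑ i ∈ S, ∑ n ∈ Icc 1 N, ∑ j ∈ range L, ((j : ℝ) + 1) ^ 2 * T i j n ^ 2 ≤
      6 * (N + (z : ℝ) ^ 2) * D * C2 := by
    have e : ∑ i ∈ S, ∑ n ∈ Icc 1 N, ∑ j ∈ range L, ((j : ℝ) + 1) ^ 2 * T i j n ^ 2 =
        ∑ j ∈ range L, ((j : ℝ) + 1) ^ 2 * ∑ i ∈ S, ∑ n ∈ Icc 1 N, T i j n ^ 2 := by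
      rw [sum_congr rfl fun i _ => sum_comm, sum_comm]
      simp only [mul_sum]
    rw [e]
    have h4 : ∀ j ∈ range L, ((j : ℝ) + 1) ^ 2 * ∑ i ∈ S, ∑ n ∈ Icc 1 N, T i j n ^ 2 ≤
        6 * (N + (z : ℝ) ^ 2) * D *
          (((j : ℝ) + 1) ^ 2 * ((j : ℝ) + 3) ^ 2 * (1 / Real.sqrt 2) ^ j) := by
      intro j _
      calc ((j : ℝ) + 1) ^ 2 * ∑ i ∈ S, ∑ n ∈ Icc 1 N, T i j n ^ 2 ≤ ((j : ℝ) + 1) ^ 2 *
            (6 * ((j : ℝ) + 3) ^ 2 * (N + (z : ℝ) ^ 2) * (D * (1 / Real.sqrt 2) ^ j)) :=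
            mul_le_mul_of_nonneg_left (hblock j) (by positivity)
        _ = _ := by ring
    refine (sum_le_sum h4).trans ?_
    rw [← mul_sum]
    exact mul_le_mul_of_nonneg_left (h2 L) (by positivity)
  calc C1 * ∑ i ∈ S, ∑ n ∈ Icc 1 N, ∑ j ∈ range L, ((j : ℝ) + 1) ^ 2 * T i j n ^ 2
      ≤ C1 * (6 * (N + (z : ℝ) ^ 2) * D * C2) := mul_le_mul_of_nonneg_left h3 hC1.le
    _ = _ := by ring

theorem sum_Ioc_eq (M : ℤ) (N : ℕ) (f : ℤ → ℝ) :
    ∑ t ∈ Ioc M (M + N), f t = ∑ n ∈ Icc 1 N, f (M + (n : ℤ)) := by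
  refine sum_nbij' (fun t => (t - M).toNat) (fun n => M + (n : ℤ)) ?_ ?_ ?_ ?_ ?_
  · intro t ht
    rw [mem_Ioc] at ht
    rw [mem_Icc]
    omega
  · intro n hn
    rw [mem_Icc] at hn
    rw [mem_Ioc]
    omega
  · intro t ht
    rw [mem_Ioc] at ht
    omega
  · intro n hn
    rw [mem_Icc] at hn
    omega
  · intro t ht
    rw [mem_Ioc] at ht
    congr 1
    omega

open scoped Classical in
/-- Chebyshev's inequality for a maximal function on a family -/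
theorem cheb_fam {ι : Type} (S : Finset ι) (M : ℤ) (N z : ℕ) (F : ι → ℤ → ℕ → ℝ)
    (hF : ∀ i t x, 0 ≤ F i t x) {B c : ℝ} (hc : 0 < c)
    (hB : ∀ X : ι → ℤ → ℕ, (∀ i t, X i t ≤ z) →
      ∑ i ∈ S, ∑ n ∈ Icc 1 N, F i (M + (n : ℤ)) (X i (M + (n : ℤ))) ≤ B) :
    (((S ×ˢ Ioc M (M + N)).filter fun q => ∃ x : ℕ, x ≤ z ∧ c < F q.1 q.2 x).card : ℝ) ≤ B / c := by
  set bad : ι → ℤ → Prop := fun i t => ∃ x : ℕ, x ≤ z ∧ c < F i t x with hbad
  set X : ι → ℤ → ℕ := fun i t => if h : bad i t then h.choose else 0 with hXd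
  have hX : ∀ i t, X i t ≤ z := by
    intro i t
    rw [hXd]
    by_cases h : bad i t
    · simp only [dif_pos h]
      exact h.choose_spec.1
    · simp only [dif_neg h]
      exact Nat.zero_le _
  have hXb : ∀ i t, bad i t → c < F i t (X i t) := by
    intro i t h
    have h1 := h.choose_spec.2
    rw [hXd]
    simp only [dif_pos h]
    exact h1
  have h1 := hB X hX
  have h2 : ∑ i ∈ S, ∑ n ∈ Icc 1 N, F i (M + (n : ℤ)) (X i (M + (n : ℤ))) =
      ∑ q ∈ S ×ˢ Ioc M (M + N), F q.1 q.2 (X q.1 q.2) := by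
    rw [sum_product]
    exact sum_congr rfl fun i _ => (sum_Ioc_eq M N fun t => F i t (X i t)).symm
  rw [h2] at h1
  rw [le_div_iff₀ hc, ← nsmul_eq_mul, ← sum_const]
  have h3 : ∑ q ∈ (S ×ˢ Ioc M (M + N)).filter (fun q => ∃ x : ℕ, x ≤ z ∧ c < F q.1 q.2 x),
      F q.1 q.2 (X q.1 q.2) ≤ ∑ q ∈ S ×ˢ Ioc M (M + N), F q.1 q.2 (X q.1 q.2) :=
    sum_le_sum_of_subset_of_nonneg (filter_subset _ _) fun q _ _ => hF _ _ _
  refine le_trans ?_ (h3.trans h1)
  refine sum_le_sum fun q hq => ?_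
  rw [mem_filter] at hq
  exact (hXb q.1 q.2 hq.2).le

/-- **Truncated Dirichlet series for almost all members of a family** -/
theorem few_series_fam : ∃ C : ℝ, 0 < C ∧ ∀ (ι : Type) (S : Finset ι) (ψ : ι → ℕ → ℤ → ℝ),
    (∀ (i : ι) (p : ℕ) (t u : ℤ), p.Prime → (p : ℤ) ∣ t - u → ψ i p t = ψ i p u) →
    ∀ D : ℝ, 0 ≤ D → ∀ (M : ℤ) (N z : ℕ),
    (∀ p : ℕ, p.Prime → p ≤ z → ∑ i ∈ S, (∑ u ∈ range p, ψ i p (u : ℤ) ^ 2) / p ≤ D) →
    ∀ K : ℝ, 0 < K →
    ({q : ι × ℤ | q.1 ∈ S ∧ M < q.2 ∧ q.2 ≤ M + N ∧ ∃ x : ℕ, x ≤ z ∧ ∃ w : ℝ, 1 ≤ w ∧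
      K < (∑ p ∈ Prm x, (ψ q.1 p q.2 - mv (ψ q.1) p) *
        (Real.log p * (p : ℝ) ^ (-w))) ^ 2}.ncard : ℝ) ≤ C * (N + (z : ℝ) ^ 2) * D / K := by
  classical
  obtain ⟨C, hC, hmax⟩ := bounded_max_fam
  refine ⟨C * 16, by positivity, ?_⟩
  intro ι S ψ hψ D hD M N z hvar K hK
  set φ : ι → ℕ → ℤ → ℝ := fun i p t => ψ i p t * (Real.log p / p) with hφ
  have hper : ∀ (i : ι) (p : ℕ) (t u : ℤ), p.Prime → (p : ℤ) ∣ t - u → φ i p t = φ i p u := by
    intro i p t u hp h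
    rw [hφ]
    simp only
    rw [hψ i p t u hp h]
  have hmv : ∀ i p, mv (φ i) p = mv (ψ i) p * (Real.log p / p) := by
    intro i p
    unfold mv
    rw [hφ]
    simp only
    rw [← sum_mul]
    ring
  have hvar' : ∀ p : ℕ, p.Prime → p ≤ z →
      ∑ i ∈ S, (∑ u ∈ range p, φ i p (u : ℤ) ^ 2) / p ≤ 16 * D / (p * Real.sqrt p) := by
    intro p hp hpz
    have hp0 : (0 : ℝ) < p := by exact_mod_cast hp.pos
    have h1 := hvar p hp hpz
    have h2 : ∑ i ∈ S, (∑ u ∈ range p, φ i p (u : ℤ) ^ 2) / p =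
        (∑ i ∈ S, (∑ u ∈ range p, ψ i p (u : ℤ) ^ 2) / p) * (Real.log p / p) ^ 2 := by
      rw [sum_mul]
      refine sum_congr rfl fun i _ => ?_
      rw [hφ]
      simp only
      simp only [mul_pow]
      rw [← sum_mul]
      ring
    rw [h2]
    have h3 : (Real.log p / p) ^ 2 ≤ 16 / (p * Real.sqrt p) := by
      rcases log_sq_le hp0 with h4 | h4
      · rw [div_pow, div_le_div_iff₀ (by positivity) (by positivity)]
        have h5 : Real.sqrt p * Real.sqrt p = p := Real.mul_self_sqrt hp0.le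
        have h6 : 0 < (p : ℝ) * Real.sqrt p := by positivity
        calc Real.log p ^ 2 * (p * Real.sqrt p) ≤ 16 * Real.sqrt p * (p * Real.sqrt p) :=
              mul_le_mul_of_nonneg_right h4 h6.le
          _ = 16 * p * (Real.sqrt p * Real.sqrt p) := by ring
          _ = 16 * (p : ℝ) ^ 2 := by rw [h5]; ring
      · exact absurd h4 (not_lt.2 (by exact_mod_cast hp.one_le))
    calc (∑ i ∈ S, (∑ u ∈ range p, ψ i p (u : ℤ) ^ 2) / p) * (Real.log p / p) ^ 2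
        ≤ D * (16 / (p * Real.sqrt p)) := mul_le_mul h1 h3 (sq_nonneg _) hD
      _ = _ := by ring
  set F : ι → ℤ → ℕ → ℝ := fun i t x => (∑ p ∈ Prm x, (φ i p t - mv (φ i) p)) ^ 2 with hF
  have hch := cheb_fam S M N z F (fun i t x => sq_nonneg _) hK
    (hmax ι S φ hper (16 * D) (by positivity) M N z hvar')
  have hsub : {q : ι × ℤ | q.1 ∈ S ∧ M < q.2 ∧ q.2 ≤ M + N ∧ ∃ x : ℕ, x ≤ z ∧ ∃ w : ℝ, 1 ≤ w ∧
      K < (∑ p ∈ Prm x, (ψ q.1 p q.2 - mv (ψ q.1) p) * (Real.log p * (p : ℝ) ^ (-w))) ^ 2} ⊆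
      (((S ×ˢ Ioc M (M + N)).filter fun q => ∃ x : ℕ, x ≤ z ∧ K < F q.1 q.2 x : Finset (ι × ℤ)) :
        Set (ι × ℤ)) := by
    rintro ⟨i, t⟩ ⟨hi, h1, h2, x, hx, w, hw, h3⟩
    rw [mem_coe, mem_filter, mem_product, mem_Ioc]
    refine ⟨⟨hi, h1, h2⟩, ?_⟩
    dsimp only at h3 hi h1 h2 ⊢
    by_contra hgood
    have hg : ∀ y ≤ z, |∑ p ∈ Prm y, (φ i p t - mv (φ i) p)| ≤ Real.sqrt K := by
      intro y hy
      refine Real.abs_le_sqrt ?_
      by_contra h4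
      exact hgood ⟨y, hy, not_le.1 h4⟩
    set b : ℕ → ℝ := fun k => if k.Prime then φ i k t - mv (φ i) k else 0 with hb
    have hsumb : ∀ y, ∑ k ∈ range (y + 1), b k = ∑ p ∈ Prm y, (φ i p t - mv (φ i) p) := by
      intro y
      unfold Prm
      rw [sum_filter]
    have hB : ∀ k ≤ x + 1, |∑ k ∈ range k, b k| ≤ Real.sqrt K := by
      intro k hk
      rcases Nat.eq_zero_or_pos k with h4 | h4
      · rw [h4, range_zero, sum_empty, abs_zero]
        exact Real.sqrt_nonneg _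
      · obtain ⟨y, rfl⟩ : ∃ y, k = y + 1 := ⟨k - 1, by omega⟩
        rw [hsumb]
        exact hg y (by omega)
    have h4 := abel_ineq b (wt w) (wt_anti hw) (wt_nonneg w) (x + 1) hB
    rw [wt_zero, one_mul] at h4
    have h5 : ∑ k ∈ range (x + 1), wt w k * b k =
        ∑ p ∈ Prm x, (ψ i p t - mv (ψ i) p) * (Real.log p * (p : ℝ) ^ (-w)) := by
      unfold Prm
      rw [sum_filter]
      refine sum_congr rfl fun k _ => ?_
      rw [hb]
      simp only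
      split_ifs with h6
      · rw [wt_prime w h6, hmv, hφ]
        simp only
        ring
      · rw [mul_zero]
    rw [h5] at h4
    have h6 := pow_le_pow_left₀ (abs_nonneg _) h4 2
    rw [sq_abs, Real.sq_sqrt hK.le] at h6
    linarith
  have hle := Set.ncard_le_ncard hsub (Finset.finite_toSet _)
  rw [Set.ncard_coe_finset] at hle
  refine (Nat.cast_le.2 hle).trans (hch.trans (le_of_eq ?_))
  ring

/-- the sum of the squares of the logarithms of the primes -/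
theorem sum_log_sq (j : ℕ) : ∑ p ∈ Prm (2 ^ (j + 1)), Real.log p ^ 2 ≤
    ((j : ℝ) + 1) * (4 * 2 ^ j) := by
  have h1 : ∀ p ∈ Prm (2 ^ (j + 1)), Real.log p ^ 2 ≤ ((j : ℝ) + 1) * Real.log 2 * Real.log p := by
    intro p hp
    unfold Prm at hp
    rw [mem_filter, mem_range] at hp
    have h2 : (p : ℝ) ≤ 2 ^ (j + 1) := by
      have : p ≤ 2 ^ (j + 1) := by omega
      exact_mod_cast this
    have hp0 : (0 : ℝ) < p := by exact_mod_cast hp.2.pos
    have h3 := Real.log_le_log hp0 h2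
    rw [Real.log_pow] at h3
    push_cast at h3
    have h4 : 0 ≤ Real.log p := Real.log_nonneg (by exact_mod_cast hp.2.one_le)
    rw [sq]
    exact mul_le_mul_of_nonneg_right h3 h4
  have h2 : ∑ p ∈ Prm (2 ^ (j + 1)), Real.log p ≤ 2 ^ (j + 1) * Real.log 4 := by
    have h3 := primorial_le_four_pow (2 ^ (j + 1))
    have h4 : (primorial (2 ^ (j + 1)) : ℝ) ≤ (4 : ℝ) ^ (2 ^ (j + 1)) := by exact_mod_cast h3
    have h5 := Real.log_le_log (by exact_mod_cast primorial_pos _) h4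
    rw [Real.log_pow] at h5
    unfold primorial at h5
    push_cast at h5
    rw [Real.log_prod (fun p hp => by
      rw [mem_filter] at hp
      exact_mod_cast hp.2.ne_zero)] at h5
    exact h5
  refine (sum_le_sum h1).trans ?_
  rw [← mul_sum]
  have h3 : Real.log 4 = 2 * Real.log 2 := by
    rw [show (4 : ℝ) = 2 ^ 2 by norm_num, Real.log_pow]
    push_cast
    ring
  have h4 := Real.log_two_lt_d9
  have h5 := Real.log_two_gt_d9
  have hj : (0 : ℝ) < (j : ℝ) + 1 := by positivity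
  calc ((j : ℝ) + 1) * Real.log 2 * ∑ p ∈ Prm (2 ^ (j + 1)), Real.log p
      ≤ ((j : ℝ) + 1) * Real.log 2 * (2 ^ (j + 1) * Real.log 4) :=
        mul_le_mul_of_nonneg_left h2 (by positivity)
    _ = ((j : ℝ) + 1) * (2 ^ j * (4 * Real.log 2 ^ 2)) := by rw [h3]; ring
    _ ≤ ((j : ℝ) + 1) * (2 ^ j * 4) := by
        refine mul_le_mul_of_nonneg_left ?_ hj.le
        refine mul_le_mul_of_nonneg_left ?_ (by positivity)
        nlinarith
    _ = _ := by ring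

/-- **All scales simultaneously, for almost all members of a family** -/
theorem few_scales_fam : ∃ C : ℝ, 0 < C ∧ ∀ (ι : Type) (S : Finset ι) (ψ : ι → ℕ → ℤ → ℝ),
    (∀ (i : ι) (p : ℕ) (t u : ℤ), p.Prime → (p : ℤ) ∣ t - u → ψ i p t = ψ i p u) →
    ∀ D : ℝ, 0 ≤ D → ∀ (M : ℤ) (N z : ℕ),
    (∀ p : ℕ, p.Prime → p ≤ z → ∑ i ∈ S, (∑ u ∈ range p, ψ i p (u : ℤ) ^ 2) / p ≤ D) →
    ∀ K : ℝ, 0 < K →
    ({q : ι × ℤ | q.1 ∈ S ∧ M < q.2 ∧ q.2 ≤ M + N ∧ ∃ x : ℕ, 1 ≤ x ∧ x ≤ z ∧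
      K * (x * ((Nat.log 2 x : ℝ) + 1) ^ 5) < (∑ p ∈ Prm x, (ψ q.1 p q.2 - mv (ψ q.1) p) *
        Real.log p) ^ 2}.ncard : ℝ) ≤ C * (N + (z : ℝ) ^ 2) * D / K := by
  classical
  obtain ⟨C1, hC1, hsum1⟩ := const_one
  refine ⟨216 * C1, by positivity, ?_⟩
  intro ι S ψ hψ D hD M N z hvar K hK
  set φ : ι → ℕ → ℤ → ℝ := fun i p t => ψ i p t * Real.log p with hφ
  have hper : ∀ (i : ι) (p : ℕ) (t u : ℤ), p.Prime → (p : ℤ) ∣ t - u → φ i p t = φ i p u := by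
    intro i p t u hp h
    rw [hφ]
    simp only
    rw [hψ i p t u hp h]
  have hmv : ∀ i p, mv (φ i) p = mv (ψ i) p * Real.log p := by
    intro i p
    unfold mv
    rw [hφ]
    simp only
    rw [← sum_mul]
    ring
  set F : ℕ → ι → ℤ → ℕ → ℝ := fun j i t x =>
    if Nat.log 2 x = j then (∑ p ∈ Prm x, (φ i p t - mv (φ i) p)) ^ 2 else 0 with hF
  have hF0 : ∀ j i t x, 0 ≤ F j i t x := by
    intro j i t x
    rw [hF]
    simp only
    split_ifs
    · exact sq_nonneg _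
    · exact le_refl _
  set c : ℕ → ℝ := fun j => K * (2 ^ j * ((j : ℝ) + 1) ^ 5) with hc
  have hc0 : ∀ j, 0 < c j := fun j => by
    rw [hc]
    positivity
  have hNz : (0 : ℝ) ≤ (N : ℝ) + (z : ℝ) ^ 2 := by positivity
  have hbound : ∀ j, ∀ X : ι → ℤ → ℕ, (∀ i t, X i t ≤ z) →
      ∑ i ∈ S, ∑ n ∈ Icc 1 N, F j i (M + (n : ℤ)) (X i (M + (n : ℤ))) ≤
        6 * ((j : ℝ) + 3) ^ 2 * (N + (z : ℝ) ^ 2) * (D * (((j : ℝ) + 1) * (4 * 2 ^ j))) := by
    intro j X hX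
    set zj := min z (2 ^ (j + 1)) with hzj
    have h3 : ∑ i ∈ S, ∑ n ∈ Icc 1 N, F j i (M + (n : ℤ)) (X i (M + (n : ℤ))) ≤
        ∑ i ∈ S, 6 * (Nat.log 2 zj + 2) ^ 2 * (N + (zj : ℝ) ^ 2) *
          ∑ p ∈ Prm zj, (∑ u ∈ range p, φ i p (u : ℤ) ^ 2) / p := by
      refine sum_le_sum fun i _ => ?_
      refine le_trans ?_ (maximal_dual (φ i) (hper i) M N zj
        (fun t => min (X i t) (2 ^ (j + 1))) fun t => min_le_min_right _ (hX i t))
      refine sum_le_sum fun n _ => ?_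
      rw [hF]
      simp only
      split_ifs with h4
      · have h5 := Nat.lt_pow_succ_log_self (b := 2) (by norm_num) (X i (M + (n : ℤ)))
        rw [h4] at h5
        rw [min_eq_left h5.le]
      · exact sq_nonneg _
    refine h3.trans ?_
    rw [← mul_sum, sum_comm]
    have h4 : (Nat.log 2 zj : ℝ) + 2 ≤ (j : ℝ) + 3 := by
      have h5 : Nat.log 2 zj ≤ j + 1 := by
        have h6 := Nat.log_mono_right (b := 2) (min_le_right z (2 ^ (j + 1)))
        rwa [Nat.log_pow (by norm_num)] at h6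
      have h6 : (Nat.log 2 zj : ℝ) ≤ j + 1 := by exact_mod_cast h5
      linarith
    have h5 : (N : ℝ) + (zj : ℝ) ^ 2 ≤ N + (z : ℝ) ^ 2 := by
      have h6 : (zj : ℝ) ≤ z := by exact_mod_cast min_le_left _ _
      have h7 : (0 : ℝ) ≤ zj := Nat.cast_nonneg _
      nlinarith
    have h6 : ∑ p ∈ Prm zj, ∑ i ∈ S, (∑ u ∈ range p, φ i p (u : ℤ) ^ 2) / p ≤
        D * (((j : ℝ) + 1) * (4 * 2 ^ j)) := by
      have h7 : ∀ p ∈ Prm zj, ∑ i ∈ S, (∑ u ∈ range p, φ i p (u : ℤ) ^ 2) / p ≤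
          D * Real.log p ^ 2 := by
        intro p hp
        unfold Prm at hp
        rw [mem_filter, mem_range] at hp
        have hpz : p ≤ z := by
          have := min_le_left z (2 ^ (j + 1))
          omega
        have h8 : ∑ i ∈ S, (∑ u ∈ range p, φ i p (u : ℤ) ^ 2) / p =
            (∑ i ∈ S, (∑ u ∈ range p, ψ i p (u : ℤ) ^ 2) / p) * Real.log p ^ 2 := by
          rw [sum_mul]
          refine sum_congr rfl fun i _ => ?_
          rw [hφ]
          simp only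
          simp only [mul_pow]
          rw [← sum_mul]
          ring
        rw [h8]
        exact mul_le_mul_of_nonneg_right (hvar p hp.2 hpz) (sq_nonneg _)
      refine (sum_le_sum h7).trans ?_
      rw [← mul_sum]
      refine mul_le_mul_of_nonneg_left (le_trans ?_ (sum_log_sq j)) hD
      refine sum_le_sum_of_subset_of_nonneg ?_ fun p _ _ => sq_nonneg _
      intro p hp
      unfold Prm at hp ⊢
      rw [mem_filter, mem_range] at hp ⊢
      have := min_le_right z (2 ^ (j + 1))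
      exact ⟨by omega, hp.2⟩
    have h7 : (0 : ℝ) ≤ Nat.log 2 zj := Nat.cast_nonneg _
    have h8 : ((Nat.log 2 zj : ℝ) + 2) ^ 2 ≤ ((j : ℝ) + 3) ^ 2 :=
      pow_le_pow_left₀ (by linarith) h4 2
    have h9 : 6 * ((Nat.log 2 zj : ℝ) + 2) ^ 2 * (N + (zj : ℝ) ^ 2) ≤
        6 * ((j : ℝ) + 3) ^ 2 * (N + (z : ℝ) ^ 2) :=
      mul_le_mul (by linarith) h5 (by positivity) (by positivity)
    exact mul_le_mul h9 h6 (sum_nonneg fun p _ => sum_nonneg fun i _ =>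
      div_nonneg (sum_nonneg fun u _ => sq_nonneg _) (Nat.cast_nonneg _)) (by positivity)
  set Bj : ℕ → Finset (ι × ℤ) := fun j =>
    (S ×ˢ Ioc M (M + N)).filter fun q => ∃ x : ℕ, x ≤ z ∧ c j < F j q.1 q.2 x with hBj
  have hcard : ∀ j, ((Bj j).card : ℝ) ≤
      216 * (N + (z : ℝ) ^ 2) * D / K * (1 / ((j : ℝ) + 1) ^ 2) := by
    intro j
    refine (cheb_fam S M N z (F j) (hF0 j) (hc0 j) (hbound j)).trans ?_
    rw [hc]
    simp only
    have hj : (0 : ℝ) < (j : ℝ) + 1 := by positivity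
    have h3 : ((j : ℝ) + 3) ^ 2 ≤ 9 * ((j : ℝ) + 1) ^ 2 := by
      have : (0 : ℝ) ≤ j := Nat.cast_nonneg j
      nlinarith
    have e1 : 216 * (N + (z : ℝ) ^ 2) * D / K * (1 / ((j : ℝ) + 1) ^ 2) =
        (6 * (9 * ((j : ℝ) + 1) ^ 2) * (N + (z : ℝ) ^ 2) * (D * (((j : ℝ) + 1) * (4 * 2 ^ j)))) /
          (K * (2 ^ j * ((j : ℝ) + 1) ^ 5)) := by
      field_simp
      ring
    rw [e1]
    refine div_le_div_of_nonneg_right ?_ (by positivity)
    refine mul_le_mul_of_nonneg_right ?_ (by positivity)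
    refine mul_le_mul_of_nonneg_right ?_ hNz
    linarith
  set L := Nat.log 2 z + 1 with hL
  have hsub : {q : ι × ℤ | q.1 ∈ S ∧ M < q.2 ∧ q.2 ≤ M + N ∧ ∃ x : ℕ, 1 ≤ x ∧ x ≤ z ∧
      K * (x * ((Nat.log 2 x : ℝ) + 1) ^ 5) < (∑ p ∈ Prm x, (ψ q.1 p q.2 - mv (ψ q.1) p) *
        Real.log p) ^ 2} ⊆ (((range L).biUnion Bj : Finset (ι × ℤ)) : Set (ι × ℤ)) := by
    rintro ⟨i, t⟩ ⟨hi, h1, h2, x, hx1, hxz, h3⟩
    dsimp only at h3 hi h1 h2
    rw [mem_coe, mem_biUnion]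
    refine ⟨Nat.log 2 x, ?_, ?_⟩
    · rw [mem_range]
      have := Nat.log_mono_right (b := 2) hxz
      omega
    · rw [hBj]
      simp only
      rw [mem_filter, mem_product, mem_Ioc]
      refine ⟨⟨hi, h1, h2⟩, x, hxz, ?_⟩
      rw [hF, hc]
      simp only
      rw [if_pos trivial]
      have h4 : ∑ p ∈ Prm x, (φ i p t - mv (φ i) p) =
          ∑ p ∈ Prm x, (ψ i p t - mv (ψ i) p) * Real.log p := by
        refine sum_congr rfl fun p _ => ?_
        rw [hmv, hφ]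
        simp only
        ring
      rw [h4]
      refine lt_of_le_of_lt ?_ h3
      have h5 : ((2 : ℝ) ^ (Nat.log 2 x)) ≤ x := by
        exact_mod_cast Nat.pow_log_le_self 2 (by omega)
      exact mul_le_mul_of_nonneg_left (mul_le_mul_of_nonneg_right h5 (by positivity)) hK.le
  have hle := Set.ncard_le_ncard hsub (Finset.finite_toSet _)
  rw [Set.ncard_coe_finset] at hle
  have h1 : (((range L).biUnion Bj).card : ℝ) ≤ ∑ j ∈ range L, ((Bj j).card : ℝ) := by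
    exact_mod_cast card_biUnion_le
  refine (Nat.cast_le.2 hle).trans (h1.trans ((sum_le_sum fun j _ => hcard j).trans ?_))
  rw [← mul_sum]
  calc 216 * (N + (z : ℝ) ^ 2) * D / K * ∑ j ∈ range L, 1 / ((j : ℝ) + 1) ^ 2
      ≤ 216 * (N + (z : ℝ) ^ 2) * D / K * C1 :=
        mul_le_mul_of_nonneg_left (hsum1 L) (by positivity)
    _ = _ := by ring

end Pool.Agent.TH375.KL
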