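import Pool.Agent.TH375.KL.RealSum

set_option autoImplicit false

/-!
# The character sums of the additive families `y² = G(u) + s`
-/

namespace Pool.Agent.TH375.KL

open Finset

/-- the box `{0, …, p - 1}^n` -/
def cube (n p : ℕ) : Finset (Fin n → ℕ) := Fintype.piFinset fun _ => range p

/-- the value of a polynomial -/
noncomputable def gv {n : ℕ} (G : MvPolynomial (Fin n) ℤ) (u : Fin n → ℕ) : ℤ :=
  MvPolynomial.eval (fun i => (u i : ℤ)) G

/-- the character sum -/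
noncomputable def csum {n : ℕ} (G : MvPolynomial (Fin n) ℤ) (p : ℕ) (s : ℤ) : ℤ :=
  ∑ u ∈ cube n p, jacobiSym (gv G u + s) p

theorem card_cube (n p : ℕ) : (cube n p).card = p ^ n := by
  unfold cube
  rw [Fintype.card_piFinset]
  simp

theorem jac_eq {p : ℕ} [Fact p.Prime] (a : ℤ) :
    jacobiSym a p = quadraticChar (ZMod p) (a : ZMod p) := by
  rw [← jacobiSym.legendreSym.to_jacobiSym]
  rfl

theorem csum_eq {n : ℕ} (G : MvPolynomial (Fin n) ℤ) {p : ℕ} [Fact p.Prime] (s : ℤ) :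
    csum G p s = ∑ u ∈ cube n p, quadraticChar (ZMod p) ((gv G u : ZMod p) + (s : ZMod p)) := by
  unfold csum
  refine sum_congr rfl fun u _ => ?_
  rw [jac_eq, Int.cast_add]

theorem csum_per {n : ℕ} (G : MvPolynomial (Fin n) ℤ) {p : ℕ} [Fact p.Prime] {s t : ℤ}
    (h : (p : ℤ) ∣ s - t) : csum G p s = csum G p t := by
  have h1 : (s : ZMod p) = (t : ZMod p) := by
    rw [← sub_eq_zero, ← Int.cast_sub]
    exact (ZMod.intCast_zmod_eq_zero_iff_dvd _ _).2 h
  rw [csum_eq, csum_eq, h1]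

/-- the mean value is zero -/
theorem csum_mean {n : ℕ} (G : MvPolynomial (Fin n) ℤ) {p : ℕ} [Fact p.Prime] (hp : p ≠ 2) :
    ∑ s ∈ range p, csum G p (s : ℤ) = 0 := by
  have h1 : ∀ s ∈ range p, csum G p (s : ℤ) =
      ∑ u ∈ cube n p, quadraticChar (ZMod p) ((gv G u : ZMod p) + (s : ZMod p)) := by
    intro s _
    rw [csum_eq, Int.cast_natCast]
  rw [sum_congr rfl h1, sum_comm]
  refine sum_eq_zero fun u _ => ?_
  rw [sum_range_zmod (p := p)
    (f := fun s => quadraticChar (ZMod p) ((gv G u : ZMod p) + s))]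
  exact qc_sum hp _

open scoped Classical in
/-- the number of pairs of points of the box with congruent values -/
noncomputable def pairs {n : ℕ} (G : MvPolynomial (Fin n) ℤ) (p : ℕ) : ℕ :=
  ((cube n p ×ˢ cube n p).filter fun w => (p : ℤ) ∣ gv G w.1 - gv G w.2).card

/-- the second moment -/
theorem csum_sq {n : ℕ} (G : MvPolynomial (Fin n) ℤ) {p : ℕ} [hpf : Fact p.Prime] (hp : p ≠ 2) :
    ∑ s ∈ range p, csum G p (s : ℤ) ^ 2 = p * (pairs G p : ℤ) - (p : ℤ) ^ (2 * n) := by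
  classical
  set χ := quadraticChar (ZMod p) with hχ
  have h1 : ∀ s ∈ range p, csum G p (s : ℤ) ^ 2 =
      ∑ w ∈ cube n p ×ˢ cube n p, χ ((gv G w.1 : ZMod p) + (s : ZMod p)) *
        χ ((gv G w.2 : ZMod p) + (s : ZMod p)) := by
    intro s _
    rw [csum_eq, Int.cast_natCast, sq, sum_mul_sum, sum_product]
  rw [sum_congr rfl h1, sum_comm]
  have h2 : ∀ w ∈ cube n p ×ˢ cube n p,
      ∑ s ∈ range p, χ ((gv G w.1 : ZMod p) + (s : ZMod p)) *
        χ ((gv G w.2 : ZMod p) + (s : ZMod p)) =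
      (if (p : ℤ) ∣ gv G w.1 - gv G w.2 then (p : ℤ) else 0) - 1 := by
    intro w _
    rw [sum_range_zmod (p := p)
      (f := fun s => χ ((gv G w.1 : ZMod p) + s) * χ ((gv G w.2 : ZMod p) + s)), qc_corr hp]
    congr 1
    have h3 : ((gv G w.1 : ZMod p) = (gv G w.2 : ZMod p)) ↔ (p : ℤ) ∣ gv G w.1 - gv G w.2 := by
      rw [← ZMod.intCast_zmod_eq_zero_iff_dvd, Int.cast_sub, sub_eq_zero]
    by_cases h4 : (p : ℤ) ∣ gv G w.1 - gv G w.2
    · rw [if_pos h4, if_pos (h3.2 h4)]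
    · rw [if_neg h4, if_neg fun h5 => h4 (h3.1 h5)]
  rw [sum_congr rfl h2, sum_sub_distrib, ← sum_filter, sum_const, sum_const, card_product,
    card_cube, nsmul_eq_mul, nsmul_eq_mul, mul_one]
  unfold pairs
  have h3 : (((cube n p ×ˢ cube n p).filter fun w => (p : ℤ) ∣ gv G w.1 - gv G w.2).card : ℤ) *
      (p : ℤ) = p * (((cube n p ×ˢ cube n p).filter fun w =>
        (p : ℤ) ∣ gv G w.1 - gv G w.2).card : ℤ) := mul_comm _ _
  push_cast
  rw [h3, two_mul, pow_add]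

/-- the sum over the primes -/
theorem additive {k : ℕ} (G : MvPolynomial (Fin (k + 1)) ℤ) (M : ℤ) (N z : ℕ) {K : ℝ}
    (hK : 0 < K) :
    ({s : ℤ | M < s ∧ s ≤ M + N ∧ ∃ x : ℕ, x ≤ z ∧
      K * (Nat.log 2 z + 2) ^ 2 * (Real.log z ^ 2 * ∑ p ∈ (Prm z).filter (· ≠ 2),
        ((pairs G p : ℝ) - (p : ℝ) ^ (2 * k + 1)) / (p : ℝ) ^ (2 * k)) <
      (∑ p ∈ (Prm x).filter (· ≠ 2), (csum G p s : ℝ) / (p : ℝ) ^ k * Real.log p) ^ 2}.ncard : ℝ) ≤
      6 * (N + (z : ℝ) ^ 2) / K := by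
  classical
  set φ : ℕ → ℤ → ℝ := fun p s => if p ≠ 2 then (csum G p s : ℝ) / (p : ℝ) ^ k * Real.log p else 0
    with hφ
  have hper : ∀ (p : ℕ) (t u : ℤ), p.Prime → (p : ℤ) ∣ t - u → φ p t = φ p u := by
    intro p t u hp h
    have : Fact p.Prime := ⟨hp⟩
    rw [hφ]
    simp only
    rw [csum_per G h]
  have hmv : ∀ p : ℕ, p.Prime → mv φ p = 0 := by
    intro p hp
    have : Fact p.Prime := ⟨hp⟩
    unfold mv
    rw [hφ]
    simp only
    by_cases h2 : p ≠ 2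
    · simp only [if_pos h2]
      have h1 := csum_mean G h2
      have h3 : ∑ u ∈ range p, (csum G p (u : ℤ) : ℝ) / (p : ℝ) ^ k * Real.log p =
          (∑ u ∈ range p, (csum G p (u : ℤ) : ℝ)) / (p : ℝ) ^ k * Real.log p := by
        rw [sum_div, sum_mul]
      have h4 : ∑ u ∈ range p, (csum G p (u : ℤ) : ℝ) = 0 := by exact_mod_cast h1
      rw [h3, h4]
      simp
    · simp only [if_neg h2]
      simp
  have hsq : ∀ p : ℕ, p.Prime → p ≤ z → (∑ u ∈ range p, φ p (u : ℤ) ^ 2) / p ≤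
      if p ≠ 2 then Real.log z ^ 2 * (((pairs G p : ℝ) - (p : ℝ) ^ (2 * k + 1)) /
        (p : ℝ) ^ (2 * k)) else 0 := by
    intro p hp hpz
    have : Fact p.Prime := ⟨hp⟩
    have hp0 : (0 : ℝ) < p := by exact_mod_cast hp.pos
    rw [hφ]
    simp only
    by_cases h2 : p ≠ 2
    · simp only [if_pos h2]
      have h1 := csum_sq G h2
      have h3 : ∑ u ∈ range p, (csum G p (u : ℤ) : ℝ) ^ 2 =
          p * (pairs G p : ℝ) - (p : ℝ) ^ (2 * (k + 1)) := by exact_mod_cast h1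
      have h4 : ∑ u ∈ range p, ((csum G p (u : ℤ) : ℝ) / (p : ℝ) ^ k * Real.log p) ^ 2 =
          (∑ u ∈ range p, (csum G p (u : ℤ) : ℝ) ^ 2) / (p : ℝ) ^ (2 * k) * Real.log p ^ 2 := by
        rw [sum_div, sum_mul]
        refine sum_congr rfl fun u _ => ?_
        rw [mul_pow, div_pow, ← pow_mul, mul_comm k 2]
      have h5 : (∑ u ∈ range p, ((csum G p (u : ℤ) : ℝ) / (p : ℝ) ^ k * Real.log p) ^ 2) / p =
          Real.log p ^ 2 * (((pairs G p : ℝ) - (p : ℝ) ^ (2 * k + 1)) / (p : ℝ) ^ (2 * k)) := by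
        rw [h4, h3, show 2 * (k + 1) = 2 * k + 1 + 1 by ring, pow_succ (p : ℝ) (2 * k + 1)]
        field_simp
      rw [h5]
      have h6 : 0 ≤ ((pairs G p : ℝ) - (p : ℝ) ^ (2 * k + 1)) / (p : ℝ) ^ (2 * k) := by
        have h7 : 0 ≤ (p : ℝ) * (pairs G p : ℝ) - (p : ℝ) ^ (2 * (k + 1)) := by
          rw [← h3]
          exact sum_nonneg fun u _ => sq_nonneg _
        rw [show 2 * (k + 1) = 2 * k + 1 + 1 by ring, pow_succ (p : ℝ) (2 * k + 1)] at h7
        have h8 : 0 ≤ (pairs G p : ℝ) - (p : ℝ) ^ (2 * k + 1) := by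
          have h9 : 0 ≤ (p : ℝ) * ((pairs G p : ℝ) - (p : ℝ) ^ (2 * k + 1)) := by linarith
          exact nonneg_of_mul_nonneg_right h9 hp0
        positivity
      refine mul_le_mul_of_nonneg_right ?_ h6
      have h7 : 0 ≤ Real.log p := Real.log_natCast_nonneg p
      have h8 : Real.log p ≤ Real.log z := Real.log_le_log hp0 (by exact_mod_cast hpz)
      exact pow_le_pow_left₀ h7 h8 2
    · simp only [if_neg h2]
      simp
  have hW : ∑ p ∈ Prm z, (∑ u ∈ range p, φ p (u : ℤ) ^ 2) / p ≤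
      Real.log z ^ 2 * ∑ p ∈ (Prm z).filter (· ≠ 2),
        ((pairs G p : ℝ) - (p : ℝ) ^ (2 * k + 1)) / (p : ℝ) ^ (2 * k) := by
    rw [mul_sum, sum_filter]
    refine sum_le_sum fun p hp => ?_
    unfold Prm at hp
    rw [mem_filter, mem_range] at hp
    exact hsq p hp.2 (by omega)
  have h1 := few_real φ hper M N z hK hW
  refine le_trans (le_of_eq ?_) h1
  congr 2
  ext s
  rw [Set.mem_ofPred_eq, Set.mem_ofPred_eq]
  have h2 : ∀ x : ℕ, ∑ p ∈ Prm x, (φ p s - mv φ p) =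
      ∑ p ∈ (Prm x).filter (· ≠ 2), (csum G p s : ℝ) / (p : ℝ) ^ k * Real.log p := by
    intro x
    rw [sum_filter]
    refine sum_congr rfl fun p hp => ?_
    unfold Prm at hp
    rw [mem_filter] at hp
    rw [hmv p hp.2, sub_zero]
  simp only [h2]

end Pool.Agent.TH375.KL
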