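import Pool.Agent.TH375.KL.JacobiWeights

set_option autoImplicit false

/-!
# Character sums for almost all members of linear systems with base locus
-/

namespace Pool.Agent.TH375.KL

open Finset

section Second

variable {R V Ω : Type*} [AddGroup R] [Fintype R] [DecidableEq R] [Fintype V] [DecidableEq V]
  [AddGroup Ω] [Fintype Ω]

omit [DecidableEq V] in
theorem first_gen {ev : Ω →+ (V → R)} (h : Kwise 2 ev) (b : V → R) (W : V → R → ℝ)
    (h0 : ∀ v, ∑ y, W v y = 0) : ∑ c, ∑ v, W v (ev c v + b v) = 0 := by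
  have hΩ : (0 : ℝ) < Fintype.card Ω := by exact_mod_cast Fintype.card_pos
  rw [sum_comm]
  refine sum_eq_zero fun v _ => ?_
  set f : Ω →+ R :=
    { toFun := fun c => ev c v
      map_zero' := by simp
      map_add' := fun c c' => by simp } with hf
  have hs : Function.Surjective f := by
    intro a
    obtain ⟨c, hc⟩ := h {v} (by simp) (fun _ => a)
    exact ⟨c, hc v (mem_singleton_self v)⟩
  have h2 := avg_surj f hs fun q => W v (q + b v)
  have h4 : ∑ y, W v (y + b v) = 0 := by
    rw [← h0 v]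
    exact Equiv.sum_comp (Equiv.addRight (b v)) (W v)
  rw [h4, zero_div] at h2
  exact (div_eq_zero_iff.1 h2).resolve_right hΩ.ne'

theorem second_gen {ev : Ω →+ (V → R)} (h : Kwise 2 ev) (b : V → R) (W : V → R → ℝ)
    (h0 : ∀ v, ∑ y, W v y = 0) (h1 : ∀ v y, |W v y| ≤ 1) :
    (∑ c, (∑ v, W v (ev c v + b v)) ^ 2) / (Fintype.card Ω : ℝ) ≤ Fintype.card V := by
  have hΩ : (0 : ℝ) < Fintype.card Ω := by exact_mod_cast Fintype.card_pos
  have hpair : ∀ v v' : V, v ≠ v' →
      ∑ c, W v (ev c v + b v) * W v' (ev c v' + b v') = 0 := by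
    intro v v' hne
    set f : Ω →+ R × R :=
      { toFun := fun c => (ev c v, ev c v')
        map_zero' := by simp
        map_add' := fun c c' => by simp } with hf
    have hs : Function.Surjective f := by
      rintro ⟨a, a'⟩
      obtain ⟨c, hc⟩ := h {v, v'} card_le_two (fun x => if x = v then a else a')
      refine ⟨c, ?_⟩
      have e1 := hc v (by simp)
      have e2 := hc v' (by simp)
      rw [if_pos rfl] at e1
      rw [if_neg hne.symm] at e2
      show (ev c v, ev c v') = (a, a')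
      rw [e1, e2]
    have h2 := avg_surj f hs fun q => W v (q.1 + b v) * W v' (q.2 + b v')
    have h3 : ∑ q : R × R, W v (q.1 + b v) * W v' (q.2 + b v') = 0 := by
      rw [Fintype.sum_prod_type]
      simp only [← mul_sum]
      rw [← sum_mul]
      have h4 : ∑ y, W v (y + b v) = 0 := by
        rw [← h0 v]
        exact Equiv.sum_comp (Equiv.addRight (b v)) (W v)
      rw [h4, zero_mul]
    rw [h3, zero_div] at h2
    exact (div_eq_zero_iff.1 h2).resolve_right hΩ.ne'
  rw [div_le_iff₀ hΩ]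
  have e1 : ∑ c, (∑ v, W v (ev c v + b v)) ^ 2 =
      ∑ v, ∑ v', ∑ c, W v (ev c v + b v) * W v' (ev c v' + b v') := by
    simp only [sq, sum_mul_sum]
    rw [sum_comm]
    refine sum_congr rfl fun v _ => ?_
    rw [sum_comm]
  rw [e1]
  have e2 : ∀ v, ∑ v', ∑ c, W v (ev c v + b v) * W v' (ev c v' + b v') ≤ Fintype.card Ω := by
    intro v
    rw [sum_eq_single v]
    · have : ∀ c, W v (ev c v + b v) * W v (ev c v + b v) ≤ 1 := by
        intro c
        have h5 := h1 v (ev c v + b v)
        rw [abs_le] at h5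
        nlinarith
      refine (sum_le_sum fun c _ => this c).trans ?_
      rw [sum_const, card_univ, nsmul_eq_mul, mul_one]
    · intro v' _ hne
      exact hpair v v' hne.symm
    · intro h6
      exact absurd (mem_univ v) h6
  refine (sum_le_sum fun v _ => e2 v).trans ?_
  rw [sum_const, card_univ, nsmul_eq_mul]

end Second

section Base

variable {n m : ℕ}

/-- the weights away from the base locus -/
noncomputable def bw (P H : MvPolynomial (Fin n) ℤ) (p : ℕ) [Fact p.Prime] (u : Fin n → ZMod p)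
    (y : ZMod p) : ℝ :=
  if MvPolynomial.aeval u H = 0 then 0 else
    (quadraticChar (ZMod p) (MvPolynomial.aeval u P + MvPolynomial.aeval u H * y) : ℤ)

theorem bw_sum (P H : MvPolynomial (Fin n) ℤ) {p : ℕ} [hp : Fact p.Prime] (h2 : p ≠ 2)
    (u : Fin n → ZMod p) : ∑ y, bw P H p u y = 0 := by
  classical
  unfold bw
  split_ifs with h
  · simp
  · have h3 : ringChar (ZMod p) ≠ 2 := by
      rw [ZMod.ringChar_zmod_n]
      exact h2
    have h4 := quadraticChar_sum_zero h3
    have h5 : ∑ y : ZMod p, ((quadraticChar (ZMod p) y : ℤ) : ℝ) = 0 := by exact_mod_cast h4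
    rw [← h5]
    exact Equiv.sum_comp ((Equiv.mulLeft₀ (MvPolynomial.aeval u H) h).trans
      (Equiv.addLeft (MvPolynomial.aeval u P))) fun y => ((quadraticChar (ZMod p) y : ℤ) : ℝ)

theorem bw_le (P H : MvPolynomial (Fin n) ℤ) {p : ℕ} [hp : Fact p.Prime]
    (u : Fin n → ZMod p) (y : ZMod p) : |bw P H p u y| ≤ 1 := by
  unfold bw
  split_ifs with h
  · simp
  · rcases quadraticChar_isQuadratic (ZMod p)
      (MvPolynomial.aeval u P + MvPolynomial.aeval u H * y) with h1 | h1 | h1 <;> rw [h1] <;> simp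

/-- the normalised sum away from the base locus -/
noncomputable def bphi (P H : MvPolynomial (Fin n) ℤ) (e : Fin m → MvPolynomial (Fin n) ℤ) (p : ℕ)
    (c : Fin m → ℤ) : ℝ :=
  if hp : p.Prime ∧ p ≠ 2 then
    (haveI := Fact.mk hp.1; (∑ u : Fin n → ZMod p, bw P H p u (famVal 0 e p c u)) /
      Real.sqrt p ^ n) else 0

/-- **Almost all members of a linear system with base locus** -/
theorem base_locus (n m : ℕ) : ∃ C : ℝ, 0 < C ∧
    ∀ (lam : ℕ → ℝ), (∀ p : ℕ, p.Prime → |lam p| ≤ Real.log p) →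
    ∀ (P H : MvPolynomial (Fin n) ℤ) (e : Fin m → MvPolynomial (Fin n) ℤ),
    (∀ α : Fin n → ℕ, ∑ i, α i ≤ 1 → ∃ j, e j = ∏ i, MvPolynomial.X i ^ α i) →
    ∀ (A : Fin m → ℤ) (N z : ℕ), z ^ 2 ≤ N → ∀ K : ℝ, 0 < K →
    ({c : Fin m → ℤ | (∀ i, A i < c i ∧ c i ≤ A i + N) ∧ ∃ x : ℕ, 1 ≤ x ∧ x ≤ z ∧
      K * thr x < (∑ p ∈ Prm x, bphi P H e p c * lam p) ^ 2}.ncard : ℝ) ≤
      C * (N : ℝ) ^ m / K := by
  classical
  obtain ⟨C, hC, hbox⟩ := box_scales_w m
  refine ⟨C, hC, ?_⟩
  intro lam hlam P H e he A N z hzN K hK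
  have hper : ∀ (p : ℕ) (c c' : Fin m → ℤ), p.Prime → (∀ i, (p : ℤ) ∣ c i - c' i) →
      bphi P H e p c = bphi P H e p c' := by
    intro p c c' hp h
    unfold bphi
    split_ifs with h1
    · have h2 : ∀ j, ((c j : ℤ) : ZMod p) = ((c' j : ℤ) : ZMod p) := by
        intro j
        rw [← sub_eq_zero, ← Int.cast_sub]
        exact (ZMod.intCast_zmod_eq_zero_iff_dvd _ _).2 (h _)
      unfold famVal
      simp only [h2]
    · rfl
  have hcard : ∀ (p : ℕ) (_ : Fact p.Prime),
      (Fintype.card (Fin m → ZMod p) : ℝ) = (p : ℝ) ^ m := by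
    intro p _
    rw [Fintype.card_fun, ZMod.card, Fintype.card_fin]
    push_cast
    rfl
  have hval : ∀ (p : ℕ) (_ : Fact p.Prime) (c : Fin m → ℕ) (u : Fin n → ZMod p),
      famVal 0 e p (fun i => (c i : ℤ)) u =
        evh e p (fun i => ((c i : ℕ) : ZMod p)) u + (fun _ => (0 : ZMod p)) u := by
    intro p _ c u
    unfold famVal evh
    simp
  have hcm : ∀ p : ℕ, p.Prime → cm (bphi P H e) p = 0 := by
    intro p hp
    have : Fact p.Prime := ⟨hp⟩
    unfold cm
    by_cases h2 : p = 2
    · have : ∑ c ∈ cube m p, bphi P H e p (fun i => (c i : ℤ)) = 0 := by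
        refine sum_eq_zero fun c _ => ?_
        unfold bphi
        rw [dif_neg]
        exact fun h => h.2 h2
      rw [this, zero_div]
    · have h3 : ∑ c ∈ cube m p, bphi P H e p (fun i => (c i : ℤ)) =
          (∑ c ∈ cube m p, ∑ u : Fin n → ZMod p,
            bw P H p u (evh e p (fun i => ((c i : ℕ) : ZMod p)) u +
              (fun _ => (0 : ZMod p)) u)) / Real.sqrt p ^ n := by
        rw [sum_div]
        refine sum_congr rfl fun c _ => ?_
        unfold bphi
        rw [dif_pos ⟨hp, h2⟩]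
        congr 1
        exact sum_congr rfl fun u _ => by rw [hval p this c u]
      have h4 := sum_cube_zmod (m := m) (p := p) fun c => ∑ u : Fin n → ZMod p,
            bw P H p u (evh e p c u + (fun _ => (0 : ZMod p)) u)
      rw [h3, h4, first_gen (evh_kwise (D := 1) e p he) _ _ (bw_sum P H h2)]
      simp
  have hvar : ∀ p : ℕ, p.Prime → p ≤ z →
      (∑ c ∈ cube m p, bphi P H e p (fun i => (c i : ℤ)) ^ 2) / (p : ℝ) ^ m ≤ 1 := by
    intro p hp _
    have : Fact p.Prime := ⟨hp⟩
    have hp0 : (0 : ℝ) < p := by exact_mod_cast hp.pos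
    by_cases h2 : p = 2
    · have : ∑ c ∈ cube m p, bphi P H e p (fun i => (c i : ℤ)) ^ 2 = 0 := by
        refine sum_eq_zero fun c _ => ?_
        unfold bphi
        rw [dif_neg]
        · norm_num
        · exact fun h => h.2 h2
      rw [this, zero_div]
      exact zero_le_one
    · have h3 : ∑ c ∈ cube m p, bphi P H e p (fun i => (c i : ℤ)) ^ 2 =
          (∑ c ∈ cube m p, (∑ u : Fin n → ZMod p,
            bw P H p u (evh e p (fun i => ((c i : ℕ) : ZMod p)) u +
              (fun _ => (0 : ZMod p)) u)) ^ 2) / (p : ℝ) ^ n := by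
        rw [sum_div]
        refine sum_congr rfl fun c _ => ?_
        unfold bphi
        rw [dif_pos ⟨hp, h2⟩, div_pow, ← pow_mul, mul_comm n 2, pow_mul,
          Real.sq_sqrt hp0.le]
        congr 2
        exact sum_congr rfl fun u _ => by rw [hval p this c u]
      have h4 := sum_cube_zmod (m := m) (p := p) fun c => (∑ u : Fin n → ZMod p,
            bw P H p u (evh e p c u + (fun _ => (0 : ZMod p)) u)) ^ 2
      have h5 := second_gen (evh_kwise (D := 1) e p he) (fun _ => (0 : ZMod p)) _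
        (bw_sum P H h2) (bw_le P H)
      rw [hcard p this, Fintype.card_fun, ZMod.card, Fintype.card_fin] at h5
      push_cast at h5
      rw [h3, h4, div_right_comm, div_le_one (by positivity)]
      exact h5
  have h1 := hbox lam 1 zero_le_one (fun p hp => by rw [one_mul]; exact hlam p hp)
    (bphi P H e) hper 1 zero_le_one A N z hzN hvar K hK
  have h2 : {c : Fin m → ℤ | (∀ i, A i < c i ∧ c i ≤ A i + N) ∧ ∃ x : ℕ, 1 ≤ x ∧ x ≤ z ∧
      K * thr x < (∑ p ∈ Prm x, bphi P H e p c * lam p) ^ 2} =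
      (((box A N).filter fun c => ∃ x : ℕ, 1 ≤ x ∧ x ≤ z ∧
        K * thr x < (∑ p ∈ Prm x, (bphi P H e p c - cm (bphi P H e) p) * lam p) ^ 2 :
        Finset (Fin m → ℤ)) : Set (Fin m → ℤ)) := by
    ext c
    rw [Set.mem_ofPred_eq, mem_coe, mem_filter]
    unfold box
    rw [Fintype.mem_piFinset]
    refine and_congr (forall_congr' fun i => mem_Ioc.symm) ?_
    refine exists_congr fun x => and_congr_right fun _ => and_congr_right fun _ => ?_
    have h3 : ∑ p ∈ Prm x, (bphi P H e p c - cm (bphi P H e) p) * lam p =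
        ∑ p ∈ Prm x, bphi P H e p c * lam p := by
      refine sum_congr rfl fun p hp => ?_
      unfold Prm at hp
      rw [mem_filter] at hp
      rw [hcm p hp.2, sub_zero]
    rw [h3]
  rw [h2, Set.ncard_coe_finset]
  refine h1.trans (le_of_eq ?_)
  ring

end Base

end Pool.Agent.TH375.KL
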