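import Pool.Agent.TH375.KL.RealSum

set_option autoImplicit false

/-!
# The maximal inequality without logarithms for decaying weights
-/

namespace Pool.Agent.TH375.KL

open Finset

/-- the part of `φ` on the dyadic block number `j` -/
noncomputable def blk (φ : ℕ → ℤ → ℝ) (j : ℕ) (p : ℕ) (t : ℤ) : ℝ :=
  if Nat.log 2 p = j then φ p t else 0

theorem blk_per {φ : ℕ → ℤ → ℝ}
    (hφ : ∀ (p : ℕ) (t u : ℤ), p.Prime → (p : ℤ) ∣ t - u → φ p t = φ p u) (j : ℕ) :
    ∀ (p : ℕ) (t u : ℤ), p.Prime → (p : ℤ) ∣ t - u → blk φ j p t = blk φ j p u := by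
  intro p t u hp h
  unfold blk
  rw [hφ p t u hp h]

theorem mv_blk (φ : ℕ → ℤ → ℝ) (j p : ℕ) :
    mv (blk φ j) p = if Nat.log 2 p = j then mv φ p else 0 := by
  unfold mv blk
  split_ifs with h
  · rfl
  · simp

theorem sum_blk (φ : ℕ → ℤ → ℝ) {z x : ℕ} (hx : x ≤ z) (t : ℤ) :
    ∑ p ∈ Prm x, (φ p t - mv φ p) =
      ∑ j ∈ range (Nat.log 2 z + 1), ∑ p ∈ Prm (min x (2 ^ (j + 1))),
        (blk φ j p t - mv (blk φ j) p) := by
  have h1 : ∀ j, ∑ p ∈ Prm (min x (2 ^ (j + 1))), (blk φ j p t - mv (blk φ j) p) =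
      ∑ p ∈ Prm x, (blk φ j p t - mv (blk φ j) p) := by
    intro j
    refine sum_subset ?_ ?_
    · intro p hp
      unfold Prm at hp ⊢
      rw [mem_filter, mem_range] at hp ⊢
      have := min_le_left x (2 ^ (j + 1))
      exact ⟨by omega, hp.2⟩
    · intro p hp hp2
      unfold Prm at hp hp2
      rw [mem_filter, mem_range] at hp hp2
      have h2 : ¬ p < min x (2 ^ (j + 1)) + 1 := fun h => hp2 ⟨h, hp.2⟩
      have h3 : 2 ^ (j + 1) < p := by
        rcases le_or_gt x (2 ^ (j + 1)) with h4 | h4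
        · rw [min_eq_left h4] at h2
          omega
        · rw [min_eq_right h4.le] at h2
          omega
      have h4 : Nat.log 2 p ≠ j := by
        intro h5
        have h6 := Nat.lt_pow_succ_log_self (b := 2) (by norm_num) p
        rw [h5] at h6
        omega
      rw [mv_blk, blk, if_neg h4, if_neg h4, sub_zero]
  rw [sum_congr rfl fun j _ => h1 j, sum_comm]
  refine sum_congr rfl fun p hp => ?_
  unfold Prm at hp
  rw [mem_filter, mem_range] at hp
  have h2 : Nat.log 2 p ∈ range (Nat.log 2 z + 1) := by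
    rw [mem_range]
    have := Nat.log_mono_right (b := 2) (show p ≤ z by omega)
    omega
  rw [sum_eq_single_of_mem _ h2]
  · rw [mv_blk, blk, if_pos rfl, if_pos rfl]
  · intro j _ hj
    rw [mv_blk, blk, if_neg (Ne.symm hj), if_neg (Ne.symm hj), sub_zero]

theorem const_one : ∃ C : ℝ, 0 < C ∧ ∀ n : ℕ, ∑ j ∈ range n, 1 / ((j : ℝ) + 1) ^ 2 ≤ C := by
  have h1 : Summable fun j : ℕ => 1 / ((j : ℝ) + 1) ^ 2 := by
    have h2 := (summable_nat_add_iff (f := fun j : ℕ => 1 / (j : ℝ) ^ 2) 1).2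
      (Real.summable_one_div_nat_pow.2 (by norm_num))
    refine h2.congr fun j => ?_
    push_cast
    rfl
  refine ⟨∑' j : ℕ, 1 / ((j : ℝ) + 1) ^ 2 + 1, ?_, fun n => ?_⟩
  · have : 0 ≤ ∑' j : ℕ, 1 / ((j : ℝ) + 1) ^ 2 := tsum_nonneg fun j => by positivity
    linarith
  · have := h1.sum_le_tsum (range n) fun j _ => by positivity
    linarith

theorem const_two : ∃ C : ℝ, 0 < C ∧ ∀ n : ℕ,
    ∑ j ∈ range n, ((j : ℝ) + 1) ^ 2 * ((j : ℝ) + 3) ^ 2 * (1 / Real.sqrt 2) ^ j ≤ C := by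
  have hr0 : 0 < 1 / Real.sqrt 2 := by positivity
  have hr1 : 1 / Real.sqrt 2 < 1 := by
    rw [div_lt_one (by positivity)]
    rw [Real.lt_sqrt (by norm_num)]
    norm_num
  have h1 : Summable fun j : ℕ => (j : ℝ) ^ 4 * (1 / Real.sqrt 2) ^ j :=
    summable_pow_mul_geometric_of_norm_lt_one 4 (by rwa [Real.norm_of_nonneg hr0.le])
  have h2 : Summable fun j : ℕ => ((j : ℝ) + 1) ^ 4 * (1 / Real.sqrt 2) ^ (j + 1) := by
    have h3 := (summable_nat_add_iff (f := fun j : ℕ => (j : ℝ) ^ 4 * (1 / Real.sqrt 2) ^ j) 1).2 h1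
    refine h3.congr fun j => ?_
    push_cast
    rfl
  have h3 : Summable fun j : ℕ =>
      9 * Real.sqrt 2 * (((j : ℝ) + 1) ^ 4 * (1 / Real.sqrt 2) ^ (j + 1)) := h2.mul_left _
  refine ⟨∑' j : ℕ, 9 * Real.sqrt 2 * (((j : ℝ) + 1) ^ 4 * (1 / Real.sqrt 2) ^ (j + 1)) + 1, ?_,
    fun n => ?_⟩
  · have : 0 ≤ ∑' j : ℕ, 9 * Real.sqrt 2 * (((j : ℝ) + 1) ^ 4 * (1 / Real.sqrt 2) ^ (j + 1)) :=
      tsum_nonneg fun j => by positivity
    linarith
  · have h4 := h3.sum_le_tsum (range n) fun j _ => by positivity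
    refine le_trans (sum_le_sum fun j _ => ?_) (h4.trans (by linarith))
    have h5 : 9 * Real.sqrt 2 * (((j : ℝ) + 1) ^ 4 * (1 / Real.sqrt 2) ^ (j + 1)) =
        9 * ((j : ℝ) + 1) ^ 4 * (1 / Real.sqrt 2) ^ j := by
      have h6 : Real.sqrt 2 * (1 / Real.sqrt 2) = 1 := by
        field_simp
      rw [pow_succ]
      linear_combination (9 * ((j : ℝ) + 1) ^ 4 * (1 / Real.sqrt 2) ^ j) * h6
    rw [h5]
    refine mul_le_mul_of_nonneg_right ?_ (by positivity)
    have hj : (0 : ℝ) ≤ j := Nat.cast_nonneg j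
    have h6 : ((j : ℝ) + 3) ^ 2 ≤ 9 * ((j : ℝ) + 1) ^ 2 := by nlinarith
    calc ((j : ℝ) + 1) ^ 2 * ((j : ℝ) + 3) ^ 2 ≤ ((j : ℝ) + 1) ^ 2 * (9 * ((j : ℝ) + 1) ^ 2) :=
          mul_le_mul_of_nonneg_left h6 (by positivity)
      _ = _ := by ring

/-- **The maximal inequality for decaying weights**, without logarithms -/
theorem bounded_max : ∃ C : ℝ, 0 < C ∧ ∀ φ : ℕ → ℤ → ℝ,
    (∀ (p : ℕ) (t u : ℤ), p.Prime → (p : ℤ) ∣ t - u → φ p t = φ p u) →
    ∀ D : ℝ, 0 ≤ D → ∀ (M : ℤ) (N z : ℕ),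
    (∀ p : ℕ, p.Prime → p ≤ z → (∑ u ∈ range p, φ p (u : ℤ) ^ 2) / p ≤ D / (p * Real.sqrt p)) →
    ∀ X : ℤ → ℕ, (∀ t, X t ≤ z) →
    ∑ n ∈ Icc 1 N, (∑ p ∈ Prm (X (M + (n : ℤ))), (φ p (M + (n : ℤ)) - mv φ p)) ^ 2 ≤
      C * (N + (z : ℝ) ^ 2) * D := by
  obtain ⟨C1, hC1, h1⟩ := const_one
  obtain ⟨C2, hC2, h2⟩ := const_two
  refine ⟨C1 * (6 * C2), by positivity, ?_⟩
  intro φ hφ D hD M N z hvar X hX
  set L := Nat.log 2 z + 1 with hL
  set S : ℕ → ℕ → ℝ := fun j n => ∑ p ∈ Prm (min (X (M + (n : ℤ))) (2 ^ (j + 1))),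
    (blk φ j p (M + (n : ℤ)) - mv (blk φ j) p) with hS
  -- the variance of a block
  have hblock : ∀ j, ∑ n ∈ Icc 1 N, S j n ^ 2 ≤
      6 * ((j : ℝ) + 3) ^ 2 * (N + (z : ℝ) ^ 2) * (D * (1 / Real.sqrt 2) ^ j) := by
    intro j
    set zj := min z (2 ^ (j + 1)) with hzj
    have h3 := maximal_dual (blk φ j) (blk_per hφ j) M N zj
      (fun t => min (X t) (2 ^ (j + 1))) fun t => min_le_min_right _ (hX t)
    refine h3.trans ?_
    have h4 : (Nat.log 2 zj : ℝ) + 2 ≤ (j : ℝ) + 3 := by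
      have h5 : Nat.log 2 zj ≤ j + 1 := by
        have h6 := Nat.log_mono_right (b := 2) (min_le_right z (2 ^ (j + 1)))
        rwa [Nat.log_pow (by norm_num)] at h6
      have h6 : (Nat.log 2 zj : ℝ) ≤ j + 1 := by exact_mod_cast h5
      linarith
    have h5 : (N : ℝ) + (zj : ℝ) ^ 2 ≤ N + (z : ℝ) ^ 2 := by
      have h6 : (zj : ℝ) ≤ z := by exact_mod_cast min_le_left _ _
      have h7 : (0 : ℝ) ≤ zj := Nat.cast_nonneg _
      nlinarith
    have h6 : ∑ p ∈ Prm zj, (∑ u ∈ range p, blk φ j p (u : ℤ) ^ 2) / p ≤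
        D * (1 / Real.sqrt 2) ^ j := by
      have h7 : ∀ p ∈ Prm zj, (∑ u ∈ range p, blk φ j p (u : ℤ) ^ 2) / p ≤
          if p ∈ Ico (2 ^ j) (2 ^ (j + 1)) then D / (2 ^ j * Real.sqrt 2 ^ j) else 0 := by
        intro p hp
        unfold Prm at hp
        rw [mem_filter, mem_range] at hp
        have hpz : p ≤ z := by
          have := min_le_left z (2 ^ (j + 1))
          omega
        unfold blk
        by_cases h8 : Nat.log 2 p = j
        · simp only [if_pos h8]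
          have h9 : 2 ^ j ≤ p := by
            rw [← h8]
            exact Nat.pow_log_le_self 2 hp.2.ne_zero
          have h10 : p < 2 ^ (j + 1) := by
            rw [← h8]
            exact Nat.lt_pow_succ_log_self (by norm_num) p
          rw [if_pos (mem_Ico.2 ⟨h9, h10⟩)]
          refine (hvar p hp.2 hpz).trans ?_
          have h11 : (2 : ℝ) ^ j ≤ p := by exact_mod_cast h9
          have h12 : Real.sqrt 2 ^ j ≤ Real.sqrt p := by
            refine Real.le_sqrt_of_sq_le ?_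
            rw [← pow_mul, mul_comm j 2, pow_mul, Real.sq_sqrt (by norm_num : (0 : ℝ) ≤ 2)]
            exact h11
          exact div_le_div_of_nonneg_left hD (by positivity)
            (mul_le_mul h11 h12 (by positivity) (by positivity))
        · simp only [if_neg h8]
          have h9 : ∑ u ∈ range p, (0 : ℝ) ^ 2 = 0 := by simp
          rw [h9, zero_div]
          split_ifs
          · positivity
          · exact le_refl _
      refine (sum_le_sum h7).trans ?_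
      rw [← sum_filter, sum_const, nsmul_eq_mul]
      have h8 : ((Prm zj).filter fun p => p ∈ Ico (2 ^ j) (2 ^ (j + 1))).card ≤ 2 ^ j := by
        have h9 : (Prm zj).filter (fun p => p ∈ Ico (2 ^ j) (2 ^ (j + 1))) ⊆
            Ico (2 ^ j) (2 ^ (j + 1)) := fun p hp => (mem_filter.1 hp).2
        have h10 := card_le_card h9
        rw [Nat.card_Ico] at h10
        have h11 : 2 ^ (j + 1) = 2 ^ j * 2 := pow_succ 2 j
        refine h10.trans ?_
        omega
      have h9 : (((Prm zj).filter fun p => p ∈ Ico (2 ^ j) (2 ^ (j + 1))).card : ℝ) ≤ 2 ^ j := by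
        exact_mod_cast h8
      calc (((Prm zj).filter fun p => p ∈ Ico (2 ^ j) (2 ^ (j + 1))).card : ℝ) *
            (D / (2 ^ j * Real.sqrt 2 ^ j)) ≤ 2 ^ j * (D / (2 ^ j * Real.sqrt 2 ^ j)) :=
            mul_le_mul_of_nonneg_right h9 (by positivity)
        _ = D * (1 / Real.sqrt 2) ^ j := by
            rw [div_pow, one_pow]
            field_simp
    have h7 : (0 : ℝ) ≤ Nat.log 2 zj := Nat.cast_nonneg _
    have h8 : ((Nat.log 2 zj : ℝ) + 2) ^ 2 ≤ ((j : ℝ) + 3) ^ 2 :=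
      pow_le_pow_left₀ (by linarith) h4 2
    have h9 : 6 * ((Nat.log 2 zj : ℝ) + 2) ^ 2 * (N + (zj : ℝ) ^ 2) ≤
        6 * ((j : ℝ) + 3) ^ 2 * (N + (z : ℝ) ^ 2) :=
      mul_le_mul (by linarith) h5 (by positivity) (by positivity)
    exact mul_le_mul h9 h6 (sum_nonneg fun p _ => div_nonneg (sum_nonneg fun u _ => sq_nonneg _)
      (Nat.cast_nonneg _)) (by positivity)
  -- Cauchy-Schwarz over the blocks
  have hCS : ∀ n : ℕ, (∑ p ∈ Prm (X (M + (n : ℤ))), (φ p (M + (n : ℤ)) - mv φ p)) ^ 2 ≤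
      C1 * ∑ j ∈ range L, ((j : ℝ) + 1) ^ 2 * S j n ^ 2 := by
    intro n
    rw [sum_blk φ (hX _) (M + (n : ℤ))]
    have h3 : ∑ j ∈ range L, S j n =
        ∑ j ∈ range L, (1 / ((j : ℝ) + 1)) * (((j : ℝ) + 1) * S j n) := by
      refine sum_congr rfl fun j _ => ?_
      have : (j : ℝ) + 1 ≠ 0 := by positivity
      field_simp
    have h4 := Finset.sum_mul_sq_le_sq_mul_sq (range L) (fun j : ℕ => 1 / ((j : ℝ) + 1))
      (fun j : ℕ => ((j : ℝ) + 1) * S j n)
    rw [← h3] at h4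
    refine h4.trans ?_
    have h5 : ∑ j ∈ range L, (1 / ((j : ℝ) + 1)) ^ 2 ≤ C1 := by
      refine le_trans (le_of_eq ?_) (h1 L)
      exact sum_congr rfl fun j _ => by rw [div_pow, one_pow]
    have h6 : ∑ j ∈ range L, (((j : ℝ) + 1) * S j n) ^ 2 =
        ∑ j ∈ range L, ((j : ℝ) + 1) ^ 2 * S j n ^ 2 :=
      sum_congr rfl fun j _ => by rw [mul_pow]
    rw [h6]
    exact mul_le_mul_of_nonneg_right h5 (sum_nonneg fun j _ => by positivity)
  refine (sum_le_sum fun n _ => hCS n).trans ?_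
  rw [← mul_sum, sum_comm]
  have h3 : ∑ j ∈ range L, ∑ n ∈ Icc 1 N, ((j : ℝ) + 1) ^ 2 * S j n ^ 2 ≤
      6 * (N + (z : ℝ) ^ 2) * D * C2 := by
    have h4 : ∀ j ∈ range L, ∑ n ∈ Icc 1 N, ((j : ℝ) + 1) ^ 2 * S j n ^ 2 ≤
        6 * (N + (z : ℝ) ^ 2) * D *
          (((j : ℝ) + 1) ^ 2 * ((j : ℝ) + 3) ^ 2 * (1 / Real.sqrt 2) ^ j) := by
      intro j _
      rw [← mul_sum]
      calc ((j : ℝ) + 1) ^ 2 * ∑ n ∈ Icc 1 N, S j n ^ 2 ≤ ((j : ℝ) + 1) ^ 2 *
            (6 * ((j : ℝ) + 3) ^ 2 * (N + (z : ℝ) ^ 2) * (D * (1 / Real.sqrt 2) ^ j)) :=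
            mul_le_mul_of_nonneg_left (hblock j) (by positivity)
        _ = _ := by ring
    refine (sum_le_sum h4).trans ?_
    rw [← mul_sum]
    exact mul_le_mul_of_nonneg_left (h2 L) (by positivity)
  calc C1 * ∑ j ∈ range L, ∑ n ∈ Icc 1 N, ((j : ℝ) + 1) ^ 2 * S j n ^ 2
      ≤ C1 * (6 * (N + (z : ℝ) ^ 2) * D * C2) := mul_le_mul_of_nonneg_left h3 hC1.le
    _ = _ := by ring

/-- Abel's inequality -/
theorem abel_ineq (b v : ℕ → ℝ) (hv : Antitone v) (hv0 : ∀ i, 0 ≤ v i) {B : ℝ} (n : ℕ)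
    (hB : ∀ k ≤ n, |∑ i ∈ range k, b i| ≤ B) : |∑ i ∈ range n, v i * b i| ≤ v 0 * B := by
  have key : ∀ m ≤ n, |∑ i ∈ range m, v i * b i - v m * ∑ i ∈ range m, b i| ≤
      (v 0 - v m) * B := by
    intro m
    induction m with
    | zero =>
      intro _
      simp
    | succ m ih =>
      intro hm
      have h1 := ih (by omega)
      have h2 := hB (m + 1) hm
      have e : ∑ i ∈ range (m + 1), v i * b i - v (m + 1) * ∑ i ∈ range (m + 1), b i =
          (∑ i ∈ range m, v i * b i - v m * ∑ i ∈ range m, b i) +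
            (v m - v (m + 1)) * ∑ i ∈ range (m + 1), b i := by
        rw [sum_range_succ, sum_range_succ]
        ring
      rw [e]
      refine (abs_add_le _ _).trans ?_
      rw [abs_mul, abs_of_nonneg (sub_nonneg.2 (hv (Nat.le_succ m)))]
      have h3 : (v m - v (m + 1)) * |∑ i ∈ range (m + 1), b i| ≤ (v m - v (m + 1)) * B :=
        mul_le_mul_of_nonneg_left h2 (sub_nonneg.2 (hv (Nat.le_succ m)))
      linarith
  have h1 := key n le_rfl
  have h2 := hB n le_rfl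
  have h3 : |v n * ∑ i ∈ range n, b i| ≤ v n * B := by
    rw [abs_mul, abs_of_nonneg (hv0 n)]
    exact mul_le_mul_of_nonneg_left h2 (hv0 n)
  have h4 := abs_add_le (∑ i ∈ range n, v i * b i - v n * ∑ i ∈ range n, b i)
    (v n * ∑ i ∈ range n, b i)
  rw [sub_add_cancel] at h4
  linarith

end Pool.Agent.TH375.KL
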