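import Pool.Agent.TH375.KL.BoxSieve

set_option autoImplicit false

/-!
# The dual large sieve for boxes in several variables, in mean square
-/

namespace Pool.Agent.TH375.KL

open Finset

/-- the dual large sieve for periodic functions on the integers -/
theorem dual_int (φ : ℕ → ℤ → ℝ)
    (hφ : ∀ (p : ℕ) (t u : ℤ), p.Prime → (p : ℤ) ∣ t - u → φ p t = φ p u) (M : ℤ) (N z : ℕ) :
    ∑ n ∈ Icc 1 N, (∑ p ∈ Prm z, (φ p (M + (n : ℤ)) - mv φ p)) ^ 2 ≤
      6 * (N + (z : ℝ) ^ 2) * ∑ p ∈ Prm z, (∑ u ∈ range p, φ p (u : ℤ) ^ 2) / p := by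
  classical
  set g : ∀ p : ℕ, ZMod p → ℝ := fun p a => φ p ((a.val : ℕ) : ℤ) - mv φ p with hg
  have hgt : ∀ (p : ℕ) (t : ℤ), p.Prime → g p (t : ZMod p) = φ p t - mv φ p := by
    intro p t hp
    have : NeZero p := ⟨hp.ne_zero⟩
    rw [hg]
    simp only
    congr 1
    refine hφ p _ _ hp ?_
    rw [ZMod.val_intCast]
    have h1 := Int.emod_add_mul_ediv t p
    refine ⟨-(t / p), ?_⟩
    linarith
  have hmean : ∀ p : ℕ, p.Prime → ∑ a ∈ range p, g p (a : ZMod p) = 0 := by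
    intro p hp
    have hp0 : (p : ℝ) ≠ 0 := by exact_mod_cast hp.ne_zero
    have h1 : ∀ a ∈ range p, g p (a : ZMod p) = φ p (a : ℤ) - mv φ p := by
      intro a _
      have := hgt p (a : ℤ) hp
      rwa [Int.cast_natCast] at this
    rw [sum_congr rfl h1, sum_sub_distrib, sum_const, card_range, nsmul_eq_mul]
    unfold mv
    rw [mul_div_cancel₀ _ hp0, sub_self]
  have hvar : ∀ p : ℕ, p.Prime → (∑ a ∈ range p, g p (a : ZMod p) ^ 2) / p ≤
      (∑ u ∈ range p, φ p (u : ℤ) ^ 2) / p := by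
    intro p hp
    have hp0 : (0 : ℝ) < p := by exact_mod_cast hp.pos
    refine div_le_div_of_nonneg_right ?_ hp0.le
    have h1 : ∀ a ∈ range p, g p (a : ZMod p) ^ 2 =
        φ p (a : ℤ) ^ 2 - 2 * mv φ p * φ p (a : ℤ) + mv φ p ^ 2 := by
      intro a _
      have := hgt p (a : ℤ) hp
      rw [Int.cast_natCast] at this
      rw [this]
      ring
    rw [sum_congr rfl h1, sum_add_distrib, sum_sub_distrib, ← mul_sum, sum_const, card_range,
      nsmul_eq_mul]
    have h2 : ∑ a ∈ range p, φ p (a : ℤ) = p * mv φ p := by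
      unfold mv
      rw [mul_div_cancel₀ _ hp0.ne']
    rw [h2]
    nlinarith [mul_nonneg hp0.le (sq_nonneg (mv φ p))]
  have hPp : ∀ p ∈ Prm z, p.Prime ∧ p ≤ z := by
    intro p hp
    unfold Prm at hp
    rw [mem_filter, mem_range] at hp
    exact ⟨hp.2, by omega⟩
  have h1 := dual z N (Prm z) hPp M g fun p hp => hmean p (hPp p hp).1
  have h2 : ∀ n : ℕ, ∑ p ∈ Prm z, (φ p (M + (n : ℤ)) - mv φ p) =
      ∑ p ∈ Prm z, g p ((M + (n : ℤ) : ℤ) : ZMod p) := fun n =>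
    sum_congr rfl fun p hp => (hgt p _ (hPp p hp).1).symm
  simp only [h2]
  refine h1.trans ?_
  refine mul_le_mul_of_nonneg_left ?_ (by positivity)
  exact sum_le_sum fun p hp => hvar p (hPp p hp).1

theorem sum_box_succ {m : ℕ} (A : Fin (m + 1) → ℤ) (N : ℕ) (f : (Fin (m + 1) → ℤ) → ℝ) :
    ∑ c ∈ box A N, f c =
      ∑ a ∈ box (Fin.tail A) N, ∑ n ∈ Icc 1 N, f (Fin.cons (A 0 + (n : ℤ)) a) := by
  have h1 : ∀ a ∈ box (Fin.tail A) N, ∑ n ∈ Icc 1 N, f (Fin.cons (A 0 + (n : ℤ)) a) =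
      ∑ t ∈ Ioc (A 0) (A 0 + N), f (Fin.cons t a) := fun a _ =>
    (sum_Ioc_eq (A 0) N fun t => f (Fin.cons t a)).symm
  rw [sum_congr rfl h1, ← sum_product']
  refine sum_nbij' (fun c => (Fin.tail c, c 0)) (fun q => (Fin.cons q.2 q.1 : Fin (m + 1) → ℤ))
    ?_ ?_ ?_ ?_ ?_
  · intro c hc
    rw [mem_box_succ] at hc
    exact mem_product.2 hc
  · intro q hq
    rw [mem_product] at hq
    rw [mem_box_succ, Fin.tail_cons, Fin.cons_zero]
    exact hq
  · intro c _
    exact Fin.cons_self_tail c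
  · intro q _
    simp
  · intro c _
    rw [Fin.cons_self_tail]

/-- **The dual large sieve for boxes** -/
theorem box_dual : ∀ m : ℕ, ∃ C : ℝ, 0 < C ∧ ∀ φ : ℕ → (Fin m → ℤ) → ℝ,
    (∀ (p : ℕ) (c c' : Fin m → ℤ), p.Prime → (∀ i, (p : ℤ) ∣ c i - c' i) → φ p c = φ p c') →
    ∀ D : ℕ → ℝ, (∀ p, 0 ≤ D p) → ∀ (A : Fin m → ℤ) (N z : ℕ), z ^ 2 ≤ N →
    (∀ p : ℕ, p.Prime → p ≤ z →
      (∑ c ∈ cube m p, φ p (fun i => (c i : ℤ)) ^ 2) / (p : ℝ) ^ m ≤ D p) →
    ∑ c ∈ box A N, (∑ p ∈ Prm z, (φ p c - cm φ p)) ^ 2 ≤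
      C * (N : ℝ) ^ m * ∑ p ∈ Prm z, D p := by
  intro m
  induction m with
  | zero =>
    refine ⟨1, one_pos, ?_⟩
    intro φ _ D hD A N z _ _
    have h1 : ∀ c ∈ box A N, (∑ p ∈ Prm z, (φ p c - cm φ p)) ^ 2 = 0 := by
      intro c _
      have h2 : ∑ p ∈ Prm z, (φ p c - cm φ p) = 0 := by
        refine sum_eq_zero fun p _ => ?_
        unfold cm cube
        rw [pow_zero, div_one, Fintype.piFinset_of_isEmpty]
        simp only [univ_unique, sum_singleton]
        rw [sub_eq_zero]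
        congr 1
        exact Subsingleton.elim _ _
      rw [h2]
      norm_num
    rw [sum_eq_zero h1]
    have : 0 ≤ ∑ p ∈ Prm z, D p := sum_nonneg fun p _ => hD p
    positivity
  | succ m ih =>
    obtain ⟨C₁, hC₁, hih⟩ := ih
    refine ⟨24 * 2 ^ m + 2 * C₁, by positivity, ?_⟩
    intro φ hper D hD A N z hzN hvar
    have hD0 : 0 ≤ ∑ p ∈ Prm z, D p := sum_nonneg fun p _ => hD p
    have hPp : ∀ p ∈ Prm z, p.Prime ∧ p ≤ z := by
      intro p hp
      unfold Prm at hp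
      rw [mem_filter, mem_range] at hp
      exact ⟨hp.2, by omega⟩
    -- the mean over the first coordinate
    set φb : ℕ → (Fin m → ℤ) → ℝ := fun p a => (∑ u ∈ range p, φ p (Fin.cons (u : ℤ) a)) / p
      with hφb
    have hcons : ∀ (p : ℕ) (s t : ℤ) (a a' : Fin m → ℤ), p.Prime → (p : ℤ) ∣ s - t →
        (∀ i, (p : ℤ) ∣ a i - a' i) → φ p (Fin.cons s a) = φ p (Fin.cons t a') := by
      intro p s t a a' hp h1 h2
      refine hper p _ _ hp fun i => ?_
      refine Fin.cases ?_ (fun j => ?_) i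
      · simpa using h1
      · simpa using h2 j
    have hsucc : ∀ p : ℕ, ∑ c ∈ cube (m + 1) p, φ p (fun i => (c i : ℤ)) ^ 2 =
        ∑ a ∈ cube m p, ∑ s ∈ range p, φ p (Fin.cons (s : ℤ) (fun i => (a i : ℤ))) ^ 2 :=
      fun p => sum_cube_succ fun c => φ p c ^ 2
    have hv1 : ∀ p : ℕ, p.Prime → p ≤ z →
        ∑ a ∈ box (Fin.tail A) N, (∑ u ∈ range p, φ p (Fin.cons (u : ℤ) a) ^ 2) / p ≤
          (2 * (N : ℝ)) ^ m * D p := by
      intro p hp hpz
      have hp0 : (0 : ℝ) < p := by exact_mod_cast hp.pos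
      have hpN : (p : ℝ) ≤ N := by
        have h1 : z ≤ N := by nlinarith
        exact_mod_cast hpz.trans h1
      have h1 := sum_box_le (Fin.tail A) N hp.pos
        (fun a => (∑ u ∈ range p, φ p (Fin.cons (u : ℤ) a) ^ 2) / p)
        (fun a => div_nonneg (sum_nonneg fun _ _ => sq_nonneg _) hp0.le) ?_
      · refine h1.trans ?_
        have h2 : ∑ c ∈ cube m p,
            (∑ u ∈ range p, φ p (Fin.cons (u : ℤ) (fun i => (c i : ℤ))) ^ 2) / p ≤
            D p * (p : ℝ) ^ m := by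
          have h3 := hvar p hp hpz
          rw [hsucc, div_le_iff₀ (by positivity)] at h3
          rw [← sum_div, div_le_iff₀ hp0]
          calc _ ≤ D p * (p : ℝ) ^ (m + 1) := h3
            _ = _ := by ring
        calc ((N : ℝ) / p + 1) ^ m * ∑ c ∈ cube m p,
              (∑ u ∈ range p, φ p (Fin.cons (u : ℤ) (fun i => (c i : ℤ))) ^ 2) / p
            ≤ ((N : ℝ) / p + 1) ^ m * (D p * (p : ℝ) ^ m) :=
              mul_le_mul_of_nonneg_left h2 (by positivity)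
          _ = (N + p : ℝ) ^ m * D p := by
              rw [show ((N : ℝ) / p + 1) = (N + p) / p by field_simp, div_pow]
              field_simp
          _ ≤ (2 * (N : ℝ)) ^ m * D p := by
              refine mul_le_mul_of_nonneg_right ?_ (hD p)
              exact pow_le_pow_left₀ (by positivity) (by linarith) _
      · intro a a' h
        congr 1
        refine sum_congr rfl fun u _ => ?_
        rw [hcons p u u a a' hp (by simp) h]
    have hv2 : ∀ p : ℕ, p.Prime → p ≤ z →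
        (∑ a ∈ cube m p, φb p (fun i => (a i : ℤ)) ^ 2) / (p : ℝ) ^ m ≤ D p := by
      intro p hp hpz
      have hp0 : (0 : ℝ) < p := by exact_mod_cast hp.pos
      refine le_trans ?_ (hvar p hp hpz)
      rw [hsucc, div_le_div_iff₀ (by positivity) (by positivity)]
      have h1 : ∀ a ∈ cube m p, φb p (fun i => (a i : ℤ)) ^ 2 * p ≤
          ∑ s ∈ range p, φ p (Fin.cons (s : ℤ) (fun i => (a i : ℤ))) ^ 2 := by
        intro a _
        rw [hφb]
        simp only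
        have h2 := sq_sum_le_card_mul_sum_sq (s := range p)
          (f := fun s => φ p (Fin.cons (s : ℤ) (fun i => (a i : ℤ))))
        rw [card_range] at h2
        rw [div_pow, div_mul_eq_mul_div, div_le_iff₀ (by positivity)]
        calc (∑ s ∈ range p, φ p (Fin.cons (s : ℤ) (fun i => (a i : ℤ)))) ^ 2 * p
            ≤ (p * ∑ s ∈ range p, φ p (Fin.cons (s : ℤ) (fun i => (a i : ℤ))) ^ 2) * p :=
              mul_le_mul_of_nonneg_right h2 hp0.le
          _ = _ := by ring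
      have h2 := sum_le_sum h1
      rw [← sum_mul] at h2
      calc (∑ a ∈ cube m p, φb p (fun i => (a i : ℤ)) ^ 2) * (p : ℝ) ^ (m + 1)
          = ((∑ a ∈ cube m p, φb p (fun i => (a i : ℤ)) ^ 2) * p) * (p : ℝ) ^ m := by ring
        _ ≤ _ := mul_le_mul_of_nonneg_right h2 (by positivity)
    have hcm : ∀ p : ℕ, p.Prime → cm φb p = cm φ p := by
      intro p hp
      have hp0 : (p : ℝ) ≠ 0 := by exact_mod_cast hp.ne_zero
      unfold cm
      rw [sum_cube_succ (fun c => φ p c), hφb]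
      simp only
      rw [← sum_div, div_div, pow_succ, mul_comm (p : ℝ)]
    have hih1 := hih φb (fun p c c' hp h => by
      rw [hφb]
      simp only
      congr 1
      exact sum_congr rfl fun u _ => hcons p u u c c' hp (by simp) h) D hD (Fin.tail A) N z hzN hv2
    have hzN' : (z : ℝ) ^ 2 ≤ N := by exact_mod_cast hzN
    -- the first part
    have hfirst : ∑ a ∈ box (Fin.tail A) N, ∑ n ∈ Icc 1 N,
        (∑ p ∈ Prm z, (φ p (Fin.cons (A 0 + (n : ℤ)) a) - φb p a)) ^ 2 ≤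
        12 * 2 ^ m * (N : ℝ) ^ (m + 1) * ∑ p ∈ Prm z, D p := by
      have h1 : ∀ a ∈ box (Fin.tail A) N, ∑ n ∈ Icc 1 N,
          (∑ p ∈ Prm z, (φ p (Fin.cons (A 0 + (n : ℤ)) a) - φb p a)) ^ 2 ≤
          6 * (N + (z : ℝ) ^ 2) *
            ∑ p ∈ Prm z, (∑ u ∈ range p, φ p (Fin.cons (u : ℤ) a) ^ 2) / p := fun a _ =>
        dual_int (fun p t => φ p (Fin.cons t a))
          (fun p t u hp h => hcons p t u a a hp h fun j => by simp) (A 0) N z
      refine (sum_le_sum h1).trans ?_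
      rw [← mul_sum, sum_comm]
      have h2 : ∑ p ∈ Prm z, ∑ a ∈ box (Fin.tail A) N,
          (∑ u ∈ range p, φ p (Fin.cons (u : ℤ) a) ^ 2) / p ≤
          ∑ p ∈ Prm z, (2 * (N : ℝ)) ^ m * D p :=
        sum_le_sum fun p hp => hv1 p (hPp p hp).1 (hPp p hp).2
      rw [← mul_sum] at h2
      have hN0 : (0 : ℝ) ≤ N := Nat.cast_nonneg _
      calc 6 * (N + (z : ℝ) ^ 2) * ∑ p ∈ Prm z, ∑ a ∈ box (Fin.tail A) N,
            (∑ u ∈ range p, φ p (Fin.cons (u : ℤ) a) ^ 2) / p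
          ≤ 6 * (N + (z : ℝ) ^ 2) * ((2 * (N : ℝ)) ^ m * ∑ p ∈ Prm z, D p) :=
            mul_le_mul_of_nonneg_left h2 (by positivity)
        _ ≤ 6 * (N + N) * ((2 * (N : ℝ)) ^ m * ∑ p ∈ Prm z, D p) := by
            refine mul_le_mul_of_nonneg_right ?_ (by positivity)
            linarith
        _ = _ := by
            rw [mul_pow]
            ring
    have hsplit : ∀ c : Fin (m + 1) → ℤ, ∀ a : Fin m → ℤ,
        (∑ p ∈ Prm z, (φ p c - cm φ p)) ^ 2 ≤
        2 * (∑ p ∈ Prm z, (φ p c - φb p a)) ^ 2 +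
          2 * (∑ p ∈ Prm z, (φb p a - cm φb p)) ^ 2 := by
      intro c a
      have h1 : ∑ p ∈ Prm z, (φ p c - cm φ p) = ∑ p ∈ Prm z, (φ p c - φb p a) +
          ∑ p ∈ Prm z, (φb p a - cm φb p) := by
        rw [← sum_add_distrib]
        refine sum_congr rfl fun p hp => ?_
        rw [hcm p (hPp p hp).1]
        ring
      rw [h1]
      nlinarith [sq_nonneg (∑ p ∈ Prm z, (φ p c - φb p a) - ∑ p ∈ Prm z, (φb p a - cm φb p))]
    rw [sum_box_succ]
    have h1 : ∑ a ∈ box (Fin.tail A) N, ∑ n ∈ Icc 1 N,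
        (∑ p ∈ Prm z, (φ p (Fin.cons (A 0 + (n : ℤ)) a) - cm φ p)) ^ 2 ≤
        ∑ a ∈ box (Fin.tail A) N, ∑ n ∈ Icc 1 N,
        (2 * (∑ p ∈ Prm z, (φ p (Fin.cons (A 0 + (n : ℤ)) a) - φb p a)) ^ 2 +
          2 * (∑ p ∈ Prm z, (φb p a - cm φb p)) ^ 2) :=
      sum_le_sum fun a _ => sum_le_sum fun n _ => hsplit _ _
    refine h1.trans ?_
    simp only [sum_add_distrib, ← mul_sum, sum_const, Nat.card_Icc, add_tsub_cancel_right,
      nsmul_eq_mul]
    have h2 : 2 * ((N : ℝ) * ∑ a ∈ box (Fin.tail A) N,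
        (∑ p ∈ Prm z, (φb p a - cm φb p)) ^ 2) ≤
        2 * C₁ * (N : ℝ) ^ (m + 1) * ∑ p ∈ Prm z, D p := by
      calc 2 * ((N : ℝ) * ∑ a ∈ box (Fin.tail A) N,
            (∑ p ∈ Prm z, (φb p a - cm φb p)) ^ 2)
          ≤ 2 * ((N : ℝ) * (C₁ * (N : ℝ) ^ m * ∑ p ∈ Prm z, D p)) := by
            refine mul_le_mul_of_nonneg_left ?_ (by norm_num)
            exact mul_le_mul_of_nonneg_left hih1 (Nat.cast_nonneg _)
        _ = _ := by ring
    calc _ ≤ 2 * (12 * 2 ^ m * (N : ℝ) ^ (m + 1) * ∑ p ∈ Prm z, D p) +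
          2 * C₁ * (N : ℝ) ^ (m + 1) * ∑ p ∈ Prm z, D p := by
          refine add_le_add ?_ h2
          exact mul_le_mul_of_nonneg_left hfirst (by norm_num)
      _ = _ := by ring

end Pool.Agent.TH375.KL
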