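import Pool.Agent.TH375.KL.Series

set_option autoImplicit false

/-!
# Congruences for values of polynomials
-/

namespace Pool.Agent.TH375.KL

open Finset

theorem eval_congr {n : ℕ} (F : MvPolynomial (Fin n) ℤ) {p : ℕ} {v v' : Fin n → ℤ}
    (h : ∀ i, (p : ℤ) ∣ v i - v' i) :
    (p : ℤ) ∣ MvPolynomial.eval v F - MvPolynomial.eval v' F := by
  have h1 : (Int.castRingHom (ZMod p)).comp (MvPolynomial.eval v) =
      (Int.castRingHom (ZMod p)).comp (MvPolynomial.eval v') := by
    refine MvPolynomial.ringHom_ext (fun a => ?_) fun i => ?_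
    · simp
    · simp only [RingHom.coe_comp, Function.comp_apply, MvPolynomial.eval_X, Int.coe_castRingHom]
      rw [← sub_eq_zero, ← Int.cast_sub]
      exact (ZMod.intCast_zmod_eq_zero_iff_dvd _ _).2 (h i)
  have h2 := congrArg (fun f => f F) h1
  simp only [RingHom.coe_comp, Function.comp_apply, Int.coe_castRingHom] at h2
  rw [← sub_eq_zero, ← Int.cast_sub] at h2
  exact (ZMod.intCast_zmod_eq_zero_iff_dvd _ _).1 h2

/-- changing the first coordinate in its residue class -/
theorem cons_congr {n : ℕ} (F : MvPolynomial (Fin (n + 1)) ℤ) {p : ℕ} {s t : ℤ}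
    (h : (p : ℤ) ∣ s - t) (u : Fin n → ℤ) :
    (p : ℤ) ∣ MvPolynomial.eval (Fin.cons s u) F - MvPolynomial.eval (Fin.cons t u) F := by
  refine eval_congr F fun i => ?_
  refine Fin.cases ?_ (fun j => ?_) i
  · simpa using h
  · simp

theorem jac_congr {p : ℕ} {a b : ℤ} (h : (p : ℤ) ∣ a - b) : jacobiSym a p = jacobiSym b p := by
  have h1 : a % (p : ℤ) = b % (p : ℤ) := (Int.ModEq.symm ((Int.modEq_iff_dvd).2 h))
  rw [jacobiSym.mod_left a p, jacobiSym.mod_left b p, h1]

end Pool.Agent.TH375.KL
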