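import Pool.Agent.TH375.KL.Additive
import Pool.Agent.TH375.KL.Poly

set_option autoImplicit false

/-!
# Point counts of affine-linear perturbations of a polynomial
-/

namespace Pool.Agent.TH375.KL

open Finset

/-- the value of `g(u) + a·u` -/
noncomputable def lval {n : ℕ} (g : MvPolynomial (Fin n) ℤ) (a : Fin n → ℤ) (u : Fin n → ℕ) : ℤ :=
  gv g u + ∑ i, a i * (u i : ℤ)

open scoped Classical in
/-- the number of `u` in the cube with `p ∣ g(u) + a·u + s` -/
noncomputable def Rn {n : ℕ} (g : MvPolynomial (Fin n) ℤ) (p : ℕ) (a : Fin n → ℤ) (s : ℤ) : ℕ :=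
  ((cube n p).filter fun u => (p : ℤ) ∣ lval g a u + s).card

theorem Rn_per {n : ℕ} (g : MvPolynomial (Fin n) ℤ) {p : ℕ} {a a' : Fin n → ℤ} {s s' : ℤ}
    (ha : ∀ i, (p : ℤ) ∣ a i - a' i) (hs : (p : ℤ) ∣ s - s') : Rn g p a s = Rn g p a' s' := by
  classical
  unfold Rn
  congr 1
  refine filter_congr fun u _ => ?_
  have h1 : (p : ℤ) ∣ (lval g a u + s) - (lval g a' u + s') := by
    unfold lval
    have e : gv g u + ∑ i, a i * (u i : ℤ) + s - (gv g u + ∑ i, a' i * (u i : ℤ) + s') =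
        ∑ i, (a i - a' i) * (u i : ℤ) + (s - s') := by
      simp only [sub_mul, sum_sub_distrib]
      ring
    rw [e]
    exact dvd_add (dvd_sum fun i _ => (ha i).mul_right _) hs
  exact dvd_iff_dvd_of_dvd_sub h1

theorem Rn_eq_sum {n : ℕ} (g : MvPolynomial (Fin n) ℤ) (p : ℕ) (a : Fin n → ℤ) (s : ℤ) :
    (Rn g p a s : ℝ) = ∑ u ∈ cube n p, if (p : ℤ) ∣ lval g a u + s then (1 : ℝ) else 0 := by
  classical
  unfold Rn
  rw [card_filter]
  push_cast
  rfl

/-- exactly one residue class -/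
theorem one_class {p : ℕ} [hp : Fact p.Prime] (b : ℤ) :
    ∑ s ∈ range p, (if (p : ℤ) ∣ b + (s : ℤ) then (1 : ℝ) else 0) = 1 := by
  have hp0 : (0 : ℤ) < p := by exact_mod_cast hp.out.pos
  have hmem : ((-b) % (p : ℤ)).toNat ∈ range p := by
    rw [mem_range]
    have h1 := Int.emod_nonneg (-b) hp0.ne'
    have h2 := Int.emod_lt_of_pos (-b) hp0
    omega
  have hcast : ((((-b) % (p : ℤ)).toNat : ℕ) : ℤ) = (-b) % (p : ℤ) :=
    Int.toNat_of_nonneg (Int.emod_nonneg _ hp0.ne')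
  rw [sum_eq_single_of_mem _ hmem, if_pos]
  · rw [hcast]
    have h1 := Int.emod_add_mul_ediv (-b) p
    refine ⟨-((-b) / p), ?_⟩
    linear_combination h1
  · intro s hs hne
    rw [mem_range] at hs
    refine if_neg fun h => hne ?_
    have h1 : (s : ℤ) = (-b) % (p : ℤ) := by
      have h2 : (s : ℤ) % p = (-b) % p := by
        refine Int.ModEq.symm ((Int.modEq_iff_dvd).2 ?_)
        rw [sub_neg_eq_add, add_comm]
        exact h
      rw [Int.emod_eq_of_lt (by omega) (by exact_mod_cast hs)] at h2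
      exact h2
    omega

theorem sum_Rn {n : ℕ} (g : MvPolynomial (Fin n) ℤ) {p : ℕ} [Fact p.Prime] (a : Fin n → ℤ) :
    ∑ s ∈ range p, (Rn g p a (s : ℤ) : ℝ) = (p : ℝ) ^ n := by
  have h1 : ∀ s ∈ range p, (Rn g p a (s : ℤ) : ℝ) =
      ∑ u ∈ cube n p, if (p : ℤ) ∣ lval g a u + (s : ℤ) then (1 : ℝ) else 0 :=
    fun s _ => Rn_eq_sum g p a (s : ℤ)
  rw [sum_congr rfl h1, sum_comm, sum_congr rfl fun u _ => one_class (lval g a u), sum_const,
    card_cube]
  simp

open scoped Classical in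
/-- the number of pairs with the same value -/
noncomputable def En {n : ℕ} (g : MvPolynomial (Fin n) ℤ) (p : ℕ) (a : Fin n → ℤ) : ℕ :=
  ((cube n p ×ˢ cube n p).filter fun w => (p : ℤ) ∣ lval g a w.1 - lval g a w.2).card

theorem sum_Rn_sq {n : ℕ} (g : MvPolynomial (Fin n) ℤ) {p : ℕ} [Fact p.Prime] (a : Fin n → ℤ) :
    ∑ s ∈ range p, (Rn g p a (s : ℤ) : ℝ) ^ 2 = (En g p a : ℝ) := by
  classical
  have h1 : ∀ s ∈ range p, (Rn g p a (s : ℤ) : ℝ) ^ 2 = ∑ w ∈ cube n p ×ˢ cube n p,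
      (if (p : ℤ) ∣ lval g a w.1 - lval g a w.2 then (1 : ℝ) else 0) *
        (if (p : ℤ) ∣ lval g a w.2 + (s : ℤ) then (1 : ℝ) else 0) := by
    intro s _
    rw [Rn_eq_sum, sq, sum_mul_sum, sum_product]
    refine sum_congr rfl fun u _ => sum_congr rfl fun v _ => ?_
    by_cases h : (p : ℤ) ∣ lval g a v + (s : ℤ)
    · rw [if_pos h, mul_one, mul_one]
      have h2 : (p : ℤ) ∣ (lval g a u + (s : ℤ)) ↔ (p : ℤ) ∣ lval g a u - lval g a v := by
        have e : lval g a u + (s : ℤ) = (lval g a u - lval g a v) + (lval g a v + (s : ℤ)) := by ring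
        rw [e]
        exact (Int.dvd_add_left h)
      by_cases h3 : (p : ℤ) ∣ lval g a u - lval g a v
      · rw [if_pos h3, if_pos (h2.2 h3)]
      · rw [if_neg h3, if_neg fun h4 => h3 (h2.1 h4)]
    · rw [if_neg h, mul_zero, mul_zero]
  rw [sum_congr rfl h1, sum_comm]
  have h2 : ∀ w ∈ cube n p ×ˢ cube n p, ∑ s ∈ range p,
      (if (p : ℤ) ∣ lval g a w.1 - lval g a w.2 then (1 : ℝ) else 0) *
        (if (p : ℤ) ∣ lval g a w.2 + (s : ℤ) then (1 : ℝ) else 0) =
      if (p : ℤ) ∣ lval g a w.1 - lval g a w.2 then (1 : ℝ) else 0 := by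
    intro w _
    rw [← mul_sum, one_class, mul_one]
  rw [sum_congr rfl h2]
  unfold En
  rw [card_filter]
  push_cast
  rfl

/-- the number of `a` in the cube on a hyperplane -/
theorem card_hyp {k p : ℕ} [hp : Fact p.Prime] (c : ℤ) (d : Fin (k + 1) → ℤ) (j : Fin (k + 1))
    (hj : ¬ (p : ℤ) ∣ d j) :
    ((cube (k + 1) p).filter fun a => (p : ℤ) ∣ c + ∑ i, (a i : ℤ) * d i).card ≤ p ^ k := by
  rw [← card_cube k p]
  refine card_le_card_of_injOn (fun a => j.removeNth a) ?_ ?_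
  · intro a ha
    rw [mem_coe, mem_filter] at ha
    unfold cube at ha ⊢
    rw [mem_coe, Fintype.mem_piFinset]
    intro i
    exact (Fintype.mem_piFinset.1 ha.1) _
  · intro a ha b hb hab
    rw [mem_coe, mem_filter] at ha hb
    unfold cube at ha hb
    have h1 : ∀ i, a (j.succAbove i) = b (j.succAbove i) := fun i => congrFun hab i
    have h2 : (p : ℤ) ∣ ((a j : ℤ) - (b j : ℤ)) * d j := by
      have h3 := dvd_sub ha.2 hb.2
      rw [Fin.sum_univ_succAbove _ j, Fin.sum_univ_succAbove (fun i => (b i : ℤ) * d i) j] at h3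
      have h4 : ∑ i : Fin k, (a (j.succAbove i) : ℤ) * d (j.succAbove i) =
          ∑ i : Fin k, (b (j.succAbove i) : ℤ) * d (j.succAbove i) :=
        sum_congr rfl fun i _ => by rw [h1 i]
      rw [h4] at h3
      have e : c + ((a j : ℤ) * d j + ∑ i : Fin k, (b (j.succAbove i) : ℤ) * d (j.succAbove i)) -
          (c + ((b j : ℤ) * d j + ∑ i : Fin k, (b (j.succAbove i) : ℤ) * d (j.succAbove i))) =
          ((a j : ℤ) - (b j : ℤ)) * d j := by ring
      rwa [e] at h3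
    have hpp : Prime (p : ℤ) := Nat.prime_iff_prime_int.1 hp.out
    have h3 : (p : ℤ) ∣ (a j : ℤ) - (b j : ℤ) := (hpp.dvd_or_dvd h2).resolve_right hj
    have h4 : a j < p := mem_range.1 (Fintype.mem_piFinset.1 ha.1 j)
    have h5 : b j < p := mem_range.1 (Fintype.mem_piFinset.1 hb.1 j)
    have h6 : a j = b j := by
      have h7 : ((a j : ℤ) - (b j : ℤ)) = 0 := by
        refine Int.eq_zero_of_abs_lt_dvd h3 ?_
        rw [abs_lt]
        constructor <;> omega
      omega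
    funext i
    rcases Fin.eq_self_or_eq_succAbove j i with h | ⟨i', h⟩
    · rw [h]; exact h6
    · rw [h]; exact h1 i'

theorem sum_En_le {k : ℕ} (g : MvPolynomial (Fin (k + 1)) ℤ) {p : ℕ} [hp : Fact p.Prime] :
    ∑ a ∈ cube (k + 1) p, En g p (fun i => (a i : ℤ)) ≤
      p ^ (2 * (k + 1)) + (p ^ (2 * (k + 1)) - p ^ (k + 1)) * p ^ k := by
  classical
  have h0 : ∑ a ∈ cube (k + 1) p, En g p (fun i => (a i : ℤ)) =
      ∑ w ∈ cube (k + 1) p ×ˢ cube (k + 1) p, ((cube (k + 1) p).filter fun a =>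
        (p : ℤ) ∣ lval g (fun i => (a i : ℤ)) w.1 - lval g (fun i => (a i : ℤ)) w.2).card := by
    unfold En
    simp only [card_filter]
    rw [sum_comm]
  rw [h0]
  have h1 : ∀ w ∈ cube (k + 1) p ×ˢ cube (k + 1) p, ((cube (k + 1) p).filter fun a =>
        (p : ℤ) ∣ lval g (fun i => (a i : ℤ)) w.1 - lval g (fun i => (a i : ℤ)) w.2).card ≤
      if w.1 = w.2 then p ^ (k + 1) else p ^ k := by
    intro w hw
    rw [mem_product] at hw
    split_ifs with h
    · exact (card_filter_le _ _).trans (card_cube _ _).le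
    · obtain ⟨j, hj⟩ : ∃ j, w.1 j ≠ w.2 j := Function.ne_iff.1 h
      have hj' : ¬ (p : ℤ) ∣ (w.1 j : ℤ) - (w.2 j : ℤ) := by
        intro h3
        unfold cube at hw
        have h4 : w.1 j < p := mem_range.1 (Fintype.mem_piFinset.1 hw.1 j)
        have h5 : w.2 j < p := mem_range.1 (Fintype.mem_piFinset.1 hw.2 j)
        have h7 : ((w.1 j : ℤ) - (w.2 j : ℤ)) = 0 := by
          refine Int.eq_zero_of_abs_lt_dvd h3 ?_
          rw [abs_lt]
          constructor <;> omega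
        exact hj (by omega)
      have h2 := card_hyp (p := p) (gv g w.1 - gv g w.2) (fun i => (w.1 i : ℤ) - (w.2 i : ℤ)) j hj'
      refine le_trans (le_of_eq ?_) h2
      congr 1
      refine filter_congr fun a _ => ?_
      have e : lval g (fun i => (a i : ℤ)) w.1 - lval g (fun i => (a i : ℤ)) w.2 =
          gv g w.1 - gv g w.2 + ∑ i, (a i : ℤ) * ((w.1 i : ℤ) - (w.2 i : ℤ)) := by
        unfold lval
        simp only [mul_sub, sum_sub_distrib]
        ring
      rw [e]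
  refine (sum_le_sum h1).trans ?_
  rw [sum_ite, sum_const, sum_const, smul_eq_mul, smul_eq_mul]
  have hd : ((cube (k + 1) p ×ˢ cube (k + 1) p).filter fun w => w.1 = w.2).card = p ^ (k + 1) := by
    rw [← card_cube (k + 1) p]
    have : (cube (k + 1) p ×ˢ cube (k + 1) p).filter (fun w => w.1 = w.2) =
        (cube (k + 1) p).image fun u => (u, u) := by
      ext w
      rw [mem_filter, mem_product, mem_image]
      constructor
      · rintro ⟨⟨h3, _⟩, h4⟩
        exact ⟨w.1, h3, Prod.ext rfl h4⟩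
      · rintro ⟨u, h3, rfl⟩
        exact ⟨⟨h3, h3⟩, rfl⟩
    rw [this, card_image_of_injective]
    intro u v h
    exact (Prod.ext_iff.1 h).1
  have hnd : ((cube (k + 1) p ×ˢ cube (k + 1) p).filter fun w => ¬ w.1 = w.2).card =
      p ^ (2 * (k + 1)) - p ^ (k + 1) := by
    have h3 := card_filter_add_card_filter_not (s := cube (k + 1) p ×ˢ cube (k + 1) p)
      (fun w => w.1 = w.2)
    rw [hd, card_product, card_cube, ← pow_add, ← two_mul] at h3
    omega
  rw [hd, hnd, ← pow_add, ← two_mul]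

theorem lval_zmod {n : ℕ} (g : MvPolynomial (Fin n) ℤ) {p : ℕ} (a : Fin n → ℤ) (s : ℤ)
    (u : Fin n → ℕ) : (p : ℤ) ∣ lval g a u + s ↔
    MvPolynomial.aeval (fun i => (u i : ZMod p)) g + ∑ i, (a i : ZMod p) * (u i : ZMod p) +
      (s : ZMod p) = 0 := by
  have h1 : (Int.castRingHom (ZMod p)).comp (MvPolynomial.eval fun i => (u i : ℤ)) =
      ((MvPolynomial.aeval (R := ℤ) fun i => (u i : ZMod p)) :
        MvPolynomial (Fin n) ℤ →ₐ[ℤ] ZMod p).toRingHom := by
    refine MvPolynomial.ringHom_ext (fun a => ?_) fun i => ?_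
    · simp
    · simp
  have h2 : ((gv g u : ℤ) : ZMod p) = MvPolynomial.aeval (fun i => (u i : ZMod p)) g :=
    congrArg (fun f => f g) h1
  rw [← ZMod.intCast_zmod_eq_zero_iff_dvd]
  unfold lval
  push_cast
  rw [h2]

/-- the count as a number of points over `ZMod p` -/
theorem Rn_eq_ncard {n : ℕ} (g : MvPolynomial (Fin n) ℤ) {p : ℕ} [hp : Fact p.Prime]
    (a : Fin n → ℤ) (s : ℤ) :
    Rn g p a s = {u : Fin n → ZMod p | MvPolynomial.aeval u g + ∑ i, (a i : ZMod p) * u i +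
      (s : ZMod p) = 0}.ncard := by
  classical
  have h1 : {u : Fin n → ZMod p | MvPolynomial.aeval u g + ∑ i, (a i : ZMod p) * u i +
      (s : ZMod p) = 0} = ((((cube n p).filter fun u => (p : ℤ) ∣ lval g a u + s).image
        fun u i => (u i : ZMod p) : Finset (Fin n → ZMod p)) : Set (Fin n → ZMod p)) := by
    ext v
    rw [Set.mem_ofPred_eq, mem_coe, mem_image]
    have hv : ∀ v : Fin n → ZMod p, (fun i => (((v i).val : ℕ) : ZMod p)) = v := fun v => by
      funext i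
      exact ZMod.natCast_zmod_val _
    constructor
    · intro h
      refine ⟨fun i => (v i).val, ?_, hv v⟩
      rw [mem_filter, lval_zmod]
      unfold cube
      rw [Fintype.mem_piFinset]
      refine ⟨fun i => mem_range.2 (ZMod.val_lt _), ?_⟩
      have h2 : ∀ i, (((v i).val : ℕ) : ZMod p) = v i := fun i => ZMod.natCast_zmod_val _
      simp only [h2]
      exact h
    · rintro ⟨u, hu, rfl⟩
      rw [mem_filter, lval_zmod] at hu
      exact hu.2
  rw [h1, Set.ncard_coe_finset, card_image_of_injOn]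
  · unfold Rn
    congr 1
  · intro u hu v hv huv
    rw [mem_coe, mem_filter] at hu hv
    unfold cube at hu hv
    funext i
    have h2 := congrFun huv i
    dsimp only at h2
    have h3 : u i < p := mem_range.1 (Fintype.mem_piFinset.1 hu.1 i)
    have h4 : v i < p := mem_range.1 (Fintype.mem_piFinset.1 hv.1 i)
    have h5 := congrArg ZMod.val h2
    rwa [ZMod.val_natCast, ZMod.val_natCast, Nat.mod_eq_of_lt h3, Nat.mod_eq_of_lt h4] at h5

/-- the normalised deviation -/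
noncomputable def dev2 {n : ℕ} (g : MvPolynomial (Fin n) ℤ) (r : ℕ) (a : Fin n → ℤ) (p : ℕ)
    (s : ℤ) : ℝ := ((Rn g p a s : ℝ) - (p : ℝ) ^ (2 * r)) / (p : ℝ) ^ r

theorem dev2_per {n : ℕ} (g : MvPolynomial (Fin n) ℤ) (r : ℕ) {p : ℕ} {a a' : Fin n → ℤ}
    {s s' : ℤ} (ha : ∀ i, (p : ℤ) ∣ a i - a' i) (hs : (p : ℤ) ∣ s - s') :
    dev2 g r a p s = dev2 g r a' p s' := by
  unfold dev2
  rw [Rn_per g ha hs]

theorem mv_dev2 (r : ℕ) (g : MvPolynomial (Fin (2 * r + 1)) ℤ) (a : Fin (2 * r + 1) → ℤ) {p : ℕ}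
    (hp : p.Prime) : mv (dev2 g r a) p = 0 := by
  have : Fact p.Prime := ⟨hp⟩
  unfold mv dev2
  rw [← sum_div, sum_sub_distrib, sum_Rn, sum_const, card_range, nsmul_eq_mul, pow_succ,
    mul_comm (p : ℝ), sub_self, zero_div, zero_div]

/-- the mean square of the deviation -/
noncomputable def V2 {n : ℕ} (g : MvPolynomial (Fin n) ℤ) (r p : ℕ) (a : Fin n → ℤ) : ℝ :=
  (∑ u ∈ range p, dev2 g r a p (u : ℤ) ^ 2) / p

theorem V2_nonneg {n : ℕ} (g : MvPolynomial (Fin n) ℤ) (r p : ℕ) (a : Fin n → ℤ) :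
    0 ≤ V2 g r p a := div_nonneg (sum_nonneg fun _ _ => sq_nonneg _) (Nat.cast_nonneg _)

theorem V2_eq (r : ℕ) (g : MvPolynomial (Fin (2 * r + 1)) ℤ) (a : Fin (2 * r + 1) → ℤ) {p : ℕ}
    (hp : p.Prime) :
    V2 g r p a = ((En g p a : ℝ) - (p : ℝ) ^ (4 * r + 1)) / (p : ℝ) ^ (2 * r + 1) := by
  have : Fact p.Prime := ⟨hp⟩
  have hp0 : (p : ℝ) ≠ 0 := by exact_mod_cast hp.ne_zero
  unfold V2 dev2
  have h1 : ∀ u ∈ range p, (((Rn g p a (u : ℤ) : ℝ) - (p : ℝ) ^ (2 * r)) / (p : ℝ) ^ r) ^ 2 =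
      ((Rn g p a (u : ℤ) : ℝ) ^ 2 - 2 * (p : ℝ) ^ (2 * r) * (Rn g p a (u : ℤ) : ℝ) +
        (p : ℝ) ^ (4 * r)) / (p : ℝ) ^ (2 * r) := by
    intro u _
    rw [div_pow, ← pow_mul, mul_comm r 2]
    congr 1
    ring
  rw [sum_congr rfl h1, ← sum_div, sum_add_distrib, sum_sub_distrib, sum_Rn_sq, ← mul_sum, sum_Rn,
    sum_const, card_range, nsmul_eq_mul, div_div, ← pow_succ]
  congr 1
  ring

/-- the sum of the mean squares over a complete cube of `a` -/
theorem sum_V2_cube (r : ℕ) (g : MvPolynomial (Fin (2 * r + 1)) ℤ) {p : ℕ} (hp : p.Prime) :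
    ∑ a ∈ cube (2 * r + 1) p, V2 g r p (fun i => (a i : ℤ)) ≤ (p : ℝ) ^ (2 * r + 1) := by
  have : Fact p.Prime := ⟨hp⟩
  have hp0 : (0 : ℝ) < p := by exact_mod_cast hp.pos
  have h1 : ∀ a ∈ cube (2 * r + 1) p, V2 g r p (fun i => (a i : ℤ)) =
      ((En g p (fun i => (a i : ℤ)) : ℝ) - (p : ℝ) ^ (4 * r + 1)) / (p : ℝ) ^ (2 * r + 1) :=
    fun a _ => V2_eq r g _ hp
  rw [sum_congr rfl h1, ← sum_div, sum_sub_distrib, sum_const, card_cube, nsmul_eq_mul,
    div_le_iff₀ (by positivity)]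
  have h2 := sum_En_le (k := 2 * r) g (p := p)
  have h3 : (∑ a ∈ cube (2 * r + 1) p, (En g p (fun i => (a i : ℤ)) : ℝ)) ≤
      (p : ℝ) ^ (2 * (2 * r + 1)) +
        ((p : ℝ) ^ (2 * (2 * r + 1)) - (p : ℝ) ^ (2 * r + 1)) * (p : ℝ) ^ (2 * r) := by
    have h4 : p ^ (2 * r + 1) ≤ p ^ (2 * (2 * r + 1)) :=
      Nat.pow_le_pow_right hp.pos (by omega)
    have h5 := (Nat.cast_le (α := ℝ)).2 h2
    rw [Nat.cast_add, Nat.cast_mul, Nat.cast_sub h4] at h5
    push_cast at h5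
    exact h5
  have h6 : (0 : ℝ) ≤ (p : ℝ) ^ (2 * r + 1) * (p : ℝ) ^ (2 * r) := by positivity
  have e1 : ((p : ℝ) ^ (2 * (2 * r + 1)) - (p : ℝ) ^ (2 * r + 1)) * (p : ℝ) ^ (2 * r) =
      ((p ^ (2 * r + 1) : ℕ) : ℝ) * (p : ℝ) ^ (4 * r + 1) -
        (p : ℝ) ^ (2 * r + 1) * (p : ℝ) ^ (2 * r) := by
    push_cast
    ring
  have e2 : (p : ℝ) ^ (2 * (2 * r + 1)) = (p : ℝ) ^ (2 * r + 1) * (p : ℝ) ^ (2 * r + 1) := by
    rw [← pow_add]
    congr 1
    ring
  rw [e1, e2] at h3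
  linarith

theorem V2_per {n : ℕ} (g : MvPolynomial (Fin n) ℤ) (r : ℕ) {p : ℕ} {a a' : Fin n → ℤ}
    (ha : ∀ i, (p : ℤ) ∣ a i - a' i) : V2 g r p a = V2 g r p a' := by
  unfold V2
  congr 1
  refine sum_congr rfl fun u _ => ?_
  rw [dev2_per g r ha (by simp : (p : ℤ) ∣ (u : ℤ) - (u : ℤ))]

/-- integers of an interval in a residue class -/
theorem card_class (A : ℤ) (N : ℕ) {p : ℕ} (hp : 0 < p) (c : ℤ) :
    (((Ioc A (A + N)).filter fun x => (p : ℤ) ∣ x - c).card : ℝ) ≤ (N : ℝ) / p + 1 := by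
  have h0 : (0 : ℤ) < p := by exact_mod_cast hp
  have hr : (0 : ℝ) < p := by exact_mod_cast hp
  have h1 := Int.Ioc_filter_modEq_card A (A + N) h0 c
  have h2 : ((Ioc A (A + N)).filter fun x => (p : ℤ) ∣ x - c) =
      (Ioc A (A + N)).filter fun x => x ≡ c [ZMOD p] := by
    refine filter_congr fun x _ => ?_
    rw [Int.modEq_comm, Int.modEq_iff_dvd]
  rw [h2]
  have h3 : ((((Ioc A (A + N)).filter fun x => x ≡ c [ZMOD p]).card : ℤ) : ℚ) ≤ (N : ℚ) / p + 1 := by
    rw [h1]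
    push_cast
    refine max_le ?_ (by positivity)
    have h4 := Int.floor_le (((A : ℚ) + N - c) / (p : ℚ))
    have h5 := Int.sub_one_lt_floor (((A : ℚ) - c) / (p : ℚ))
    have h6 : ((A : ℚ) + N - c) / (p : ℚ) = ((A : ℚ) - c) / (p : ℚ) + (N : ℚ) / p := by
      rw [← add_div]
      congr 1
      ring
    rw [h6] at h4
    rw [h6]
    linarith
  have h4 : ((((Ioc A (A + N)).filter fun x => x ≡ c [ZMOD p]).card : ℚ)) ≤ (N : ℚ) / p + 1 := by
    exact_mod_cast h3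
  have h5 : ((((((Ioc A (A + N)).filter fun x => x ≡ c [ZMOD p]).card : ℚ)) : ℚ) : ℝ) ≤
      (((N : ℚ) / p + 1 : ℚ) : ℝ) := by exact_mod_cast h4
  push_cast at h5
  exact h5

/-- the box `∏ (A_i, A_i + N]` -/
noncomputable def box {n : ℕ} (A : Fin n → ℤ) (N : ℕ) : Finset (Fin n → ℤ) :=
  Fintype.piFinset fun i => Ioc (A i) (A i + N)

theorem card_box {n : ℕ} (A : Fin n → ℤ) (N : ℕ) : (box A N).card = N ^ n := by
  unfold box
  rw [Fintype.card_piFinset]
  simp

/-- the sum of a periodic function over a box -/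
theorem sum_box_le {n : ℕ} (A : Fin n → ℤ) (N : ℕ) {p : ℕ} (hp : 0 < p)
    (f : (Fin n → ℤ) → ℝ) (hf0 : ∀ a, 0 ≤ f a)
    (hf : ∀ a a' : Fin n → ℤ, (∀ i, (p : ℤ) ∣ a i - a' i) → f a = f a') :
    ∑ a ∈ box A N, f a ≤ ((N : ℝ) / p + 1) ^ n * ∑ c ∈ cube n p, f (fun i => (c i : ℤ)) := by
  classical
  have hp0 : (0 : ℤ) < p := by exact_mod_cast hp
  set red : (Fin n → ℤ) → (Fin n → ℕ) := fun a i => (a i % (p : ℤ)).toNat with hred
  have hredc : ∀ (a : Fin n → ℤ) (i : Fin n), ((red a i : ℕ) : ℤ) = a i % (p : ℤ) := by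
    intro a i
    exact Int.toNat_of_nonneg (Int.emod_nonneg _ hp0.ne')
  have hmaps : ∀ a ∈ box A N, red a ∈ cube n p := by
    intro a _
    unfold cube
    rw [Fintype.mem_piFinset]
    intro i
    rw [mem_range]
    have h1 := hredc a i
    have h2 := Int.emod_lt_of_pos (a i) hp0
    omega
  rw [← sum_fiberwise_of_maps_to hmaps, mul_sum]
  refine sum_le_sum fun c _ => ?_
  have hdvd : ∀ a, red a = c → ∀ i, (p : ℤ) ∣ a i - (c i : ℤ) := by
    intro a ha i
    rw [← ha, hredc]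
    exact Int.dvd_self_sub_emod
  have h1 : ∀ a ∈ (box A N).filter (fun a => red a = c), f a = f (fun i => (c i : ℤ)) := by
    intro a ha
    rw [mem_filter] at ha
    exact hf _ _ (hdvd a ha.2)
  rw [sum_congr rfl h1, sum_const, nsmul_eq_mul]
  refine mul_le_mul_of_nonneg_right ?_ (hf0 _)
  have h2 : (box A N).filter (fun a => red a = c) ⊆
      Fintype.piFinset fun i => (Ioc (A i) (A i + N)).filter fun x => (p : ℤ) ∣ x - (c i : ℤ) := by
    intro a ha
    rw [mem_filter] at ha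
    unfold box at ha
    rw [Fintype.mem_piFinset]
    intro i
    rw [mem_filter]
    exact ⟨Fintype.mem_piFinset.1 ha.1 i, hdvd a ha.2 i⟩
  have h3 := card_le_card h2
  rw [Fintype.card_piFinset] at h3
  have h4 : (((box A N).filter (fun a => red a = c)).card : ℝ) ≤
      ∏ i : Fin n, (((Ioc (A i) (A i + N)).filter fun x => (p : ℤ) ∣ x - (c i : ℤ)).card : ℝ) := by
    exact_mod_cast h3
  refine h4.trans ?_
  refine (prod_le_prod (fun i _ => Nat.cast_nonneg _) fun i _ => card_class (A i) N hp _).trans ?_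
  rw [prod_const, card_univ, Fintype.card_fin]

/-- the sum of the mean squares over a box -/
theorem sum_V2_box (r : ℕ) (g : MvPolynomial (Fin (2 * r + 1)) ℤ) (A : Fin (2 * r + 1) → ℤ)
    {N p : ℕ} (hp : p.Prime) (hpN : p ≤ N) :
    ∑ a ∈ box A N, V2 g r p a ≤ (2 * (N : ℝ)) ^ (2 * r + 1) := by
  have hp0 : (0 : ℝ) < p := by exact_mod_cast hp.pos
  have hpN' : (p : ℝ) ≤ N := by exact_mod_cast hpN
  have h1 := sum_box_le A N hp.pos (V2 g r p) (V2_nonneg g r p) fun a a' h => V2_per g r h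
  refine h1.trans ?_
  have h2 : ((N : ℝ) / p + 1) ^ (2 * r + 1) *
      ∑ c ∈ cube (2 * r + 1) p, V2 g r p (fun i => (c i : ℤ)) ≤
      ((N : ℝ) / p + 1) ^ (2 * r + 1) * (p : ℝ) ^ (2 * r + 1) :=
    mul_le_mul_of_nonneg_left (sum_V2_cube r g hp) (by positivity)
  refine h2.trans ?_
  rw [← mul_pow]
  refine pow_le_pow_left₀ (by positivity) ?_ _
  rw [add_mul, div_mul_cancel₀ _ hp0.ne', one_mul]
  linarith

end Pool.Agent.TH375.KL
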