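import Pool.Agent.TH375.KL.BoxSieve

set_option autoImplicit false

/-!
# The maximal dual large sieve for boxes in several variables, with weights
-/

namespace Pool.Agent.TH375.KL

open Finset

open scoped Classical in
/-- **The maximal dual large sieve for boxes, with weights** -/
theorem box_scales_w : ∀ m : ℕ, ∃ C : ℝ, 0 < C ∧ ∀ (lam : ℕ → ℝ) (L : ℝ), 0 ≤ L →
    (∀ p : ℕ, p.Prime → |lam p| ≤ L * Real.log p) → ∀ φ : ℕ → (Fin m → ℤ) → ℝ,
    (∀ (p : ℕ) (c c' : Fin m → ℤ), p.Prime → (∀ i, (p : ℤ) ∣ c i - c' i) → φ p c = φ p c') →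
    ∀ D : ℝ, 0 ≤ D → ∀ (A : Fin m → ℤ) (N z : ℕ), z ^ 2 ≤ N →
    (∀ p : ℕ, p.Prime → p ≤ z →
      (∑ c ∈ cube m p, φ p (fun i => (c i : ℤ)) ^ 2) / (p : ℝ) ^ m ≤ D) →
    ∀ K : ℝ, 0 < K →
    (((box A N).filter fun c => ∃ x : ℕ, 1 ≤ x ∧ x ≤ z ∧
      K * thr x < (∑ p ∈ Prm x, (φ p c - cm φ p) * lam p) ^ 2).card : ℝ) ≤
        C * (D * L ^ 2) * (N : ℝ) ^ m / K := by
  intro m
  induction m with
  | zero =>
    refine ⟨1, one_pos, ?_⟩
    intro lam L hL _ φ _ D hD A N z _ _ K hK
    have h1 : (box A N).filter (fun c => ∃ x : ℕ, 1 ≤ x ∧ x ≤ z ∧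
        K * thr x < (∑ p ∈ Prm x, (φ p c - cm φ p) * lam p) ^ 2) = ∅ := by
      rw [filter_eq_empty_iff]
      rintro c _ ⟨x, hx1, _, h⟩
      have h2 : ∑ p ∈ Prm x, (φ p c - cm φ p) * lam p = 0 := by
        refine sum_eq_zero fun p _ => ?_
        suffices h4 : φ p c - cm φ p = 0 by rw [h4, zero_mul]
        unfold cm cube
        rw [pow_zero, div_one, Fintype.piFinset_of_isEmpty]
        simp only [univ_unique, sum_singleton]
        rw [sub_eq_zero]
        congr 1
        exact Subsingleton.elim _ _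
      rw [h2] at h
      have h3 : 0 ≤ K * thr x := by
        unfold thr
        positivity
      norm_num at h
      linarith
    rw [h1, card_empty, Nat.cast_zero]
    positivity
  | succ m ih =>
    obtain ⟨C₀, hC₀, hfam⟩ := few_scales_fam
    obtain ⟨C₁, hC₁, hih⟩ := ih
    refine ⟨C₀ * 2 * 2 ^ m * 4 + C₁ * 4, by positivity, ?_⟩
    intro lam L hL hlam φ hper D hD A N z hzN hvar K hK
    have hratio : ∀ p : ℕ, p.Prime → (lam p / Real.log p) ^ 2 ≤ L ^ 2 := by
      intro p hp
      have hlp0 : 0 < Real.log p := Real.log_pos (by exact_mod_cast hp.one_lt)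
      rw [← sq_abs, abs_div, abs_of_pos hlp0]
      refine pow_le_pow_left₀ (by positivity) ?_ 2
      rw [div_le_iff₀ hlp0]
      exact hlam p hp
    -- the mean over the first coordinate
    set φb : ℕ → (Fin m → ℤ) → ℝ := fun p a => (∑ u ∈ range p, φ p (Fin.cons (u : ℤ) a)) / p
      with hφb
    set ψ : (Fin m → ℤ) → ℕ → ℤ → ℝ := fun a p s => φ p (Fin.cons s a) * (lam p / Real.log p)
      with hψ
    have hcons : ∀ (p : ℕ) (s t : ℤ) (a a' : Fin m → ℤ), p.Prime → (p : ℤ) ∣ s - t →
        (∀ i, (p : ℤ) ∣ a i - a' i) → φ p (Fin.cons s a) = φ p (Fin.cons t a') := by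
      intro p s t a a' hp h1 h2
      refine hper p _ _ hp fun i => ?_
      refine Fin.cases ?_ (fun j => ?_) i
      · simpa using h1
      · simpa using h2 j
    have hψper : ∀ (i : Fin m → ℤ) (p : ℕ) (t u : ℤ), p.Prime → (p : ℤ) ∣ t - u →
        ψ i p t = ψ i p u := by
      intro i p t u hp h
      rw [hψ]
      simp only
      rw [hcons p t u i i hp h fun j => by simp]
    have hψmv : ∀ a p, mv (ψ a) p = φb p a * (lam p / Real.log p) := by
      intro a p
      unfold mv
      rw [hψ, hφb]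
      simp only
      rw [← sum_mul]
      ring
    -- second moments
    have hsucc : ∀ p : ℕ, ∑ c ∈ cube (m + 1) p, φ p (fun i => (c i : ℤ)) ^ 2 =
        ∑ a ∈ cube m p, ∑ s ∈ range p, φ p (Fin.cons (s : ℤ) (fun i => (a i : ℤ))) ^ 2 :=
      fun p => sum_cube_succ fun c => φ p c ^ 2
    have hv1 : ∀ p : ℕ, p.Prime → p ≤ z →
        ∑ a ∈ box (Fin.tail A) N, (∑ u ∈ range p, ψ a p (u : ℤ) ^ 2) / p ≤
          (2 * (N : ℝ)) ^ m * (D * L ^ 2) := by
      intro p hp hpz
      have hp0 : (0 : ℝ) < p := by exact_mod_cast hp.pos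
      have hpN : (p : ℝ) ≤ N := by
        have h1 : z ≤ N := by nlinarith
        exact_mod_cast hpz.trans h1
      have h1 := sum_box_le (Fin.tail A) N hp.pos
        (fun a => (∑ u ∈ range p, ψ a p (u : ℤ) ^ 2) / p)
        (fun a => div_nonneg (sum_nonneg fun _ _ => sq_nonneg _) hp0.le) ?_
      · refine h1.trans ?_
        have h2 : ∑ c ∈ cube m p, (∑ u ∈ range p, ψ (fun i => (c i : ℤ)) p (u : ℤ) ^ 2) / p ≤
            D * (p : ℝ) ^ m * L ^ 2 := by
          have h3 := hvar p hp hpz
          rw [hsucc, div_le_iff₀ (by positivity)] at h3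
          have h4 : ∑ c ∈ cube m p, (∑ u ∈ range p, ψ (fun i => (c i : ℤ)) p (u : ℤ) ^ 2) / p =
              (∑ a ∈ cube m p, ∑ s ∈ range p,
                φ p (Fin.cons (s : ℤ) (fun i => (a i : ℤ))) ^ 2) / p *
                (lam p / Real.log p) ^ 2 := by
            rw [sum_div, sum_mul]
            refine sum_congr rfl fun a _ => ?_
            rw [hψ]
            simp only [mul_pow]
            rw [← sum_mul]
            ring
          rw [h4]
          have h5 : (∑ a ∈ cube m p, ∑ s ∈ range p,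
                φ p (Fin.cons (s : ℤ) (fun i => (a i : ℤ))) ^ 2) / p ≤ D * (p : ℝ) ^ m := by
            rw [div_le_iff₀ hp0]
            calc _ ≤ D * (p : ℝ) ^ (m + 1) := h3
              _ = _ := by ring
          exact mul_le_mul h5 (hratio p hp) (sq_nonneg _) (by positivity)
        calc ((N : ℝ) / p + 1) ^ m *
              ∑ c ∈ cube m p, (∑ u ∈ range p, ψ (fun i => (c i : ℤ)) p (u : ℤ) ^ 2) / p
            ≤ ((N : ℝ) / p + 1) ^ m * (D * (p : ℝ) ^ m * L ^ 2) :=
              mul_le_mul_of_nonneg_left h2 (by positivity)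
          _ = (N + p : ℝ) ^ m * (D * L ^ 2) := by
              rw [show ((N : ℝ) / p + 1) = (N + p) / p by field_simp, div_pow]
              field_simp
          _ ≤ (2 * (N : ℝ)) ^ m * (D * L ^ 2) := by
              refine mul_le_mul_of_nonneg_right ?_ (by positivity)
              exact pow_le_pow_left₀ (by positivity) (by linarith) _
      · intro a a' h
        congr 1
        refine sum_congr rfl fun u _ => ?_
        rw [hψ]
        simp only
        rw [hcons p u u a a' hp (by simp) h]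
    have hv2 : ∀ p : ℕ, p.Prime → p ≤ z →
        (∑ a ∈ cube m p, φb p (fun i => (a i : ℤ)) ^ 2) / (p : ℝ) ^ m ≤ D := by
      intro p hp hpz
      have hp0 : (0 : ℝ) < p := by exact_mod_cast hp.pos
      refine le_trans ?_ (hvar p hp hpz)
      rw [hsucc, div_le_div_iff₀ (by positivity) (by positivity)]
      have h1 : ∀ a ∈ cube m p, φb p (fun i => (a i : ℤ)) ^ 2 * p ≤
          ∑ s ∈ range p, φ p (Fin.cons (s : ℤ) (fun i => (a i : ℤ))) ^ 2 := by
        intro a _
        rw [hφb]
        simp only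
        have h2 := sq_sum_le_card_mul_sum_sq (s := range p)
          (f := fun s => φ p (Fin.cons (s : ℤ) (fun i => (a i : ℤ))))
        rw [card_range] at h2
        rw [div_pow, div_mul_eq_mul_div, div_le_iff₀ (by positivity)]
        calc (∑ s ∈ range p, φ p (Fin.cons (s : ℤ) (fun i => (a i : ℤ)))) ^ 2 * p
            ≤ (p * ∑ s ∈ range p, φ p (Fin.cons (s : ℤ) (fun i => (a i : ℤ))) ^ 2) * p :=
              mul_le_mul_of_nonneg_right h2 hp0.le
          _ = _ := by ring
      have h2 := sum_le_sum h1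
      rw [← sum_mul] at h2
      calc (∑ a ∈ cube m p, φb p (fun i => (a i : ℤ)) ^ 2) * (p : ℝ) ^ (m + 1)
          = ((∑ a ∈ cube m p, φb p (fun i => (a i : ℤ)) ^ 2) * p) * (p : ℝ) ^ m := by ring
        _ ≤ _ := mul_le_mul_of_nonneg_right h2 (by positivity)
    have hcm : ∀ p : ℕ, p.Prime → cm φb p = cm φ p := by
      intro p hp
      have hp0 : (p : ℝ) ≠ 0 := by exact_mod_cast hp.ne_zero
      unfold cm
      rw [sum_cube_succ (fun c => φ p c), hφb]
      simp only
      rw [← sum_div, div_div, pow_succ, mul_comm (p : ℝ)]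
    have hK4 : 0 < K / 4 := by positivity
    have hf1 := hfam (Fin m → ℤ) (box (Fin.tail A) N) ψ hψper
      ((2 * (N : ℝ)) ^ m * (D * L ^ 2)) (by positivity) (A 0) N z hv1 (K / 4) hK4
    have hf2 := hih lam L hL hlam φb (fun p c c' hp h => by
      rw [hφb]
      simp only
      congr 1
      exact sum_congr rfl fun u _ => hcons p u u c c' hp (by simp) h) D hD (Fin.tail A) N z hzN
      hv2 (K / 4) hK4
    -- the two bad events
    set E1 : Set ((Fin m → ℤ) × ℤ) := {q | q.1 ∈ box (Fin.tail A) N ∧ A 0 < q.2 ∧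
      q.2 ≤ A 0 + N ∧ ∃ x : ℕ, 1 ≤ x ∧ x ≤ z ∧
      K / 4 * (x * ((Nat.log 2 x : ℝ) + 1) ^ 5) < (∑ p ∈ Prm x, (ψ q.1 p q.2 - mv (ψ q.1) p) *
        Real.log p) ^ 2} with hE1
    set E2 : Finset (Fin m → ℤ) := (box (Fin.tail A) N).filter fun a => ∃ x : ℕ, 1 ≤ x ∧ x ≤ z ∧
      K / 4 * thr x < (∑ p ∈ Prm x, (φb p a - cm φb p) * lam p) ^ 2 with hE2
    have hE1fin : E1.Finite := by
      refine ((box (Fin.tail A) N ×ˢ Ioc (A 0) (A 0 + N)).finite_toSet).subset ?_
      rintro q ⟨h1, h2, h3, _⟩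
      rw [mem_coe, mem_product, mem_Ioc]
      exact ⟨h1, h2, h3⟩
    have hmain : ((box A N).filter fun c => ∃ x : ℕ, 1 ≤ x ∧ x ≤ z ∧
        K * thr x < (∑ p ∈ Prm x, (φ p c - cm φ p) * lam p) ^ 2).card ≤
        E1.ncard + E2.card * N := by
      have h0 : ((box A N).filter fun c => ∃ x : ℕ, 1 ≤ x ∧ x ≤ z ∧
          K * thr x < (∑ p ∈ Prm x, (φ p c - cm φ p) * lam p) ^ 2).card ≤
          (hE1fin.toFinset ∪ (E2 ×ˢ Ioc (A 0) (A 0 + N))).card := by
        refine card_le_card_of_injOn (fun c => (Fin.tail c, c 0)) ?_ ?_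
        · intro c hc
          rw [mem_coe, mem_filter, mem_box_succ] at hc
          obtain ⟨⟨hc1, hc2⟩, x, hx1, hxz, hx⟩ := hc
          rw [mem_coe, mem_union]
          by_cases h1 : (Fin.tail c, c 0) ∈ hE1fin.toFinset
          · exact Or.inl h1
          · right
            rw [mem_product]
            refine ⟨?_, hc2⟩
            rw [hE2, mem_filter]
            refine ⟨hc1, x, hx1, hxz, ?_⟩
            rw [Set.Finite.mem_toFinset, hE1] at h1
            have h2 : (∑ p ∈ Prm x, (ψ (Fin.tail c) p (c 0) - mv (ψ (Fin.tail c)) p) *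
                Real.log p) ^ 2 ≤ K / 4 * (x * ((Nat.log 2 x : ℝ) + 1) ^ 5) := by
              by_contra h3
              rw [mem_Ioc] at hc2
              exact h1 ⟨hc1, hc2.1, hc2.2, x, hx1, hxz, not_le.1 h3⟩
            have h3 : ∑ p ∈ Prm x, (φ p c - cm φ p) * lam p =
                ∑ p ∈ Prm x, (ψ (Fin.tail c) p (c 0) - mv (ψ (Fin.tail c)) p) * Real.log p +
                  ∑ p ∈ Prm x, (φb p (Fin.tail c) - cm φb p) * lam p := by
              rw [← sum_add_distrib]
              refine sum_congr rfl fun p hp => ?_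
              unfold Prm at hp
              rw [mem_filter] at hp
              have hlp : Real.log p ≠ 0 :=
                (Real.log_pos (by exact_mod_cast hp.2.one_lt)).ne'
              rw [hψmv, hcm p hp.2, hψ]
              simp only
              rw [Fin.cons_self_tail]
              field_simp
              ring
            rw [h3] at hx
            set P := ∑ p ∈ Prm x, (ψ (Fin.tail c) p (c 0) - mv (ψ (Fin.tail c)) p) * Real.log p
            set Q := ∑ p ∈ Prm x, (φb p (Fin.tail c) - cm φb p) * lam p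
            have h4 : (P + Q) ^ 2 ≤ 2 * P ^ 2 + 2 * Q ^ 2 := by nlinarith [sq_nonneg (P - Q)]
            have h5 : thr x = x * ((Nat.log 2 x : ℝ) + 1) ^ 5 := rfl
            rw [← h5] at h2
            linarith
        · intro c _ c' _ h
          have h1 := (Prod.ext_iff.1 h).1
          have h2 := (Prod.ext_iff.1 h).2
          dsimp only at h1 h2
          rw [← Fin.cons_self_tail c, ← Fin.cons_self_tail c', h1, h2]
      refine h0.trans ((card_union_le _ _).trans ?_)
      rw [card_product, Int.card_Ioc, add_sub_cancel_left, Int.toNat_natCast,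
        Set.ncard_eq_toFinset_card _ hE1fin]
    have h1 : ((((box A N).filter fun c => ∃ x : ℕ, 1 ≤ x ∧ x ≤ z ∧
        K * thr x < (∑ p ∈ Prm x, (φ p c - cm φ p) * lam p) ^ 2).card : ℕ) : ℝ) ≤
        (E1.ncard : ℝ) + (E2.card : ℝ) * N := by exact_mod_cast hmain
    refine h1.trans ?_
    have hzN' : (z : ℝ) ^ 2 ≤ N := by exact_mod_cast hzN
    have h2 : (E1.ncard : ℝ) ≤
        C₀ * 2 * 2 ^ m * 4 * (D * L ^ 2) * (N : ℝ) ^ (m + 1) / K := by
      refine hf1.trans ?_
      calc C₀ * (N + (z : ℝ) ^ 2) * ((2 * (N : ℝ)) ^ m * (D * L ^ 2)) / (K / 4)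
          ≤ C₀ * (N + N) * ((2 * (N : ℝ)) ^ m * (D * L ^ 2)) / (K / 4) := by
            refine div_le_div_of_nonneg_right ?_ hK4.le
            refine mul_le_mul_of_nonneg_right ?_ (by positivity)
            refine mul_le_mul_of_nonneg_left ?_ hC₀.le
            linarith
        _ = _ := by
            rw [mul_pow]
            field_simp
            ring
    have h3 : (E2.card : ℝ) * N ≤ C₁ * 4 * (D * L ^ 2) * (N : ℝ) ^ (m + 1) / K := by
      calc (E2.card : ℝ) * N ≤ (C₁ * (D * L ^ 2) * (N : ℝ) ^ m / (K / 4)) * N :=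
            mul_le_mul_of_nonneg_right hf2 (Nat.cast_nonneg _)
        _ = _ := by
            field_simp
            ring
    refine (add_le_add h2 h3).trans (le_of_eq ?_)
    ring

end Pool.Agent.TH375.KL
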