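import Pool.Agent.TH375.KL.Sieve

set_option autoImplicit false

/-!
# The first four moments of Kloosterman sums
-/

namespace Pool.Agent.TH375.KL

open Finset Pool.Agent.Helper916 ComplexConjugate

variable {p : ℕ} [hp : Fact p.Prime]

/-- the Kloosterman sum modulo `p` as a complex number -/
noncomputable def KK (p : ℕ) [Fact p.Prime] (b c : ZMod p) : ℂ := Kl (ZMod.stdAddChar (N := p)) b c

theorem prim : (ZMod.stdAddChar (N := p)).IsPrimitive := ZMod.isPrimitive_stdAddChar p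

theorem KK_conj (b c : ZMod p) : conj (KK p b c) = KK p b c := by
  unfold KK Kl
  rw [map_sum]
  refine Finset.sum_bij (fun z _ => -z) ?_ ?_ ?_ ?_
  · intro z hz
    rw [mem_erase] at hz ⊢
    exact ⟨neg_ne_zero.2 hz.1, mem_univ _⟩
  · intro x _ y _ hxy
    exact neg_injective hxy
  · intro y hy
    refine ⟨-y, ?_, neg_neg y⟩
    rw [mem_erase] at hy ⊢
    exact ⟨neg_ne_zero.2 hy.1, mem_univ _⟩
  · intro z _
    rw [← AddChar.map_neg_eq_conj]
    congr 1
    rw [inv_neg]
    ring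

/-- the real Kloosterman sum -/
noncomputable def rk (p : ℕ) [Fact p.Prime] (b c : ZMod p) : ℝ := (KK p b c).re

theorem rk_eq (b c : ZMod p) : (rk p b c : ℂ) = KK p b c := by
  unfold rk
  exact Complex.conj_eq_iff_re.1 (KK_conj b c)

theorem rk_dil (b : ZMod p) {c : ZMod p} (hc : c ≠ 0) : rk p b c = rk p (b * c) 1 := by
  unfold rk KK
  rw [← Kl_dil (ZMod.stdAddChar (N := p)) b c hc, mul_inv_cancel₀ hc]

theorem KK_zero_zero : KK p 0 0 = (p : ℂ) - 1 := by
  unfold KK Kl
  simp only [zero_mul, add_zero, AddChar.map_zero_eq_one, sum_const, nsmul_eq_mul, mul_one]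
  rw [card_erase_of_mem (mem_univ _), card_univ, ZMod.card, Nat.cast_sub hp.out.one_le]
  simp

theorem KK_zero_right {b : ZMod p} (hb : b ≠ 0) : KK p b 0 = -1 := by
  unfold KK Kl
  simp only [zero_mul, add_zero]
  have h1 : ∑ z : ZMod p, ZMod.stdAddChar (b * z) = (0 : ℂ) := by
    have := AddChar.sum_mulShift b (prim (p := p))
    rw [if_neg hb, Nat.cast_zero] at this
    rw [← this]
    exact sum_congr rfl fun z _ => by rw [mul_comm]
  rw [← add_sum_erase _ _ (mem_univ (0 : ZMod p)), mul_zero, AddChar.map_zero_eq_one] at h1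
  linear_combination h1

/-- the number of solutions of `∑ z = ∑ 1/z = 0` weights the two-dimensional moment -/
theorem sum_all (f : ZMod p → ZMod p → ℝ) (hf : ∀ b c, c ≠ 0 → f b c = f (b * c) 1) :
    ∑ b : ZMod p, ∑ c : ZMod p, f b c = ((p : ℝ) - 1) * ∑ a : ZMod p, f a 1 +
      ∑ b : ZMod p, f b 0 := by
  rw [sum_comm, ← add_sum_erase _ _ (mem_univ (0 : ZMod p)), add_comm]
  congr 1
  have h1 : ∀ c ∈ univ.erase (0 : ZMod p), ∑ b : ZMod p, f b c = ∑ a : ZMod p, f a 1 := by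
    intro c hc
    have hc0 : c ≠ 0 := (mem_erase.1 hc).1
    rw [sum_congr rfl fun b _ => hf b c hc0]
    exact Equiv.sum_comp (Equiv.mulRight₀ c hc0) fun a => f a 1
  rw [sum_congr rfl h1, sum_const, nsmul_eq_mul, card_erase_of_mem (mem_univ _), card_univ,
    ZMod.card, Nat.cast_sub hp.out.one_le]
  simp

theorem rk_zero (k : ℕ) : ∑ b : ZMod p, rk p b 0 ^ k = ((p : ℝ) - 1) ^ k +
    ((p : ℝ) - 1) * (-1) ^ k := by
  rw [← add_sum_erase _ _ (mem_univ (0 : ZMod p))]
  have h0 : rk p 0 0 = (p : ℝ) - 1 := by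
    unfold rk
    rw [KK_zero_zero]
    simp
  have h1 : ∀ b ∈ univ.erase (0 : ZMod p), rk p b 0 ^ k = (-1) ^ k := by
    intro b hb
    unfold rk
    rw [KK_zero_right (mem_erase.1 hb).1]
    simp
  rw [h0, sum_congr rfl h1, sum_const, nsmul_eq_mul, card_erase_of_mem (mem_univ _), card_univ,
    ZMod.card, Nat.cast_sub hp.out.one_le]
  simp

theorem moment_eq (k : ℕ) : ((p : ℝ) - 1) * ∑ a : ZMod p, rk p a 1 ^ k =
    (∑ b : ZMod p, ∑ c : ZMod p, rk p b c ^ k) - ((p : ℝ) - 1) ^ k -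
      ((p : ℝ) - 1) * (-1) ^ k := by
  have h1 := sum_all (p := p) (fun b c => rk p b c ^ k) fun b c hc => by
    rw [rk_dil b hc]
  rw [h1, rk_zero]
  ring

/-- the two-dimensional moments of order one, two, three -/
theorem two_dim_one : ∑ b : ZMod p, ∑ c : ZMod p, rk p b c ^ 1 = 0 := by
  have h : ((∑ b : ZMod p, ∑ c : ZMod p, rk p b c ^ 1 : ℝ) : ℂ) = 0 := by
    push_cast
    simp only [pow_one, rk_eq]
    unfold KK Kl
    rw [sum_congr rfl fun b _ => sum_comm, sum_comm]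
    refine sum_eq_zero fun z hz => ?_
    have hz0 : z ≠ 0 := (mem_erase.1 hz).1
    refine sum_eq_zero fun b _ => ?_
    have h1 : ∀ c : ZMod p, (ZMod.stdAddChar (b * z + c * z⁻¹) : ℂ) =
        ZMod.stdAddChar (b * z) * ZMod.stdAddChar (c * z⁻¹) := fun c =>
      AddChar.map_add_eq_mul _ _ _
    rw [sum_congr rfl fun c _ => h1 c, ← mul_sum, AddChar.sum_mulShift _ (prim (p := p)),
      if_neg (inv_ne_zero hz0), Nat.cast_zero, mul_zero]
  exact_mod_cast h

theorem two_dim_two : ∑ b : ZMod p, ∑ c : ZMod p, rk p b c ^ 2 = (p : ℝ) ^ 2 * ((p : ℝ) - 1) := by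
  have h : ((∑ b : ZMod p, ∑ c : ZMod p, rk p b c ^ 2 : ℝ) : ℂ) = (p : ℂ) ^ 2 * ((p : ℂ) - 1) := by
    push_cast
    simp only [rk_eq]
    have e1 : ∀ b c : ZMod p, KK p b c ^ 2 = ∑ x ∈ univ.erase (0 : ZMod p),
        ∑ y ∈ univ.erase (0 : ZMod p),
        ZMod.stdAddChar (b * (x + y)) * ZMod.stdAddChar (c * (x⁻¹ + y⁻¹)) := by
      intro b c
      unfold KK Kl
      rw [sq, sum_mul_sum]
      refine sum_congr rfl fun x _ => sum_congr rfl fun y _ => ?_
      rw [← AddChar.map_add_eq_mul, ← AddChar.map_add_eq_mul]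
      congr 1
      ring
    rw [sum_congr rfl fun b _ => sum_congr rfl fun c _ => e1 b c]
    rw [sum_congr rfl fun b _ => sum_comm, sum_comm]
    have e2 : ∀ x ∈ univ.erase (0 : ZMod p), ∑ b : ZMod p, ∑ c : ZMod p,
        ∑ y ∈ univ.erase (0 : ZMod p),
        ZMod.stdAddChar (b * (x + y)) * ZMod.stdAddChar (c * (x⁻¹ + y⁻¹)) = (p : ℂ) ^ 2 := by
      intro x hx
      have hx0 : x ≠ 0 := (mem_erase.1 hx).1
      rw [sum_congr rfl fun b _ => sum_comm, sum_comm]
      rw [sum_eq_single (-x)]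
      · rw [add_neg_cancel, inv_neg, add_neg_cancel]
        simp only [mul_zero, AddChar.map_zero_eq_one, mul_one, sum_const, card_univ, ZMod.card,
          nsmul_eq_mul]
        ring
      · intro y _ hy
        rw [← sum_mul_sum, AddChar.sum_mulShift _ (prim (p := p)), if_neg, Nat.cast_zero,
          zero_mul]
        intro h0
        exact hy (eq_neg_of_add_eq_zero_right h0)
      · intro h0
        exact absurd (mem_erase.2 ⟨neg_ne_zero.2 hx0, mem_univ _⟩) h0
    rw [sum_congr rfl e2, sum_const, nsmul_eq_mul, card_erase_of_mem (mem_univ _), card_univ,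
      ZMod.card, Nat.cast_sub hp.out.one_le]
    push_cast
    ring
  exact_mod_cast h

theorem two_dim_three : 0 ≤ ∑ b : ZMod p, ∑ c : ZMod p, rk p b c ^ 3 ∧
    ∑ b : ZMod p, ∑ c : ZMod p, rk p b c ^ 3 ≤ 2 * (p : ℝ) ^ 2 * ((p : ℝ) - 1) := by
  set U : Finset (ZMod p) := univ.erase 0 with hU
  set f : ZMod p → ZMod p → ZMod p → ℝ := fun x y z =>
    (if x + y + z = 0 then (p : ℝ) else 0) * (if x⁻¹ + y⁻¹ + z⁻¹ = 0 then (p : ℝ) else 0) with hf
  have h : ((∑ b : ZMod p, ∑ c : ZMod p, rk p b c ^ 3 : ℝ) : ℂ) =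
      ((∑ x ∈ U, ∑ y ∈ U, ∑ z ∈ U, f x y z : ℝ) : ℂ) := by
    push_cast
    simp only [rk_eq]
    have e1 : ∀ b c : ZMod p, KK p b c ^ 3 = ∑ x ∈ U, ∑ y ∈ U, ∑ z ∈ U,
        ZMod.stdAddChar (b * (x + y + z)) * ZMod.stdAddChar (c * (x⁻¹ + y⁻¹ + z⁻¹)) := by
      intro b c
      unfold KK Kl
      rw [pow_succ, sq, sum_mul_sum, sum_mul]
      refine sum_congr rfl fun x _ => ?_
      rw [sum_mul]
      refine sum_congr rfl fun y _ => ?_
      rw [mul_sum]
      refine sum_congr rfl fun z _ => ?_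
      rw [← AddChar.map_add_eq_mul, ← AddChar.map_add_eq_mul, ← AddChar.map_add_eq_mul]
      congr 1
      ring
    rw [sum_congr rfl fun b _ => sum_congr rfl fun c _ => e1 b c]
    rw [sum_congr rfl fun b _ => sum_comm, sum_comm]
    refine sum_congr rfl fun x _ => ?_
    rw [sum_congr rfl fun b _ => sum_comm, sum_comm]
    refine sum_congr rfl fun y _ => ?_
    rw [sum_congr rfl fun b _ => sum_comm, sum_comm]
    refine sum_congr rfl fun z _ => ?_
    rw [← sum_mul_sum, AddChar.sum_mulShift _ (prim (p := p)),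
      AddChar.sum_mulShift _ (prim (p := p)), ZMod.card, hf]
    simp only
    push_cast
    split_ifs <;> simp
  have h' : ∑ b : ZMod p, ∑ c : ZMod p, rk p b c ^ 3 = ∑ x ∈ U, ∑ y ∈ U, ∑ z ∈ U, f x y z := by
    exact_mod_cast h
  have hf0 : ∀ x y z, 0 ≤ f x y z := by
    intro x y z
    rw [hf]
    simp only
    split_ifs <;> positivity
  rw [h']
  refine ⟨sum_nonneg fun x _ => sum_nonneg fun y _ => sum_nonneg fun z _ => hf0 x y z, ?_⟩
  have h1 : ∀ x ∈ U, ∑ y ∈ U, ∑ z ∈ U, f x y z ≤ 2 * (p : ℝ) ^ 2 := by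
    intro x hx
    have hx0 : x ≠ 0 := (mem_erase.1 hx).1
    have h2 : ∀ y ∈ U, ∑ z ∈ U, f x y z ≤
        if y ^ 2 + x * y + x ^ 2 = 0 then (p : ℝ) ^ 2 else 0 := by
      intro y hy
      have hy0 : y ≠ 0 := (mem_erase.1 hy).1
      have h3 : ∀ z ∈ U, f x y z ≤ if z = -(x + y) then
          (if y ^ 2 + x * y + x ^ 2 = 0 then (p : ℝ) ^ 2 else 0) else 0 := by
        intro z hz
        have hz0 : z ≠ 0 := (mem_erase.1 hz).1
        by_cases hz1 : z = -(x + y)
        · rw [if_pos hz1]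
          by_cases hq : x⁻¹ + y⁻¹ + z⁻¹ = 0
          · have h4 : y ^ 2 + x * y + x ^ 2 = 0 := by
              have h5 : y * z + x * z + x * y = 0 := by
                have h6 : y * z + x * z + x * y = x * y * z * (x⁻¹ + y⁻¹ + z⁻¹) := by
                  field_simp
                rw [h6, hq, mul_zero]
              rw [hz1] at h5
              linear_combination -h5
            rw [if_pos h4, hf]
            simp only
            rw [if_pos hq]
            split_ifs
            · exact le_of_eq (sq (p : ℝ)).symm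
            · rw [zero_mul]
              positivity
          · rw [hf]
            simp only
            rw [if_neg hq, mul_zero]
            split_ifs <;> positivity
        · rw [if_neg hz1, hf]
          simp only
          rw [if_neg, zero_mul]
          intro h0
          exact hz1 (by linear_combination h0)
      refine (sum_le_sum h3).trans ?_
      rw [sum_ite_eq']
      split_ifs <;> first | exact le_rfl | positivity
    refine (sum_le_sum h2).trans ?_
    rw [← sum_filter, sum_const, nsmul_eq_mul]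
    refine mul_le_mul_of_nonneg_right ?_ (by positivity)
    have h4 : (U.filter fun y => y ^ 2 + x * y + x ^ 2 = 0).card ≤ 2 := by
      rcases (U.filter fun y => y ^ 2 + x * y + x ^ 2 = 0).eq_empty_or_nonempty with h0 | ⟨y1, hy1⟩
      · rw [h0, card_empty]
        exact Nat.zero_le 2
      · have h5 : (U.filter fun y => y ^ 2 + x * y + x ^ 2 = 0) ⊆ {y1, -(x + y1)} := by
          intro y hy
          rw [mem_filter] at hy hy1
          rw [mem_insert, mem_singleton]
          have h6 : (y - y1) * (y + x + y1) = 0 := by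
            linear_combination hy.2 - hy1.2
          rcases mul_eq_zero.1 h6 with h7 | h7
          · exact Or.inl (sub_eq_zero.1 h7)
          · exact Or.inr (by linear_combination h7)
        exact (card_le_card h5).trans card_le_two
    exact_mod_cast h4
  refine (sum_le_sum h1).trans (le_of_eq ?_)
  rw [sum_const, nsmul_eq_mul, hU, card_erase_of_mem (mem_univ _), card_univ, ZMod.card,
    Nat.cast_sub hp.out.one_le]
  push_cast
  ring

theorem two_dim_four : ∑ b : ZMod p, ∑ c : ZMod p, rk p b c ^ 4 ≤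
    (p : ℝ) ^ 2 * (3 * ((p : ℝ) - 1) ^ 2) := by
  have h1 := kl_fourth (ZMod.stdAddChar (N := p)) (prim (p := p))
  rw [ZMod.card] at h1
  refine le_trans (le_of_eq ?_) h1
  refine sum_congr rfl fun b _ => sum_congr rfl fun c _ => ?_
  have h2 : ‖Kl (ZMod.stdAddChar (N := p)) b c‖ = |rk p b c| := by
    have h3 := rk_eq (p := p) b c
    have h4 : Kl (ZMod.stdAddChar (N := p)) b c = (rk p b c : ℂ) := h3.symm
    rw [h4, Complex.norm_real, Real.norm_eq_abs]
  rw [h2]
  have h5 : |rk p b c| ^ 4 = (|rk p b c| ^ 2) ^ 2 := by ring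
  rw [h5, sq_abs]
  ring

theorem p_gt : (1 : ℝ) < p := by exact_mod_cast hp.out.one_lt

theorem m1 : ∑ a : ZMod p, rk p a 1 = 0 := by
  have h1 := moment_eq (p := p) 1
  rw [two_dim_one] at h1
  have hp1 := p_gt (p := p)
  have h2 : ((p : ℝ) - 1) * ∑ a : ZMod p, rk p a 1 ^ 1 = 0 := by
    rw [h1]
    ring
  simp only [pow_one] at h2
  rcases mul_eq_zero.1 h2 with h3 | h3
  · linarith
  · exact h3

theorem m2 : ∑ a : ZMod p, rk p a 1 ^ 2 = p * ((p : ℝ) - 1) := by
  have h1 := moment_eq (p := p) 2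
  rw [two_dim_two] at h1
  have hp1 := p_gt (p := p)
  have h2 : ((p : ℝ) - 1) * ∑ a : ZMod p, rk p a 1 ^ 2 = ((p : ℝ) - 1) * (p * ((p : ℝ) - 1)) := by
    rw [h1]
    ring
  exact mul_left_cancel₀ (by linarith) h2

theorem m3 : |∑ a : ZMod p, rk p a 1 ^ 3| ≤ 2 * (p : ℝ) ^ 2 := by
  have h1 := moment_eq (p := p) 3
  obtain ⟨h2, h3⟩ := two_dim_three (p := p)
  have hp1 := p_gt (p := p)
  have hp0 : 0 < (p : ℝ) - 1 := by linarith
  rw [abs_le]
  constructor
  · refine le_of_mul_le_mul_left (a := (p : ℝ) - 1) ?_ hp0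
    rw [h1]
    nlinarith [sq_nonneg ((p : ℝ) - 1), mul_pos hp0 hp0]
  · refine le_of_mul_le_mul_left (a := (p : ℝ) - 1) ?_ hp0
    rw [h1]
    have h4 : (1 : ℝ) ≤ (p : ℝ) - 1 := by
      have : (2 : ℝ) ≤ p := by exact_mod_cast hp.out.two_le
      linarith
    nlinarith [mul_pos hp0 hp0, mul_nonneg hp0.le (mul_nonneg (sub_nonneg.2 h4) (sub_nonneg.2 h4))]

theorem m4 : ∑ a : ZMod p, rk p a 1 ^ 4 ≤ 2 * (p : ℝ) ^ 3 := by
  have h1 := moment_eq (p := p) 4
  have h2 := two_dim_four (p := p)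
  have hp1 := p_gt (p := p)
  have hp0 : 0 < (p : ℝ) - 1 := by linarith
  refine le_of_mul_le_mul_left (a := (p : ℝ) - 1) ?_ hp0
  rw [h1]
  have h3 : (p : ℝ) ^ 2 * (3 * ((p : ℝ) - 1) ^ 2) - ((p : ℝ) - 1) ^ 4 ≤
      ((p : ℝ) - 1) * (2 * (p : ℝ) ^ 3) := by
    have h4 : ((p : ℝ) - 1) * (2 * (p : ℝ) ^ 3) -
        ((p : ℝ) ^ 2 * (3 * ((p : ℝ) - 1) ^ 2) - ((p : ℝ) - 1) ^ 4) =
        ((p : ℝ) - 1) * (3 * (p : ℝ) - 1) := by ring
    have h5 : 0 ≤ ((p : ℝ) - 1) * (3 * (p : ℝ) - 1) := mul_nonneg hp0.le (by linarith)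
    linarith
  have h6 : ((p : ℝ) - 1) * (-1) ^ 4 = (p : ℝ) - 1 := by ring
  rw [h6]
  linarith

end Pool.Agent.TH375.KL
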