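import Pool.Agent.TH375.KL.Scales
import Pool.Agent.TH375.KL.Moments

set_option autoImplicit false

/-!
# Horizontal averages for almost all integers; the signs of Kloosterman sums
-/

namespace Pool.Agent.TH375.KL

open Finset Filter Topology

/-- Cesàro means over the primes, lower bound -/
theorem cesaro {ν : ℕ → ℝ} (hν : ∀ p, |ν p| ≤ 1) {m δ : ℝ} (hδ : 0 < δ)
    (h : ∀ᶠ p in atTop, Nat.Prime p → m - δ ≤ ν p) :
    ∀ᶠ x in atTop, (m - 2 * δ) * Nat.primeCounting x ≤ ∑ p ∈ Pr x, ν p := by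
  obtain ⟨p0, hp0⟩ := eventually_atTop.1 h
  have hinf : Tendsto (fun x => (Nat.primeCounting x : ℝ)) atTop atTop :=
    tendsto_natCast_atTop_atTop.comp Nat.tendsto_primeCounting
  have h2 : ∀ᶠ x : ℕ in atTop, (|m| + 1 + δ) * (p0 + 1) / δ ≤ Nat.primeCounting x :=
    hinf.eventually_ge_atTop _
  filter_upwards [h2] with x h3
  have h4 : ∑ p ∈ Pr x, (ν p - (m - δ)) ≥ -((|m| + 1 + δ) * (p0 + 1)) := by
    rw [← sum_filter_add_sum_filter_not (Pr x) (fun p => p < p0)]
    have h5 : 0 ≤ ∑ p ∈ (Pr x).filter (fun p => ¬ p < p0), (ν p - (m - δ)) := by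
      refine sum_nonneg fun p hp => ?_
      rw [mem_filter] at hp
      have h6 := hp0 p (by omega) (by
        have := hp.1
        unfold Pr at this
        exact (mem_filter.1 this).2)
      linarith
    have h6 : -((|m| + 1 + δ) * (p0 + 1)) ≤
        ∑ p ∈ (Pr x).filter (fun p => p < p0), (ν p - (m - δ)) := by
      have h7 : ∀ p ∈ (Pr x).filter (fun p => p < p0), -(|m| + 1 + δ) ≤ ν p - (m - δ) := by
        intro p _
        have h8 := (abs_le.1 (hν p)).1
        have h9 := le_abs_self m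
        linarith
      have h8 := card_nsmul_le_sum _ _ _ h7
      refine le_trans ?_ h8
      rw [nsmul_eq_mul]
      have h9 : (((Pr x).filter (fun p => p < p0)).card : ℝ) ≤ p0 + 1 := by
        have h10 : (Pr x).filter (fun p => p < p0) ⊆ range p0 := by
          intro p hp
          exact mem_range.2 (mem_filter.1 hp).2
        have h11 := card_le_card h10
        rw [card_range] at h11
        have h12 : (((Pr x).filter (fun p => p < p0)).card : ℝ) ≤ p0 := by exact_mod_cast h11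
        linarith
      have h10 : 0 ≤ |m| + 1 + δ := by positivity
      nlinarith
    linarith
  rw [sum_sub_distrib, sum_const, card_Pr, nsmul_eq_mul] at h4
  have h5 : (|m| + 1 + δ) * (p0 + 1) ≤ δ * Nat.primeCounting x := by
    rw [div_le_iff₀ hδ] at h3
    linarith
  linarith

/-- **The transfer principle**: a lower bound for the means modulo `p` gives the same lower bound for the
averages over the primes up to `x`, for all integers with few exceptions and all `x` in `[y, z]` -/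
theorem core {G : ∀ p : ℕ, ZMod p → ℝ} (hG : ∀ p a, |G p a| ≤ 1) {m : ℝ}
    (hm : ∀ δ : ℝ, 0 < δ → ∀ᶠ p in atTop, Nat.Prime p → m - δ ≤ nu G p) {ε : ℝ} (hε : 0 < ε) :
    ∃ C : ℝ, 0 < C ∧ ∀ (M : ℤ) (N y z : ℕ), 2 ≤ y → y ≤ z →
      open scoped Classical in
      (((Icc 1 N).filter fun n : ℕ => ∃ x, y ≤ x ∧ x ≤ z ∧
        ∑ p ∈ Pr x, G p ((M + (n : ℤ) : ℤ) : ZMod p) < (m - ε) * Nat.primeCounting x).card : ℝ) ≤
        C * (N / Nat.primeCounting y + z * Real.log z ^ 2) := by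
  classical
  obtain ⟨C₀, hC₀, hsc⟩ := all_scales
  set ε' : ℝ := min (ε / 2) 1 with hε'
  have hε0 : 0 < ε' := by positivity
  have hε1 : ε' ≤ 1 := min_le_right _ _
  have hε2 : ε' ≤ ε / 2 := min_le_left _ _
  obtain ⟨x0, hx0⟩ := eventually_atTop.1 (cesaro (nu_le hG) (δ := ε / 4) (by positivity)
    (hm (ε / 4) (by positivity)))
  set C₁ : ℝ := C₀ / ε' ^ 3 with hC₁
  have hC₁0 : 0 < C₁ := by positivity
  refine ⟨C₁ + Nat.primeCounting x0, by positivity, ?_⟩
  intro M N y z hy hyz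
  have hpy : (0 : ℝ) < Nat.primeCounting y := by exact_mod_cast pi_pos hy
  have hz : 0 ≤ (z : ℝ) * Real.log z ^ 2 := by positivity
  have hN : 0 ≤ (N : ℝ) / Nat.primeCounting y := by positivity
  by_cases hyx : x0 ≤ y
  · have h1 := hsc G hG ε' hε0 hε1 M N y z hy hyz
    have h2 : ((Icc 1 N).filter fun n : ℕ => ∃ x, y ≤ x ∧ x ≤ z ∧
        ∑ p ∈ Pr x, G p ((M + (n : ℤ) : ℤ) : ZMod p) < (m - ε) * Nat.primeCounting x) ⊆
        (Icc 1 N).filter fun n : ℕ => ∃ x, y ≤ x ∧ x ≤ z ∧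
          ε' * Nat.primeCounting x < |dev G x (M + (n : ℤ))| := by
      intro n hn
      rw [mem_filter] at hn ⊢
      obtain ⟨hn1, x, hx1, hx2, hx3⟩ := hn
      refine ⟨hn1, x, hx1, hx2, ?_⟩
      have h3 := hx0 x (hyx.trans hx1)
      have hpx : (0 : ℝ) < Nat.primeCounting x := by exact_mod_cast pi_pos (hy.trans hx1)
      have h4 : dev G x (M + (n : ℤ)) < -(ε / 2) * Nat.primeCounting x := by
        unfold dev
        rw [sum_sub_distrib]
        have h5 : (m - 2 * (ε / 4)) * (Nat.primeCounting x : ℝ) =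
            (m - ε) * Nat.primeCounting x + ε / 2 * Nat.primeCounting x := by ring
        linarith
      have h5 : -dev G x (M + (n : ℤ)) ≤ |dev G x (M + (n : ℤ))| := neg_le_abs _
      have h6 : ε' * (Nat.primeCounting x : ℝ) ≤ ε / 2 * Nat.primeCounting x :=
        mul_le_mul_of_nonneg_right hε2 hpx.le
      linarith
    have h3 := card_le_card h2
    have h4 : ((((Icc 1 N).filter fun n : ℕ => ∃ x, y ≤ x ∧ x ≤ z ∧
        ∑ p ∈ Pr x, G p ((M + (n : ℤ) : ℤ) : ZMod p) < (m - ε) * Nat.primeCounting x).card : ℕ) :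
        ℝ) ≤ C₁ * (N / Nat.primeCounting y + z * Real.log z ^ 2) :=
      le_trans (by exact_mod_cast h3) h1
    refine h4.trans ?_
    have h5 : (0 : ℝ) ≤ Nat.primeCounting x0 := Nat.cast_nonneg _
    have h6 : 0 ≤ (Nat.primeCounting x0 : ℝ) * (N / Nat.primeCounting y + z * Real.log z ^ 2) :=
      mul_nonneg h5 (add_nonneg hN hz)
    linarith
  · push Not at hyx
    have h1 : ((((Icc 1 N).filter fun n : ℕ => ∃ x, y ≤ x ∧ x ≤ z ∧
        ∑ p ∈ Pr x, G p ((M + (n : ℤ) : ℤ) : ZMod p) < (m - ε) * Nat.primeCounting x).card : ℕ) :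
        ℝ) ≤ N := by
      have := card_filter_le (Icc 1 N) fun n : ℕ => ∃ x, y ≤ x ∧ x ≤ z ∧
        ∑ p ∈ Pr x, G p ((M + (n : ℤ) : ℤ) : ZMod p) < (m - ε) * Nat.primeCounting x
      rw [Nat.card_Icc, Nat.add_sub_cancel] at this
      exact_mod_cast this
    refine h1.trans ?_
    have h2 : (Nat.primeCounting y : ℝ) ≤ Nat.primeCounting x0 := by
      exact_mod_cast Nat.monotone_primeCounting hyx.le
    have h3 : (N : ℝ) ≤ Nat.primeCounting x0 * (N / Nat.primeCounting y) := by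
      rw [mul_div_assoc', le_div_iff₀ hpy]
      nlinarith [Nat.cast_nonneg (α := ℝ) N]
    have h4 : 0 ≤ C₁ * (N / Nat.primeCounting y + z * Real.log z ^ 2) :=
      mul_nonneg hC₁0.le (add_nonneg hN hz)
    have h5 : 0 ≤ (Nat.primeCounting x0 : ℝ) * (z * Real.log z ^ 2) :=
      mul_nonneg (Nat.cast_nonneg _) hz
    linarith

/-- the minorant of the indicator function of `x > 0` -/
noncomputable def PP (x : ℝ) : ℝ :=
  (-x ^ 4 - Real.sqrt 2 / 2 * x ^ 3 + 4 * x ^ 2 + 3 * Real.sqrt 2 * x) / 8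

theorem PP_le (x : ℝ) : PP x ≤ if 0 < x then 1 else 0 := by
  have hs : Real.sqrt 2 ^ 2 = 2 := Real.sq_sqrt (by norm_num)
  have hs0 : 0 < Real.sqrt 2 := by positivity
  split_ifs with h
  · have h1 : 1 - PP x = (x - Real.sqrt 2) ^ 2 * (x ^ 2 + 5 * Real.sqrt 2 / 2 * x + 4) / 8 := by
      unfold PP
      linear_combination ((-4 + 4 * x ^ 2 - 5 / 2 * Real.sqrt 2 * x) / 8) * hs
    have h2 : 0 ≤ (x - Real.sqrt 2) ^ 2 * (x ^ 2 + 5 * Real.sqrt 2 / 2 * x + 4) / 8 := by
      positivity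
    linarith
  · push Not at h
    have h1 : PP x = x * ((x + Real.sqrt 2) ^ 2 * (3 * Real.sqrt 2 / 2 - x)) / 8 := by
      unfold PP
      linear_combination (-(x * (3 * Real.sqrt 2 / 2 - x) + 3 * x ^ 2) / 8) * hs
    rw [h1]
    have h2 : 0 ≤ (x + Real.sqrt 2) ^ 2 * (3 * Real.sqrt 2 / 2 - x) :=
      mul_nonneg (sq_nonneg _) (by nlinarith)
    have h3 := mul_nonneg (neg_nonneg.2 h) h2
    linarith

theorem PP_le_add {x η : ℝ} (hη : 0 ≤ η) : PP x ≤ (if η < x then 1 else 0) + η := by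
  have h1 := PP_le x
  split_ifs with h
  · split_ifs at h1
    · linarith
    · linarith
  · push Not at h
    rcases le_or_gt x 0 with h2 | h2
    · rw [if_neg (not_lt.2 h2)] at h1
      linarith
    · rw [if_pos h2] at h1
      rcases le_or_gt x 1 with h3 | h3
      · have hs : Real.sqrt 2 ^ 2 = 2 := Real.sq_sqrt (by norm_num)
        have hs0 : 0 < Real.sqrt 2 := by positivity
        have hs1 : Real.sqrt 2 ≤ 3 / 2 := by
          rw [Real.sqrt_le_left (by norm_num)]
          norm_num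
        have h4 : PP x ≤ x := by
          unfold PP
          have e : x - (-x ^ 4 - Real.sqrt 2 / 2 * x ^ 3 + 4 * x ^ 2 + 3 * Real.sqrt 2 * x) / 8 =
              x * ((1 - x) * (3 - x - x ^ 2) + (5 - 3 * Real.sqrt 2) +
                Real.sqrt 2 / 2 * x ^ 2) / 8 := by ring
          have h5 : 0 ≤ (1 - x) * (3 - x - x ^ 2) :=
            mul_nonneg (by linarith) (by nlinarith)
          have h6 : 0 ≤ 5 - 3 * Real.sqrt 2 := by linarith
          have h7 : 0 ≤ Real.sqrt 2 / 2 * x ^ 2 := by positivity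
          have h8 : 0 ≤ x * ((1 - x) * (3 - x - x ^ 2) + (5 - 3 * Real.sqrt 2) +
                Real.sqrt 2 / 2 * x ^ 2) / 8 :=
            div_nonneg (mul_nonneg h2.le (by linarith)) (by norm_num)
          linarith
        linarith
      · linarith

section

variable {p : ℕ} [hp : Fact p.Prime]

/-- the mean value of the minorant -/
theorem PP_mean {σ : ℝ} (hσ : σ ^ 2 = 1) : (1 / 4 - 1 / Real.sqrt p) * p ≤
    ∑ a : ZMod p, PP (σ * rk p a 1 / Real.sqrt p) := by
  set t := Real.sqrt p with ht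
  have hp0 : (0 : ℝ) < p := by exact_mod_cast hp.out.pos
  have ht0 : 0 < t := Real.sqrt_pos.2 hp0
  have htt : t ^ 2 = p := Real.sq_sqrt hp0.le
  have hσ4 : σ ^ 4 = 1 := by
    have : σ ^ 4 = (σ ^ 2) ^ 2 := by ring
    rw [this, hσ, one_pow]
  have h2 : ∑ a : ZMod p, PP (σ * rk p a 1 / t) =
      (-(∑ a : ZMod p, rk p a 1 ^ 4) / t ^ 4 -
        Real.sqrt 2 / 2 * (σ ^ 3 * (∑ a : ZMod p, rk p a 1 ^ 3) / t ^ 3) +
        4 * ((∑ a : ZMod p, rk p a 1 ^ 2) / t ^ 2) +
        3 * Real.sqrt 2 * (σ * (∑ a : ZMod p, rk p a 1) / t)) / 8 := by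
    unfold PP
    rw [← sum_div]
    congr 1
    rw [sum_add_distrib, sum_add_distrib, sum_sub_distrib]
    congr 1
    · congr 1
      · congr 1
        · rw [sum_neg_distrib, neg_div, sum_div]
          congr 1
          refine sum_congr rfl fun a _ => ?_
          rw [div_pow, mul_pow, hσ4, one_mul]
        · rw [← mul_sum]
          congr 1
          rw [mul_sum, sum_div]
          exact sum_congr rfl fun a _ => by rw [div_pow, mul_pow]
      · rw [← mul_sum]
        congr 1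
        rw [sum_div]
        refine sum_congr rfl fun a _ => ?_
        rw [div_pow, mul_pow, hσ, one_mul]
    · rw [← mul_sum]
      congr 1
      rw [mul_sum, sum_div]
  rw [h2, m1, m2]
  have h4 := m4 (p := p)
  have h3 := abs_le.1 (m3 (p := p))
  have e4 : t ^ 4 = (p : ℝ) ^ 2 := by rw [← htt]; ring
  have e3 : t ^ 3 = p * t := by rw [← htt]; ring
  have hσ1 : |σ| = 1 := by
    have := sq_abs σ
    rw [hσ] at this
    have h0 := abs_nonneg σ
    nlinarith
  have b4 : (∑ a : ZMod p, rk p a 1 ^ 4) / t ^ 4 ≤ 2 * p := by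
    rw [e4, div_le_iff₀ (by positivity)]
    calc _ ≤ 2 * (p : ℝ) ^ 3 := h4
      _ = _ := by ring
  have b3 : |σ ^ 3 * (∑ a : ZMod p, rk p a 1 ^ 3) / t ^ 3| ≤ 2 * t := by
    rw [abs_div, abs_mul, abs_pow, hσ1, one_pow, one_mul, abs_of_pos (by positivity : 0 < t ^ 3),
      div_le_iff₀ (by positivity)]
    refine (m3 (p := p)).trans (le_of_eq ?_)
    rw [← htt]
    ring
  have b3' := (abs_le.1 b3).2
  have b2 : 4 * ((p : ℝ) * ((p : ℝ) - 1) / t ^ 2) = 4 * ((p : ℝ) - 1) := by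
    rw [htt]
    field_simp
  rw [b2, mul_zero, zero_div, mul_zero, add_zero]
  have hs : Real.sqrt 2 / 2 ≤ 1 := by
    have : Real.sqrt 2 ≤ 2 := by
      rw [Real.sqrt_le_left (by norm_num)]
      norm_num
    linarith
  have hs0 : 0 ≤ Real.sqrt 2 / 2 := by positivity
  have h5 : Real.sqrt 2 / 2 * (σ ^ 3 * (∑ a : ZMod p, rk p a 1 ^ 3) / t ^ 3) ≤ 2 * t := by
    have h6 : Real.sqrt 2 / 2 * (σ ^ 3 * (∑ a : ZMod p, rk p a 1 ^ 3) / t ^ 3) ≤
        Real.sqrt 2 / 2 * (2 * t) := mul_le_mul_of_nonneg_left b3' hs0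
    have h7 : Real.sqrt 2 / 2 * (2 * t) ≤ 1 * (2 * t) :=
      mul_le_mul_of_nonneg_right hs (by positivity)
    linarith
  have h6 : 1 / t * (p : ℝ) = t := by
    rw [← htt]
    field_simp
  have ht1 : 1 ≤ t := by
    rw [ht, Real.one_le_sqrt]
    exact_mod_cast hp.out.one_le
  have h7 : (1 / 4 - 1 / t) * (p : ℝ) = p / 4 - t := by
    rw [sub_mul, h6]
    ring
  rw [h7, neg_div]
  linarith

/-- values of either sign and of absolute value `> η √p` occur for at least a proportion `1/4 - η` of the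
residue classes -/
theorem sign_mean {σ : ℝ} (hσ : σ ^ 2 = 1) {η : ℝ} (hη : 0 ≤ η) : (1 / 4 - η - 1 / Real.sqrt p) * p ≤
    ∑ a : ZMod p, if η * Real.sqrt p < σ * rk p a 1 then (1 : ℝ) else 0 := by
  have h0 := PP_mean (p := p) hσ
  set t := Real.sqrt p with ht
  have hp0 : (0 : ℝ) < p := by exact_mod_cast hp.out.pos
  have ht0 : 0 < t := Real.sqrt_pos.2 hp0
  have h1 : ∀ a : ZMod p, PP (σ * rk p a 1 / t) ≤
      (if η * t < σ * rk p a 1 then (1 : ℝ) else 0) + η := by
    intro a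
    have h2 := PP_le_add (x := σ * rk p a 1 / t) hη
    have h3 : (η < σ * rk p a 1 / t) ↔ η * t < σ * rk p a 1 := lt_div_iff₀ ht0
    simpa only [h3] using h2
  have h2 := h0.trans (sum_le_sum fun a _ => h1 a)
  rw [sum_add_distrib, sum_const, card_univ, ZMod.card, nsmul_eq_mul] at h2
  linarith

end

end Pool.Agent.TH375.KL
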