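import Pool.Agent.TH375.KL.JointMoments

set_option autoImplicit false

/-!
# The weights attached to the Legendre symbol
-/

namespace Pool.Agent.TH375.KL

open Finset

/-- the weights -/
noncomputable def jwt (p : ℕ) (y : ZMod p) : ℝ := (jacobiSym (y.val : ℤ) p : ℝ) / Real.sqrt p

theorem jac_val {p : ℕ} [hp : Fact p.Prime] (y : ZMod p) :
    jacobiSym (y.val : ℤ) p = quadraticChar (ZMod p) y := by
  rw [jac_eq]
  congr 1
  rw [Int.cast_natCast, ZMod.natCast_zmod_val]

theorem sq_char {p : ℕ} [hp : Fact p.Prime] :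
    ∑ y : ZMod p, ((quadraticChar (ZMod p) y : ℤ) : ℝ) ^ 2 = p - 1 := by
  classical
  have h1 : ∀ y : ZMod p, ((quadraticChar (ZMod p) y : ℤ) : ℝ) ^ 2 =
      1 - if y = 0 then (1 : ℝ) else 0 := by
    intro y
    split_ifs with h
    · rw [h]
      simp
    · have := quadraticChar_sq_one h
      have h2 : ((quadraticChar (ZMod p) y : ℤ) : ℝ) ^ 2 = 1 := by exact_mod_cast this
      rw [h2, sub_zero]
  rw [sum_congr rfl fun y _ => h1 y, sum_sub_distrib, sum_const, card_univ, ZMod.card,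
    sum_ite_eq' univ (0 : ZMod p)]
  simp

theorem jwt_good {p : ℕ} [hp : Fact p.Prime] (h2 : p ≠ 2) : Good 1 p (jwt p) := by
  have hp1 : (1 : ℝ) ≤ p := by exact_mod_cast hp.out.one_le
  have hp0 : (0 : ℝ) < p := by linarith
  have hs1 : 1 ≤ Real.sqrt p := Real.one_le_sqrt.2 hp1
  have hs0 : 0 < Real.sqrt p := by linarith
  have hss : Real.sqrt p * Real.sqrt p = p := Real.mul_self_sqrt hp0.le
  have hsum : ∑ y : ZMod p, jwt p y ^ 2 = (p - 1) / p := by
    unfold jwt
    have h3 : ∀ y : ZMod p, ((jacobiSym (y.val : ℤ) p : ℝ) / Real.sqrt p) ^ 2 =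
        ((quadraticChar (ZMod p) y : ℤ) : ℝ) ^ 2 / p := by
      intro y
      rw [jac_val, div_pow, sq (Real.sqrt p), hss]
    rw [sum_congr rfl fun y _ => h3 y, ← sum_div, sq_char]
  refine ⟨?_, ?_, ?_, ?_⟩
  · intro y
    unfold jwt
    rw [abs_div, abs_of_pos hs0]
    refine div_le_div_of_nonneg_right ?_ hs0.le
    have h3 := jacobiSym.trichotomy (y.val : ℤ) p
    rcases h3 with h3 | h3 | h3 <;> rw [h3] <;> norm_num
  · unfold jwt
    rw [← sum_div, sum_congr rfl fun y _ => by rw [jac_val]]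
    have h3 : ringChar (ZMod p) ≠ 2 := by
      rw [ZMod.ringChar_zmod_n]
      exact h2
    have h4 := quadraticChar_sum_zero h3
    have h5 : ∑ y : ZMod p, ((quadraticChar (ZMod p) y : ℤ) : ℝ) = 0 := by exact_mod_cast h4
    rw [h5, zero_div]
  · rw [hsum, pow_one, mul_div_cancel₀ _ hp0.ne']
    linarith
  · rw [hsum, pow_one, mul_div_cancel₀ _ hp0.ne']
    have h1 : (1 - 1 / Real.sqrt p) * p = p - Real.sqrt p := by
      have h2 : (1 / Real.sqrt p) * p = Real.sqrt p := by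
        rw [one_div, inv_mul_eq_div, div_eq_iff hs0.ne']
        exact hss.symm
      linear_combination -h2
    rw [h1]
    linarith

/-- a polynomial in the variable `X 0` -/
noncomputable def gg (g : Polynomial ℤ) : MvPolynomial (Fin 1) ℤ :=
  Polynomial.aeval (MvPolynomial.X 0) g

theorem val_eq {m p : ℕ} [hp : Fact p.Prime] (g : Polynomial ℤ) (c : Fin m → ℤ)
    (u : Fin 1 → ZMod p) :
    famVal (gg g) (fun j : Fin m => MvPolynomial.X 0 ^ (j : ℕ)) p c u =
      Polynomial.aeval (u 0)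
        (g + ∑ j : Fin m, Polynomial.C (c j) * Polynomial.X ^ (j : ℕ)) := by
  unfold famVal gg
  rw [← Polynomial.aeval_algHom_apply]
  simp

theorem sum_jwt {m p : ℕ} [hp : Fact p.Prime] (g : Polynomial ℤ) (c : Fin m → ℤ) :
    ∑ u : Fin 1 → ZMod p,
      jwt p (famVal (gg g) (fun j : Fin m => MvPolynomial.X 0 ^ (j : ℕ)) p c u) =
      ((∑ x ∈ range p, jacobiSym ((g + ∑ j : Fin m, Polynomial.C (c j) *
        Polynomial.X ^ (j : ℕ)).eval (x : ℤ)) p : ℤ) : ℝ) / Real.sqrt p := by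
  classical
  unfold jwt
  rw [← sum_div]
  congr 1
  push_cast
  rw [← (Equiv.funUnique (Fin 1) (ZMod p)).symm.sum_comp, ← sum_range_zmod
    (f := fun y => ((jacobiSym ((famVal (gg g)
      (fun j : Fin m => MvPolynomial.X 0 ^ (j : ℕ)) p c
        ((Equiv.funUnique (Fin 1) (ZMod p)).symm y)).val : ℤ) p : ℤ) : ℝ))]
  refine sum_congr rfl fun x _ => ?_
  rw [jac_val, val_eq, jac_eq]
  congr 2
  simp only [Equiv.funUnique_symm_apply, uniqueElim_const]
  have h := Polynomial.eval_intCast_map (algebraMap ℤ (ZMod p))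
    (g + ∑ j : Fin m, Polynomial.C (c j) * Polynomial.X ^ (j : ℕ)) (x : ℤ)
  rw [Int.cast_natCast] at h
  rw [Polynomial.aeval_def, Polynomial.eval₂_eq_eval_map, h]
  simp

end Pool.Agent.TH375.KL
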