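import Pool.Agent.TH375.KL.BoxDual
import Pool.Agent.TH375.KL.JacobiWeights
import Pool.Agent.H341R2.WeilSharp

set_option autoImplicit false

/-!
# The logarithm of the number of points on average over a family of elliptic curves
-/

namespace Pool.Agent.TH375.KL

open Finset

section Pair

variable {R V Ω : Type*} [AddGroup R] [Fintype R] [DecidableEq R] [Fintype V] [DecidableEq V]
  [AddGroup Ω] [Fintype Ω]

omit [DecidableEq V] in
theorem pair_first {ev : Ω →+ (V → R)} (h1 : ∀ v, Function.Surjective fun c => ev c v)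
    (W : V → R → ℝ) (h0 : ∀ v, ∑ y, W v y = 0) : ∑ c, ∑ v, W v (ev c v) = 0 := by
  have hΩ : (0 : ℝ) < Fintype.card Ω := by exact_mod_cast Fintype.card_pos
  rw [sum_comm]
  refine sum_eq_zero fun v _ => ?_
  set f : Ω →+ R :=
    { toFun := fun c => ev c v
      map_zero' := by simp
      map_add' := fun c c' => by simp } with hf
  have h2 := avg_surj f (h1 v) fun q => W v q
  rw [h0, zero_div] at h2
  exact (div_eq_zero_iff.1 h2).resolve_right hΩ.ne'

omit [DecidableEq V] in
theorem pair_second {ev : Ω →+ (V → R)} (h1 : ∀ v, Function.Surjective fun c => ev c v)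
    (h2 : ∀ v v', v ≠ v' → Function.Surjective fun c => (ev c v, ev c v'))
    (W : V → R → ℝ) (h0 : ∀ v, ∑ y, W v y = 0) :
    (∑ c, (∑ v, W v (ev c v)) ^ 2) / (Fintype.card Ω : ℝ) =
      ∑ v, (∑ y, W v y ^ 2) / (Fintype.card R : ℝ) := by
  have hΩ : (0 : ℝ) < Fintype.card Ω := by exact_mod_cast Fintype.card_pos
  have e1 : ∑ c, (∑ v, W v (ev c v)) ^ 2 =
      ∑ v, ∑ v', ∑ c, W v (ev c v) * W v' (ev c v') := by
    simp only [sq, sum_mul_sum]
    rw [sum_comm]
    refine sum_congr rfl fun v _ => ?_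
    rw [sum_comm]
  rw [e1, sum_div]
  refine sum_congr rfl fun v _ => ?_
  rw [sum_eq_single v]
  · set f : Ω →+ R :=
      { toFun := fun c => ev c v
        map_zero' := by simp
        map_add' := fun c c' => by simp } with hf
    have h3 := avg_surj f (h1 v) fun q => W v q ^ 2
    rw [← h3]
    congr 1
    exact sum_congr rfl fun c _ => (sq _).symm
  · intro v' _ hne
    set f : Ω →+ R × R :=
      { toFun := fun c => (ev c v, ev c v')
        map_zero' := by simp
        map_add' := fun c c' => by simp } with hf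
    have h3 := avg_surj f (h2 v v' hne.symm) fun q => W v q.1 * W v' q.2
    have h4 : ∑ q : R × R, W v q.1 * W v' q.2 = 0 := by
      rw [Fintype.sum_prod_type]
      simp only [← mul_sum]
      rw [← sum_mul, h0, zero_mul]
    rw [h4, zero_div] at h3
    exact (div_eq_zero_iff.1 h3).resolve_right hΩ.ne'
  · intro h6
    exact absurd (mem_univ v) h6

end Pair

/-- estimates for the logarithm -/
theorem log_est {q T : ℝ} (hq : 1.73 ≤ q) (hT : |T| ≤ 2 * q) :
    0 < 1 + (1 + T) / q ^ 2 ∧ |Real.log (1 + (1 + T) / q ^ 2)| ≤ 18 / q ∧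
    |Real.log (1 + (1 + T) / q ^ 2) - ((1 + T) / q ^ 2 - ((1 + T) / q ^ 2) ^ 2 / 2)| ≤
      1000 / q ^ 3 := by
  have hq0 : 0 < q := by linarith
  rw [abs_le] at hT
  set x := (1 + T) / q ^ 2 with hx
  have hxq : x * q ^ 2 = 1 + T := by
    rw [hx]
    field_simp
  clear_value x
  have hlow : 1 / 6 ≤ 1 + x := by
    have h1 : (1 + x) * q ^ 2 ≥ 1 / 6 * q ^ 2 := by nlinarith
    exact le_of_mul_le_mul_right h1 (by positivity)
  have hxabs : |x| ≤ 3 / q := by
    rw [hx, abs_div, abs_of_pos (by positivity : 0 < q ^ 2), div_le_div_iff₀ (by positivity) hq0]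
    have h1 : |1 + T| ≤ 3 * q := by
      rw [abs_le]
      constructor <;> linarith
    calc |1 + T| * q ≤ 3 * q * q := mul_le_mul_of_nonneg_right h1 hq0.le
      _ = 3 * q ^ 2 := by ring
  have hlog : |Real.log (1 + x)| ≤ 6 * |x| := by
    have hpos : 0 < 1 + x := by linarith
    have h1 : Real.log (1 + x) ≤ x := by
      have := Real.log_le_sub_one_of_pos hpos
      linarith
    have h2 : 1 - (1 + x)⁻¹ ≤ Real.log (1 + x) := Real.one_sub_inv_le_log_of_pos hpos
    have h3 : -(6 * |x|) ≤ 1 - (1 + x)⁻¹ := by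
      have h4 : (1 + x)⁻¹ ≤ 6 := by
        rw [inv_le_comm₀ hpos (by norm_num)]
        linarith
      have h5 : 1 - (1 + x)⁻¹ = x * (1 + x)⁻¹ := by
        field_simp
        ring
      rw [h5]
      have h6 : 0 < (1 + x)⁻¹ := inv_pos.2 hpos
      have h7 := neg_abs_le x
      have h8 := abs_nonneg x
      nlinarith
    have h9 := le_abs_self x
    have h10 := abs_nonneg x
    rw [abs_le]
    constructor <;> linarith
  refine ⟨by linarith, ?_, ?_⟩
  · calc |Real.log (1 + x)| ≤ 6 * |x| := hlog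
      _ ≤ 6 * (3 / q) := by linarith
      _ = 18 / q := by ring
  · rcases lt_or_ge q 6.1 with hs | hl
    · have h1 : |Real.log (1 + x) - (x - x ^ 2 / 2)| ≤ 6 * |x| + (|x| + |x| ^ 2 / 2) := by
        refine (abs_sub _ _).trans (add_le_add hlog ?_)
        refine (abs_sub _ _).trans ?_
        rw [abs_div, abs_pow, abs_of_pos (by norm_num : (0 : ℝ) < 2)]
      refine h1.trans ?_
      have h2 := abs_nonneg x
      have h3 : |x| ≤ 3 / 1.73 := hxabs.trans (div_le_div_of_nonneg_left (by norm_num)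
        (by norm_num) hq)
      have h4 : 6 * |x| + (|x| + |x| ^ 2 / 2) ≤ 8 * |x| := by
        have h5 : |x| ≤ 2 := h3.trans (by norm_num)
        nlinarith
      have h6 : 8 * |x| ≤ 24 / q := by
        calc 8 * |x| ≤ 8 * (3 / q) := by linarith
          _ = 24 / q := by ring
      refine h4.trans (h6.trans ?_)
      rw [div_le_div_iff₀ hq0 (by positivity)]
      have h7 : q ^ 2 ≤ 38 := by nlinarith
      calc 24 * q ^ 3 = 24 * q * q ^ 2 := by ring
        _ ≤ 24 * q * 38 := mul_le_mul_of_nonneg_left h7 (by positivity)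
        _ ≤ 1000 * q := by linarith
    · have hx2 : |x| ≤ 1 / 2 := by
        refine hxabs.trans ?_
        rw [div_le_iff₀ hq0]
        linarith
      have h1 := Real.abs_log_sub_add_sum_range_le (x := -x) (by rw [abs_neg]; linarith) 2
      rw [sum_range_succ, sum_range_one, abs_neg] at h1
      have h2 : (-x) ^ (0 + 1) / ((0 : ℕ) + 1 : ℝ) + (-x) ^ (1 + 1) / ((1 : ℕ) + 1 : ℝ) +
          Real.log (1 - -x) = Real.log (1 + x) - (x - x ^ 2 / 2) := by
        rw [sub_neg_eq_add]
        push_cast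
        ring
      rw [h2] at h1
      refine h1.trans ?_
      have h3 : |x| ^ (2 + 1) / (1 - |x|) ≤ 2 * |x| ^ 3 := by
        rw [div_le_iff₀ (by linarith)]
        have h4 : 0 ≤ |x| ^ 3 := by positivity
        have h5 : (1 : ℝ) ≤ 2 * (1 - |x|) := by linarith
        calc |x| ^ (2 + 1) = |x| ^ 3 * 1 := by ring
          _ ≤ |x| ^ 3 * (2 * (1 - |x|)) := mul_le_mul_of_nonneg_left h5 h4
          _ = _ := by ring
      refine h3.trans ?_
      have h6 : |x| ^ 3 ≤ (3 / q) ^ 3 := pow_le_pow_left₀ (abs_nonneg x) hxabs 3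
      calc 2 * |x| ^ 3 ≤ 2 * (3 / q) ^ 3 := by linarith
        _ = 54 / q ^ 3 := by
            rw [div_pow]
            ring
        _ ≤ 1000 / q ^ 3 := div_le_div_of_nonneg_right (by norm_num) (by positivity)

section Mean

variable {p : ℕ} [hp : Fact p.Prime]

/-- the character sum of the member -/
noncomputable def TT (P H : ZMod p → ZMod p) (c : Fin 2 → ZMod p) : ℝ :=
  ∑ u, ((quadraticChar (ZMod p) (P u + H u * (c 0 + c 1 * u)) : ℤ) : ℝ)

/-- the contribution of the base locus -/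
noncomputable def BB (P H : ZMod p → ZMod p) : ℝ :=
  ∑ u, if H u = 0 then ((quadraticChar (ZMod p) (P u) : ℤ) : ℝ) else 0

/-- the weights away from the base locus -/
noncomputable def WW (P H : ZMod p → ZMod p) (u y : ZMod p) : ℝ :=
  if H u = 0 then 0 else ((quadraticChar (ZMod p) (P u + H u * y) : ℤ) : ℝ)

/-- evaluation of linear polynomials -/
def evl : (Fin 2 → ZMod p) →+ (ZMod p → ZMod p) where
  toFun c := fun u => c 0 + c 1 * u
  map_zero' := by
    funext u
    simp
  map_add' c c' := by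
    funext u
    simp only [Pi.add_apply]
    ring

theorem TT_eq (P H : ZMod p → ZMod p) (c : Fin 2 → ZMod p) :
    TT P H c = BB P H + ∑ u, WW P H u (evl c u) := by
  unfold TT BB
  rw [← sum_add_distrib]
  refine sum_congr rfl fun u _ => ?_
  unfold WW
  split_ifs with h
  · rw [h, zero_mul, add_zero, add_zero]
  · rw [zero_add]
    rfl

theorem evl_single (v : ZMod p) : Function.Surjective fun c : Fin 2 → ZMod p => evl c v := by
  intro y
  refine ⟨![y, 0], ?_⟩
  show ![y, 0] 0 + ![y, 0] 1 * v = y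
  simp

theorem evl_pair (v v' : ZMod p) (h : v ≠ v') :
    Function.Surjective fun c : Fin 2 → ZMod p => (evl c v, evl c v') := by
  rintro ⟨y, y'⟩
  have h1 : v - v' ≠ 0 := sub_ne_zero.2 h
  refine ⟨![y - (y - y') / (v - v') * v, (y - y') / (v - v')], ?_⟩
  show ((y - (y - y') / (v - v') * v) + (y - y') / (v - v') * v,
    (y - (y - y') / (v - v') * v) + (y - y') / (v - v') * v') = (y, y')
  refine Prod.ext ?_ ?_
  · show (y - (y - y') / (v - v') * v) + (y - y') / (v - v') * v = y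
    ring
  · show (y - (y - y') / (v - v') * v) + (y - y') / (v - v') * v' = y'
    have h2 : (y - y') / (v - v') * (v - v') = y - y' := div_mul_cancel₀ _ h1
    linear_combination -h2

theorem WW_sum (hp2 : p ≠ 2) (P H : ZMod p → ZMod p) (u : ZMod p) : ∑ y, WW P H u y = 0 := by
  classical
  unfold WW
  split_ifs with h
  · simp
  · have h3 : ringChar (ZMod p) ≠ 2 := by
      rw [ZMod.ringChar_zmod_n]
      exact hp2
    have h4 := quadraticChar_sum_zero h3
    have h5 : ∑ y : ZMod p, ((quadraticChar (ZMod p) y : ℤ) : ℝ) = 0 := by exact_mod_cast h4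
    rw [← h5]
    exact Equiv.sum_comp ((Equiv.mulLeft₀ (H u) h).trans (Equiv.addLeft (P u)))
      fun y => ((quadraticChar (ZMod p) y : ℤ) : ℝ)

theorem WW_sq (P H : ZMod p → ZMod p) (u : ZMod p) :
    ∑ y, WW P H u y ^ 2 = if H u = 0 then 0 else (p : ℝ) - 1 := by
  classical
  unfold WW
  split_ifs with h
  · simp
  · rw [← sq_char]
    exact Equiv.sum_comp ((Equiv.mulLeft₀ (H u) h).trans (Equiv.addLeft (P u)))
      fun y => ((quadraticChar (ZMod p) y : ℤ) : ℝ) ^ 2

theorem BB_abs (P H : ZMod p → ZMod p) (hρ : (univ.filter fun u => H u = 0).card ≤ 1) :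
    |BB P H| ≤ 1 := by
  unfold BB
  rw [← sum_filter]
  refine (abs_sum_le_sum_abs _ _).trans ?_
  have h1 : ∀ u ∈ univ.filter (fun u => H u = 0),
      |((quadraticChar (ZMod p) (P u) : ℤ) : ℝ)| ≤ 1 := by
    intro u _
    rcases quadraticChar_isQuadratic (ZMod p) (P u) with h1 | h1 | h1 <;> rw [h1] <;> simp
  refine (sum_le_sum h1).trans ?_
  rw [sum_const, nsmul_eq_mul, mul_one]
  exact_mod_cast hρ

theorem card_two : (Fintype.card (Fin 2 → ZMod p) : ℝ) = (p : ℝ) ^ 2 := by
  rw [Fintype.card_fun, ZMod.card, Fintype.card_fin]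
  push_cast
  rfl

/-- the mean of the logarithm -/
theorem mean_est (hp2 : p ≠ 2) (P H : ZMod p → ZMod p)
    (hρ : (univ.filter fun u => H u = 0).card ≤ 1)
    (hW : ∀ c, |TT P H c| ≤ 2 * Real.sqrt p) :
    |(∑ c : Fin 2 → ZMod p, Real.log (1 + (1 + TT P H c) / p)) / (p : ℝ) ^ 2 -
        (BB P H + 1 / 2) / p| ≤ 1003 / (p * Real.sqrt p) := by
  have hp3 : 3 ≤ p := by
    have h1 := hp.out.two_le
    omega
  have hpr : (3 : ℝ) ≤ p := by exact_mod_cast hp3
  have hp0 : (0 : ℝ) < p := by linarith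
  set q := Real.sqrt p with hq
  have hqq : q ^ 2 = p := Real.sq_sqrt hp0.le
  have hq1 : 1.73 ≤ q := by
    rw [hq]
    refine Real.le_sqrt_of_sq_le ?_
    norm_num
    linarith
  have hq0 : 0 < q := by linarith
  set B := BB P H with hB
  have hBabs : |B| ≤ 1 := BB_abs P H hρ
  -- the first two moments
  have hM1 : ∑ c : Fin 2 → ZMod p, TT P H c = (p : ℝ) ^ 2 * B := by
    have h1 := pair_first (ev := evl (p := p)) evl_single (WW P H) (WW_sum hp2 P H)
    rw [sum_congr rfl fun c _ => TT_eq P H c, sum_add_distrib, h1, add_zero, sum_const, card_univ,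
      nsmul_eq_mul, card_two]
  set ρ : ℝ := ((univ.filter fun u => H u = 0).card : ℝ) with hρd
  have hρ0 : 0 ≤ ρ := Nat.cast_nonneg _
  have hρ1 : ρ ≤ 1 := by
    rw [hρd]
    exact_mod_cast hρ
  have hM2 : ∑ c : Fin 2 → ZMod p, TT P H c ^ 2 =
      (p : ℝ) ^ 2 * (B ^ 2 + (p - ρ) * (p - 1) / p) := by
    have h1 := pair_first (ev := evl (p := p)) evl_single (WW P H) (WW_sum hp2 P H)
    have h2 := pair_second (ev := evl (p := p)) evl_single evl_pair (WW P H) (WW_sum hp2 P H)
    rw [card_two, ZMod.card] at h2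
    have h3 : ∑ v : ZMod p, (∑ y, WW P H v y ^ 2) / (p : ℝ) = (p - ρ) * (p - 1) / p := by
      rw [← sum_div]
      congr 1
      rw [sum_congr rfl fun v _ => WW_sq P H v]
      have h4 : ∀ v : ZMod p, (if H v = 0 then (0 : ℝ) else (p : ℝ) - 1) =
          ((p : ℝ) - 1) - if H v = 0 then ((p : ℝ) - 1) else 0 := by
        intro v
        split_ifs <;> ring
      rw [sum_congr rfl fun v _ => h4 v, sum_sub_distrib, sum_const, card_univ, ZMod.card,
        ← sum_filter, sum_const, nsmul_eq_mul, nsmul_eq_mul]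
      ring
    rw [h3, div_eq_iff (by positivity)] at h2
    have h5 : ∀ c : Fin 2 → ZMod p, TT P H c ^ 2 = B ^ 2 + 2 * B * ∑ u, WW P H u (evl c u) +
        (∑ u, WW P H u (evl c u)) ^ 2 := by
      intro c
      rw [TT_eq P H c]
      ring
    rw [sum_congr rfl fun c _ => h5 c, sum_add_distrib, sum_add_distrib, ← mul_sum, h1, h2,
      sum_const, card_univ, nsmul_eq_mul, card_two]
    ring
  -- the main term
  set X : (Fin 2 → ZMod p) → ℝ := fun c => (1 + TT P H c) / p with hX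
  have hmain : (∑ c, (X c - X c ^ 2 / 2)) / (p : ℝ) ^ 2 - (B + 1 / 2) / p =
      -((1 + B) ^ 2) / (2 * (p : ℝ) ^ 2) + (p + ρ * p - ρ) / (2 * (p : ℝ) ^ 3) := by
    have h1 : ∑ c, (X c - X c ^ 2 / 2) = ((p : ℝ) ^ 2 + (p : ℝ) ^ 2 * B) / p -
        ((p : ℝ) ^ 2 + 2 * ((p : ℝ) ^ 2 * B) + (p : ℝ) ^ 2 * (B ^ 2 + (p - ρ) * (p - 1) / p)) /
          (2 * (p : ℝ) ^ 2) := by
      have h2 : ∀ c, X c - X c ^ 2 / 2 = (1 + TT P H c) / p -
          (1 + 2 * TT P H c + TT P H c ^ 2) / (2 * (p : ℝ) ^ 2) := by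
        intro c
        rw [hX]
        simp only
        field_simp
        ring
      rw [sum_congr rfl fun c _ => h2 c, sum_sub_distrib, ← sum_div, ← sum_div, sum_add_distrib,
        sum_add_distrib, sum_add_distrib, ← mul_sum, hM1, hM2, sum_const, card_univ, nsmul_eq_mul,
        card_two, mul_one]
    rw [h1]
    field_simp
    ring
  have herr : |(∑ c, Real.log (1 + X c)) / (p : ℝ) ^ 2 -
      (∑ c, (X c - X c ^ 2 / 2)) / (p : ℝ) ^ 2| ≤ 1000 / q ^ 3 := by
    rw [← sub_div, ← sum_sub_distrib, abs_div, abs_of_pos (by positivity : 0 < (p : ℝ) ^ 2),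
      div_le_iff₀ (by positivity)]
    refine (abs_sum_le_sum_abs _ _).trans ?_
    have h1 : ∀ c ∈ (univ : Finset (Fin 2 → ZMod p)),
        |Real.log (1 + X c) - (X c - X c ^ 2 / 2)| ≤ 1000 / q ^ 3 := by
      intro c _
      have h2 := (log_est hq1 (hW c)).2.2
      rw [hqq] at h2
      exact h2
    refine (sum_le_sum h1).trans (le_of_eq ?_)
    rw [sum_const, card_univ, nsmul_eq_mul, card_two, mul_comm]
  have hq3 : (p : ℝ) * q = q ^ 3 := by
    rw [← hqq]
    ring
  rw [hq3]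
  have hsmall : |-((1 + B) ^ 2) / (2 * (p : ℝ) ^ 2) + (p + ρ * p - ρ) / (2 * (p : ℝ) ^ 3)| ≤
      3 / q ^ 3 := by
    rw [abs_le] at hBabs
    have h1 : |-((1 + B) ^ 2) / (2 * (p : ℝ) ^ 2)| ≤ 2 / (p : ℝ) ^ 2 := by
      rw [abs_div, abs_neg, abs_of_nonneg (sq_nonneg _),
        abs_of_pos (by positivity : 0 < 2 * (p : ℝ) ^ 2), div_le_div_iff₀ (by positivity)
        (by positivity)]
      have h2 : (1 + B) ^ 2 ≤ 4 := by nlinarith
      have h3 : (0 : ℝ) < (p : ℝ) ^ 2 := by positivity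
      nlinarith
    have h4 : |(p + ρ * p - ρ) / (2 * (p : ℝ) ^ 3)| ≤ 1 / (p : ℝ) ^ 2 := by
      have h5 : 0 ≤ (p : ℝ) + ρ * p - ρ := by nlinarith
      rw [abs_div, abs_of_nonneg h5, abs_of_pos (by positivity : 0 < 2 * (p : ℝ) ^ 3),
        div_le_div_iff₀ (by positivity) (by positivity)]
      have h6 : (p : ℝ) + ρ * p - ρ ≤ 2 * p := by nlinarith
      have h7 : (0 : ℝ) < (p : ℝ) ^ 2 := by positivity
      calc ((p : ℝ) + ρ * p - ρ) * (p : ℝ) ^ 2 ≤ 2 * p * (p : ℝ) ^ 2 :=
            mul_le_mul_of_nonneg_right h6 h7.le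
        _ = 1 * (2 * (p : ℝ) ^ 3) := by ring
    refine (abs_add_le _ _).trans ((add_le_add h1 h4).trans ?_)
    rw [← add_div, ← hqq]
    norm_num
    rw [div_le_div_iff₀ (by positivity) (by positivity)]
    have h8 : q ^ 3 ≤ (q ^ 2) ^ 2 := by
      have h9 : 0 < q ^ 3 := by positivity
      have h10 : (q ^ 2) ^ 2 = q ^ 3 * q := by ring
      rw [h10]
      nlinarith
    linarith
  have hfin : (∑ c, Real.log (1 + X c)) / (p : ℝ) ^ 2 - (B + 1 / 2) / p =
      ((∑ c, Real.log (1 + X c)) / (p : ℝ) ^ 2 - (∑ c, (X c - X c ^ 2 / 2)) / (p : ℝ) ^ 2) +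
      ((∑ c, (X c - X c ^ 2 / 2)) / (p : ℝ) ^ 2 - (B + 1 / 2) / p) := by ring
  rw [hfin]
  refine (abs_add_le _ _).trans ?_
  rw [hmain]
  refine (add_le_add herr hsmall).trans (le_of_eq ?_)
  ring

/-- the mean square of the logarithm -/
theorem mean_sq (hp2 : p ≠ 2) (P H : ZMod p → ZMod p)
    (hW : ∀ c, |TT P H c| ≤ 2 * Real.sqrt p) :
    (∑ c : Fin 2 → ZMod p, Real.log (1 + (1 + TT P H c) / p) ^ 2) / (p : ℝ) ^ 2 ≤ 324 / p := by
  have hp3 : 3 ≤ p := by
    have h1 := hp.out.two_le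
    omega
  have hpr : (3 : ℝ) ≤ p := by exact_mod_cast hp3
  have hp0 : (0 : ℝ) < p := by linarith
  have hqq : Real.sqrt p ^ 2 = p := Real.sq_sqrt hp0.le
  have hq1 : 1.73 ≤ Real.sqrt p := by
    refine Real.le_sqrt_of_sq_le ?_
    norm_num
    linarith
  rw [div_le_iff₀ (by positivity)]
  have h1 : ∀ c ∈ (univ : Finset (Fin 2 → ZMod p)),
      Real.log (1 + (1 + TT P H c) / p) ^ 2 ≤ 324 / p := by
    intro c _
    have h2 := (log_est hq1 (hW c)).2.1
    rw [hqq] at h2
    have h3 := pow_le_pow_left₀ (abs_nonneg _) h2 2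
    rw [sq_abs, div_pow, hqq] at h3
    refine h3.trans (le_of_eq ?_)
    norm_num
  refine (sum_le_sum h1).trans (le_of_eq ?_)
  rw [sum_const, card_univ, nsmul_eq_mul, card_two, mul_comm]

end Mean

end Pool.Agent.TH375.KL
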