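import Pool.Agent.TH375.KL.GaussMom

set_option autoImplicit false

/-!
# Gaussian moments for almost all members of a linear family
-/

namespace Pool.Agent.TH375.KL

open Finset

theorem sum_inv_sqrt (x : ℕ) : ∑ i ∈ range (x + 1), 1 / Real.sqrt i ≤ 2 * Real.sqrt x := by
  induction x with
  | zero => simp
  | succ x ih =>
    rw [sum_range_succ]
    have h1 : 0 < Real.sqrt ((x + 1 : ℕ) : ℝ) := Real.sqrt_pos.2 (by positivity)
    have h2 : 1 / Real.sqrt ((x + 1 : ℕ) : ℝ) ≤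
        2 * Real.sqrt ((x + 1 : ℕ) : ℝ) - 2 * Real.sqrt (x : ℝ) := by
      rw [div_le_iff₀ h1]
      have h3 : Real.sqrt ((x + 1 : ℕ) : ℝ) * Real.sqrt ((x + 1 : ℕ) : ℝ) = ((x + 1 : ℕ) : ℝ) :=
        Real.mul_self_sqrt (Nat.cast_nonneg _)
      have h4 : Real.sqrt (x : ℝ) * Real.sqrt (x : ℝ) = (x : ℝ) :=
        Real.mul_self_sqrt (Nat.cast_nonneg _)
      push_cast at h3 ⊢
      nlinarith [sq_nonneg (Real.sqrt ((x : ℝ) + 1) - Real.sqrt (x : ℝ))]
    linarith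

/-- the conditions on the weights at the prime `p` -/
def Good (n p : ℕ) [Fact p.Prime] (w : ZMod p → ℝ) : Prop :=
  (∀ y, |w y| ≤ 1 / Real.sqrt p) ∧ ∑ y, w y = 0 ∧ (p : ℝ) ^ n * ∑ y, w y ^ 2 ≤ p ∧
    (1 - 1 / Real.sqrt p) * p ≤ (p : ℝ) ^ n * ∑ y, w y ^ 2

theorem iidm_gauss (n k : ℕ) : ∃ C : ℝ, 0 < C ∧ ∀ (w : ∀ p : ℕ, ZMod p → ℝ) (p : ℕ)
    (hp : Fact p.Prime), Good n p (w p) → |iidm n w k p - gm k| ≤ C * (1 / Real.sqrt p) := by
  obtain ⟨C, hC, h⟩ := gauss k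
  refine ⟨C, hC, ?_⟩
  intro w p hp hg
  obtain ⟨h1, h2, h3, h4⟩ := hg
  unfold iidm
  rw [dif_pos hp.out, iid_equiv]
  have hp1 : (1 : ℝ) ≤ p := by exact_mod_cast hp.out.one_le
  have hp0 : (0 : ℝ) < p := by linarith
  have hs1 : 1 ≤ Real.sqrt p := Real.one_le_sqrt.2 hp1
  have hcard : ((Fintype.card (Fin n → ZMod p) : ℕ) : ℝ) = (p : ℝ) ^ n := by
    rw [Fintype.card_fun, ZMod.card, Fintype.card_fin]
    push_cast
    rfl
  have hmo : (p : ℝ) ^ n * mo (w p) 2 = ((p : ℝ) ^ n * ∑ y, w p y ^ 2) / p := by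
    unfold mo
    rw [ZMod.card, mul_div_assoc]
  refine h (ZMod p) (w p) (1 / Real.sqrt p) (by positivity) ?_ h1 h2 _ ?_ ?_
  · rw [div_le_one (by linarith)]
    exact hs1
  · rw [hcard, hmo, div_le_one hp0]
    exact h3
  · rw [hcard, hmo, le_div_iff₀ hp0]
    exact h4

/-- **Gaussian moments for almost all members of a linear family** -/
theorem fam_gauss (n m k D : ℕ) (hk : 2 * k ≤ D + 1) : ∃ C : ℝ, 0 < C ∧
    ∀ (q₀ : ℕ) (w : ∀ p : ℕ, ZMod p → ℝ),
    (∀ (p : ℕ) (_ : Fact p.Prime), p ≠ q₀ → Good n p (w p)) →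
    ∀ (g : MvPolynomial (Fin n) ℤ) (e : Fin m → MvPolynomial (Fin n) ℤ),
    (∀ α : Fin n → ℕ, ∑ i, α i ≤ D → ∃ j, e j = ∏ i, MvPolynomial.X i ^ α i) →
    ∀ (A : Fin m → ℤ) (N z : ℕ), z ^ 2 ≤ N → ∀ K : ℝ, 0 < K →
    ({c : Fin m → ℤ | (∀ i, A i < c i ∧ c i ≤ A i + N) ∧ ∃ x : ℕ, 1 ≤ x ∧ x ≤ z ∧
      K * thr x < (∑ p ∈ (Prm x).filter (· ≠ q₀), (fam w g e k p c - gm k)) ^ 2}.ncard : ℝ) ≤
      C * (N : ℝ) ^ m / K := by
  classical
  obtain ⟨C₁, hC₁, hfam⟩ := fam_moments n m k D hk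
  obtain ⟨C₂, hC₂, hgauss⟩ := iidm_gauss n k
  refine ⟨4 * C₁ + 16 * C₂ ^ 2, by positivity, ?_⟩
  intro q₀ w hw g e he A N z hzN K hK
  -- the weights without the exceptional prime
  set w' : ∀ p : ℕ, ZMod p → ℝ := fun p y => if p = q₀ then 0 else w p y with hw'
  have hw'g : ∀ p, p ≠ q₀ → w' p = w p := by
    intro p hp
    funext y
    rw [hw']
    simp only
    rw [if_neg hp]
  have hw'q : w' q₀ = fun _ => 0 := by
    funext y
    rw [hw']
    simp only
    rw [if_true]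
  have hcond : ∀ (p : ℕ) (hp : Fact p.Prime), (∀ y, |w' p y| ≤ 1) ∧
      ∑ y, w' p y = 0 ∧ (p : ℝ) ^ n * ∑ y, w' p y ^ 2 ≤ p := by
    intro p hp
    have hp1 : (1 : ℝ) ≤ p := by exact_mod_cast hp.out.one_le
    have hs1 : 1 ≤ Real.sqrt p := Real.one_le_sqrt.2 hp1
    by_cases hpq : p = q₀
    · subst hpq
      rw [hw'q]
      refine ⟨fun y => by simp, by simp, ?_⟩
      simp
    · rw [hw'g p hpq]
      obtain ⟨h1, h2, h3, _⟩ := hw p hp hpq
      refine ⟨fun y => (h1 y).trans ?_, h2, h3⟩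
      rw [div_le_one (by linarith)]
      exact hs1
  have hbox : ({c : Fin m → ℤ | ∀ i, A i < c i ∧ c i ≤ A i + N}.ncard : ℝ) = (N : ℝ) ^ m := by
    have h1 : {c : Fin m → ℤ | ∀ i, A i < c i ∧ c i ≤ A i + N} =
        ((box A N : Finset (Fin m → ℤ)) : Set (Fin m → ℤ)) := by
      ext c
      rw [Set.mem_ofPred_eq, mem_coe]
      unfold box
      rw [Fintype.mem_piFinset]
      exact forall_congr' fun i => mem_Ioc.symm
    rw [h1, Set.ncard_coe_finset, card_box]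
    push_cast
    rfl
  have hboxfin : {c : Fin m → ℤ | ∀ i, A i < c i ∧ c i ≤ A i + N}.Finite := by
    refine (box A N).finite_toSet.subset ?_
    intro c hc
    rw [mem_coe]
    unfold box
    rw [Fintype.mem_piFinset]
    exact fun i => mem_Ioc.2 (hc i)
  rcases lt_or_ge K (16 * C₂ ^ 2) with hKs | hKl
  · -- trivial range
    have h1 : ({c : Fin m → ℤ | (∀ i, A i < c i ∧ c i ≤ A i + N) ∧ ∃ x : ℕ, 1 ≤ x ∧ x ≤ z ∧
      K * thr x < (∑ p ∈ (Prm x).filter (· ≠ q₀),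
        (fam w g e k p c - gm k)) ^ 2}.ncard : ℝ) ≤ (N : ℝ) ^ m := by
      rw [← hbox]
      refine Nat.cast_le.2 (Set.ncard_le_ncard ?_ hboxfin)
      intro c hc
      exact hc.1
    refine h1.trans ?_
    rw [le_div_iff₀ hK]
    have h2 : (0 : ℝ) ≤ (N : ℝ) ^ m := by positivity
    calc (N : ℝ) ^ m * K ≤ (N : ℝ) ^ m * (16 * C₂ ^ 2) :=
          mul_le_mul_of_nonneg_left hKs.le h2
      _ ≤ (4 * C₁ + 16 * C₂ ^ 2) * (N : ℝ) ^ m := by nlinarith
  · have h1 := hfam w' hcond g e he A N z hzN (K / 4) (by positivity)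
    have hsub : {c : Fin m → ℤ | (∀ i, A i < c i ∧ c i ≤ A i + N) ∧ ∃ x : ℕ, 1 ≤ x ∧ x ≤ z ∧
        K * thr x < (∑ p ∈ (Prm x).filter (· ≠ q₀), (fam w g e k p c - gm k)) ^ 2} ⊆
        {c : Fin m → ℤ | (∀ i, A i < c i ∧ c i ≤ A i + N) ∧ ∃ x : ℕ, 1 ≤ x ∧ x ≤ z ∧
        K / 4 * thr x < (∑ p ∈ Prm x, (fam w' g e k p c - iidm n w' k p)) ^ 2} := by
      rintro c ⟨hc, x, hx1, hxz, hx⟩
      refine ⟨hc, x, hx1, hxz, ?_⟩
      have h2 : ∑ p ∈ Prm x, (fam w' g e k p c - iidm n w' k p) =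
          ∑ p ∈ (Prm x).filter (· ≠ q₀), (fam w g e k p c - iidm n w k p) := by
        rw [← sum_filter_add_sum_filter_not (Prm x) (· ≠ q₀)]
        have h3 : ∑ p ∈ (Prm x).filter (fun p => ¬ p ≠ q₀),
            (fam w' g e k p c - iidm n w' k p) = 0 := by
          refine sum_eq_zero fun p hp => ?_
          rw [mem_filter, not_not] at hp
          obtain ⟨hp1, rfl⟩ := hp
          unfold Prm at hp1
          rw [mem_filter] at hp1
          unfold fam iidm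
          rw [dif_pos hp1.2, dif_pos hp1.2]
          have : Fact p.Prime := ⟨hp1.2⟩
          rw [hw'q]
          unfold iid
          simp only [sum_const_zero, sum_const, card_univ, nsmul_eq_mul]
          have hpos : (0 : ℝ) < Fintype.card ((Fin n → ZMod p) → ZMod p) := by
            exact_mod_cast Fintype.card_pos
          rw [mul_div_assoc, mul_div_cancel₀]
          · ring
          · exact hpos.ne'
        rw [h3, add_zero]
        refine sum_congr rfl fun p hp => ?_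
        rw [mem_filter] at hp
        unfold fam iidm
        rw [hw'g p hp.2]
      rw [h2]
      set P := ∑ p ∈ (Prm x).filter (· ≠ q₀), (fam w g e k p c - iidm n w k p) with hP
      set Q := ∑ p ∈ (Prm x).filter (· ≠ q₀), (iidm n w k p - gm k) with hQ
      have h3 : ∑ p ∈ (Prm x).filter (· ≠ q₀), (fam w g e k p c - gm k) = P + Q := by
        rw [hP, hQ, ← sum_add_distrib]
        exact sum_congr rfl fun p _ => by ring
      rw [h3] at hx
      have h4 : |Q| ≤ C₂ * (2 * Real.sqrt x) := by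
        rw [hQ]
        refine (abs_sum_le_sum_abs _ _).trans ?_
        have h5 : ∀ p ∈ (Prm x).filter (· ≠ q₀), |iidm n w k p - gm k| ≤
            C₂ * (1 / Real.sqrt p) := by
          intro p hp
          rw [mem_filter] at hp
          have hp1 := hp.1
          unfold Prm at hp1
          rw [mem_filter] at hp1
          have hf : Fact p.Prime := ⟨hp1.2⟩
          exact hgauss w p hf (hw p hf hp.2)
        refine (sum_le_sum h5).trans ?_
        rw [← mul_sum]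
        refine mul_le_mul_of_nonneg_left ?_ hC₂.le
        refine le_trans ?_ (sum_inv_sqrt x)
        refine sum_le_sum_of_subset_of_nonneg ?_ fun i _ _ => by positivity
        intro p hp
        rw [mem_filter] at hp
        have hp1 := hp.1
        unfold Prm at hp1
        exact (mem_filter.1 hp1).1
      have h5 : Q ^ 2 ≤ 4 * C₂ ^ 2 * thr x := by
        have h6 := pow_le_pow_left₀ (abs_nonneg Q) h4 2
        rw [sq_abs] at h6
        have h7 : (C₂ * (2 * Real.sqrt x)) ^ 2 = 4 * C₂ ^ 2 * x := by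
          rw [mul_pow, mul_pow, Real.sq_sqrt (Nat.cast_nonneg _)]
          ring
        rw [h7] at h6
        refine h6.trans ?_
        refine mul_le_mul_of_nonneg_left ?_ (by positivity)
        unfold thr
        have h8 : (1 : ℝ) ≤ ((Nat.log 2 x : ℝ) + 1) ^ 5 := by
          refine one_le_pow₀ ?_
          have : (0 : ℝ) ≤ Nat.log 2 x := Nat.cast_nonneg _
          linarith
        have h9 : (0 : ℝ) ≤ x := Nat.cast_nonneg _
        nlinarith
      have h6 : (P + Q) ^ 2 ≤ 2 * P ^ 2 + 2 * Q ^ 2 := by nlinarith [sq_nonneg (P - Q)]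
      have h7 : 0 ≤ thr x := by
        unfold thr
        positivity
      have h8 : 16 * C₂ ^ 2 * thr x ≤ K * thr x := mul_le_mul_of_nonneg_right hKl h7
      nlinarith
    have hfin : {c : Fin m → ℤ | (∀ i, A i < c i ∧ c i ≤ A i + N) ∧ ∃ x : ℕ, 1 ≤ x ∧ x ≤ z ∧
        K / 4 * thr x < (∑ p ∈ Prm x, (fam w' g e k p c - iidm n w' k p)) ^ 2}.Finite :=
      hboxfin.subset fun c hc => hc.1
    have h2 : ({c : Fin m → ℤ | (∀ i, A i < c i ∧ c i ≤ A i + N) ∧ ∃ x : ℕ, 1 ≤ x ∧ x ≤ z ∧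
        K * thr x < (∑ p ∈ (Prm x).filter (· ≠ q₀), (fam w g e k p c - gm k)) ^ 2}.ncard : ℝ) ≤
        C₁ * (N : ℝ) ^ m / (K / 4) :=
      le_trans (Nat.cast_le.2 (Set.ncard_le_ncard hsub hfin)) h1
    refine h2.trans ?_
    rw [div_le_div_iff₀ (by positivity) hK]
    have h3 : (0 : ℝ) ≤ (N : ℝ) ^ m := by positivity
    have h4 : 0 ≤ C₂ ^ 2 * (N : ℝ) ^ m * K := by positivity
    nlinarith

end Pool.Agent.TH375.KL
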