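import Pool.Agent.TH375.KL.Maximal

set_option autoImplicit false

/-!
# Horizontal counts for almost all members of a family
-/

namespace Pool.Agent.TH375.KL

open Finset

theorem sum_maximal {ι : Type*} (S : Finset ι) (φ : ι → ℕ → ℤ → ℝ)
    (h01 : ∀ s p t, φ s p t ^ 2 = φ s p t)
    (hper : ∀ (s : ι) (p : ℕ) (t u : ℤ), p.Prime → (p : ℤ) ∣ t - u → φ s p t = φ s p u)
    (M : ℤ) (N z : ℕ) (X : ℤ → ι → ℕ) (hX : ∀ t s, X t s ≤ z) :
    ∑ n ∈ Icc 1 N, ∑ s ∈ S, (∑ p ∈ Prm (X (M + (n : ℤ)) s), φ s p (M + (n : ℤ)) -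
      ∑ p ∈ Prm (X (M + (n : ℤ)) s), mv (φ s) p) ^ 2 ≤
      6 * (Nat.log 2 z + 2) ^ 2 * (N + (z : ℝ) ^ 2) *
        ∑ s ∈ S, ∑ p ∈ Prm z, mv (φ s) p := by
  rw [sum_comm, mul_sum]
  refine sum_le_sum fun s _ => ?_
  have h1 := maximal_dual (φ s) (hper s) M N z (fun t => X t s) (fun t => hX t s)
  refine le_trans (le_of_eq ?_) (h1.trans (le_of_eq ?_))
  · exact sum_congr rfl fun n _ => by rw [sum_sub_distrib]
  · congr 1
    refine sum_congr rfl fun p _ => ?_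
    unfold mv
    congr 1
    exact sum_congr rfl fun u _ => h01 s p _

/-- **Almost all members**: the number of `t` in an interval of length `N` at which the counts are far from the
mean values for some choice of the cut-offs `X s ≤ z` -/
theorem few_members {ι : Type*} (S : Finset ι) (φ : ι → ℕ → ℤ → ℝ)
    (h01 : ∀ s p t, φ s p t ^ 2 = φ s p t)
    (hper : ∀ (s : ι) (p : ℕ) (t u : ℤ), p.Prime → (p : ℤ) ∣ t - u → φ s p t = φ s p u)
    (M : ℤ) (N z : ℕ) {K : ℝ} (hK : 0 < K) (cnt : ι → ℤ → ℕ → ℝ) (mn : ι → ℕ → ℝ)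
    (hcnt : ∀ s t x, cnt s t x = ∑ p ∈ Prm x, φ s p t)
    (hmn : ∀ s x, mn s x = ∑ p ∈ Prm x, mv (φ s) p) :
    ({t : ℤ | M < t ∧ t ≤ M + N ∧ ∃ X : ι → ℕ, (∀ s, X s ≤ z) ∧
      K * (Nat.log 2 z + 2) ^ 2 * ∑ s ∈ S, mn s z <
        ∑ s ∈ S, (cnt s t (X s) - mn s (X s)) ^ 2}.ncard : ℝ) ≤ 6 * (N + (z : ℝ) ^ 2) / K := by
  classical
  set bad : ℤ → Prop := fun t => ∃ X : ι → ℕ, (∀ s, X s ≤ z) ∧
      K * (Nat.log 2 z + 2) ^ 2 * ∑ s ∈ S, mn s z <
        ∑ s ∈ S, (cnt s t (X s) - mn s (X s)) ^ 2 with hbad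
  set X : ℤ → ι → ℕ := fun t => if h : bad t then h.choose else fun _ => 0 with hXd
  have hX : ∀ t s, X t s ≤ z := by
    intro t s
    rw [hXd]
    by_cases h : bad t
    · simp only [dif_pos h]
      exact h.choose_spec.1 s
    · simp only [dif_neg h]
      exact Nat.zero_le _
  have hXb : ∀ t, bad t → K * (Nat.log 2 z + 2) ^ 2 * ∑ s ∈ S, mn s z <
      ∑ s ∈ S, (cnt s t (X t s) - mn s (X t s)) ^ 2 := by
    intro t h
    have h1 := h.choose_spec.2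
    rw [hXd]
    simp only [dif_pos h]
    exact h1
  have hsum := sum_maximal S φ h01 hper M N z X hX
  have hsum' : ∑ n ∈ Icc 1 N, ∑ s ∈ S, (cnt s (M + (n : ℤ)) (X (M + (n : ℤ)) s) -
      mn s (X (M + (n : ℤ)) s)) ^ 2 ≤
      6 * (Nat.log 2 z + 2) ^ 2 * (N + (z : ℝ) ^ 2) * ∑ s ∈ S, mn s z := by
    refine le_trans (le_of_eq ?_) (hsum.trans (le_of_eq ?_))
    · exact sum_congr rfl fun n _ => sum_congr rfl fun s _ => by rw [hcnt, hmn]
    · congr 1
      exact sum_congr rfl fun s _ => (hmn s z).symm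
  have hmv0 : ∀ s p, 0 ≤ mv (φ s) p := by
    intro s p
    unfold mv
    refine div_nonneg (sum_nonneg fun u _ => ?_) (Nat.cast_nonneg _)
    rw [← h01]
    exact sq_nonneg _
  set W : ℝ := ∑ s ∈ S, mn s z with hW
  have hW0 : 0 ≤ W := by
    rw [hW]
    refine sum_nonneg fun s _ => ?_
    rw [hmn]
    exact sum_nonneg fun p _ => hmv0 s p
  set B := (Icc 1 N).filter fun n : ℕ => bad (M + (n : ℤ)) with hB
  have hcard : ({t : ℤ | M < t ∧ t ≤ M + N ∧ bad t}.ncard : ℝ) ≤ B.card := by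
    have h1 : {t : ℤ | M < t ∧ t ≤ M + N ∧ bad t} ⊆
        ((B.image fun n : ℕ => M + (n : ℤ) : Finset ℤ) : Set ℤ) := by
      rintro a ⟨h2, h3, h4⟩
      rw [Finset.mem_coe, Finset.mem_image]
      have e : M + ((a - M).toNat : ℤ) = a := by omega
      refine ⟨(a - M).toNat, ?_, e⟩
      rw [hB, Finset.mem_filter, Finset.mem_Icc, e]
      exact ⟨⟨by omega, by omega⟩, h4⟩
    have h2 := Set.ncard_le_ncard h1 (Finset.finite_toSet _)
    rw [Set.ncard_coe_finset] at h2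
    exact_mod_cast h2.trans Finset.card_image_le
  refine hcard.trans ?_
  set ℓ : ℝ := (Nat.log 2 z + 2) ^ 2 with hℓ
  have hℓ0 : 0 < ℓ := by positivity
  have hBle : ∀ n ∈ B, K * ℓ * W < ∑ s ∈ S, (cnt s (M + (n : ℤ)) (X (M + (n : ℤ)) s) -
      mn s (X (M + (n : ℤ)) s)) ^ 2 := by
    intro n hn
    rw [hB, mem_filter] at hn
    exact hXb _ hn.2
  have hsub : ∑ n ∈ B, ∑ s ∈ S, (cnt s (M + (n : ℤ)) (X (M + (n : ℤ)) s) -
      mn s (X (M + (n : ℤ)) s)) ^ 2 ≤ 6 * ℓ * (N + (z : ℝ) ^ 2) * W := by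
    refine le_trans (sum_le_sum_of_subset_of_nonneg (filter_subset _ _) fun n _ _ => ?_) hsum'
    exact sum_nonneg fun s _ => sq_nonneg _
  rcases B.eq_empty_or_nonempty with h0 | h0
  · rw [h0, card_empty, Nat.cast_zero]
    positivity
  · have h1 := sum_lt_sum_of_nonempty h0 hBle
    rw [sum_const, nsmul_eq_mul] at h1
    have h2 := h1.trans_le hsub
    have hWp : 0 < W := by
      rcases hW0.eq_or_lt with h3 | h3
      · rw [← h3, mul_zero, mul_zero, mul_zero] at h2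
        exact absurd h2 (lt_irrefl _)
      · exact h3
    rw [le_div_iff₀ hK]
    have h3 : (B.card * K : ℝ) * (ℓ * W) < 6 * (N + (z : ℝ) ^ 2) * (ℓ * W) := by
      calc (B.card * K : ℝ) * (ℓ * W) = B.card * (K * ℓ * W) := by ring
        _ < 6 * ℓ * (N + (z : ℝ) ^ 2) * W := h2
        _ = _ := by ring
    exact (lt_of_mul_lt_mul_right h3 (by positivity)).le

end Pool.Agent.TH375.KL
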