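import Pool.Agent.TH375.KL.Interp

set_option autoImplicit false

/-!
# The moments of sums of independent variables are close to the Gaussian moments
-/

namespace Pool.Agent.TH375.KL

open Finset

/-- the moments of the standard normal distribution -/
noncomputable def gm : ℕ → ℝ
  | 0 => 1
  | 1 => 0
  | k + 2 => ((k : ℝ) + 1) * gm k

theorem gm_nonneg : ∀ k, 0 ≤ gm k
  | 0 => by rw [gm]; exact zero_le_one
  | 1 => by rw [gm]
  | k + 2 => by
    rw [gm]
    exact mul_nonneg (by positivity) (gm_nonneg k)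

theorem gm_odd : ∀ k, k % 2 = 1 → gm k = 0
  | 0, h => by omega
  | 1, _ => by rw [gm]
  | k + 2, h => by rw [gm, gm_odd k (by omega), mul_zero]

section

variable {R : Type*} [Fintype R] [Nonempty R]

/-- the moments of one variable -/
noncomputable def mo (w : R → ℝ) (j : ℕ) : ℝ := (∑ y, w y ^ j) / (Fintype.card R : ℝ)

theorem iid_zero_var (w : R → ℝ) (k : ℕ) : iid (Fin 0) w k = 0 ^ k := by
  unfold iid
  simp

theorem iid_succ (w : R → ℝ) (M k : ℕ) : iid (Fin (M + 1)) w k =
    ∑ j ∈ range (k + 1), (k.choose j : ℝ) * (mo w j * iid (Fin M) w (k - j)) := by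
  classical
  have hR : (Fintype.card R : ℝ) ≠ 0 := by
    have : 0 < Fintype.card R := Fintype.card_pos
    exact_mod_cast this.ne'
  unfold iid mo
  have h1 : ∑ Y : Fin (M + 1) → R, (∑ v, w (Y v)) ^ k =
      ∑ y : R, ∑ Y : Fin M → R, (w y + ∑ v, w (Y v)) ^ k := by
    rw [← Equiv.sum_comp (Fin.consEquiv fun _ => R), Fintype.sum_prod_type]
    refine sum_congr rfl fun y _ => sum_congr rfl fun Y _ => ?_
    rw [Fin.sum_univ_succ]
    rfl
  rw [h1, sum_div]
  simp only [add_pow]
  have h2 : ∀ y : R, ∑ Y : Fin M → R, ∑ j ∈ range (k + 1),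
      w y ^ j * (∑ v, w (Y v)) ^ (k - j) * (k.choose j : ℝ) =
      ∑ j ∈ range (k + 1), (k.choose j : ℝ) * (w y ^ j *
        ∑ Y : Fin M → R, (∑ v, w (Y v)) ^ (k - j)) := by
    intro y
    rw [sum_comm]
    refine sum_congr rfl fun j _ => ?_
    rw [mul_sum, mul_sum]
    exact sum_congr rfl fun Y _ => by ring
  rw [← sum_div, sum_congr rfl fun y _ => h2 y, sum_comm, sum_div]
  refine sum_congr rfl fun j _ => ?_
  rw [← mul_sum, ← sum_mul]
  have h3 : (Fintype.card (Fin (M + 1) → R) : ℝ) =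
      (Fintype.card R : ℝ) * (Fintype.card (Fin M → R) : ℝ) := by
    rw [Fintype.card_fun, Fintype.card_fun, Fintype.card_fin, Fintype.card_fin, pow_succ]
    push_cast
    ring
  rw [h3]
  have h4 : (Fintype.card (Fin M → R) : ℝ) ≠ 0 := by
    have : 0 < Fintype.card (Fin M → R) := Fintype.card_pos
    exact_mod_cast this.ne'
  field_simp

theorem iid_equiv {V : Type*} [Fintype V] [DecidableEq V] (w : R → ℝ) (k : ℕ) :
    iid V w k = iid (Fin (Fintype.card V)) w k := by
  classical
  unfold iid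
  have e := Fintype.equivFin V
  have h1 : (Fintype.card (V → R) : ℝ) = (Fintype.card (Fin (Fintype.card V) → R) : ℝ) := by
    rw [Fintype.card_fun, Fintype.card_fun, Fintype.card_fin]
  rw [h1]
  congr 1
  refine Fintype.sum_equiv (e.arrowCongr (Equiv.refl R)) _ _ fun Y => ?_
  congr 1
  rw [← e.sum_comp]
  refine sum_congr rfl fun v _ => ?_
  simp

/-- the approximation -/
noncomputable def bb (w : R → ℝ) (k M : ℕ) : ℝ :=
  gm k * mo w 2 ^ (k / 2) * (M.descFactorial (k / 2) : ℝ)

theorem bb_succ (w : R → ℝ) (k i : ℕ) : bb w (k + 2) (i + 1) - bb w (k + 2) i =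
    ((k + 2).choose 2 : ℝ) * (mo w 2 * bb w k i) := by
  unfold bb
  rcases Nat.even_or_odd k with hk | hk
  · obtain ⟨h, rfl⟩ := hk
    have e1 : (h + h + 2) / 2 = h + 1 := by omega
    have e2 : (h + h) / 2 = h := by omega
    rw [e1, e2, Nat.succ_descFactorial_succ, Nat.descFactorial_succ, gm]
    have e3 : ((h + h + 2).choose 2 : ℝ) = ((h : ℝ) + h + 1) * (h + 1) := by
      have h1 := Nat.choose_two_right (h + h + 2)
      have h2 : (h + h + 2) * (h + h + 2 - 1) / 2 = (h + h + 1) * (h + 1) := by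
        have : (h + h + 2) * (h + h + 2 - 1) = 2 * ((h + h + 1) * (h + 1)) := by
          rw [show h + h + 2 - 1 = h + h + 1 by omega]
          ring
        rw [this, Nat.mul_div_cancel_left _ (by norm_num)]
      rw [h1, h2]
      push_cast
      ring
    rw [e3]
    push_cast
    rcases Nat.lt_or_ge i h with h3 | h3
    · rw [Nat.descFactorial_eq_zero_iff_lt.2 h3]
      simp
    · rw [Nat.cast_sub h3]
      ring
  · have h1 : k % 2 = 1 := Nat.odd_iff.1 hk
    rw [gm_odd k h1, gm_odd (k + 2) (by omega)]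
    ring

theorem mo_bound (w : R → ℝ) {δ : ℝ} (hδ0 : 0 ≤ δ) (hδ : δ ≤ 1) (hw : ∀ y, |w y| ≤ δ) {j : ℕ}
    (hj : 3 ≤ j) : |mo w j| ≤ δ * mo w 2 := by
  unfold mo
  have hR : (0 : ℝ) < Fintype.card R := by exact_mod_cast Fintype.card_pos
  rw [abs_div, abs_of_pos hR, ← mul_div_assoc]
  refine div_le_div_of_nonneg_right ?_ hR.le
  refine (abs_sum_le_sum_abs _ _).trans ?_
  rw [mul_sum]
  refine sum_le_sum fun y _ => ?_
  obtain ⟨i, rfl⟩ : ∃ i, j = i + 3 := ⟨j - 3, by omega⟩
  rw [abs_pow, show i + 3 = (i + 1) + 2 by ring, pow_add, sq_abs]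
  refine mul_le_mul_of_nonneg_right ?_ (sq_nonneg _)
  calc |w y| ^ (i + 1) ≤ δ ^ (i + 1) := pow_le_pow_left₀ (abs_nonneg _) (hw y) _
    _ ≤ δ ^ 1 := pow_le_pow_of_le_one hδ0 hδ (by omega)
    _ = δ := pow_one _

theorem mo_one (w : R → ℝ) (h0 : ∑ y, w y = 0) : mo w 1 = 0 := by
  unfold mo
  simp only [pow_one]
  rw [h0, zero_div]

theorem mo_zero (w : R → ℝ) : mo w 0 = 1 := by
  unfold mo
  have hR : (0 : ℝ) < Fintype.card R := by exact_mod_cast Fintype.card_pos
  simp [hR.ne']

theorem mo_two_nonneg (w : R → ℝ) : 0 ≤ mo w 2 := by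
  unfold mo
  positivity

/-- a bound for all moments -/
theorem iid_abs_le (w : R → ℝ) (h1 : ∀ y, |w y| ≤ 1) (h0 : ∑ y, w y = 0) {M : ℕ}
    (h2 : (M : ℝ) * mo w 2 ≤ 1) (k : ℕ) :
    |iid (Fin M) w k| ≤ 1 + (Nat.factorial (2 * k) : ℝ) * (2 * Real.exp 1) := by
  classical
  have hR : (0 : ℝ) < Fintype.card R := by exact_mod_cast Fintype.card_pos
  have hpos : (0 : ℝ) < Fintype.card (Fin M → R) := by exact_mod_cast Fintype.card_pos
  have h3 : ((Fintype.card (Fin M) : ℕ) : ℝ) * (∑ y, w y ^ 2) ≤ Fintype.card R := by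
    rw [Fintype.card_fin]
    unfold mo at h2
    rwa [← mul_div_assoc, div_le_one hR] at h2
  have h4 := iid_le (V := Fin M) w h1 h0 h3 k
  refine le_trans ?_ (add_le_add_right h4 1)
  unfold iid
  rw [abs_div, abs_of_pos hpos, div_le_iff₀ hpos, add_mul, one_mul, div_mul_cancel₀ _ hpos.ne']
  refine (abs_sum_le_sum_abs _ _).trans ?_
  have h5 : ∀ Y : Fin M → R, |(∑ v, w (Y v)) ^ k| ≤ 1 + (∑ v, w (Y v)) ^ (2 * k) := by
    intro Y
    set x := (∑ v, w (Y v)) ^ k with hx
    have h6 : (∑ v, w (Y v)) ^ (2 * k) = x ^ 2 := by rw [hx, ← pow_mul, mul_comm]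
    rw [h6]
    rcases abs_cases x with ⟨h7, _⟩ | ⟨h7, _⟩
    · rw [h7]; nlinarith [sq_nonneg (x - 1)]
    · rw [h7]; nlinarith [sq_nonneg (x + 1)]
  refine (sum_le_sum fun Y _ => h5 Y).trans ?_
  rw [sum_add_distrib, sum_const, card_univ, nsmul_eq_mul, mul_one]

end

theorem approx : ∀ k : ℕ, ∃ C : ℝ, 0 < C ∧ ∀ (R : Type) [Fintype R] [Nonempty R] (w : R → ℝ)
    (δ : ℝ), 0 ≤ δ → δ ≤ 1 → (∀ y, |w y| ≤ δ) → ∑ y, w y = 0 → ∀ M : ℕ, (M : ℝ) * mo w 2 ≤ 1 →
    |iid (Fin M) w k - bb w k M| ≤ C * δ := by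
  intro k
  induction k using Nat.strong_induction_on with
  | _ k ih =>
    match k, ih with
    | 0, _ =>
      refine ⟨1, one_pos, ?_⟩
      intro R _ _ w δ hδ0 _ _ _ M _
      have hpos : (0 : ℝ) < Fintype.card (Fin M → R) := by exact_mod_cast Fintype.card_pos
      have h1 : iid (Fin M) w 0 = 1 := by
        unfold iid
        simp only [pow_zero, sum_const, card_univ, nsmul_eq_mul, mul_one]
        exact div_self hpos.ne'
      have h2 : bb w 0 M = 1 := by
        unfold bb
        simp [gm]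
      rw [h1, h2, sub_self, abs_zero, one_mul]
      exact hδ0
    | 1, _ =>
      refine ⟨1, one_pos, ?_⟩
      intro R _ _ w δ hδ0 _ _ h0 M _
      have h2 : bb w 1 M = 0 := by
        unfold bb
        simp [gm]
      rw [iid_one w h0, h2, sub_self, abs_zero, one_mul]
      exact hδ0
    | k + 2, ih =>
      obtain ⟨C, hC, hk⟩ := ih k (by omega)
      -- the constant
      set B : ℕ → ℝ := fun l => 1 + (Nat.factorial (2 * l) : ℝ) * (2 * Real.exp 1) with hB
      have hB0 : ∀ l, 0 < B l := fun l => by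
        rw [hB]
        positivity
      set C' : ℝ := ((k + 2).choose 2 : ℝ) * C +
        ∑ j ∈ Ico 3 (k + 3), ((k + 2).choose j : ℝ) * B (k + 2 - j) with hC'
      have hch : 0 < ((k + 2).choose 2 : ℝ) := by
        exact_mod_cast Nat.choose_pos (by omega)
      have hC'0 : 0 < C' := by
        rw [hC']
        have h1 : 0 ≤ ∑ j ∈ Ico 3 (k + 3), ((k + 2).choose j : ℝ) * B (k + 2 - j) :=
          sum_nonneg fun j _ => mul_nonneg (Nat.cast_nonneg _) (hB0 _).le
        have h2 : 0 < ((k + 2).choose 2 : ℝ) * C := mul_pos hch hC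
        linarith
      refine ⟨C', hC'0, ?_⟩
      intro R _ _ w δ hδ0 hδ1 hw h0 M hM
      have hs := mo_two_nonneg w
      have hw1 : ∀ y, |w y| ≤ 1 := fun y => (hw y).trans hδ1
      -- the bound for all M' ≤ M by induction
      have key : ∀ i : ℕ, i ≤ M → |iid (Fin i) w (k + 2) - bb w (k + 2) i| ≤
          (i : ℝ) * (mo w 2 * (C' * δ)) := by
        intro i
        induction i with
        | zero =>
          intro _
          have h1 : bb w (k + 2) 0 = 0 := by
            unfold bb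
            have : (k + 2) / 2 = k / 2 + 1 := by omega
            rw [this, Nat.zero_descFactorial_succ]
            simp
          rw [iid_zero_var, h1, zero_pow (by omega), sub_self, abs_zero, Nat.cast_zero, zero_mul]
        | succ i hi =>
          intro hiM
          have h1 := hi (by omega)
          have hiM' : (i : ℝ) * mo w 2 ≤ 1 := by
            refine le_trans (mul_le_mul_of_nonneg_right ?_ hs) hM
            exact_mod_cast (by omega : i ≤ M)
          have h2 : iid (Fin (i + 1)) w (k + 2) = iid (Fin i) w (k + 2) +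
              ((k + 2).choose 2 : ℝ) * (mo w 2 * iid (Fin i) w k) +
              ∑ j ∈ Ico 3 (k + 3), ((k + 2).choose j : ℝ) *
                (mo w j * iid (Fin i) w (k + 2 - j)) := by
            rw [iid_succ, range_eq_Ico, sum_eq_sum_Ico_succ_bot (by omega),
              sum_eq_sum_Ico_succ_bot (by omega), sum_eq_sum_Ico_succ_bot (by omega),
              mo_zero, mo_one w h0]
            simp only [Nat.choose_zero_right, Nat.cast_one, one_mul, zero_mul, mul_zero,
              Nat.sub_zero, Nat.add_sub_cancel, zero_add, Nat.reduceAdd]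
            ring
          have h3 := bb_succ w k i
          have h4 : iid (Fin (i + 1)) w (k + 2) - bb w (k + 2) (i + 1) =
              (iid (Fin i) w (k + 2) - bb w (k + 2) i) +
              ((k + 2).choose 2 : ℝ) * (mo w 2 * (iid (Fin i) w k - bb w k i)) +
              ∑ j ∈ Ico 3 (k + 3), ((k + 2).choose j : ℝ) *
                (mo w j * iid (Fin i) w (k + 2 - j)) := by
            rw [h2]
            linear_combination -h3
          rw [h4]
          have h5 := hk R w δ hδ0 hδ1 hw h0 i hiM'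
          have h6 : |((k + 2).choose 2 : ℝ) * (mo w 2 * (iid (Fin i) w k - bb w k i))| ≤
              ((k + 2).choose 2 : ℝ) * (mo w 2 * (C * δ)) := by
            rw [abs_mul, abs_mul, abs_of_nonneg hs, abs_of_pos hch]
            exact mul_le_mul_of_nonneg_left (mul_le_mul_of_nonneg_left h5 hs) hch.le
          have h7 : |∑ j ∈ Ico 3 (k + 3), ((k + 2).choose j : ℝ) *
              (mo w j * iid (Fin i) w (k + 2 - j))| ≤
              (∑ j ∈ Ico 3 (k + 3), ((k + 2).choose j : ℝ) * B (k + 2 - j)) *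
                (mo w 2 * δ) := by
            refine (abs_sum_le_sum_abs _ _).trans ?_
            rw [sum_mul]
            refine sum_le_sum fun j hj => ?_
            rw [mem_Ico] at hj
            rw [abs_mul, abs_mul, abs_of_nonneg (Nat.cast_nonneg _), mul_assoc]
            refine mul_le_mul_of_nonneg_left ?_ (Nat.cast_nonneg _)
            have h8 := mo_bound w hδ0 hδ1 hw hj.1
            have h9 := iid_abs_le w hw1 h0 hiM' (k + 2 - j)
            calc |mo w j| * |iid (Fin i) w (k + 2 - j)| ≤ (δ * mo w 2) * B (k + 2 - j) :=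
                  mul_le_mul h8 h9 (abs_nonneg _) (by positivity)
              _ = _ := by ring
          have h8 := abs_add_le ((iid (Fin i) w (k + 2) - bb w (k + 2) i) +
              ((k + 2).choose 2 : ℝ) * (mo w 2 * (iid (Fin i) w k - bb w k i)))
              (∑ j ∈ Ico 3 (k + 3), ((k + 2).choose j : ℝ) *
                (mo w j * iid (Fin i) w (k + 2 - j)))
          have h9 := abs_add_le (iid (Fin i) w (k + 2) - bb w (k + 2) i)
              (((k + 2).choose 2 : ℝ) * (mo w 2 * (iid (Fin i) w k - bb w k i)))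
          have e : ((i + 1 : ℕ) : ℝ) * (mo w 2 * (C' * δ)) = (i : ℝ) * (mo w 2 * (C' * δ)) +
              ((k + 2).choose 2 : ℝ) * (mo w 2 * (C * δ)) +
              (∑ j ∈ Ico 3 (k + 3), ((k + 2).choose j : ℝ) * B (k + 2 - j)) *
                (mo w 2 * δ) := by
            rw [hC']
            push_cast
            ring
          rw [e]
          linarith
      refine (key M le_rfl).trans ?_
      calc (M : ℝ) * (mo w 2 * (C' * δ)) = ((M : ℝ) * mo w 2) * (C' * δ) := by ring
        _ ≤ 1 * (C' * δ) := mul_le_mul_of_nonneg_right hM (by positivity)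
        _ = _ := one_mul _

/-- the falling factorial -/
theorem desc_close {s ε : ℝ} {M : ℕ} (hs : 0 ≤ s) (h1 : (M : ℝ) * s ≤ 1)
    (h2 : 1 - ε ≤ (M : ℝ) * s) (h3 : s ≤ ε) (h : ℕ) :
    |s ^ h * (M.descFactorial h : ℝ) - 1| ≤ (h : ℝ) * (h + 1) * ε := by
  have hε : 0 ≤ ε := hs.trans h3
  induction h with
  | zero => simp
  | succ h ih =>
    rcases Nat.lt_or_ge M h with h4 | h4
    · have h5 : M.descFactorial h = 0 := Nat.descFactorial_eq_zero_iff_lt.2 h4
      have h6 : M.descFactorial (h + 1) = 0 := Nat.descFactorial_eq_zero_iff_lt.2 (by omega)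
      rw [h5] at ih
      rw [h6]
      rw [Nat.cast_zero, mul_zero] at ih ⊢
      refine ih.trans ?_
      push_cast
      have hh : (0 : ℝ) ≤ h := Nat.cast_nonneg h
      nlinarith
    · rw [Nat.descFactorial_succ, Nat.cast_mul, Nat.cast_sub h4, pow_succ]
      set f := s ^ h * (M.descFactorial h : ℝ) with hf
      have e : s ^ h * s * (((M : ℝ) - h) * (M.descFactorial h : ℝ)) - 1 =
          (M * s - h * s) * (f - 1) + (M * s - h * s - 1) := by
        rw [hf]
        ring
      rw [e]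
      have hMh : (h : ℝ) ≤ M := by exact_mod_cast h4
      have h5 : 0 ≤ (M : ℝ) * s - h * s := by nlinarith
      have hh : (0 : ℝ) ≤ h := Nat.cast_nonneg h
      have h6 : (M : ℝ) * s - h * s ≤ 1 := by nlinarith
      have h7 : |(M * s - h * s) * (f - 1)| ≤ (h : ℝ) * (h + 1) * ε := by
        rw [abs_mul, abs_of_nonneg h5]
        calc ((M : ℝ) * s - h * s) * |f - 1| ≤ 1 * |f - 1| :=
              mul_le_mul_of_nonneg_right h6 (abs_nonneg _)
          _ ≤ _ := by rw [one_mul]; exact ih
      have h8 : |(M : ℝ) * s - h * s - 1| ≤ (h + 1) * ε := by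
        rw [abs_le]
        constructor
        · have : (h : ℝ) * s ≤ h * ε := mul_le_mul_of_nonneg_left h3 hh
          linarith
        · have : 0 ≤ ((h : ℝ) + 1) * ε := by positivity
          linarith
      refine (abs_add_le _ _).trans ?_
      push_cast
      nlinarith

/-- **the moments of the sums are close to the Gaussian moments** -/
theorem gauss (k : ℕ) : ∃ C : ℝ, 0 < C ∧ ∀ (R : Type) [Fintype R] [Nonempty R] (w : R → ℝ)
    (δ : ℝ), 0 ≤ δ → δ ≤ 1 → (∀ y, |w y| ≤ δ) → ∑ y, w y = 0 → ∀ M : ℕ, (M : ℝ) * mo w 2 ≤ 1 →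
    1 - δ ≤ (M : ℝ) * mo w 2 → |iid (Fin M) w k - gm k| ≤ C * δ := by
  obtain ⟨C, hC, h⟩ := approx k
  refine ⟨C + gm k * (((k / 2 : ℕ) : ℝ) * (((k / 2 : ℕ) : ℝ) + 1)), ?_, ?_⟩
  · have := gm_nonneg k
    positivity
  · intro R _ _ w δ hδ0 hδ1 hw h0 M hM hM2
    have h1 := h R w δ hδ0 hδ1 hw h0 M hM
    have hs := mo_two_nonneg w
    have h2 : mo w 2 ≤ δ := by
      unfold mo
      have hR : (0 : ℝ) < Fintype.card R := by exact_mod_cast Fintype.card_pos
      rw [div_le_iff₀ hR]
      calc ∑ y, w y ^ 2 ≤ ∑ y : R, δ := by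
            refine sum_le_sum fun y _ => ?_
            rw [← sq_abs]
            calc |w y| ^ 2 ≤ δ ^ 2 := pow_le_pow_left₀ (abs_nonneg _) (hw y) 2
              _ ≤ δ := by nlinarith
        _ = δ * Fintype.card R := by rw [sum_const, card_univ, nsmul_eq_mul, mul_comm]
    have h3 := desc_close hs hM hM2 h2 (k / 2)
    have h4 : |bb w k M - gm k| ≤
        gm k * (((k / 2 : ℕ) : ℝ) * (((k / 2 : ℕ) : ℝ) + 1)) * δ := by
      unfold bb
      rw [show gm k * mo w 2 ^ (k / 2) * (M.descFactorial (k / 2) : ℝ) - gm k =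
        gm k * (mo w 2 ^ (k / 2) * (M.descFactorial (k / 2) : ℝ) - 1) by ring, abs_mul,
        abs_of_nonneg (gm_nonneg k), mul_assoc]
      exact mul_le_mul_of_nonneg_left h3 (gm_nonneg k)
    have h5 := abs_add_le (iid (Fin M) w k - bb w k M) (bb w k M - gm k)
    rw [sub_add_sub_cancel] at h5
    calc |iid (Fin M) w k - gm k| ≤ C * δ +
          gm k * (((k / 2 : ℕ) : ℝ) * (((k / 2 : ℕ) : ℝ) + 1)) * δ := by linarith
      _ = _ := by ring

end Pool.Agent.TH375.KL
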