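import Mathlib

set_option autoImplicit false

/-!
# Moments of sums over the values of random polynomials

`k`-wise independence of the values and the moments of sums of independent variables.
-/

namespace Pool.Agent.TH375.KL

open Finset

section Group

variable {G H : Type*} [AddGroup G] [Fintype G] [AddGroup H] [Fintype H] [DecidableEq H]

/-- averages along a surjective homomorphism -/
theorem avg_surj (f : G →+ H) (hf : Function.Surjective f) (F : H → ℝ) :
    (∑ g, F (f g)) / (Fintype.card G : ℝ) = (∑ h, F h) / (Fintype.card H : ℝ) := by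
  classical
  have hfib : ∀ h : H, (univ.filter fun g => f g = h).card = (univ.filter fun g => f g = 0).card :=
    fun h => AddMonoidHom.card_fiber_eq_of_mem_range f (hf h) (hf 0)
  set κ := (univ.filter fun g => f g = 0).card with hκ
  have h1 : ∑ g, F (f g) = κ * ∑ h, F h := by
    rw [← sum_fiberwise_of_maps_to (s := univ) (t := univ) (g := f) (fun g _ => mem_univ _)
      (f := fun g => F (f g)), mul_sum]
    refine sum_congr rfl fun h _ => ?_
    rw [sum_congr rfl fun g hg => by rw [(mem_filter.1 hg).2], sum_const, hfib, nsmul_eq_mul]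
  have h2 : (Fintype.card G : ℝ) = κ * (Fintype.card H : ℝ) := by
    have h3 : Fintype.card G = ∑ h : H, (univ.filter fun g => f g = h).card := by
      rw [← card_univ]
      exact card_eq_sum_card_fiberwise (fun g _ => mem_univ _)
    rw [h3, sum_congr rfl fun h _ => hfib h, sum_const, card_univ, smul_eq_mul, Nat.cast_mul,
      mul_comm]
  have hG : 0 < Fintype.card G := Fintype.card_pos
  have hH : 0 < Fintype.card H := Fintype.card_pos
  have hκ0 : (κ : ℝ) ≠ 0 := by
    intro h
    rw [h, zero_mul] at h2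
    have : (Fintype.card G : ℝ) ≠ 0 := by exact_mod_cast hG.ne'
    exact this h2
  rw [h1, h2, mul_div_mul_left _ _ hκ0]

end Group

section Moments

variable {R V Ω : Type*} [AddGroup R] [Fintype R] [DecidableEq R] [Fintype V] [DecidableEq V]
  [AddGroup Ω] [Fintype Ω]

/-- `k`-wise independence of the values -/
def Kwise (k : ℕ) (ev : Ω →+ (V → R)) : Prop :=
  ∀ T : Finset V, T.card ≤ k → ∀ y : V → R, ∃ c : Ω, ∀ v ∈ T, ev c v = y v

omit [Fintype R] [DecidableEq R] [Fintype V] [Fintype Ω] in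
/-- restriction to a subset -/
theorem kwise_surj {k : ℕ} {ev : Ω →+ (V → R)} (h : Kwise k ev) {T : Finset V}
    (hT : T.card ≤ k) : Function.Surjective fun c : Ω => fun v : T => ev c v := by
  intro Z
  obtain ⟨c, hc⟩ := h T hT fun v => if hv : v ∈ T then Z ⟨v, hv⟩ else 0
  refine ⟨c, ?_⟩
  funext v
  show ev c v = Z v
  rw [hc v v.2, dif_pos v.2]

theorem avg_kwise {k : ℕ} {ev : Ω →+ (V → R)} (h : Kwise k ev) (b : V → R) {T : Finset V}
    (hT : T.card ≤ k) (F : (V → R) → ℝ) (hF : ∀ Y Y' : V → R, (∀ v ∈ T, Y v = Y' v) → F Y = F Y') :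
    (∑ c, F (ev c + b)) / (Fintype.card Ω : ℝ) =
      (∑ Y, F Y) / (Fintype.card (V → R) : ℝ) := by
  classical
  set ext : (T → R) → (V → R) := fun Z v => if hv : v ∈ T then Z ⟨v, hv⟩ else 0 with hext
  set res : (V → R) →+ (T → R) :=
    { toFun := fun Y v => Y v
      map_zero' := rfl
      map_add' := fun _ _ => rfl } with hres
  have hFe : ∀ Y, F Y = F (ext (res Y)) := by
    intro Y
    refine hF _ _ fun v hv => ?_
    rw [hext, hres]
    simp only
    rw [dif_pos hv]
    rfl
  have h1 := avg_surj (res.comp ev) (kwise_surj h hT) fun Z => F (ext (Z + res b))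
  have h2 : ∀ c, F (ext ((res.comp ev) c + res b)) = F (ev c + b) := by
    intro c
    rw [hFe (ev c + b), map_add]
    rfl
  rw [sum_congr rfl fun c _ => h2 c] at h1
  have hsurj : Function.Surjective res := by
    intro Z
    refine ⟨ext Z, ?_⟩
    funext v
    rw [hres, hext]
    simp only
    show (if hv : (v : V) ∈ T then Z ⟨v, hv⟩ else 0) = Z v
    rw [dif_pos v.2]
  have h3 := avg_surj res hsurj fun Z => F (ext Z)
  rw [sum_congr rfl fun Y _ => (hFe Y).symm] at h3
  have h4 : ∑ Z : T → R, F (ext (Z + res b)) = ∑ Z : T → R, F (ext Z) :=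
    Equiv.sum_comp (Equiv.addRight (res b)) fun Z => F (ext Z)
  rw [h1, h3, h4]

/-- the moments of the sum of the values of `w` at independent uniform variables -/
noncomputable def iid (V : Type*) [Fintype V] [DecidableEq V] {R : Type*} [Fintype R]
    (w : R → ℝ) (k : ℕ) : ℝ :=
  (∑ Y : V → R, (∑ v, w (Y v)) ^ k) / (Fintype.card (V → R) : ℝ)

/-- the moments only depend on the `k`-wise distribution -/
theorem moments_eq {k : ℕ} {ev : Ω →+ (V → R)} (h : Kwise k ev) (b : V → R) (w : R → ℝ) {l : ℕ}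
    (hl : l ≤ k) : (∑ c, (∑ v, w (ev c v + b v)) ^ l) / (Fintype.card Ω : ℝ) = iid V w l := by
  classical
  unfold iid
  have h1 : ∀ c, (∑ v, w (ev c v + b v)) ^ l = ∑ t : Fin l → V, ∏ i, w ((ev c + b) (t i)) :=
    fun c => Fintype.sum_pow _ _
  have h2 : ∀ Y : V → R, (∑ v, w (Y v)) ^ l = ∑ t : Fin l → V, ∏ i, w (Y (t i)) :=
    fun Y => Fintype.sum_pow _ _
  rw [sum_congr rfl fun c _ => h1 c, sum_congr rfl fun Y _ => h2 Y, sum_comm,
    sum_comm (s := (univ : Finset (V → R))), sum_div, sum_div]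
  refine sum_congr rfl fun t _ => ?_
  refine avg_kwise h b (T := univ.image t) ?_ (fun Y => ∏ i, w (Y (t i))) ?_
  · refine le_trans card_image_le ?_
    rw [card_univ, Fintype.card_fin]
    exact hl
  · intro Y Y' hY
    exact prod_congr rfl fun i _ => by rw [hY (t i) (mem_image_of_mem _ (mem_univ _))]

end Moments

section Iid

variable {R V : Type*} [Fintype R] [Nonempty R] [Fintype V] [DecidableEq V]

omit [Nonempty R] in
theorem prod_sum (f : V → R → ℝ) : ∑ Y : V → R, ∏ v, f v (Y v) = ∏ v, ∑ y, f v y := by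
  classical
  rw [prod_univ_sum, Fintype.piFinset_univ]

theorem exp_quad {x : ℝ} (h : |x| ≤ 1) : Real.exp x ≤ 1 + x + x ^ 2 := by
  have h1 := Real.abs_exp_sub_one_sub_id_le h
  have h2 := (abs_le.1 h1).2
  linarith

theorem mgf (w : R → ℝ) (h1 : ∀ y, |w y| ≤ 1) (h0 : ∑ y, w y = 0)
    (h2 : (Fintype.card V : ℝ) * (∑ y, w y ^ 2) ≤ Fintype.card R) :
    ∑ Y : V → R, Real.exp (∑ v, w (Y v)) ≤ (Fintype.card (V → R) : ℝ) * Real.exp 1 := by
  classical
  have hR : (0 : ℝ) < Fintype.card R := by exact_mod_cast Fintype.card_pos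
  have e1 : ∀ Y : V → R, Real.exp (∑ v, w (Y v)) = ∏ v, Real.exp (w (Y v)) :=
    fun Y => Real.exp_sum _ _
  rw [sum_congr rfl fun Y _ => e1 Y, prod_sum (fun _ y => Real.exp (w y)), prod_const, card_univ]
  have e2 : ∑ y, Real.exp (w y) ≤ Fintype.card R * Real.exp ((∑ y, w y ^ 2) / Fintype.card R) := by
    calc ∑ y, Real.exp (w y) ≤ ∑ y, (1 + w y + w y ^ 2) := sum_le_sum fun y _ => exp_quad (h1 y)
      _ = Fintype.card R * (1 + (∑ y, w y ^ 2) / Fintype.card R) := by
          rw [sum_add_distrib, sum_add_distrib, h0, sum_const, card_univ]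
          field_simp
          simp
      _ ≤ _ := by
          refine mul_le_mul_of_nonneg_left ?_ hR.le
          have := Real.add_one_le_exp ((∑ y, w y ^ 2) / (Fintype.card R : ℝ))
          linarith
  have h3 : (0 : ℝ) ≤ ∑ y, Real.exp (w y) := sum_nonneg fun _ _ => (Real.exp_pos _).le
  refine (pow_le_pow_left₀ h3 e2 _).trans ?_
  rw [mul_pow, ← Real.exp_nat_mul, Fintype.card_fun]
  push_cast
  refine mul_le_mul_of_nonneg_left (Real.exp_le_exp.2 ?_) (by positivity)
  rw [← mul_div_assoc, div_le_one hR]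
  exact h2

/-- bound for the even moments -/
theorem iid_le (w : R → ℝ) (h1 : ∀ y, |w y| ≤ 1) (h0 : ∑ y, w y = 0)
    (h2 : (Fintype.card V : ℝ) * (∑ y, w y ^ 2) ≤ Fintype.card R) (k : ℕ) :
    iid V w (2 * k) ≤ (Nat.factorial (2 * k) : ℝ) * (2 * Real.exp 1) := by
  classical
  have hpos : (0 : ℝ) < Fintype.card (V → R) := by exact_mod_cast Fintype.card_pos
  unfold iid
  rw [div_le_iff₀ hpos]
  have h3 := mgf (V := V) w h1 h0 h2
  have h4 := mgf (V := V) (fun y => -w y) (fun y => by rw [abs_neg]; exact h1 y)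
    (by rw [sum_neg_distrib, h0, neg_zero]) (by simpa using h2)
  have h5 : ∀ Y : V → R, (∑ v, w (Y v)) ^ (2 * k) ≤ (Nat.factorial (2 * k) : ℝ) *
      (Real.exp (∑ v, w (Y v)) + Real.exp (∑ v, -w (Y v))) := by
    intro Y
    rw [sum_neg_distrib]
    set x := ∑ v, w (Y v)
    have hf : (0 : ℝ) < Nat.factorial (2 * k) := by exact_mod_cast Nat.factorial_pos _
    have h6 := Real.pow_div_factorial_le_exp |x| (abs_nonneg _) (2 * k)
    rw [div_le_iff₀ hf] at h6
    have h7 : |x| ^ (2 * k) = x ^ (2 * k) := by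
      rw [pow_mul, sq_abs, ← pow_mul]
    rw [h7] at h6
    have h8 : Real.exp |x| ≤ Real.exp x + Real.exp (-x) := by
      rcases abs_cases x with ⟨h9, _⟩ | ⟨h9, _⟩
      · rw [h9]; linarith [Real.exp_pos (-x)]
      · rw [h9]; linarith [Real.exp_pos x]
    calc x ^ (2 * k) ≤ Real.exp |x| * (Nat.factorial (2 * k) : ℝ) := h6
      _ ≤ (Real.exp x + Real.exp (-x)) * (Nat.factorial (2 * k) : ℝ) :=
        mul_le_mul_of_nonneg_right h8 hf.le
      _ = _ := mul_comm _ _
  refine (sum_le_sum fun Y _ => h5 Y).trans ?_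
  rw [← mul_sum, sum_add_distrib]
  have hf : (0 : ℝ) ≤ Nat.factorial (2 * k) := Nat.cast_nonneg _
  calc (Nat.factorial (2 * k) : ℝ) * (∑ Y : V → R, Real.exp (∑ v, w (Y v)) +
        ∑ Y : V → R, Real.exp (∑ v, -w (Y v)))
      ≤ (Nat.factorial (2 * k) : ℝ) * ((Fintype.card (V → R) : ℝ) * Real.exp 1 +
        (Fintype.card (V → R) : ℝ) * Real.exp 1) :=
        mul_le_mul_of_nonneg_left (add_le_add h3 h4) hf
    _ = _ := by ring

omit [Nonempty R] in
/-- the first moment -/
theorem iid_one (w : R → ℝ) (h0 : ∑ y, w y = 0) : iid V w 1 = 0 := by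
  classical
  unfold iid
  have h1 : ∑ Y : V → R, (∑ v, w (Y v)) ^ 1 = 0 := by
    simp only [pow_one]
    rw [sum_comm]
    refine sum_eq_zero fun u _ => ?_
    have h2 := prod_sum (V := V) (R := R) (fun v y => if v = u then w y else 1)
    have h3 : ∀ Y : V → R, ∏ v, (if v = u then w (Y v) else 1) = w (Y u) := by
      intro Y
      rw [prod_ite_eq' univ u fun v => w (Y v)]
      simp
    rw [sum_congr rfl fun Y _ => h3 Y] at h2
    rw [h2]
    refine prod_eq_zero (mem_univ u) ?_
    simp [h0]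
  rw [h1, zero_div]

/-- the second moment -/
theorem iid_two (w : R → ℝ) (h0 : ∑ y, w y = 0) :
    iid V w 2 = (Fintype.card V : ℝ) * (∑ y, w y ^ 2) / Fintype.card R := by
  classical
  unfold iid
  have hR : (0 : ℝ) < Fintype.card R := by exact_mod_cast Fintype.card_pos
  have hpos : (0 : ℝ) < Fintype.card (V → R) := by exact_mod_cast Fintype.card_pos
  have h1 : ∀ u v : V, ∑ Y : V → R, w (Y u) * w (Y v) =
      if u = v then (∑ y, w y ^ 2) * (Fintype.card R : ℝ) ^ (Fintype.card V - 1) else 0 := by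
    intro u v
    split_ifs with huv
    · subst huv
      have h2 := prod_sum (V := V) (R := R) (fun v y => if v = u then w y ^ 2 else 1)
      have h3 : ∀ Y : V → R, ∏ v, (if v = u then w (Y v) ^ 2 else 1) = w (Y u) * w (Y u) := by
        intro Y
        rw [prod_ite_eq' univ u fun v => w (Y v) ^ 2]
        simp [sq]
      rw [sum_congr rfl fun Y _ => h3 Y] at h2
      rw [h2, ← mul_prod_erase univ _ (mem_univ u)]
      have h4 : ∀ v ∈ univ.erase u, ∑ y : R, (if v = u then w y ^ 2 else 1) =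
          (Fintype.card R : ℝ) := by
        intro v hv
        simp [ne_of_mem_erase hv]
      rw [prod_congr rfl h4, prod_const, card_erase_of_mem (mem_univ u), card_univ]
      simp
    · have h2 := prod_sum (V := V) (R := R)
        (fun x y => (if x = u then w y else 1) * (if x = v then w y else 1))
      have h3 : ∀ Y : V → R, ∏ x, ((if x = u then w (Y x) else 1) *
          (if x = v then w (Y x) else 1)) = w (Y u) * w (Y v) := by
        intro Y
        rw [prod_mul_distrib, prod_ite_eq' univ u fun x => w (Y x),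
          prod_ite_eq' univ v fun x => w (Y x)]
        simp
      rw [sum_congr rfl fun Y _ => h3 Y] at h2
      rw [h2]
      refine prod_eq_zero (mem_univ u) ?_
      simp [huv, h0]
  have h2 : ∑ Y : V → R, (∑ v, w (Y v)) ^ 2 =
      (Fintype.card V : ℝ) * ((∑ y, w y ^ 2) * (Fintype.card R : ℝ) ^ (Fintype.card V - 1)) := by
    have h3 : ∀ Y : V → R, (∑ v, w (Y v)) ^ 2 = ∑ u, ∑ v, w (Y u) * w (Y v) := by
      intro Y
      rw [sq, sum_mul_sum]
    rw [sum_congr rfl fun Y _ => h3 Y, sum_comm]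
    have h4 : ∀ u : V, ∑ Y : V → R, ∑ v, w (Y u) * w (Y v) =
        (∑ y, w y ^ 2) * (Fintype.card R : ℝ) ^ (Fintype.card V - 1) := by
      intro u
      rw [sum_comm, sum_congr rfl fun v _ => h1 u v]
      simp
    rw [sum_congr rfl fun u _ => h4 u, sum_const, card_univ, nsmul_eq_mul]
  rw [h2, Fintype.card_fun]
  push_cast
  rcases Nat.eq_zero_or_pos (Fintype.card V) with h3 | h3
  · rw [h3]
    simp
  · obtain ⟨M, hM⟩ : ∃ M, Fintype.card V = M + 1 := ⟨Fintype.card V - 1, by omega⟩
    rw [hM, Nat.add_sub_cancel, pow_succ]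
    field_simp

end Iid

end Pool.Agent.TH375.KL
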