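import Pool.Agent.TH375.KL.Indep
import Pool.Agent.TH375.KL.BoxSieve

set_option autoImplicit false

/-!
# Moments of sums over the values of the members of a linear family of polynomials
-/

namespace Pool.Agent.TH375.KL

open Finset

section Interp

variable {n p : ℕ}

/-- the monomial functions -/
def mono (α : Fin n → ℕ) : (Fin n → ZMod p) → ZMod p := fun u => ∏ i, u i ^ α i

/-- the span of the monomial functions of degree at most `d` -/
def monoSpan (n p d : ℕ) : Submodule (ZMod p) ((Fin n → ZMod p) → ZMod p) :=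
  Submodule.span (ZMod p) {f | ∃ α : Fin n → ℕ, ∑ i, α i ≤ d ∧ f = mono α}

theorem monoSpan_le {d d' : ℕ} (h : d ≤ d') : monoSpan n p d ≤ monoSpan n p d' := by
  refine Submodule.span_mono ?_
  rintro f ⟨α, h1, h2⟩
  exact ⟨α, h1.trans h, h2⟩

theorem mul_lin {d : ℕ} {f : (Fin n → ZMod p) → ZMod p} (hf : f ∈ monoSpan n p d) (i : Fin n)
    (b : ZMod p) : (fun u => (u i - b) * f u) ∈ monoSpan n p (d + 1) := by
  unfold monoSpan at hf
  induction hf using Submodule.span_induction with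
  | mem f h =>
    obtain ⟨α, h1, rfl⟩ := h
    have e : (fun u : Fin n → ZMod p => (u i - b) * mono α u) =
        mono (α + Pi.single i 1) - b • mono α := by
      funext u
      simp only [Pi.sub_apply, Pi.smul_apply, smul_eq_mul]
      have h2 : mono (α + Pi.single i 1) u = u i * mono α u := by
        unfold mono
        rw [← mul_prod_erase univ _ (mem_univ i), ← mul_prod_erase univ (fun j => u j ^ α j)
          (mem_univ i)]
        have h3 : ∏ x ∈ univ.erase i, u x ^ (α + Pi.single i 1 : Fin n → ℕ) x =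
            ∏ x ∈ univ.erase i, u x ^ α x := by
          refine prod_congr rfl fun x hx => ?_
          rw [Pi.add_apply, Pi.single_eq_of_ne (ne_of_mem_erase hx), add_zero]
        rw [h3, Pi.add_apply, Pi.single_eq_same, pow_succ]
        ring
      rw [h2]
      ring
    rw [e]
    refine Submodule.sub_mem _ (Submodule.subset_span ⟨_, ?_, rfl⟩)
      (Submodule.smul_mem _ _ (Submodule.subset_span ⟨α, h1.trans (Nat.le_succ d), rfl⟩))
    simp only [Pi.add_apply, sum_add_distrib]
    have h2 : ∑ x, (Pi.single i 1 : Fin n → ℕ) x = 1 := by simp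
    rw [h2]
    omega
  | zero =>
    have e : (fun u : Fin n → ZMod p => (u i - b) * (0 : (Fin n → ZMod p) → ZMod p) u) = 0 := by
      funext u
      simp
    rw [e]
    exact Submodule.zero_mem _
  | add f g _ _ hf hg =>
    have e : (fun u : Fin n → ZMod p => (u i - b) * (f + g) u) =
        (fun u => (u i - b) * f u) + (fun u => (u i - b) * g u) := by
      funext u
      simp only [Pi.add_apply]
      ring
    rw [e]
    exact Submodule.add_mem _ hf hg
  | smul a f _ hf =>
    have e : (fun u : Fin n → ZMod p => (u i - b) * (a • f) u) =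
        a • (fun u => (u i - b) * f u) := by
      funext u
      simp only [Pi.smul_apply, smul_eq_mul]
      ring
    rw [e]
    exact Submodule.smul_mem _ _ hf

/-- separation of a point from a finite set -/
theorem sep [hp : Fact p.Prime] (v : Fin n → ZMod p) (T : Finset (Fin n → ZMod p)) (hv : v ∉ T) :
    ∃ f ∈ monoSpan n p T.card, (∀ v' ∈ T, f v' = 0) ∧ f v ≠ 0 := by
  classical
  induction T using Finset.induction_on with
  | empty =>
    refine ⟨mono 0, Submodule.subset_span ⟨0, by simp, rfl⟩, by simp, ?_⟩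
    unfold mono
    simp
  | insert v' T hv' ih =>
    rw [mem_insert, not_or] at hv
    obtain ⟨f, hf, h1, h2⟩ := ih hv.2
    obtain ⟨i, hi⟩ := Function.ne_iff.1 hv.1
    refine ⟨fun u => (u i - v' i) * f u, ?_, ?_, ?_⟩
    · rw [card_insert_of_notMem hv']
      exact mul_lin hf i _
    · intro x hx
      rcases mem_insert.1 hx with rfl | hx
      · simp
      · simp [h1 x hx]
    · exact mul_ne_zero (sub_ne_zero.2 hi) h2

/-- interpolation -/
theorem interp [hp : Fact p.Prime] {D : ℕ} (T : Finset (Fin n → ZMod p)) (hT : T.card ≤ D + 1)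
    (y : (Fin n → ZMod p) → ZMod p) : ∃ f ∈ monoSpan n p D, ∀ v ∈ T, f v = y v := by
  classical
  have h1 : ∀ v ∈ T, ∃ f ∈ monoSpan n p D, (∀ v' ∈ T.erase v, f v' = 0) ∧ f v ≠ 0 := by
    intro v hv
    obtain ⟨f, hf, h2, h3⟩ := sep v (T.erase v) (notMem_erase v T)
    refine ⟨f, monoSpan_le ?_ hf, h2, h3⟩
    rw [card_erase_of_mem hv]
    omega
  choose! F hF h2 h3 using h1
  refine ⟨∑ v ∈ T, (y v / F v v) • F v, Submodule.sum_mem _ fun v hv =>
    Submodule.smul_mem _ _ (hF v hv), ?_⟩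
  intro v hv
  rw [Finset.sum_apply, sum_eq_single_of_mem v hv]
  · rw [Pi.smul_apply, smul_eq_mul, div_mul_cancel₀ _ (h3 v hv)]
  · intro v' hv' hne
    rw [Pi.smul_apply, h2 v' hv' v (mem_erase.2 ⟨hne.symm, hv⟩), smul_zero]

end Interp

/-- the value at `u` of the member `g + ∑ c_j e_j` of the family -/
noncomputable def famVal {n m : ℕ} (g : MvPolynomial (Fin n) ℤ)
    (e : Fin m → MvPolynomial (Fin n) ℤ) (p : ℕ) (c : Fin m → ℤ) (u : Fin n → ZMod p) : ZMod p :=
  MvPolynomial.aeval u g + ∑ j, (c j : ZMod p) * MvPolynomial.aeval u (e j)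

/-- the evaluation homomorphism -/
noncomputable def evh {n m : ℕ} (e : Fin m → MvPolynomial (Fin n) ℤ) (p : ℕ) :
    (Fin m → ZMod p) →+ ((Fin n → ZMod p) → ZMod p) where
  toFun c := fun u => ∑ j, c j * MvPolynomial.aeval u (e j)
  map_zero' := by
    funext u
    simp
  map_add' c c' := by
    funext u
    simp [add_mul, sum_add_distrib]

theorem evh_kwise {n m D : ℕ} (e : Fin m → MvPolynomial (Fin n) ℤ) (p : ℕ) [hp : Fact p.Prime]
    (he : ∀ α : Fin n → ℕ, ∑ i, α i ≤ D → ∃ j, e j = ∏ i, MvPolynomial.X i ^ α i) :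
    Kwise (D + 1) (evh e p) := by
  intro T hT y
  obtain ⟨f, hf, h1⟩ := interp T hT y
  suffices h : ∃ c, evh e p c = f by
    obtain ⟨c, rfl⟩ := h
    exact ⟨c, h1⟩
  clear h1
  unfold monoSpan at hf
  induction hf using Submodule.span_induction with
  | mem f h =>
    obtain ⟨α, h1, rfl⟩ := h
    obtain ⟨j, hj⟩ := he α h1
    refine ⟨Pi.single j 1, ?_⟩
    funext u
    show ∑ j', (Pi.single j 1 : Fin m → ZMod p) j' * MvPolynomial.aeval u (e j') = mono α u
    rw [sum_eq_single_of_mem j (mem_univ j)]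
    · rw [Pi.single_eq_same, one_mul, hj]
      unfold mono
      rw [map_prod]
      simp
    · intro j' _ hne
      rw [Pi.single_eq_of_ne hne, zero_mul]
  | zero => exact ⟨0, map_zero _⟩
  | add f g _ _ hf hg =>
    obtain ⟨c, rfl⟩ := hf
    obtain ⟨c', rfl⟩ := hg
    exact ⟨c + c', map_add _ _ _⟩
  | smul a f _ hf =>
    obtain ⟨c, rfl⟩ := hf
    refine ⟨a • c, ?_⟩
    funext u
    show ∑ j, (a • c) j * MvPolynomial.aeval u (e j) =
      a * ∑ j, c j * MvPolynomial.aeval u (e j)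
    rw [mul_sum]
    refine sum_congr rfl fun j _ => ?_
    rw [Pi.smul_apply, smul_eq_mul, mul_assoc]

theorem sum_cube_zmod {m p : ℕ} [hp : Fact p.Prime] (f : (Fin m → ZMod p) → ℝ) :
    ∑ c ∈ cube m p, f (fun i => ((c i : ℕ) : ZMod p)) = ∑ c, f c := by
  refine sum_nbij' (fun c i => ((c i : ℕ) : ZMod p)) (fun c i => (c i).val) ?_ ?_ ?_ ?_ ?_
  · intro c _
    exact mem_univ _
  · intro c _
    unfold cube
    rw [Fintype.mem_piFinset]
    exact fun i => mem_range.2 (ZMod.val_lt _)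
  · intro c hc
    unfold cube at hc
    rw [Fintype.mem_piFinset] at hc
    funext i
    exact ZMod.val_cast_of_lt (mem_range.1 (hc i))
  · intro c _
    funext i
    exact ZMod.natCast_zmod_val _
  · intro c _
    rfl

/-- the `k`-th power of the sum of `w` over the values of the member `c` -/
noncomputable def fam {n m : ℕ} (w : ∀ p : ℕ, ZMod p → ℝ) (g : MvPolynomial (Fin n) ℤ)
    (e : Fin m → MvPolynomial (Fin n) ℤ) (k p : ℕ) (c : Fin m → ℤ) : ℝ :=
  if hp : p.Prime then
    (haveI := Fact.mk hp; (∑ u : Fin n → ZMod p, w p (famVal g e p c u)) ^ k) else 0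

/-- the `k`-th moment for independent values -/
noncomputable def iidm (n : ℕ) (w : ∀ p : ℕ, ZMod p → ℝ) (k p : ℕ) : ℝ :=
  if hp : p.Prime then (haveI := Fact.mk hp; iid (Fin n → ZMod p) (w p) k) else 0

theorem fam_cube {n m : ℕ} (w : ∀ p : ℕ, ZMod p → ℝ) (g : MvPolynomial (Fin n) ℤ)
    (e : Fin m → MvPolynomial (Fin n) ℤ) {D k p : ℕ} (hp : p.Prime) (hk : k ≤ D + 1)
    (he : ∀ α : Fin n → ℕ, ∑ i, α i ≤ D → ∃ j, e j = ∏ i, MvPolynomial.X i ^ α i) :
    (∑ c ∈ cube m p, fam w g e k p (fun i => (c i : ℤ))) / (p : ℝ) ^ m = iidm n w k p := by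
  have : Fact p.Prime := ⟨hp⟩
  unfold iidm
  rw [dif_pos hp]
  have h1 := moments_eq (evh_kwise e p he) (fun u => MvPolynomial.aeval u g) (w p) hk
  have h2 : (Fintype.card (Fin m → ZMod p) : ℝ) = (p : ℝ) ^ m := by
    rw [Fintype.card_fun, ZMod.card, Fintype.card_fin]
    push_cast
    rfl
  rw [h2] at h1
  rw [← h1]
  congr 1
  rw [← sum_cube_zmod]
  refine sum_congr rfl fun c _ => ?_
  unfold fam
  rw [dif_pos hp]
  congr 1
  refine sum_congr rfl fun u _ => ?_
  congr 1
  unfold famVal evh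
  simp only [AddMonoidHom.coe_mk, ZeroHom.coe_mk, Int.cast_natCast]
  ring

/-- **Moments for almost all members of a linear family** -/
theorem fam_moments (n m k D : ℕ) (hk : 2 * k ≤ D + 1) : ∃ C : ℝ, 0 < C ∧
    ∀ w : ∀ p : ℕ, ZMod p → ℝ, (∀ (p : ℕ) (hp : Fact p.Prime), (∀ y, |w p y| ≤ 1) ∧
      ∑ y, w p y = 0 ∧ (p : ℝ) ^ n * ∑ y, w p y ^ 2 ≤ p) →
    ∀ (g : MvPolynomial (Fin n) ℤ) (e : Fin m → MvPolynomial (Fin n) ℤ),
    (∀ α : Fin n → ℕ, ∑ i, α i ≤ D → ∃ j, e j = ∏ i, MvPolynomial.X i ^ α i) →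
    ∀ (A : Fin m → ℤ) (N z : ℕ), z ^ 2 ≤ N → ∀ K : ℝ, 0 < K →
    ({c : Fin m → ℤ | (∀ i, A i < c i ∧ c i ≤ A i + N) ∧ ∃ x : ℕ, 1 ≤ x ∧ x ≤ z ∧
      K * thr x < (∑ p ∈ Prm x, (fam w g e k p c - iidm n w k p)) ^ 2}.ncard : ℝ) ≤
      C * (N : ℝ) ^ m / K := by
  classical
  obtain ⟨C, hC, hbox⟩ := box_scales m
  have hf : (0 : ℝ) < Nat.factorial (2 * k) := by exact_mod_cast Nat.factorial_pos _
  refine ⟨C * ((Nat.factorial (2 * k) : ℝ) * (2 * Real.exp 1)), by positivity, ?_⟩
  intro w hw g e he A N z hzN K hK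
  have hmom : ∀ l : ℕ, fam w g e (2 * l) = fun p c => fam w g e l p c ^ 2 := by
    intro l
    funext p c
    unfold fam
    split_ifs with h
    · rw [mul_comm, pow_mul]
    · norm_num
  have h1 := hbox (fam w g e k) ?_ ((Nat.factorial (2 * k) : ℝ) * (2 * Real.exp 1))
    (by positivity) A N z hzN ?_ K hK
  · refine le_trans (le_of_eq ?_) h1
    have h2 : {c : Fin m → ℤ | (∀ i, A i < c i ∧ c i ≤ A i + N) ∧ ∃ x : ℕ, 1 ≤ x ∧ x ≤ z ∧
        K * thr x < (∑ p ∈ Prm x, (fam w g e k p c - iidm n w k p)) ^ 2} =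
        (((box A N).filter fun c => ∃ x : ℕ, 1 ≤ x ∧ x ≤ z ∧
          K * thr x < (∑ p ∈ Prm x, (fam w g e k p c - cm (fam w g e k) p)) ^ 2 :
            Finset (Fin m → ℤ)) : Set (Fin m → ℤ)) := by
      ext c
      rw [Set.mem_ofPred_eq, mem_coe, mem_filter]
      have h3 : c ∈ box A N ↔ ∀ i, A i < c i ∧ c i ≤ A i + N := by
        unfold box
        rw [Fintype.mem_piFinset]
        exact forall_congr' fun i => mem_Ioc
      rw [h3]
      refine and_congr_right fun _ => exists_congr fun x => and_congr_right fun _ =>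
        and_congr_right fun _ => ?_
      have h4 : ∑ p ∈ Prm x, (fam w g e k p c - iidm n w k p) =
          ∑ p ∈ Prm x, (fam w g e k p c - cm (fam w g e k) p) := by
        refine sum_congr rfl fun p hp => ?_
        unfold Prm at hp
        rw [mem_filter] at hp
        unfold cm
        rw [fam_cube w g e hp.2 (by omega : k ≤ D + 1) he]
      rw [h4]
    rw [h2, Set.ncard_coe_finset]
  · intro p c c' hp h
    unfold fam
    rw [dif_pos hp, dif_pos hp]
    have h2 : ∀ i, (c i : ZMod p) = (c' i : ZMod p) := by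
      intro i
      rw [← sub_eq_zero, ← Int.cast_sub]
      exact (ZMod.intCast_zmod_eq_zero_iff_dvd _ _).2 (h i)
    unfold famVal
    simp only [h2]
  · intro p hp hpz
    have : Fact p.Prime := ⟨hp⟩
    obtain ⟨hw1, hw2, hw3⟩ := hw p this
    have h2 := fam_cube w g e hp hk he
    rw [hmom] at h2
    rw [h2]
    unfold iidm
    rw [dif_pos hp]
    refine iid_le (w p) hw1 hw2 ?_ k
    rw [ZMod.card, Fintype.card_fun, ZMod.card, Fintype.card_fin]
    push_cast
    exact hw3

end Pool.Agent.TH375.KL
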