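import Pool.Agent.TH375.KL.BoxBounded
import Pool.Agent.TH375.KL.JacobiWeights

set_option autoImplicit false

/-!
# Joint moments with the weights `1 / p` for almost all tuples of members of linear families
-/

namespace Pool.Agent.TH375.KL

open Finset

theorem sum_inv_bound : ∃ Z : ℝ, 0 ≤ Z ∧
    ∀ s : Finset ℕ, ∑ p ∈ s, 1 / ((p : ℝ) * Real.sqrt p) ≤ Z := by
  have hs : Summable fun n : ℕ => 1 / (n : ℝ) ^ (3 / 2 : ℝ) :=
    Real.summable_one_div_nat_rpow.2 (by norm_num)
  refine ⟨∑' n : ℕ, 1 / (n : ℝ) ^ (3 / 2 : ℝ), tsum_nonneg fun n => by positivity, fun s => ?_⟩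
  have h1 : ∀ n : ℕ, 1 / ((n : ℝ) * Real.sqrt n) = 1 / (n : ℝ) ^ (3 / 2 : ℝ) := by
    intro n
    rcases Nat.eq_zero_or_pos n with rfl | hn
    · rw [Nat.cast_zero, Real.zero_rpow (by norm_num), zero_mul]
    · have hn0 : (0 : ℝ) < n := by exact_mod_cast hn
      rw [show (3 / 2 : ℝ) = 1 + 1 / 2 by norm_num, Real.rpow_add hn0, Real.rpow_one,
        Real.sqrt_eq_rpow]
  rw [sum_congr rfl fun n _ => h1 n]
  exact hs.sum_le_tsum s fun n _ => by positivity

theorem split_const {P Q K C : ℝ} (hx : K < (P + Q) ^ 2) (h5 : |Q| ≤ C)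
    (hK : 16 * C ^ 2 + 1 ≤ K) : K / 4 < P ^ 2 := by
  have h6 : (P + Q) ^ 2 ≤ 2 * P ^ 2 + 2 * Q ^ 2 := by nlinarith [sq_nonneg (P - Q)]
  have h7 := pow_le_pow_left₀ (abs_nonneg Q) h5 2
  rw [sq_abs] at h7
  have h8 := sq_nonneg C
  linarith

/-- **Joint moments with the weights `1 / p`** -/
theorem joint_bounded (n m s D : ℕ) (k : Fin s → ℕ) (hk : ∀ i, 2 * k i ≤ D + 1) :
    ∃ C : ℝ, 0 < C ∧
    ∀ (q₀ : ℕ) (w : Fin s → ∀ p : ℕ, ZMod p → ℝ),
    (∀ (i : Fin s) (p : ℕ) (_ : Fact p.Prime), p ≠ q₀ → Good n p (w i p)) →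
    ∀ (g : Fin s → MvPolynomial (Fin n) ℤ) (e : Fin s → Fin m → MvPolynomial (Fin n) ℤ),
    (∀ (i : Fin s) (α : Fin n → ℕ), ∑ i, α i ≤ D → ∃ j, e i j = ∏ i, MvPolynomial.X i ^ α i) →
    ∀ (A : Fin s → Fin m → ℤ) (N z : ℕ), z ^ 2 ≤ N → ∀ K : ℝ, 0 < K →
    ({c : Fin s → Fin m → ℤ | (∀ i j, A i j < c i j ∧ c i j ≤ A i j + N) ∧
      ∃ x : ℕ, x ≤ z ∧ K < (∑ p ∈ (Prm x).filter (· ≠ q₀),
        (∏ i, fam (w i) (g i) (e i) (k i) p (c i) - ∏ i, gm (k i)) / (p : ℝ)) ^ 2}.ncard : ℝ) ≤
      C * (N : ℝ) ^ (s * m) / K := by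
  classical
  obtain ⟨C₁, hC₁, hbox⟩ := box_bounded (s * m)
  obtain ⟨Z, hZ0, hZ⟩ := sum_inv_bound
  -- constants
  have hgc : ∀ i, ∃ C : ℝ, 0 < C ∧ ∀ (w : ∀ p : ℕ, ZMod p → ℝ) (p : ℕ)
    (_ : Fact p.Prime), Good n p (w p) → |iidm n w (k i) p - gm (k i)| ≤ C * (1 / Real.sqrt p) :=
    fun i => iidm_gauss n (k i)
  choose G hG0 hG using hgc
  set C₂ : ℝ := 1 + ∑ i, G i with hC₂
  have hsumG : 0 ≤ ∑ i, G i := sum_nonneg fun i _ => (hG0 i).le
  have hC₂1 : 1 ≤ C₂ := by linarith
  have hGC : ∀ i, G i ≤ C₂ := by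
    intro i
    have := single_le_sum (fun j _ => (hG0 j).le) (mem_univ i)
    linarith
  set D₁ : ℝ := ∏ i, ((Nat.factorial (2 * k i) : ℝ) * (2 * Real.exp 1)) with hD₁
  have hD₁0 : 0 ≤ D₁ := prod_nonneg fun i _ => by positivity
  set B : ℝ := 1 + ∑ i, (gm (k i) + C₂) with hB
  have hB0 : ∀ i, gm (k i) + C₂ ≤ B - 1 := by
    intro i
    have h1 : ∀ j, 0 ≤ gm (k j) + C₂ := fun j => by
      have := gm_nonneg (k j)
      linarith
    have := single_le_sum (f := fun j => gm (k j) + C₂) (fun j _ => h1 j) (mem_univ i)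
    rw [hB]
    linarith
  have hB1 : 1 ≤ B := by
    have h1 : 0 ≤ ∑ i, (gm (k i) + C₂) := sum_nonneg fun j _ => by
      have := gm_nonneg (k j)
      linarith
    rw [hB]
    linarith
  set C₃ : ℝ := s * B ^ s * C₂ with hC₃
  have hC₃0 : 0 ≤ C₃ := by positivity
  set C₄ : ℝ := C₃ * Z with hC₄
  have hC₄0 : 0 ≤ C₄ := by positivity
  refine ⟨4 * (C₁ * D₁) + 16 * C₄ ^ 2 + 1, by positivity, ?_⟩
  intro q₀ w hw g e he A N z hzN K hK
  -- the weights without the exceptional prime
  set w' : Fin s → ∀ p : ℕ, ZMod p → ℝ := fun i p y => if p = q₀ then 0 else w i p y with hw'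
  have hw'g : ∀ i p, p ≠ q₀ → w' i p = w i p := by
    intro i p hp
    funext y
    rw [hw']
    simp only
    rw [if_neg hp]
  have hw'q : ∀ i, w' i q₀ = fun _ => 0 := by
    intro i
    funext y
    rw [hw']
    simp only
    rw [if_true]
  have hcond : ∀ (i : Fin s) (p : ℕ) (_ : Fact p.Prime), (∀ y, |w' i p y| ≤ 1) ∧
      ∑ y, w' i p y = 0 ∧ (p : ℝ) ^ n * ∑ y, w' i p y ^ 2 ≤ p := by
    intro i p hp
    have hp1 : (1 : ℝ) ≤ p := by exact_mod_cast hp.out.one_le
    have hs1 : 1 ≤ Real.sqrt p := Real.one_le_sqrt.2 hp1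
    by_cases hpq : p = q₀
    · subst hpq
      rw [hw'q]
      refine ⟨fun y => by simp, by simp, ?_⟩
      simp
    · rw [hw'g i p hpq]
      obtain ⟨h1, h2, h3, _⟩ := hw i p hp hpq
      refine ⟨fun y => (h1 y).trans ?_, h2, h3⟩
      rw [div_le_one (by linarith)]
      exact hs1
  obtain ⟨hfin, hcard⟩ := card_tuples A N
  have hNs : (0 : ℝ) ≤ (N : ℝ) ^ (s * m) := by positivity
  rcases lt_or_ge K (16 * C₄ ^ 2 + 1) with hKs | hKl
  · -- trivial range
    refine (Nat.cast_le.2 (Set.ncard_le_ncard (fun c hc => hc.1) hfin)).trans ?_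
    rw [hcard, le_div_iff₀ hK]
    have h3 : 0 ≤ 4 * (C₁ * D₁) * (N : ℝ) ^ (s * m) := by positivity
    calc (N : ℝ) ^ (s * m) * K ≤ (N : ℝ) ^ (s * m) * (16 * C₄ ^ 2 + 1) :=
          mul_le_mul_of_nonneg_left hKs.le hNs
      _ ≤ (4 * (C₁ * D₁) + 16 * C₄ ^ 2 + 1) * (N : ℝ) ^ (s * m) := by linarith
  · -- the function on the large cube
    set φ : ℕ → (Fin (s * m) → ℤ) → ℝ := fun p c =>
      (∏ i, fam (w' i) (g i) (e i) (k i) p (blkv c i)) / (p : ℝ) with hφ
    have hper : ∀ (p : ℕ) (c c' : Fin (s * m) → ℤ), p.Prime →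
        (∀ i, (p : ℤ) ∣ c i - c' i) → φ p c = φ p c' := by
      intro p c c' hp h
      rw [hφ]
      simp only
      congr 1
      refine prod_congr rfl fun i _ => ?_
      unfold fam
      rw [dif_pos hp, dif_pos hp]
      have h2 : ∀ j, ((blkv c i j : ℤ) : ZMod p) = ((blkv c' i j : ℤ) : ZMod p) := by
        intro j
        rw [← sub_eq_zero, ← Int.cast_sub]
        exact (ZMod.intCast_zmod_eq_zero_iff_dvd _ _).2 (h _)
      unfold famVal
      simp only [h2]
    have hcube : ∀ (p : ℕ) (l : Fin s → ℕ), p.Prime → (∀ i, l i ≤ D + 1) →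
        (∑ c ∈ cube (s * m) p, ∏ i, fam (w' i) (g i) (e i) (l i) p
          (blkv (fun j => (c j : ℤ)) i)) / (p : ℝ) ^ (s * m) =
        ∏ i, iidm n (w' i) (l i) p := by
      intro p l hp hl
      have h1 := sum_cube_blocks (s := s) (m := m) (p := p)
        (fun i a => fam (w' i) (g i) (e i) (l i) p (fun j => (a j : ℤ)))
      have h2 : ∀ c : Fin (s * m) → ℕ, ∀ i : Fin s, blkv (fun j => (c j : ℤ)) i =
          fun j => ((blkv c i j : ℕ) : ℤ) := fun c i => rfl
      simp only [h2]
      rw [h1, mul_comm s m, pow_mul]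
      have h3 : ((p : ℝ) ^ m) ^ s = ∏ _i : Fin s, (p : ℝ) ^ m := by
        rw [prod_const, card_univ, Fintype.card_fin]
      rw [h3, ← prod_div_distrib]
      exact prod_congr rfl fun i _ => fam_cube (w' i) (g i) (e i) hp (hl i) (he i)
    have hcm : ∀ p : ℕ, p.Prime → cm φ p = (∏ i, iidm n (w' i) (k i) p) / p := by
      intro p hp
      have h1 := hcube p k hp fun i => by have := hk i; omega
      rw [← h1]
      unfold cm
      rw [hφ]
      simp only
      rw [← sum_div, div_right_comm]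
    have hvar : ∀ p : ℕ, p.Prime → p ≤ z →
        (∑ c ∈ cube (s * m) p, φ p (fun i => (c i : ℤ)) ^ 2) / (p : ℝ) ^ (s * m) ≤
          D₁ / (p * Real.sqrt p) := by
      intro p hp _
      have hp1 : (1 : ℝ) ≤ p := by exact_mod_cast hp.one_le
      have hp0 : (0 : ℝ) < p := by linarith
      have hs0 : 0 < Real.sqrt p := Real.sqrt_pos.2 hp0
      have h1 : ∀ c : Fin (s * m) → ℕ, φ p (fun i => (c i : ℤ)) ^ 2 =
          (∏ i, fam (w' i) (g i) (e i) (2 * k i) p (blkv (fun j => (c j : ℤ)) i)) /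
            (p : ℝ) ^ 2 := by
        intro c
        rw [hφ]
        simp only
        rw [div_pow, ← prod_pow]
        congr 1
        refine prod_congr rfl fun i _ => ?_
        unfold fam
        rw [dif_pos hp, dif_pos hp, mul_comm 2, pow_mul]
      simp only [h1]
      rw [← sum_div, div_right_comm, hcube p (fun i => 2 * k i) hp hk]
      have h2 : ∏ i, iidm n (w' i) (2 * k i) p ≤ D₁ := by
        rw [hD₁]
        have : Fact p.Prime := ⟨hp⟩
        refine prod_le_prod (fun i _ => ?_) fun i _ => ?_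
        · unfold iidm
          rw [dif_pos hp]
          unfold iid
          refine div_nonneg (sum_nonneg fun Y _ => ?_) (Nat.cast_nonneg _)
          rw [pow_mul]
          positivity
        · obtain ⟨hw1, hw2, hw3⟩ := hcond i p this
          unfold iidm
          rw [dif_pos hp]
          refine iid_le (w' i p) hw1 hw2 ?_ (k i)
          rw [ZMod.card, Fintype.card_fun, ZMod.card, Fintype.card_fin]
          push_cast
          exact hw3
      have h3 : Real.sqrt p ≤ p := by
        rw [Real.sqrt_le_left hp0.le]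
        nlinarith
      calc (∏ i, iidm n (w' i) (2 * k i) p) / (p : ℝ) ^ 2 ≤ D₁ / (p : ℝ) ^ 2 :=
            div_le_div_of_nonneg_right h2 (by positivity)
        _ ≤ D₁ / (p * Real.sqrt p) := by
            refine div_le_div_of_nonneg_left hD₁0 (by positivity) ?_
            rw [sq]
            exact mul_le_mul_of_nonneg_left h3 hp0.le
    set AA : Fin (s * m) → ℤ := fun l => A (finProdFinEquiv.symm l).1 (finProdFinEquiv.symm l).2
      with hAA
    have h1 := hbox φ hper D₁ hD₁0 AA N z hzN hvar (K / 4) (by positivity)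
    set bad := (box AA N).filter fun c => ∃ x : ℕ, x ≤ z ∧
      K / 4 < (∑ p ∈ Prm x, (φ p c - cm φ p)) ^ 2 with hbad
    have hsub : {c : Fin s → Fin m → ℤ | (∀ i j, A i j < c i j ∧ c i j ≤ A i j + N) ∧
        ∃ x : ℕ, x ≤ z ∧ K < (∑ p ∈ (Prm x).filter (· ≠ q₀),
        (∏ i, fam (w i) (g i) (e i) (k i) p (c i) - ∏ i, gm (k i)) / (p : ℝ)) ^ 2} ⊆
        ((bad.image fun c i => blkv c i : Finset (Fin s → Fin m → ℤ)) :
          Set (Fin s → Fin m → ℤ)) := by
      rintro c ⟨hc, x, hxz, hx⟩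
      rw [mem_coe, mem_image]
      set c' : Fin (s * m) → ℤ := fun l =>
        c (finProdFinEquiv.symm l).1 (finProdFinEquiv.symm l).2 with hc'
      have hblk : ∀ i, blkv c' i = c i := by
        intro i
        funext j
        show c (finProdFinEquiv.symm (finProdFinEquiv (i, j))).1
          (finProdFinEquiv.symm (finProdFinEquiv (i, j))).2 = c i j
        rw [Equiv.symm_apply_apply]
      refine ⟨c', ?_, funext hblk⟩
      rw [hbad, mem_filter]
      constructor
      · unfold box
        rw [Fintype.mem_piFinset]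
        intro l
        rw [mem_Ioc]
        exact hc _ _
      refine ⟨x, hxz, ?_⟩
      have h2 : ∑ p ∈ Prm x, (φ p c' - cm φ p) =
          ∑ p ∈ (Prm x).filter (· ≠ q₀),
            (∏ i, fam (w i) (g i) (e i) (k i) p (c i) - ∏ i, iidm n (w i) (k i) p) / (p : ℝ) := by
        rw [← sum_filter_add_sum_filter_not (Prm x) (· ≠ q₀)]
        have h3 : ∑ p ∈ (Prm x).filter (fun p => ¬ p ≠ q₀), (φ p c' - cm φ p) = 0 := by
          refine sum_eq_zero fun p hp => ?_
          rw [mem_filter, not_not] at hp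
          obtain ⟨hp1, rfl⟩ := hp
          unfold Prm at hp1
          rw [mem_filter] at hp1
          rw [hcm p hp1.2, hφ]
          simp only
          have h4 : ∏ i, fam (w' i) (g i) (e i) (k i) p (blkv c' i) =
              ∏ i, iidm n (w' i) (k i) p := by
            refine prod_congr rfl fun i _ => ?_
            unfold fam iidm
            rw [dif_pos hp1.2, dif_pos hp1.2]
            have : Fact p.Prime := ⟨hp1.2⟩
            rw [hw'q]
            unfold iid
            simp only [sum_const_zero, sum_const, card_univ, nsmul_eq_mul]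
            have hpos : (0 : ℝ) < Fintype.card ((Fin n → ZMod p) → ZMod p) := by
              exact_mod_cast Fintype.card_pos
            rw [mul_div_assoc, mul_div_cancel₀]
            exact hpos.ne'
          rw [h4, sub_self]
        rw [h3, add_zero]
        refine sum_congr rfl fun p hp => ?_
        rw [mem_filter] at hp
        have hp1 := hp.1
        unfold Prm at hp1
        rw [mem_filter] at hp1
        rw [hcm p hp1.2, hφ]
        simp only
        rw [← sub_div]
        congr 2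
        · refine prod_congr rfl fun i _ => ?_
          unfold fam
          rw [hw'g i p hp.2, hblk i]
        · refine prod_congr rfl fun i _ => ?_
          unfold iidm
          rw [hw'g i p hp.2]
      rw [h2]
      set P := ∑ p ∈ (Prm x).filter (· ≠ q₀),
        (∏ i, fam (w i) (g i) (e i) (k i) p (c i) - ∏ i, iidm n (w i) (k i) p) / (p : ℝ) with hP
      set Q := ∑ p ∈ (Prm x).filter (· ≠ q₀),
        (∏ i, iidm n (w i) (k i) p - ∏ i, gm (k i)) / (p : ℝ) with hQ
      have h3 : ∑ p ∈ (Prm x).filter (· ≠ q₀),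
          (∏ i, fam (w i) (g i) (e i) (k i) p (c i) - ∏ i, gm (k i)) / (p : ℝ) = P + Q := by
        rw [hP, hQ, ← sum_add_distrib]
        exact sum_congr rfl fun p _ => by ring
      rw [h3] at hx
      have h4 : |Q| ≤ C₄ := by
        rw [hQ]
        refine (abs_sum_le_sum_abs _ _).trans ?_
        have h5 : ∀ p ∈ (Prm x).filter (· ≠ q₀),
            |(∏ i, iidm n (w i) (k i) p - ∏ i, gm (k i)) / (p : ℝ)| ≤
            C₃ * (1 / ((p : ℝ) * Real.sqrt p)) := by
          intro p hp
          rw [mem_filter] at hp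
          have hp1 := hp.1
          unfold Prm at hp1
          rw [mem_filter, mem_range] at hp1
          have hf : Fact p.Prime := ⟨hp1.2⟩
          have hpr1 : (1 : ℝ) ≤ p := by exact_mod_cast hp1.2.one_le
          have hpr0 : (0 : ℝ) < p := by linarith
          have hs1 : 1 ≤ Real.sqrt p := Real.one_le_sqrt.2 hpr1
          have hinv : 1 / Real.sqrt p ≤ 1 := by
            rw [div_le_one (by linarith)]
            exact hs1
          have hinv0 : 0 ≤ 1 / Real.sqrt p := by positivity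
          have h6 : ∀ i, |iidm n (w i) (k i) p - gm (k i)| ≤ C₂ * (1 / Real.sqrt p) :=
            fun i => (hG i (w i) p hf (hw i p hf hp.2)).trans
              (mul_le_mul_of_nonneg_right (hGC i) hinv0)
          have h7 : |∏ i, iidm n (w i) (k i) p - ∏ i, gm (k i)| ≤
              s * B ^ s * (C₂ * (1 / Real.sqrt p)) := by
            refine prod_close _ _ hB1 (by positivity) (fun i => ?_) (fun i => ?_) h6
            · have h8 := h6 i
              have h9 : C₂ * (1 / Real.sqrt p) ≤ C₂ := by nlinarith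
              have h10 := abs_sub_abs_le_abs_sub (iidm n (w i) (k i) p) (gm (k i))
              rw [abs_of_nonneg (gm_nonneg (k i))] at h10
              have h11 := hB0 i
              linarith
            · rw [abs_of_nonneg (gm_nonneg (k i))]
              have h11 := hB0 i
              linarith
          rw [abs_div, abs_of_pos hpr0]
          calc |∏ i, iidm n (w i) (k i) p - ∏ i, gm (k i)| / (p : ℝ)
              ≤ (s * B ^ s * (C₂ * (1 / Real.sqrt p))) / (p : ℝ) :=
                div_le_div_of_nonneg_right h7 hpr0.le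
            _ = _ := by
                rw [hC₃, ← one_div_mul_one_div]
                ring
        refine (sum_le_sum h5).trans ?_
        rw [← mul_sum]
        exact mul_le_mul_of_nonneg_left (hZ _) hC₃0
      exact split_const hx h4 hKl
    have h2 := Set.ncard_le_ncard hsub (Finset.finite_toSet _)
    rw [Set.ncard_coe_finset] at h2
    have h3 := h2.trans card_image_le
    refine (Nat.cast_le.2 h3).trans (h1.trans ?_)
    have h4 := final_aux (C := C₄) hC₁.le hD₁0 hNs hK zero_le_one le_rfl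
    rw [one_pow, mul_one] at h4
    exact h4

end Pool.Agent.TH375.KL
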