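import Pool.Agent.TH375.KL.BoxSieveW
import Pool.Agent.TH375.KL.FamGauss

set_option autoImplicit false

/-!
# Joint moments for almost all tuples of members of linear families
-/

namespace Pool.Agent.TH375.KL

open Finset

/-- the `i`-th block of a vector -/
def blkv {s m : ℕ} {α : Type*} (c : Fin (s * m) → α) (i : Fin s) : Fin m → α :=
  fun j => c (finProdFinEquiv (i, j))

theorem sum_cube_blocks {s m p : ℕ} (F : Fin s → (Fin m → ℕ) → ℝ) :
    ∑ c ∈ cube (s * m) p, ∏ i, F i (blkv c i) = ∏ i, ∑ a ∈ cube m p, F i a := by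
  rw [prod_univ_sum]
  refine sum_nbij' (fun c i => blkv c i) (fun a k => a (finProdFinEquiv.symm k).1
    (finProdFinEquiv.symm k).2) ?_ ?_ ?_ ?_ ?_
  · intro c hc
    unfold cube at hc
    rw [Fintype.mem_piFinset] at hc
    rw [Fintype.mem_piFinset]
    intro i
    unfold cube
    rw [Fintype.mem_piFinset]
    intro j
    exact hc _
  · intro a ha
    rw [Fintype.mem_piFinset] at ha
    unfold cube
    rw [Fintype.mem_piFinset]
    intro k
    have h1 := ha (finProdFinEquiv.symm k).1
    unfold cube at h1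
    rw [Fintype.mem_piFinset] at h1
    exact h1 _
  · intro c _
    funext k
    exact congrArg c (finProdFinEquiv.apply_symm_apply k)
  · intro a _
    funext i j
    show a (finProdFinEquiv.symm (finProdFinEquiv (i, j))).1
      (finProdFinEquiv.symm (finProdFinEquiv (i, j))).2 = a i j
    rw [Equiv.symm_apply_apply]
  · intro c _
    rfl

theorem prod_close {s : ℕ} (a b : Fin s → ℝ) {B ε : ℝ} (hB : 1 ≤ B) (hε : 0 ≤ ε)
    (ha : ∀ i, |a i| ≤ B) (hb : ∀ i, |b i| ≤ B) (hab : ∀ i, |a i - b i| ≤ ε) :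
    |∏ i, a i - ∏ i, b i| ≤ s * B ^ s * ε := by
  induction s with
  | zero => simp
  | succ s ih =>
    rw [Fin.prod_univ_succ, Fin.prod_univ_succ]
    have h1 := ih (fun i => a i.succ) (fun i => b i.succ) (fun i => ha _) (fun i => hb _)
      fun i => hab _
    have h2 : |∏ i : Fin s, b i.succ| ≤ B ^ s := by
      rw [abs_prod]
      refine (prod_le_prod (fun i _ => abs_nonneg _) fun i _ => hb i.succ).trans ?_
      rw [prod_const, card_univ, Fintype.card_fin]
    have hB0 : 0 ≤ B := by linarith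
    have e : a 0 * ∏ i : Fin s, a i.succ - b 0 * ∏ i : Fin s, b i.succ =
        a 0 * (∏ i : Fin s, a i.succ - ∏ i : Fin s, b i.succ) +
          (a 0 - b 0) * ∏ i : Fin s, b i.succ := by ring
    rw [e]
    refine (abs_add_le _ _).trans ?_
    rw [abs_mul, abs_mul]
    have h3 : |a 0| * |∏ i : Fin s, a i.succ - ∏ i : Fin s, b i.succ| ≤
        B * (s * B ^ s * ε) := mul_le_mul (ha 0) h1 (abs_nonneg _) hB0
    have h4 : |a 0 - b 0| * |∏ i : Fin s, b i.succ| ≤ ε * B ^ s :=
      mul_le_mul (hab 0) h2 (abs_nonneg _) hε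
    have h5 : (0 : ℝ) ≤ B ^ s := by positivity
    have h6 : ε * B ^ s ≤ ε * B ^ (s + 1) := by
      refine mul_le_mul_of_nonneg_left ?_ hε
      exact pow_le_pow_right₀ hB (Nat.le_succ s)
    push_cast
    calc _ ≤ B * (s * B ^ s * ε) + ε * B ^ s := add_le_add h3 h4
      _ ≤ B * (s * B ^ s * ε) + ε * B ^ (s + 1) := by linarith
      _ = _ := by ring

/-- the number of tuples of members in a box -/
theorem card_tuples {s m : ℕ} (A : Fin s → Fin m → ℤ) (N : ℕ) :
    {c : Fin s → Fin m → ℤ | ∀ i j, A i j < c i j ∧ c i j ≤ A i j + N}.Finite ∧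
    ({c : Fin s → Fin m → ℤ | ∀ i j, A i j < c i j ∧ c i j ≤ A i j + N}.ncard : ℝ) =
      (N : ℝ) ^ (s * m) := by
  have h1 : {c : Fin s → Fin m → ℤ | ∀ i j, A i j < c i j ∧ c i j ≤ A i j + N} =
      ((Fintype.piFinset fun i => box (A i) N : Finset (Fin s → Fin m → ℤ)) :
        Set (Fin s → Fin m → ℤ)) := by
    ext c
    rw [Set.mem_ofPred_eq, mem_coe, Fintype.mem_piFinset]
    refine forall_congr' fun i => ?_
    unfold box
    rw [Fintype.mem_piFinset]
    exact forall_congr' fun j => mem_Ioc.symm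
  rw [h1]
  refine ⟨Finset.finite_toSet _, ?_⟩
  rw [Set.ncard_coe_finset, Fintype.card_piFinset]
  simp only [card_box]
  rw [prod_const, card_univ, Fintype.card_fin, ← pow_mul, mul_comm m s]
  push_cast
  rfl

theorem split_aux {P Q K t C : ℝ} (hx : K * t < (P + Q) ^ 2) (h5 : Q ^ 2 ≤ 4 * C ^ 2 * t)
    (hK : 16 * C ^ 2 + 1 ≤ K) (ht : 0 ≤ t) : K / 4 * t < P ^ 2 := by
  have h6 : (P + Q) ^ 2 ≤ 2 * P ^ 2 + 2 * Q ^ 2 := by nlinarith [sq_nonneg (P - Q)]
  have h8 : (16 * C ^ 2 + 1) * t ≤ K * t := mul_le_mul_of_nonneg_right hK ht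
  linarith

theorem final_aux {C₁ D₁ C M K L : ℝ} (hC₁ : 0 ≤ C₁) (hD₁ : 0 ≤ D₁) (hM : 0 ≤ M) (hK : 0 < K)
    (hL : 0 ≤ L) (hL1 : L ≤ 1) :
    C₁ * (D₁ * L ^ 2) * M / (K / 4) ≤ (4 * (C₁ * D₁) + 16 * C ^ 2 + 1) * M / K := by
  have h5 : L ^ 2 ≤ 1 := pow_le_one₀ hL hL1
  have h6 : C₁ * (D₁ * L ^ 2) * M / (K / 4) = 4 * (C₁ * D₁ * L ^ 2) * M / K := by
    field_simp
  rw [h6]
  refine div_le_div_of_nonneg_right ?_ hK.le
  refine mul_le_mul_of_nonneg_right ?_ hM
  have h7 : C₁ * D₁ * L ^ 2 ≤ C₁ * D₁ * 1 := mul_le_mul_of_nonneg_left h5 (by positivity)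
  have h8 : 0 ≤ C ^ 2 := sq_nonneg C
  linarith

/-- **Joint moments for almost all tuples of members of linear families** -/
theorem joint_moments (n m s D : ℕ) (k : Fin s → ℕ) (hk : ∀ i, 2 * k i ≤ D + 1) : ∃ C : ℝ, 0 < C ∧
    ∀ (lam : ℕ → ℝ) (L : ℝ), 0 ≤ L → L ≤ 1 → (∀ p : ℕ, p.Prime → |lam p| ≤ L * Real.log p) →
    ∀ (q₀ : ℕ) (w : Fin s → ∀ p : ℕ, ZMod p → ℝ),
    (∀ (i : Fin s) (p : ℕ) (_ : Fact p.Prime), p ≠ q₀ → Good n p (w i p)) →
    ∀ (g : Fin s → MvPolynomial (Fin n) ℤ) (e : Fin s → Fin m → MvPolynomial (Fin n) ℤ),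
    (∀ (i : Fin s) (α : Fin n → ℕ), ∑ i, α i ≤ D → ∃ j, e i j = ∏ i, MvPolynomial.X i ^ α i) →
    ∀ (A : Fin s → Fin m → ℤ) (N z : ℕ), z ^ 2 ≤ N → ∀ K : ℝ, 0 < K →
    ({c : Fin s → Fin m → ℤ | (∀ i j, A i j < c i j ∧ c i j ≤ A i j + N) ∧
      ∃ x : ℕ, 1 ≤ x ∧ x ≤ z ∧ K * thr x < (∑ p ∈ (Prm x).filter (· ≠ q₀),
        (∏ i, fam (w i) (g i) (e i) (k i) p (c i) - ∏ i, gm (k i)) * lam p) ^ 2}.ncard : ℝ) ≤
      C * (N : ℝ) ^ (s * m) / K := by
  classical
  obtain ⟨C₁, hC₁, hbox⟩ := box_scales_w (s * m)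
  -- constants
  have hgc : ∀ i, ∃ C : ℝ, 0 < C ∧ ∀ (w : ∀ p : ℕ, ZMod p → ℝ) (p : ℕ)
    (_ : Fact p.Prime), Good n p (w p) → |iidm n w (k i) p - gm (k i)| ≤ C * (1 / Real.sqrt p) :=
    fun i => iidm_gauss n (k i)
  choose G hG0 hG using hgc
  set C₂ : ℝ := 1 + ∑ i, G i with hC₂
  have hsumG : 0 ≤ ∑ i, G i := sum_nonneg fun i _ => (hG0 i).le
  have hC₂1 : 1 ≤ C₂ := by linarith
  have hGC : ∀ i, G i ≤ C₂ := by
    intro i
    have := single_le_sum (fun j _ => (hG0 j).le) (mem_univ i)
    linarith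
  set D₁ : ℝ := ∏ i, ((Nat.factorial (2 * k i) : ℝ) * (2 * Real.exp 1)) with hD₁
  have hD₁0 : 0 ≤ D₁ := prod_nonneg fun i _ => by positivity
  set B : ℝ := 1 + ∑ i, (gm (k i) + C₂) with hB
  have hB0 : ∀ i, gm (k i) + C₂ ≤ B - 1 := by
    intro i
    have h1 : ∀ j, 0 ≤ gm (k j) + C₂ := fun j => by
      have := gm_nonneg (k j)
      linarith
    have := single_le_sum (f := fun j => gm (k j) + C₂) (fun j _ => h1 j) (mem_univ i)
    rw [hB]
    linarith
  have hB1 : 1 ≤ B := by
    have h1 : 0 ≤ ∑ i, (gm (k i) + C₂) := sum_nonneg fun j _ => by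
      have := gm_nonneg (k j)
      linarith
    rw [hB]
    linarith
  set C₃ : ℝ := s * B ^ s * C₂ with hC₃
  have hC₃0 : 0 ≤ C₃ := by positivity
  refine ⟨4 * (C₁ * D₁) + 16 * C₃ ^ 2 + 1, by positivity, ?_⟩
  intro lam L hL hL1 hlam q₀ w hw g e he A N z hzN K hK
  -- the weights without the exceptional prime
  set w' : Fin s → ∀ p : ℕ, ZMod p → ℝ := fun i p y => if p = q₀ then 0 else w i p y with hw'
  have hw'g : ∀ i p, p ≠ q₀ → w' i p = w i p := by
    intro i p hp
    funext y
    rw [hw']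
    simp only
    rw [if_neg hp]
  have hw'q : ∀ i, w' i q₀ = fun _ => 0 := by
    intro i
    funext y
    rw [hw']
    simp only
    rw [if_true]
  have hcond : ∀ (i : Fin s) (p : ℕ) (_ : Fact p.Prime), (∀ y, |w' i p y| ≤ 1) ∧
      ∑ y, w' i p y = 0 ∧ (p : ℝ) ^ n * ∑ y, w' i p y ^ 2 ≤ p := by
    intro i p hp
    have hp1 : (1 : ℝ) ≤ p := by exact_mod_cast hp.out.one_le
    have hs1 : 1 ≤ Real.sqrt p := Real.one_le_sqrt.2 hp1
    by_cases hpq : p = q₀
    · subst hpq
      rw [hw'q]
      refine ⟨fun y => by simp, by simp, ?_⟩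
      simp
    · rw [hw'g i p hpq]
      obtain ⟨h1, h2, h3, _⟩ := hw i p hp hpq
      refine ⟨fun y => (h1 y).trans ?_, h2, h3⟩
      rw [div_le_one (by linarith)]
      exact hs1
  obtain ⟨hfin, hcard⟩ := card_tuples A N
  rcases lt_or_ge K (16 * C₃ ^ 2 + 1) with hKs | hKl
  · -- trivial range
    have h1 : ({c : Fin s → Fin m → ℤ | (∀ i j, A i j < c i j ∧ c i j ≤ A i j + N) ∧
      ∃ x : ℕ, 1 ≤ x ∧ x ≤ z ∧ K * thr x < (∑ p ∈ (Prm x).filter (· ≠ q₀),
        (∏ i, fam (w i) (g i) (e i) (k i) p (c i) - ∏ i, gm (k i)) * lam p) ^ 2}.ncard : ℝ) ≤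
        (N : ℝ) ^ (s * m) := by
      rw [← hcard]
      refine Nat.cast_le.2 (Set.ncard_le_ncard ?_ hfin)
      intro c hc
      exact hc.1
    refine h1.trans ?_
    rw [le_div_iff₀ hK]
    have h2 : (0 : ℝ) ≤ (N : ℝ) ^ (s * m) := by positivity
    have h3 : 0 ≤ C₁ * D₁ := by positivity
    calc (N : ℝ) ^ (s * m) * K ≤ (N : ℝ) ^ (s * m) * (16 * C₃ ^ 2 + 1) :=
          mul_le_mul_of_nonneg_left hKs.le h2
      _ ≤ (4 * (C₁ * D₁) + 16 * C₃ ^ 2 + 1) * (N : ℝ) ^ (s * m) := by nlinarith
  · -- the function on the large cube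
    set φ : ℕ → (Fin (s * m) → ℤ) → ℝ := fun p c =>
      ∏ i, fam (w' i) (g i) (e i) (k i) p (blkv c i) with hφ
    have hper : ∀ (p : ℕ) (c c' : Fin (s * m) → ℤ), p.Prime →
        (∀ i, (p : ℤ) ∣ c i - c' i) → φ p c = φ p c' := by
      intro p c c' hp h
      rw [hφ]
      simp only
      refine prod_congr rfl fun i _ => ?_
      unfold fam
      rw [dif_pos hp, dif_pos hp]
      have h2 : ∀ j, ((blkv c i j : ℤ) : ZMod p) = ((blkv c' i j : ℤ) : ZMod p) := by
        intro j
        rw [← sub_eq_zero, ← Int.cast_sub]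
        exact (ZMod.intCast_zmod_eq_zero_iff_dvd _ _).2 (h _)
      unfold famVal
      simp only [h2]
    have hcube : ∀ (p : ℕ) (l : Fin s → ℕ), p.Prime → (∀ i, l i ≤ D + 1) →
        (∑ c ∈ cube (s * m) p, ∏ i, fam (w' i) (g i) (e i) (l i) p
          (blkv (fun j => (c j : ℤ)) i)) / (p : ℝ) ^ (s * m) =
        ∏ i, iidm n (w' i) (l i) p := by
      intro p l hp hl
      have h1 := sum_cube_blocks (s := s) (m := m) (p := p)
        (fun i a => fam (w' i) (g i) (e i) (l i) p (fun j => (a j : ℤ)))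
      have h2 : ∀ c : Fin (s * m) → ℕ, ∀ i : Fin s, blkv (fun j => (c j : ℤ)) i =
          fun j => ((blkv c i j : ℕ) : ℤ) := fun c i => rfl
      simp only [h2]
      rw [h1, mul_comm s m, pow_mul]
      have h3 : ((p : ℝ) ^ m) ^ s = ∏ _i : Fin s, (p : ℝ) ^ m := by
        rw [prod_const, card_univ, Fintype.card_fin]
      rw [h3, ← prod_div_distrib]
      exact prod_congr rfl fun i _ => fam_cube (w' i) (g i) (e i) hp (hl i) (he i)
    have hcm : ∀ p : ℕ, p.Prime → cm φ p = ∏ i, iidm n (w' i) (k i) p := by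
      intro p hp
      unfold cm
      exact hcube p k hp fun i => by have := hk i; omega
    have hvar : ∀ p : ℕ, p.Prime → p ≤ z →
        (∑ c ∈ cube (s * m) p, φ p (fun i => (c i : ℤ)) ^ 2) / (p : ℝ) ^ (s * m) ≤ D₁ := by
      intro p hp _
      have h1 : ∀ c : Fin (s * m) → ℕ, φ p (fun i => (c i : ℤ)) ^ 2 =
          ∏ i, fam (w' i) (g i) (e i) (2 * k i) p (blkv (fun j => (c j : ℤ)) i) := by
        intro c
        rw [hφ]
        simp only
        rw [← prod_pow]
        refine prod_congr rfl fun i _ => ?_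
        unfold fam
        rw [dif_pos hp, dif_pos hp, mul_comm 2, pow_mul]
      simp only [h1]
      rw [hcube p (fun i => 2 * k i) hp hk, hD₁]
      have : Fact p.Prime := ⟨hp⟩
      refine prod_le_prod (fun i _ => ?_) fun i _ => ?_
      · unfold iidm
        rw [dif_pos hp]
        unfold iid
        refine div_nonneg (sum_nonneg fun Y _ => ?_) (Nat.cast_nonneg _)
        rw [pow_mul]
        positivity
      · obtain ⟨hw1, hw2, hw3⟩ := hcond i p this
        unfold iidm
        rw [dif_pos hp]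
        refine iid_le (w' i p) hw1 hw2 ?_ (k i)
        rw [ZMod.card, Fintype.card_fun, ZMod.card, Fintype.card_fin]
        push_cast
        exact hw3
    set AA : Fin (s * m) → ℤ := fun l => A (finProdFinEquiv.symm l).1 (finProdFinEquiv.symm l).2
      with hAA
    have h1 := hbox lam L hL hlam φ hper D₁ hD₁0 AA N z hzN hvar (K / 4) (by positivity)
    set bad := (box AA N).filter fun c => ∃ x : ℕ, 1 ≤ x ∧ x ≤ z ∧
      K / 4 * thr x < (∑ p ∈ Prm x, (φ p c - cm φ p) * lam p) ^ 2 with hbad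
    have hsub : {c : Fin s → Fin m → ℤ | (∀ i j, A i j < c i j ∧ c i j ≤ A i j + N) ∧
        ∃ x : ℕ, 1 ≤ x ∧ x ≤ z ∧ K * thr x < (∑ p ∈ (Prm x).filter (· ≠ q₀),
        (∏ i, fam (w i) (g i) (e i) (k i) p (c i) - ∏ i, gm (k i)) * lam p) ^ 2} ⊆
        ((bad.image fun c i => blkv c i : Finset (Fin s → Fin m → ℤ)) :
          Set (Fin s → Fin m → ℤ)) := by
      rintro c ⟨hc, x, hx1, hxz, hx⟩
      rw [mem_coe, mem_image]
      set c' : Fin (s * m) → ℤ := fun l =>
        c (finProdFinEquiv.symm l).1 (finProdFinEquiv.symm l).2 with hc'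
      have hblk : ∀ i, blkv c' i = c i := by
        intro i
        funext j
        show c (finProdFinEquiv.symm (finProdFinEquiv (i, j))).1
          (finProdFinEquiv.symm (finProdFinEquiv (i, j))).2 = c i j
        rw [Equiv.symm_apply_apply]
      refine ⟨c', ?_, funext hblk⟩
      rw [hbad, mem_filter]
      constructor
      · unfold box
        rw [Fintype.mem_piFinset]
        intro l
        rw [mem_Ioc]
        exact hc _ _
      refine ⟨x, hx1, hxz, ?_⟩
      have h2 : ∑ p ∈ Prm x, (φ p c' - cm φ p) * lam p =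
          ∑ p ∈ (Prm x).filter (· ≠ q₀),
            (∏ i, fam (w i) (g i) (e i) (k i) p (c i) - ∏ i, iidm n (w i) (k i) p) * lam p := by
        rw [← sum_filter_add_sum_filter_not (Prm x) (· ≠ q₀)]
        have h3 : ∑ p ∈ (Prm x).filter (fun p => ¬ p ≠ q₀), (φ p c' - cm φ p) * lam p = 0 := by
          refine sum_eq_zero fun p hp => ?_
          rw [mem_filter, not_not] at hp
          obtain ⟨hp1, rfl⟩ := hp
          unfold Prm at hp1
          rw [mem_filter] at hp1
          rw [hcm p hp1.2, hφ]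
          simp only
          have h4 : ∏ i, fam (w' i) (g i) (e i) (k i) p (blkv c' i) =
              ∏ i, iidm n (w' i) (k i) p := by
            refine prod_congr rfl fun i _ => ?_
            unfold fam iidm
            rw [dif_pos hp1.2, dif_pos hp1.2]
            have : Fact p.Prime := ⟨hp1.2⟩
            rw [hw'q]
            unfold iid
            simp only [sum_const_zero, sum_const, card_univ, nsmul_eq_mul]
            have hpos : (0 : ℝ) < Fintype.card ((Fin n → ZMod p) → ZMod p) := by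
              exact_mod_cast Fintype.card_pos
            rw [mul_div_assoc, mul_div_cancel₀]
            exact hpos.ne'
          rw [h4, sub_self, zero_mul]
        rw [h3, add_zero]
        refine sum_congr rfl fun p hp => ?_
        rw [mem_filter] at hp
        have hp1 := hp.1
        unfold Prm at hp1
        rw [mem_filter] at hp1
        rw [hcm p hp1.2, hφ]
        simp only
        congr 2
        · refine prod_congr rfl fun i _ => ?_
          unfold fam
          rw [hw'g i p hp.2, hblk i]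
        · refine prod_congr rfl fun i _ => ?_
          unfold iidm
          rw [hw'g i p hp.2]
      rw [h2]
      set P := ∑ p ∈ (Prm x).filter (· ≠ q₀),
        (∏ i, fam (w i) (g i) (e i) (k i) p (c i) - ∏ i, iidm n (w i) (k i) p) * lam p with hP
      set Q := ∑ p ∈ (Prm x).filter (· ≠ q₀),
        (∏ i, iidm n (w i) (k i) p - ∏ i, gm (k i)) * lam p with hQ
      have h3 : ∑ p ∈ (Prm x).filter (· ≠ q₀),
          (∏ i, fam (w i) (g i) (e i) (k i) p (c i) - ∏ i, gm (k i)) * lam p = P + Q := by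
        rw [hP, hQ, ← sum_add_distrib]
        exact sum_congr rfl fun p _ => by ring
      rw [h3] at hx
      have hx0 : (0 : ℝ) < x := by exact_mod_cast hx1
      have h4 : |Q| ≤ C₃ * (2 * Real.sqrt x * Real.log x) := by
        rw [hQ]
        refine (abs_sum_le_sum_abs _ _).trans ?_
        have h5 : ∀ p ∈ (Prm x).filter (· ≠ q₀),
            |(∏ i, iidm n (w i) (k i) p - ∏ i, gm (k i)) * lam p| ≤
            C₃ * Real.log x * (1 / Real.sqrt p) := by
          intro p hp
          rw [mem_filter] at hp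
          have hp1 := hp.1
          unfold Prm at hp1
          rw [mem_filter, mem_range] at hp1
          have hf : Fact p.Prime := ⟨hp1.2⟩
          have hpr1 : (1 : ℝ) ≤ p := by exact_mod_cast hp1.2.one_le
          have hs1 : 1 ≤ Real.sqrt p := Real.one_le_sqrt.2 hpr1
          have hinv : 1 / Real.sqrt p ≤ 1 := by
            rw [div_le_one (by linarith)]
            exact hs1
          have hinv0 : 0 ≤ 1 / Real.sqrt p := by positivity
          have h6 : ∀ i, |iidm n (w i) (k i) p - gm (k i)| ≤ C₂ * (1 / Real.sqrt p) :=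
            fun i => (hG i (w i) p hf (hw i p hf hp.2)).trans
              (mul_le_mul_of_nonneg_right (hGC i) hinv0)
          have h7 : |∏ i, iidm n (w i) (k i) p - ∏ i, gm (k i)| ≤
              s * B ^ s * (C₂ * (1 / Real.sqrt p)) := by
            refine prod_close _ _ hB1 (by positivity) (fun i => ?_) (fun i => ?_) h6
            · have h8 := h6 i
              have h9 : C₂ * (1 / Real.sqrt p) ≤ C₂ := by nlinarith
              have h10 := abs_sub_abs_le_abs_sub (iidm n (w i) (k i) p) (gm (k i))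
              rw [abs_of_nonneg (gm_nonneg (k i))] at h10
              have h11 := hB0 i
              linarith
            · rw [abs_of_nonneg (gm_nonneg (k i))]
              have h11 := hB0 i
              linarith
          have h8 : |lam p| ≤ Real.log x := by
            have h9 : Real.log p ≤ Real.log x :=
              Real.log_le_log (by linarith) (by exact_mod_cast (by omega : p ≤ x))
            have h10 : 0 ≤ Real.log p := Real.log_nonneg hpr1
            have h11 := hlam p hp1.2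
            nlinarith
          rw [abs_mul]
          calc |∏ i, iidm n (w i) (k i) p - ∏ i, gm (k i)| * |lam p|
              ≤ (s * B ^ s * (C₂ * (1 / Real.sqrt p))) * Real.log x :=
                mul_le_mul h7 h8 (abs_nonneg _) (by positivity)
            _ = _ := by rw [hC₃]; ring
        refine (sum_le_sum h5).trans ?_
        rw [← mul_sum]
        have hlogx : 0 ≤ Real.log x := Real.log_nonneg (by exact_mod_cast hx1)
        have h6 : ∑ p ∈ (Prm x).filter (· ≠ q₀), 1 / Real.sqrt p ≤ 2 * Real.sqrt x := by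
          refine le_trans ?_ (sum_inv_sqrt x)
          refine sum_le_sum_of_subset_of_nonneg ?_ fun i _ _ => by positivity
          intro p hp
          rw [mem_filter] at hp
          have hp1 := hp.1
          unfold Prm at hp1
          exact (mem_filter.1 hp1).1
        calc C₃ * Real.log x * ∑ p ∈ (Prm x).filter (· ≠ q₀), 1 / Real.sqrt p
            ≤ C₃ * Real.log x * (2 * Real.sqrt x) :=
              mul_le_mul_of_nonneg_left h6 (by positivity)
          _ = _ := by ring
      have h5 : Q ^ 2 ≤ 4 * C₃ ^ 2 * thr x := by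
        have h6 := pow_le_pow_left₀ (abs_nonneg Q) h4 2
        rw [sq_abs] at h6
        have h7 : (C₃ * (2 * Real.sqrt x * Real.log x)) ^ 2 =
            4 * C₃ ^ 2 * (x * Real.log x ^ 2) := by
          have h8 : Real.sqrt x ^ 2 = x := Real.sq_sqrt (Nat.cast_nonneg _)
          calc (C₃ * (2 * Real.sqrt x * Real.log x)) ^ 2
              = 4 * C₃ ^ 2 * (Real.sqrt x ^ 2 * Real.log x ^ 2) := by ring
            _ = _ := by rw [h8]
        rw [h7] at h6
        refine h6.trans ?_
        refine mul_le_mul_of_nonneg_left ?_ (by positivity)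
        unfold thr
        refine mul_le_mul_of_nonneg_left ?_ hx0.le
        have hlogx : 0 ≤ Real.log x := Real.log_nonneg (by exact_mod_cast hx1)
        have h8 : Real.log x ≤ (Nat.log 2 x : ℝ) + 1 := by
          have h9 : x < 2 ^ (Nat.log 2 x + 1) := Nat.lt_pow_succ_log_self (by norm_num) x
          have h10 : (x : ℝ) ≤ 2 ^ (Nat.log 2 x + 1) := by exact_mod_cast h9.le
          have h11 := Real.log_le_log hx0 h10
          rw [Real.log_pow] at h11
          have h12 := Real.log_two_lt_d9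
          push_cast at h11
          have h13 : (0 : ℝ) ≤ (Nat.log 2 x : ℝ) + 1 := by positivity
          nlinarith
        have h9 : (1 : ℝ) ≤ (Nat.log 2 x : ℝ) + 1 := by
          have : (0 : ℝ) ≤ Nat.log 2 x := Nat.cast_nonneg _
          linarith
        calc Real.log x ^ 2 ≤ ((Nat.log 2 x : ℝ) + 1) ^ 2 := pow_le_pow_left₀ hlogx h8 2
          _ ≤ ((Nat.log 2 x : ℝ) + 1) ^ 5 := pow_le_pow_right₀ h9 (by norm_num)
      exact split_aux hx h5 hKl (by unfold thr; positivity)
    have h2 := Set.ncard_le_ncard hsub (Finset.finite_toSet _)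
    rw [Set.ncard_coe_finset] at h2
    have h3 := h2.trans card_image_le
    refine (Nat.cast_le.2 h3).trans (h1.trans ?_)
    exact final_aux hC₁.le hD₁0 (by positivity) hK hL hL1

end Pool.Agent.TH375.KL
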