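import Pool.Agent.TH375.KL.Sieve

set_option autoImplicit false

/-!
# The maximal inequality for the dual large sieve
-/

namespace Pool.Agent.TH375.KL

open Finset

/-- the sum of the squares of all dyadic block sums inside the block `[a, a + 2^L)` -/
noncomputable def QQ : ℕ → ℕ → (ℕ → ℝ) → ℝ
  | 0, a, s => s a ^ 2
  | L + 1, a, s => (∑ k ∈ Ico a (a + 2 ^ (L + 1)), s k) ^ 2 + QQ L a s + QQ L (a + 2 ^ L) s

theorem QQ_nonneg (L : ℕ) : ∀ (a : ℕ) (s : ℕ → ℝ), 0 ≤ QQ L a s := by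
  induction L with
  | zero => intro a s; exact sq_nonneg _
  | succ L ih =>
    intro a s
    have h1 := ih a s
    have h2 := ih (a + 2 ^ L) s
    have h3 := sq_nonneg (∑ k ∈ Ico a (a + 2 ^ (L + 1)), s k)
    show 0 ≤ (∑ k ∈ Ico a (a + 2 ^ (L + 1)), s k) ^ 2 + QQ L a s + QQ L (a + 2 ^ L) s
    linarith

theorem block_le (L : ℕ) (a : ℕ) (s : ℕ → ℝ) : (∑ k ∈ Ico a (a + 2 ^ L), s k) ^ 2 ≤ QQ L a s := by
  cases L with
  | zero =>
    rw [pow_zero, Nat.Ico_succ_singleton, sum_singleton]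
    exact le_refl _
  | succ L =>
    have h1 := QQ_nonneg L a s
    have h2 := QQ_nonneg L (a + 2 ^ L) s
    show (∑ k ∈ Ico a (a + 2 ^ (L + 1)), s k) ^ 2 ≤
      (∑ k ∈ Ico a (a + 2 ^ (L + 1)), s k) ^ 2 + QQ L a s + QQ L (a + 2 ^ L) s
    linarith

/-- the Rademacher-Menshov decomposition -/
theorem partial_sum_le (L : ℕ) : ∀ (a x : ℕ) (s : ℕ → ℝ), a ≤ x → x ≤ a + 2 ^ L →
    (∑ k ∈ Ico a x, s k) ^ 2 ≤ (L + 1) * QQ L a s := by
  induction L with
  | zero =>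
    intro a x s h1 h2
    rw [pow_zero] at h2
    rcases Nat.eq_or_lt_of_le h1 with h3 | h3
    · rw [← h3, Ico_self, sum_empty]
      have := QQ_nonneg 0 a s
      push_cast
      nlinarith
    · have h4 : x = a + 1 := by omega
      rw [h4, Nat.Ico_succ_singleton, sum_singleton]
      show s a ^ 2 ≤ ((0 : ℕ) + 1) * s a ^ 2
      push_cast
      linarith
  | succ L ih =>
    intro a x s h1 h2
    have e1 : a + 2 ^ (L + 1) = a + 2 ^ L + 2 ^ L := by rw [pow_succ]; ring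
    have h3 := QQ_nonneg L a s
    have h4 := QQ_nonneg L (a + 2 ^ L) s
    have h5 := sq_nonneg (∑ k ∈ Ico a (a + 2 ^ (L + 1)), s k)
    have hQ : QQ (L + 1) a s =
      (∑ k ∈ Ico a (a + 2 ^ (L + 1)), s k) ^ 2 + QQ L a s + QQ L (a + 2 ^ L) s := rfl
    have hL : (0 : ℝ) ≤ L := Nat.cast_nonneg L
    rcases le_or_gt x (a + 2 ^ L) with h6 | h6
    · have h7 := ih a x s h1 h6
      push_cast
      rw [hQ]
      nlinarith
    · have h7 := ih (a + 2 ^ L) x s h6.le (by omega)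
      have h8 := block_le L a s
      have e2 : ∑ k ∈ Ico a x, s k = ∑ k ∈ Ico a (a + 2 ^ L), s k + ∑ k ∈ Ico (a + 2 ^ L) x, s k := by
        rw [sum_Ico_consecutive _ (Nat.le_add_right _ _) h6.le]
      rw [e2]
      set B := ∑ k ∈ Ico a (a + 2 ^ L), s k
      set T := ∑ k ∈ Ico (a + 2 ^ L) x, s k
      have h9 : (L + 1 : ℝ) * (B + T) ^ 2 ≤ (L + 2) * ((L + 1) * B ^ 2 + T ^ 2) := by
        nlinarith [sq_nonneg ((L + 1 : ℝ) * B - T)]
      have h10 : (L + 1 : ℝ) * (B + T) ^ 2 ≤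
          (L + 1) * ((L + 2) * (QQ L a s + QQ L (a + 2 ^ L) s)) := by
        refine h9.trans ?_
        have h11 : (L + 1 : ℝ) * B ^ 2 + T ^ 2 ≤ (L + 1) * (QQ L a s + QQ L (a + 2 ^ L) s) := by
          nlinarith
        have h12 : (0 : ℝ) ≤ L + 2 := by linarith
        calc (L + 2 : ℝ) * ((L + 1) * B ^ 2 + T ^ 2)
            ≤ (L + 2) * ((L + 1) * (QQ L a s + QQ L (a + 2 ^ L) s)) :=
              mul_le_mul_of_nonneg_left h11 h12
          _ = _ := by ring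
      have h11 : (B + T) ^ 2 ≤ (L + 2) * (QQ L a s + QQ L (a + 2 ^ L) s) :=
        le_of_mul_le_mul_left h10 (by linarith)
      push_cast
      rw [hQ]
      nlinarith

/-- the sum of the block sums over a family of sequences -/
theorem sum_QQ {ι : Type*} (T : Finset ι) (s : ι → ℕ → ℝ) (w : ℕ → ℝ)
    (h : ∀ a b, ∑ t ∈ T, (∑ k ∈ Ico a b, s t k) ^ 2 ≤ ∑ k ∈ Ico a b, w k) (L : ℕ) :
    ∀ a : ℕ, ∑ t ∈ T, QQ L a (s t) ≤ (L + 1) * ∑ k ∈ Ico a (a + 2 ^ L), w k := by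
  induction L with
  | zero =>
    intro a
    have h1 := h a (a + 1)
    rw [pow_zero]
    refine le_trans (le_of_eq ?_) (h1.trans (le_of_eq ?_))
    · refine sum_congr rfl fun t _ => ?_
      rw [Nat.Ico_succ_singleton, sum_singleton]
      rfl
    · push_cast
      ring
  | succ L ih =>
    intro a
    have h1 := h a (a + 2 ^ (L + 1))
    have h2 := ih a
    have h3 := ih (a + 2 ^ L)
    have e1 : a + 2 ^ (L + 1) = a + 2 ^ L + 2 ^ L := by rw [pow_succ]; ring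
    have e2 : ∑ k ∈ Ico a (a + 2 ^ (L + 1)), w k =
        ∑ k ∈ Ico a (a + 2 ^ L), w k + ∑ k ∈ Ico (a + 2 ^ L) (a + 2 ^ L + 2 ^ L), w k := by
      rw [e1, sum_Ico_consecutive _ (Nat.le_add_right _ _) (Nat.le_add_right _ _)]
    have e3 : ∑ t ∈ T, QQ (L + 1) a (s t) = ∑ t ∈ T, (∑ k ∈ Ico a (a + 2 ^ (L + 1)), s t k) ^ 2 +
        ∑ t ∈ T, QQ L a (s t) + ∑ t ∈ T, QQ L (a + 2 ^ L) (s t) := by
      rw [← sum_add_distrib, ← sum_add_distrib]
      rfl
    rw [e3]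
    push_cast
    rw [e2] at h1 ⊢
    linarith

/-- the maximal inequality for families of sequences -/
theorem maximal_of {ι : Type*} (T : Finset ι) (s : ι → ℕ → ℝ) (w : ℕ → ℝ)
    (h : ∀ a b, ∑ t ∈ T, (∑ k ∈ Ico a b, s t k) ^ 2 ≤ ∑ k ∈ Ico a b, w k) (z L : ℕ)
    (hL : z ≤ 2 ^ L) (hw : ∀ k, z ≤ k → w k = 0) (X : ι → ℕ) (hX : ∀ t, X t ≤ z) :
    ∑ t ∈ T, (∑ k ∈ range (X t), s t k) ^ 2 ≤ (L + 1) ^ 2 * ∑ k ∈ range z, w k := by
  have h1 : ∀ t ∈ T, (∑ k ∈ range (X t), s t k) ^ 2 ≤ (L + 1) * QQ L 0 (s t) := by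
    intro t _
    have := partial_sum_le L 0 (X t) (s t) (Nat.zero_le _) (by have := hX t; omega)
    rwa [← range_eq_Ico] at this
  refine (sum_le_sum h1).trans ?_
  rw [← mul_sum]
  have h2 := sum_QQ T s w h L 0
  have h3 : ∑ k ∈ Ico 0 (0 + 2 ^ L), w k = ∑ k ∈ range z, w k := by
    rw [zero_add, ← range_eq_Ico]
    symm
    refine sum_subset (range_subset_range.2 hL) fun k _ hk => ?_
    rw [mem_range, not_lt] at hk
    exact hw k hk
  rw [h3] at h2
  have h4 : (0 : ℝ) ≤ L + 1 := by positivity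
  calc (L + 1 : ℝ) * ∑ t ∈ T, QQ L 0 (s t) ≤ (L + 1) * ((L + 1) * ∑ k ∈ range z, w k) :=
        mul_le_mul_of_nonneg_left h2 h4
    _ = _ := by ring

/-- the mean value modulo `p` of a function of the integers -/
noncomputable def mv (φ : ℕ → ℤ → ℝ) (p : ℕ) : ℝ := (∑ u ∈ range p, φ p (u : ℤ)) / p

/-- the primes up to `x` -/
def Prm (x : ℕ) : Finset ℕ := (range (x + 1)).filter Nat.Prime

/-- **The maximal dual large sieve** for functions periodic modulo primes -/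
theorem maximal_dual (φ : ℕ → ℤ → ℝ)
    (hφ : ∀ (p : ℕ) (t u : ℤ), p.Prime → (p : ℤ) ∣ t - u → φ p t = φ p u) (M : ℤ) (N z : ℕ)
    (X : ℤ → ℕ) (hX : ∀ t, X t ≤ z) :
    ∑ n ∈ Icc 1 N, (∑ p ∈ Prm (X (M + (n : ℤ))), (φ p (M + (n : ℤ)) - mv φ p)) ^ 2 ≤
      6 * (Nat.log 2 z + 2) ^ 2 * (N + (z : ℝ) ^ 2) *
        ∑ p ∈ Prm z, (∑ u ∈ range p, φ p (u : ℤ) ^ 2) / p := by
  classical
  set g : ∀ p : ℕ, ZMod p → ℝ := fun p a => φ p ((a.val : ℕ) : ℤ) - mv φ p with hg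
  have hgt : ∀ (p : ℕ) (t : ℤ), p.Prime → g p (t : ZMod p) = φ p t - mv φ p := by
    intro p t hp
    have : NeZero p := ⟨hp.ne_zero⟩
    rw [hg]
    simp only
    congr 1
    refine hφ p _ _ hp ?_
    rw [ZMod.val_intCast]
    have h1 := Int.emod_add_mul_ediv t p
    refine ⟨-(t / p), ?_⟩
    linarith
  have hmean : ∀ p : ℕ, p.Prime → ∑ a ∈ range p, g p (a : ZMod p) = 0 := by
    intro p hp
    have hp0 : (p : ℝ) ≠ 0 := by exact_mod_cast hp.ne_zero
    have h1 : ∀ a ∈ range p, g p (a : ZMod p) = φ p (a : ℤ) - mv φ p := by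
      intro a _
      have := hgt p (a : ℤ) hp
      rwa [Int.cast_natCast] at this
    rw [sum_congr rfl h1, sum_sub_distrib, sum_const, card_range, nsmul_eq_mul]
    unfold mv
    rw [mul_div_cancel₀ _ hp0, sub_self]
  have hvar : ∀ p : ℕ, p.Prime → (∑ a ∈ range p, g p (a : ZMod p) ^ 2) / p ≤
      (∑ u ∈ range p, φ p (u : ℤ) ^ 2) / p := by
    intro p hp
    have hp0 : (0 : ℝ) < p := by exact_mod_cast hp.pos
    refine div_le_div_of_nonneg_right ?_ hp0.le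
    have h1 : ∀ a ∈ range p, g p (a : ZMod p) ^ 2 =
        φ p (a : ℤ) ^ 2 - 2 * mv φ p * φ p (a : ℤ) + mv φ p ^ 2 := by
      intro a _
      have := hgt p (a : ℤ) hp
      rw [Int.cast_natCast] at this
      rw [this]
      ring
    rw [sum_congr rfl h1, sum_add_distrib, sum_sub_distrib, ← mul_sum, sum_const, card_range,
      nsmul_eq_mul]
    have h2 : ∑ a ∈ range p, φ p (a : ℤ) = p * mv φ p := by
      unfold mv
      rw [mul_div_cancel₀ _ hp0.ne']
    rw [h2]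
    nlinarith [mul_nonneg hp0.le (sq_nonneg (mv φ p))]
  set s : ℕ → ℕ → ℝ := fun n k => if k.Prime ∧ k < z + 1 then φ k (M + (n : ℤ)) - mv φ k else 0
    with hs
  set w : ℕ → ℝ := fun k => if k.Prime ∧ k < z + 1 then
    6 * (N + (z : ℝ) ^ 2) * ((∑ u ∈ range k, φ k (u : ℤ) ^ 2) / k) else 0 with hw
  have hblock : ∀ a b, ∑ n ∈ Icc 1 N, (∑ k ∈ Ico a b, s n k) ^ 2 ≤ ∑ k ∈ Ico a b, w k := by
    intro a b
    set P := (Ico a b).filter fun k => k.Prime ∧ k < z + 1 with hP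
    have hPp : ∀ p ∈ P, p.Prime ∧ p ≤ z := by
      intro p hp
      rw [hP, mem_filter] at hp
      exact ⟨hp.2.1, by omega⟩
    have h1 := dual z N P hPp M g fun p hp => hmean p (hPp p hp).1
    have h2 : ∀ n, ∑ k ∈ Ico a b, s n k = ∑ p ∈ P, g p ((M + (n : ℤ) : ℤ) : ZMod p) := by
      intro n
      rw [hP, sum_filter]
      refine sum_congr rfl fun k _ => ?_
      rw [hs]
      simp only
      split_ifs with h3
      · rw [hgt k _ h3.1]
      · rfl
    have h3 : ∑ k ∈ Ico a b, w k =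
        6 * (N + (z : ℝ) ^ 2) * ∑ p ∈ P, (∑ u ∈ range p, φ p (u : ℤ) ^ 2) / p := by
      rw [hP, sum_filter, mul_sum]
      refine sum_congr rfl fun k _ => ?_
      rw [hw]
      simp only
      split_ifs
      · rfl
      · rw [mul_zero]
    rw [h3]
    refine le_trans (le_of_eq ?_) (h1.trans ?_)
    · exact sum_congr rfl fun n _ => by rw [h2]
    · exact mul_le_mul_of_nonneg_left (sum_le_sum fun p hp => hvar p (hPp p hp).1) (by positivity)
  have hlog : z + 1 ≤ 2 ^ (Nat.log 2 z + 1) := Nat.lt_pow_succ_log_self (by norm_num) z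
  have hfin := maximal_of (Icc 1 N) s w hblock (z + 1) (Nat.log 2 z + 1) hlog
    (fun k hk => by
      rw [hw]
      simp only
      rw [if_neg (by omega)]) (fun n => X (M + (n : ℤ)) + 1)
    (fun n => by have := hX (M + (n : ℤ)); omega)
  have e1 : ∀ n ∈ Icc 1 N, ∑ k ∈ range (X (M + (n : ℤ)) + 1), s n k =
      ∑ p ∈ Prm (X (M + (n : ℤ))), (φ p (M + (n : ℤ)) - mv φ p) := by
    intro n _
    unfold Prm
    rw [sum_filter]
    refine sum_congr rfl fun k hk => ?_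
    rw [mem_range] at hk
    have := hX (M + (n : ℤ))
    rw [hs]
    simp only
    by_cases h1 : k.Prime
    · rw [if_pos ⟨h1, by omega⟩, if_pos h1]
    · rw [if_neg fun h2 => h1 h2.1, if_neg h1]
  have e2 : ∑ k ∈ range (z + 1), w k =
      6 * (N + (z : ℝ) ^ 2) * ∑ p ∈ Prm z, (∑ u ∈ range p, φ p (u : ℤ) ^ 2) / p := by
    unfold Prm
    rw [sum_filter, mul_sum]
    refine sum_congr rfl fun k hk => ?_
    rw [mem_range] at hk
    rw [hw]
    simp only
    by_cases h1 : k.Prime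
    · rw [if_pos ⟨h1, hk⟩, if_pos h1]
    · rw [if_neg fun h2 => h1 h2.1, if_neg h1, mul_zero]
  rw [sum_congr rfl fun n hn => by rw [e1 n hn], e2] at hfin
  refine hfin.trans (le_of_eq ?_)
  push_cast
  ring

end Pool.Agent.TH375.KL
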