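import Pool.Agent.TH375.KL.Maximal

set_option autoImplicit false

/-!
# Sums over primes of real functions periodic modulo primes, for almost all integers
-/

namespace Pool.Agent.TH375.KL

open Finset

/-- **Almost all integers**: the number of `t` in an interval of length `N` for which the sum of `φ_p(t)` over
the primes `p ≤ x` is far from its mean value for some `x ≤ z` -/
theorem few_real (φ : ℕ → ℤ → ℝ)
    (hφ : ∀ (p : ℕ) (t u : ℤ), p.Prime → (p : ℤ) ∣ t - u → φ p t = φ p u)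
    (M : ℤ) (N z : ℕ) {K : ℝ} (hK : 0 < K) {W : ℝ}
    (hW : ∑ p ∈ Prm z, (∑ u ∈ range p, φ p (u : ℤ) ^ 2) / p ≤ W) :
    ({t : ℤ | M < t ∧ t ≤ M + N ∧ ∃ x : ℕ, x ≤ z ∧
      K * (Nat.log 2 z + 2) ^ 2 * W < (∑ p ∈ Prm x, (φ p t - mv φ p)) ^ 2}.ncard : ℝ) ≤
      6 * (N + (z : ℝ) ^ 2) / K := by
  classical
  set bad : ℤ → Prop := fun t => ∃ x : ℕ, x ≤ z ∧
      K * (Nat.log 2 z + 2) ^ 2 * W < (∑ p ∈ Prm x, (φ p t - mv φ p)) ^ 2 with hbad
  set X : ℤ → ℕ := fun t => if h : bad t then h.choose else 0 with hXd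
  have hX : ∀ t, X t ≤ z := by
    intro t
    rw [hXd]
    by_cases h : bad t
    · simp only [dif_pos h]
      exact h.choose_spec.1
    · simp only [dif_neg h]
      exact Nat.zero_le _
  have hXb : ∀ t, bad t → K * (Nat.log 2 z + 2) ^ 2 * W <
      (∑ p ∈ Prm (X t), (φ p t - mv φ p)) ^ 2 := by
    intro t h
    have h1 := h.choose_spec.2
    rw [hXd]
    simp only [dif_pos h]
    exact h1
  have hsum := maximal_dual φ hφ M N z X hX
  have hW0 : 0 ≤ W := by
    refine le_trans (sum_nonneg fun p _ => ?_) hW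
    exact div_nonneg (sum_nonneg fun u _ => sq_nonneg _) (Nat.cast_nonneg _)
  have hsum' : ∑ n ∈ Icc 1 N, (∑ p ∈ Prm (X (M + (n : ℤ))), (φ p (M + (n : ℤ)) - mv φ p)) ^ 2 ≤
      6 * (Nat.log 2 z + 2) ^ 2 * (N + (z : ℝ) ^ 2) * W :=
    hsum.trans (mul_le_mul_of_nonneg_left hW (by positivity))
  set B := (Icc 1 N).filter fun n : ℕ => bad (M + (n : ℤ)) with hB
  have hcard : ({t : ℤ | M < t ∧ t ≤ M + N ∧ bad t}.ncard : ℝ) ≤ B.card := by
    have h1 : {t : ℤ | M < t ∧ t ≤ M + N ∧ bad t} ⊆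
        ((B.image fun n : ℕ => M + (n : ℤ) : Finset ℤ) : Set ℤ) := by
      rintro a ⟨h2, h3, h4⟩
      rw [Finset.mem_coe, Finset.mem_image]
      have e : M + ((a - M).toNat : ℤ) = a := by omega
      refine ⟨(a - M).toNat, ?_, e⟩
      rw [hB, Finset.mem_filter, Finset.mem_Icc, e]
      exact ⟨⟨by omega, by omega⟩, h4⟩
    have h2 := Set.ncard_le_ncard h1 (Finset.finite_toSet _)
    rw [Set.ncard_coe_finset] at h2
    exact_mod_cast h2.trans Finset.card_image_le
  refine hcard.trans ?_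
  set ℓ : ℝ := (Nat.log 2 z + 2) ^ 2 with hℓ
  have hℓ0 : 0 < ℓ := by positivity
  have hBle : ∀ n ∈ B, K * ℓ * W <
      (∑ p ∈ Prm (X (M + (n : ℤ))), (φ p (M + (n : ℤ)) - mv φ p)) ^ 2 := by
    intro n hn
    rw [hB, mem_filter] at hn
    exact hXb _ hn.2
  have hsub : ∑ n ∈ B, (∑ p ∈ Prm (X (M + (n : ℤ))), (φ p (M + (n : ℤ)) - mv φ p)) ^ 2 ≤
      6 * ℓ * (N + (z : ℝ) ^ 2) * W :=
    le_trans (sum_le_sum_of_subset_of_nonneg (filter_subset _ _) fun n _ _ => sq_nonneg _) hsum'
  rcases B.eq_empty_or_nonempty with h0 | h0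
  · rw [h0, card_empty, Nat.cast_zero]
    positivity
  · have h1 := sum_lt_sum_of_nonempty h0 hBle
    rw [sum_const, nsmul_eq_mul] at h1
    have h2 := h1.trans_le hsub
    have hWp : 0 < W := by
      rcases hW0.eq_or_lt with h3 | h3
      · rw [← h3, mul_zero, mul_zero, mul_zero] at h2
        exact absurd h2 (lt_irrefl _)
      · exact h3
    rw [le_div_iff₀ hK]
    have h3 : (B.card * K : ℝ) * (ℓ * W) < 6 * (N + (z : ℝ) ^ 2) * (ℓ * W) := by
      calc (B.card * K : ℝ) * (ℓ * W) = B.card * (K * ℓ * W) := by ring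
        _ < 6 * ℓ * (N + (z : ℝ) ^ 2) * W := h2
        _ = _ := by ring
    exact (lt_of_mul_lt_mul_right h3 (by positivity)).le

/-! ### quadratic character sums over additive families -/

theorem qc_sum {p : ℕ} [Fact p.Prime] (hp : p ≠ 2) (a : ZMod p) :
    ∑ s : ZMod p, quadraticChar (ZMod p) (a + s) = 0 := by
  have h1 : ∑ s : ZMod p, quadraticChar (ZMod p) (a + s) = ∑ s : ZMod p, quadraticChar (ZMod p) s :=
    Equiv.sum_comp (Equiv.addLeft a) fun s => quadraticChar (ZMod p) s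
  rw [h1]
  exact quadraticChar_sum_zero (by rwa [ZMod.ringChar_zmod_n])

theorem qc_corr {p : ℕ} [hpf : Fact p.Prime] (hp : p ≠ 2) (a b : ZMod p) :
    ∑ s : ZMod p, quadraticChar (ZMod p) (a + s) * quadraticChar (ZMod p) (b + s) =
      (if a = b then (p : ℤ) else 0) - 1 := by
  classical
  set χ := quadraticChar (ZMod p) with hχ
  by_cases hab : a = b
  · rw [if_pos hab, hab]
    have h1 : ∀ s : ZMod p, χ (b + s) * χ (b + s) = if b + s = 0 then 0 else 1 := by
      intro s
      split_ifs with h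
      · rw [h, MulChar.map_zero, mul_zero]
      · rw [← sq]
        exact quadraticChar_sq_one h
    rw [sum_congr rfl fun s _ => h1 s]
    have h2 : ∑ s : ZMod p, (if b + s = 0 then (0 : ℤ) else 1) =
        ∑ s : ZMod p, (if s = 0 then (0 : ℤ) else 1) :=
      Equiv.sum_comp (Equiv.addLeft b) fun s => if s = 0 then (0 : ℤ) else 1
    rw [h2]
    have h3 : ∀ s : ZMod p, (if s = 0 then (0 : ℤ) else 1) = 1 - if s = 0 then 1 else 0 := by
      intro s
      split_ifs <;> norm_num
    rw [sum_congr rfl fun s _ => h3 s, sum_sub_distrib, sum_ite_eq', if_pos (mem_univ _), sum_const,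
      card_univ, ZMod.card, nsmul_eq_mul, mul_one]
  · rw [if_neg hab, zero_sub]
    have hc : b - a ≠ 0 := sub_ne_zero.2 (Ne.symm hab)
    -- shift
    have h1 : ∑ s : ZMod p, χ (a + s) * χ (b + s) = ∑ x : ZMod p, χ x * χ (x + (b - a)) := by
      have := Equiv.sum_comp (Equiv.addLeft a) fun x => χ x * χ (x + (b - a))
      rw [← this]
      refine sum_congr rfl fun s _ => ?_
      simp only [Equiv.coe_addLeft]
      congr 2
      ring
    rw [h1, ← add_sum_erase _ _ (mem_univ (0 : ZMod p)), MulChar.map_zero, zero_mul, zero_add]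
    have h2 : ∀ x ∈ univ.erase (0 : ZMod p), χ x * χ (x + (b - a)) = χ (1 + (b - a) * x⁻¹) := by
      intro x hx
      have hx0 : x ≠ 0 := (mem_erase.1 hx).1
      have h3 : x + (b - a) = x * (1 + (b - a) * x⁻¹) := by
        field_simp
      rw [h3, map_mul, ← mul_assoc, ← sq, quadraticChar_sq_one hx0, one_mul]
    rw [sum_congr rfl h2]
    have h3 : ∑ x ∈ univ.erase (0 : ZMod p), χ (1 + (b - a) * x⁻¹) =
        ∑ y ∈ univ.erase (1 : ZMod p), χ y := by
      refine sum_nbij' (fun x => 1 + (b - a) * x⁻¹) (fun y => ((y - 1) / (b - a))⁻¹) ?_ ?_ ?_ ?_ ?_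
      · intro x hx
        have hx0 : x ≠ 0 := (mem_erase.1 hx).1
        rw [mem_erase]
        refine ⟨?_, mem_univ _⟩
        intro h
        have h4 : (b - a) * x⁻¹ = 0 := by linear_combination h
        rcases mul_eq_zero.1 h4 with h5 | h5
        · exact hc h5
        · exact hx0 (inv_eq_zero.1 h5)
      · intro y hy
        have hy1 : y ≠ 1 := (mem_erase.1 hy).1
        rw [mem_erase]
        refine ⟨?_, mem_univ _⟩
        intro h
        have h4 := inv_eq_zero.1 h
        rcases div_eq_zero_iff.1 h4 with h5 | h5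
        · exact hy1 (sub_eq_zero.1 h5)
        · exact hc h5
      · intro x hx
        have hx0 : x ≠ 0 := (mem_erase.1 hx).1
        rw [add_sub_cancel_left, mul_div_cancel_left₀ _ hc, inv_inv]
      · intro y _
        rw [inv_inv, mul_div_cancel₀ _ hc]
        ring
      · intro x _
        rfl
    have h4 : ∑ y ∈ univ.erase (1 : ZMod p), χ y = -1 := by
      have h5 := add_sum_erase univ χ (mem_univ (1 : ZMod p))
      have h6 : ∑ y : ZMod p, χ y = 0 := quadraticChar_sum_zero (by rwa [ZMod.ringChar_zmod_n])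
      rw [h6, map_one] at h5
      linarith
    rw [h3, h4]

end Pool.Agent.TH375.KL
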