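import Pool.Agent.TH375.KL.Sieve

set_option autoImplicit false

/-!
# Averages over primes for almost all integers, uniformly over all scales
-/

namespace Pool.Agent.TH375.KL

open Finset

/-- the primes up to `x` -/
def Pr (x : ℕ) : Finset ℕ := (range (x + 1)).filter Nat.Prime

theorem card_Pr (x : ℕ) : (Pr x).card = Nat.primeCounting x := by
  unfold Pr Nat.primeCounting Nat.primeCounting'
  rw [Nat.count_eq_card_filter_range]

theorem Pr_mono {x y : ℕ} (h : x ≤ y) : Pr x ⊆ Pr y := by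
  intro p hp
  unfold Pr at hp ⊢
  rw [mem_filter, mem_range] at hp ⊢
  exact ⟨by omega, hp.2⟩

theorem pi_pos {F : ℕ} (hF : 2 ≤ F) : 0 < Nat.primeCounting F := by
  rw [← card_Pr, card_pos]
  exact ⟨2, by unfold Pr; rw [mem_filter, mem_range]; exact ⟨by omega, Nat.prime_two⟩⟩

/-- Chebyshev's lower bound -/
theorem cheb : ∃ C : ℝ, 0 < C ∧ ∀ F : ℕ, 2 ≤ F →
    (F : ℝ) ≤ C * (Nat.primeCounting F * Real.log F) := by
  have h1 : ∀ F : ℕ, 2 ≤ F → (F : ℝ) * Real.log 2 - Real.log (F + 1) ≤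
      Nat.primeCounting F * Real.log F := fun F _ =>
    (Chebyshev.psi_ge F).trans (Chebyshev.psi_le_primeCounting_mul_log F)
  have hl2 : (0 : ℝ) < Real.log 2 := Real.log_pos (by norm_num)
  refine ⟨100, by norm_num, fun F hF => ?_⟩
  have hF' : (2 : ℝ) ≤ F := by exact_mod_cast hF
  have hpi : (1 : ℝ) ≤ Nat.primeCounting F := by
    have : 0 < Nat.primeCounting F := pi_pos hF
    exact_mod_cast this
  have hlog : Real.log 2 ≤ Real.log F := Real.log_le_log (by norm_num) hF'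
  have hl2' : (0.69 : ℝ) < Real.log 2 := by
    have := Real.log_two_gt_d9
    linarith
  by_cases hb : (F : ℝ) ≤ 64
  · have h2 : Real.log F ≤ Nat.primeCounting F * Real.log F :=
      le_mul_of_one_le_left (by linarith) hpi
    linarith
  · push Not at hb
    have h2 := h1 F hF
    -- log (F + 1) ≤ F / 4
    have h3 : Real.log ((F : ℝ) + 1) ≤ (F + 1) / 16 + 3 := by
      have h4 := Real.log_le_sub_one_of_pos (show (0 : ℝ) < ((F : ℝ) + 1) / 16 by positivity)
      have h5 : Real.log (((F : ℝ) + 1) / 16) = Real.log ((F : ℝ) + 1) - Real.log 16 :=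
        Real.log_div (by positivity) (by norm_num)
      have h6 : Real.log 16 ≤ 4 := by
        have : (16 : ℝ) = 2 ^ 4 := by norm_num
        rw [this, Real.log_pow]
        have := Real.log_two_lt_d9
        push_cast
        linarith
      linarith
    nlinarith

variable (G : ∀ p : ℕ, ZMod p → ℝ)

/-- the mean over the residue classes -/
noncomputable def nu (p : ℕ) : ℝ := (∑ a ∈ range p, G p (a : ZMod p)) / p

/-- the deviation from the mean, summed over the primes up to `x` -/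
noncomputable def dev (x : ℕ) (a : ℤ) : ℝ := ∑ p ∈ Pr x, (G p (a : ZMod p) - nu G p)

variable {G}

theorem nu_le (hG : ∀ p a, |G p a| ≤ 1) (p : ℕ) : |nu G p| ≤ 1 := by
  unfold nu
  rcases Nat.eq_zero_or_pos p with h0 | h0
  · rw [h0]
    simp
  · have hp : (0 : ℝ) < p := by exact_mod_cast h0
    rw [abs_div, abs_of_pos hp, div_le_one hp]
    refine (abs_sum_le_sum_abs _ _).trans ((sum_le_sum fun a _ => hG p _).trans ?_)
    simp

theorem term_le (hG : ∀ p a, |G p a| ≤ 1) (p : ℕ) (a : ZMod p) : |G p a - nu G p| ≤ 2 := by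
  refine (abs_sub _ _).trans ?_
  have := nu_le hG p
  have := hG p a
  linarith

theorem sum_sq_le (hG : ∀ p a, |G p a| ≤ 1) {p : ℕ} (hp : 0 < p) :
    (∑ a ∈ range p, (G p (a : ZMod p) - nu G p) ^ 2) / p ≤ 1 := by
  have hp0 : (0 : ℝ) < p := by exact_mod_cast hp
  rw [div_le_one hp0]
  have h1 : ∀ a : ℕ, (G p (a : ZMod p) - nu G p) ^ 2 =
      G p (a : ZMod p) ^ 2 - 2 * nu G p * G p (a : ZMod p) + nu G p ^ 2 := fun a => by ring
  simp only [h1]
  rw [sum_add_distrib, sum_sub_distrib, ← mul_sum, sum_const, card_range, nsmul_eq_mul]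
  have h2 : ∑ a ∈ range p, G p (a : ZMod p) = p * nu G p := by
    unfold nu
    field_simp
  have h3 : ∑ a ∈ range p, G p (a : ZMod p) ^ 2 ≤ p := by
    refine (sum_le_sum fun a _ => ?_).trans (le_of_eq (by simp : ∑ _a ∈ range p, (1 : ℝ) = p))
    have := hG p (a : ZMod p)
    rw [← sq_abs]
    nlinarith [abs_nonneg (G p (a : ZMod p))]
  rw [h2]
  nlinarith [sq_nonneg (nu G p)]

/-- one scale -/
theorem one_scale (hG : ∀ p a, |G p a| ≤ 1) {ε : ℝ} (hε : 0 < ε) (M : ℤ) (N F : ℕ) (hF : 2 ≤ F) :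
    (((Icc 1 N).filter fun n : ℕ => ε * Nat.primeCounting F ≤ |dev G F (M + (n : ℤ))|).card : ℝ) ≤
      6 * (N + (F : ℝ) ^ 2) / (ε ^ 2 * Nat.primeCounting F) := by
  classical
  have hpi : (0 : ℝ) < Nat.primeCounting F := by
    have : 0 < Nat.primeCounting F := pi_pos hF
    exact_mod_cast this
  have h1 := dual F N (Pr F) (fun p hp => by
      unfold Pr at hp
      rw [mem_filter, mem_range] at hp
      exact ⟨hp.2, by omega⟩) M (fun p a => G p a - nu G p) (fun p hp => by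
      unfold Pr at hp
      rw [mem_filter] at hp
      have hp0 : (p : ℝ) ≠ 0 := by
        have := hp.2.pos
        positivity
      rw [sum_sub_distrib, sum_const, card_range, nsmul_eq_mul]
      unfold nu
      field_simp
      ring)
  have h2 : ∑ p ∈ Pr F, (∑ a ∈ range p, (G p (a : ZMod p) - nu G p) ^ 2) / p ≤
      Nat.primeCounting F := by
    refine (sum_le_sum (g := fun _ => (1 : ℝ)) fun p hp => ?_).trans (le_of_eq ?_)
    · unfold Pr at hp
      rw [mem_filter] at hp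
      exact sum_sq_le hG hp.2.pos
    · rw [sum_const, card_Pr, nsmul_eq_mul, mul_one]
  have h3 : ∑ n ∈ Icc 1 N, dev G F (M + (n : ℤ)) ^ 2 ≤
      6 * (N + (F : ℝ) ^ 2) * Nat.primeCounting F :=
    h1.trans (mul_le_mul_of_nonneg_left h2 (by positivity))
  set E := (Icc 1 N).filter fun n : ℕ => ε * Nat.primeCounting F ≤ |dev G F (M + (n : ℤ))| with hE
  have h4 : (E.card : ℝ) * (ε * Nat.primeCounting F) ^ 2 ≤
      ∑ n ∈ Icc 1 N, dev G F (M + (n : ℤ)) ^ 2 := by
    calc (E.card : ℝ) * (ε * Nat.primeCounting F) ^ 2 =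
          ∑ _n ∈ E, (ε * Nat.primeCounting F) ^ 2 := by rw [sum_const, nsmul_eq_mul]
      _ ≤ ∑ n ∈ E, dev G F (M + (n : ℤ)) ^ 2 := by
          refine sum_le_sum fun n hn => ?_
          rw [hE, mem_filter] at hn
          rw [← sq_abs (dev G F (M + (n : ℤ)))]
          exact pow_le_pow_left₀ (by positivity) hn.2 2
      _ ≤ _ := sum_le_sum_of_subset_of_nonneg (filter_subset _ _) fun _ _ _ => sq_nonneg _
  rw [le_div_iff₀ (by positivity)]
  have h5 : (E.card : ℝ) * (ε ^ 2 * Nat.primeCounting F) * Nat.primeCounting F ≤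
      6 * (N + (F : ℝ) ^ 2) * Nat.primeCounting F := by
    calc (E.card : ℝ) * (ε ^ 2 * Nat.primeCounting F) * Nat.primeCounting F =
          (E.card : ℝ) * (ε * Nat.primeCounting F) ^ 2 := by ring
      _ ≤ _ := h4.trans h3
  exact le_of_mul_le_mul_right h5 hpi

/-- comparison of two scales -/
theorem dev_sub (hG : ∀ p a, |G p a| ≤ 1) {F x : ℕ} (h : F ≤ x) (a : ℤ) :
    |dev G x a - dev G F a| ≤ 2 * ((Nat.primeCounting x : ℝ) - Nat.primeCounting F) := by
  have h1 : dev G x a - dev G F a = ∑ p ∈ Pr x \ Pr F, (G p (a : ZMod p) - nu G p) := by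
    unfold dev
    rw [← sum_sdiff (Pr_mono h)]
    ring
  rw [h1]
  refine (abs_sum_le_sum_abs _ _).trans ((sum_le_sum fun p _ => term_le hG p _).trans ?_)
  rw [sum_const, nsmul_eq_mul, card_sdiff_of_subset (Pr_mono h), card_Pr, card_Pr,
    Nat.cast_sub (by rw [← card_Pr, ← card_Pr]; exact card_le_card (Pr_mono h))]
  linarith

/-- the `K`-th prime -/
noncomputable def Fk (K : ℕ) : ℕ := Nat.nth Nat.Prime (K - 1)

theorem Fk_prime (K : ℕ) : (Fk K).Prime := Nat.prime_nth_prime _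

theorem count_Fk (K : ℕ) : Nat.count Nat.Prime (Fk K) = K - 1 :=
  Nat.count_nth_of_infinite Nat.infinite_setOfPred_prime _

theorem pi_Fk {K : ℕ} (hK : 1 ≤ K) : Nat.primeCounting (Fk K) = K := by
  unfold Nat.primeCounting Nat.primeCounting'
  rw [Nat.count_succ, count_Fk, if_pos (Fk_prime K)]
  omega

theorem Fk_le {K x : ℕ} (hK : 1 ≤ K) (h : K ≤ Nat.primeCounting x) : Fk K ≤ x := by
  by_contra hcon
  push Not at hcon
  have h1 : Nat.primeCounting x ≤ K - 1 := by
    rw [← count_Fk K]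
    unfold Nat.primeCounting Nat.primeCounting'
    exact Nat.count_monotone _ hcon
  omega

section geo

variable {ρ : ℝ} (hρ : 1 < ρ)
include hρ

/-- the exponent of `k` in base `ρ` -/
theorem exists_exp {k : ℕ} (hk : 1 ≤ k) :
    ρ ^ ⌊Real.log k / Real.log ρ⌋₊ ≤ k ∧ (k : ℝ) < ρ ^ (⌊Real.log k / Real.log ρ⌋₊ + 1) := by
  have hk' : (1 : ℝ) ≤ k := by exact_mod_cast hk
  have hL : 0 < Real.log ρ := Real.log_pos hρ
  have h0 : 0 ≤ Real.log k / Real.log ρ := div_nonneg (Real.log_nonneg hk') hL.le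
  have h1 := Nat.floor_le h0
  have h2 := Nat.lt_floor_add_one (Real.log k / Real.log ρ)
  have hρ0 : 0 < ρ := by linarith
  constructor
  · rw [← Real.log_le_log_iff (by positivity) (by linarith), Real.log_pow]
    rwa [le_div_iff₀ hL] at h1
  · rw [← Real.log_lt_log_iff (by linarith) (by positivity), Real.log_pow]
    rw [div_lt_iff₀ hL] at h2
    exact_mod_cast h2

end geo

/-- **All scales at once** -/
theorem all_scales : ∃ C : ℝ, 0 < C ∧ ∀ (G : ∀ p : ℕ, ZMod p → ℝ), (∀ p a, |G p a| ≤ 1) →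
    ∀ ε : ℝ, 0 < ε → ε ≤ 1 → ∀ (M : ℤ) (N y z : ℕ), 2 ≤ y → y ≤ z →
    open scoped Classical in
    (((Icc 1 N).filter fun n : ℕ => ∃ x, y ≤ x ∧ x ≤ z ∧
      ε * Nat.primeCounting x < |dev G x (M + (n : ℤ))|).card : ℝ) ≤
      C / ε ^ 3 * (N / Nat.primeCounting y + z * Real.log z ^ 2) := by
  classical
  obtain ⟨C₁, hC₁, hcheb⟩ := cheb
  refine ⟨24 * 16 * (1 + 2 * C₁ ^ 2), by positivity, ?_⟩
  intro G hG ε hε hε1 M N y z hy hyz
  set η : ℝ := ε / 8 with hη
  have hη0 : 0 < η := by positivity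
  set ρ : ℝ := 1 + η with hρ
  have hρ1 : 1 < ρ := by linarith
  have hρ0 : 0 < ρ := by linarith
  have hρ2 : ρ ≤ 9 / 8 := by linarith
  set K : ℕ → ℕ := fun j => ⌈ρ ^ j⌉₊ with hK
  have hK1 : ∀ j, 1 ≤ K j := fun j => Nat.one_le_ceil_iff.2 (by positivity)
  have hKge : ∀ j, ρ ^ j ≤ K j := fun j => Nat.le_ceil _
  have hKle : ∀ j, (K j : ℝ) ≤ 2 * ρ ^ j := fun j => by
    have h1 := Nat.ceil_lt_add_one (show 0 ≤ ρ ^ j by positivity)
    have h2 : 1 ≤ ρ ^ j := one_le_pow₀ hρ1.le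
    have h3 : (K j : ℝ) < ρ ^ j + 1 := h1
    linarith
  set J : ℕ → ℕ := fun k => ⌊Real.log k / Real.log ρ⌋₊ with hJ
  have hJmono : ∀ {k k' : ℕ}, 1 ≤ k → k ≤ k' → J k ≤ J k' := by
    intro k k' h1 h2
    refine Nat.floor_le_floor (div_le_div_of_nonneg_right ?_ (Real.log_pos hρ1).le)
    exact Real.log_le_log (by exact_mod_cast h1) (by exact_mod_cast h2)
  have hKJ : ∀ {k : ℕ}, 1 ≤ k → K (J k) ≤ k := fun h => Nat.ceil_le.2 (exists_exp hρ1 h).1
  have hpiy : 1 ≤ Nat.primeCounting y := pi_pos hy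
  have hpiz : 1 ≤ Nat.primeCounting z := pi_pos (hy.trans hyz)
  have hz2 : (2 : ℝ) ≤ z := by exact_mod_cast hy.trans hyz
  set j0 := J (Nat.primeCounting y) with hj0
  set j1 := J (Nat.primeCounting z) with hj1
  set E : ℕ → Finset ℕ := fun j => (Icc 1 N).filter fun n : ℕ =>
    ε / 2 * (K j : ℝ) ≤ |dev G (Fk (K j)) (M + (n : ℤ))| with hE
  have hsub : ((Icc 1 N).filter fun n : ℕ => ∃ x, y ≤ x ∧ x ≤ z ∧
      ε * Nat.primeCounting x < |dev G x (M + (n : ℤ))|) ⊆ (Icc j0 j1).biUnion E := by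
    intro n hn
    rw [mem_filter] at hn
    obtain ⟨hn1, x, hyx, hxz, hx⟩ := hn
    have hk1 : 1 ≤ Nat.primeCounting x := pi_pos (hy.trans hyx)
    set k := Nat.primeCounting x with hk
    rw [mem_biUnion]
    refine ⟨J k, ?_, ?_⟩
    · rw [mem_Icc]
      exact ⟨hJmono hpiy (Nat.monotone_primeCounting hyx),
        hJmono hk1 (Nat.monotone_primeCounting hxz)⟩
    · rw [hE]
      simp only
      rw [mem_filter]
      refine ⟨hn1, ?_⟩
      have h1 := exists_exp hρ1 hk1
      have h2 : K (J k) ≤ k := hKJ hk1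
      have h3 : Fk (K (J k)) ≤ x := Fk_le (hK1 _) h2
      have h4 := dev_sub hG h3 (M + (n : ℤ))
      rw [pi_Fk (hK1 _)] at h4
      have h5 : (k : ℝ) - K (J k) ≤ η * k := by
        have h6 := hKge (J k)
        have h7 : (k : ℝ) < ρ * ρ ^ (J k) := by
          have := h1.2
          rw [pow_succ] at this
          linarith
        have h8 : ρ ^ (J k) ≤ (k : ℝ) := h1.1
        have h9 : (k : ℝ) - ρ ^ (J k) ≤ η * ρ ^ (J k) := by
          rw [hρ] at h7 ⊢
          linarith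
        nlinarith
      have h6 : (K (J k) : ℝ) ≤ k := by exact_mod_cast h2
      have h7 := abs_sub_abs_le_abs_sub (dev G x (M + (n : ℤ))) (dev G (Fk (K (J k))) (M + (n : ℤ)))
      have hk0 : (0 : ℝ) < k := by exact_mod_cast hk1
      have h8 : |dev G x (M + (n : ℤ))| - |dev G (Fk (K (J k))) (M + (n : ℤ))| ≤ 2 * (η * k) := by
        refine h7.trans (h4.trans ?_)
        linarith
      have h9 : 2 * (η * k) = ε / 4 * k := by rw [hη]; ring
      have h10 : ε / 2 * (K (J k) : ℝ) ≤ ε / 2 * k := by gcongr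
      have h11 : (0 : ℝ) < ε * k := by positivity
      linarith
  have hcard : ((((Icc 1 N).filter fun n : ℕ => ∃ x, y ≤ x ∧ x ≤ z ∧
      ε * Nat.primeCounting x < |dev G x (M + (n : ℤ))|).card : ℕ) : ℝ) ≤
      ∑ j ∈ Icc j0 j1, ((E j).card : ℝ) := by
    have h1 := (card_le_card hsub).trans card_biUnion_le
    exact_mod_cast h1
  refine hcard.trans ?_
  -- one scale
  have hone : ∀ j ∈ Icc j0 j1, ((E j).card : ℝ) ≤
      24 / ε ^ 2 * (N * (ρ⁻¹) ^ j + 2 * C₁ ^ 2 * Real.log z ^ 2 * ρ ^ j) := by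
    intro j hj
    rw [mem_Icc] at hj
    have h1 := one_scale hG (ε := ε / 2) (by positivity) M N (Fk (K j)) (Fk_prime _).two_le
    rw [pi_Fk (hK1 j)] at h1
    have hKj : (0 : ℝ) < K j := by exact_mod_cast hK1 j
    have hρj : 0 < ρ ^ j := by positivity
    have h2 : K j ≤ Nat.primeCounting z := by
      refine Nat.ceil_le.2 (le_trans ?_ (exists_exp hρ1 hpiz).1)
      exact pow_le_pow_right₀ hρ1.le hj.2
    have h3 : Fk (K j) ≤ z := Fk_le (hK1 j) h2
    have h4 := hcheb (Fk (K j)) (Fk_prime _).two_le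
    rw [pi_Fk (hK1 j)] at h4
    have hF0 : (0 : ℝ) < Fk (K j) := by exact_mod_cast (Fk_prime (K j)).pos
    have h5 : Real.log (Fk (K j)) ≤ Real.log z := Real.log_le_log hF0 (by exact_mod_cast h3)
    have hlz : 0 < Real.log z := Real.log_pos (by linarith)
    have h6 : (Fk (K j) : ℝ) ≤ C₁ * (K j * Real.log z) := by
      refine h4.trans ?_
      gcongr
    have h7 : (Fk (K j) : ℝ) ^ 2 / K j ≤ 2 * C₁ ^ 2 * Real.log z ^ 2 * ρ ^ j := by
      rw [div_le_iff₀ hKj]
      calc (Fk (K j) : ℝ) ^ 2 ≤ (C₁ * (K j * Real.log z)) ^ 2 := pow_le_pow_left₀ hF0.le h6 2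
        _ = C₁ ^ 2 * Real.log z ^ 2 * K j * K j := by ring
        _ ≤ C₁ ^ 2 * Real.log z ^ 2 * (2 * ρ ^ j) * K j := by
            have := hKle j
            gcongr
        _ = _ := by ring
    have h8 : (N : ℝ) / K j ≤ N * (ρ⁻¹) ^ j := by
      rw [inv_pow, ← div_eq_mul_inv]
      exact div_le_div_of_nonneg_left (by positivity) hρj (hKge j)
    have h9 : 6 * ((N : ℝ) + (Fk (K j) : ℝ) ^ 2) / ((ε / 2) ^ 2 * K j) =
        24 / ε ^ 2 * (N / K j + (Fk (K j) : ℝ) ^ 2 / K j) := by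
      field_simp
      ring
    rw [h9] at h1
    refine h1.trans ?_
    gcongr
  refine (sum_le_sum hone).trans ?_
  rw [← mul_sum, sum_add_distrib, ← mul_sum, ← mul_sum]
  have hr0 : 0 ≤ ρ⁻¹ := by positivity
  have hr1 : ρ⁻¹ < 1 := inv_lt_one_of_one_lt₀ hρ1
  have hA : ∑ j ∈ Icc j0 j1, (ρ⁻¹) ^ j ≤ 16 / (ε * Nat.primeCounting y) := by
    have h1 : Icc j0 j1 = Ico j0 (j1 + 1) := by
      ext j
      rw [mem_Icc, mem_Ico]
      omega
    rw [h1]
    refine (geom_sum_Ico_le_of_lt_one hr0 hr1).trans ?_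
    have hpy : (0 : ℝ) < Nat.primeCounting y := by exact_mod_cast hpiy
    have h2 : (ρ⁻¹) ^ j0 ≤ ρ / Nat.primeCounting y := by
      have h3 := (exists_exp hρ1 hpiy).2
      have h4 : (Nat.primeCounting y : ℝ) < ρ ^ j0 * ρ := by
        rw [← pow_succ]
        exact h3
      rw [inv_pow, inv_eq_one_div, div_le_div_iff₀ (by positivity) hpy]
      linarith
    have h3 : 1 - ρ⁻¹ = η / ρ := by
      have : ρ - 1 = η := by rw [hρ]; ring
      rw [← this]
      field_simp
    rw [h3, div_div_eq_mul_div, div_le_div_iff₀ hη0 (by positivity)]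
    calc (ρ⁻¹) ^ j0 * ρ * (ε * Nat.primeCounting y) ≤
          ρ / Nat.primeCounting y * ρ * (ε * Nat.primeCounting y) := by gcongr
      _ = ρ ^ 2 * ε := by field_simp
      _ ≤ 2 * ε := by
          have : ρ ^ 2 ≤ 2 := by nlinarith
          gcongr
      _ = 16 * η := by rw [hη]; ring
  have hB : ∑ j ∈ Icc j0 j1, ρ ^ j ≤ 16 * z / ε := by
    have h1 : ∑ j ∈ Icc j0 j1, ρ ^ j ≤ ∑ j ∈ range (j1 + 1), ρ ^ j := by
      refine sum_le_sum_of_subset_of_nonneg ?_ fun _ _ _ => by positivity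
      intro j hj
      rw [mem_Icc] at hj
      rw [mem_range]
      omega
    refine h1.trans ?_
    rw [geom_sum_eq hρ1.ne']
    have h2 : ρ - 1 = η := by rw [hρ]; ring
    rw [h2, div_le_div_iff₀ hη0 hε]
    have h3 : ρ ^ (j1 + 1) ≤ ρ * z := by
      rw [pow_succ, mul_comm]
      refine mul_le_mul_of_nonneg_left ?_ hρ0.le
      refine (exists_exp hρ1 hpiz).1.trans ?_
      have : Nat.primeCounting z ≤ z := by
        unfold Nat.primeCounting Nat.primeCounting'
        have h4 : Nat.count Nat.Prime (z + 1) = ((range (z + 1)).filter Nat.Prime).card :=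
          Nat.count_eq_card_filter_range _ _
        rw [h4]
        have h5 : (range (z + 1)).filter Nat.Prime ⊆ Icc 1 z := by
          intro p hp
          rw [mem_filter, mem_range] at hp
          rw [mem_Icc]
          exact ⟨hp.2.one_le, by omega⟩
        have h6 := card_le_card h5
        rw [Nat.card_Icc] at h6
        omega
      exact_mod_cast this
    have h4 : ρ * z ≤ 2 * z := by nlinarith
    calc (ρ ^ (j1 + 1) - 1) * ε ≤ (2 * z) * ε := by
          refine mul_le_mul_of_nonneg_right ?_ hε.le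
          linarith
      _ = 16 * z * η := by rw [hη]; ring
  have hlz : 0 ≤ Real.log z ^ 2 := sq_nonneg _
  calc 24 / ε ^ 2 * (N * ∑ j ∈ Icc j0 j1, (ρ⁻¹) ^ j +
        2 * C₁ ^ 2 * Real.log z ^ 2 * ∑ j ∈ Icc j0 j1, ρ ^ j) ≤
      24 / ε ^ 2 * (N * (16 / (ε * Nat.primeCounting y)) +
        2 * C₁ ^ 2 * Real.log z ^ 2 * (16 * z / ε)) := by gcongr
    _ = 24 * 16 / ε ^ 3 * (N / Nat.primeCounting y + 2 * C₁ ^ 2 * (z * Real.log z ^ 2)) := by
        have hpy : (Nat.primeCounting y : ℝ) ≠ 0 := by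
          have : (0 : ℝ) < Nat.primeCounting y := by exact_mod_cast hpiy
          exact this.ne'
        field_simp
    _ ≤ 24 * 16 * (1 + 2 * C₁ ^ 2) / ε ^ 3 *
        (N / Nat.primeCounting y + z * Real.log z ^ 2) := by
        have h1 : 24 * 16 * (1 + 2 * C₁ ^ 2) / ε ^ 3 *
            ((N : ℝ) / Nat.primeCounting y + z * Real.log z ^ 2) =
            24 * 16 / ε ^ 3 * ((1 + 2 * C₁ ^ 2) *
            (N / Nat.primeCounting y + z * Real.log z ^ 2)) := by ring
        rw [h1]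
        refine mul_le_mul_of_nonneg_left ?_ (by positivity)
        have h2 : 0 ≤ (N : ℝ) / Nat.primeCounting y := by positivity
        have h3 : 0 ≤ (z : ℝ) * Real.log z ^ 2 := by positivity
        nlinarith [mul_nonneg (sq_nonneg C₁) h2]

end Pool.Agent.TH375.KL
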