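import Pool.Agent.TH375.KL.Bounded

set_option autoImplicit false

/-!
# Truncated Dirichlet series over the primes for almost all integers
-/

namespace Pool.Agent.TH375.KL

open Finset

theorem log_sq_le {p : ℝ} (hp : 0 < p) : Real.log p ^ 2 ≤ 16 * Real.sqrt p ∨ p < 1 := by
  rcases lt_or_ge p 1 with h | h
  · exact Or.inr h
  · left
    have h1 : 0 ≤ Real.log p := Real.log_nonneg h
    have h2 : 0 < Real.sqrt (Real.sqrt p) := Real.sqrt_pos.2 (Real.sqrt_pos.2 hp)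
    have h3 := Real.log_le_sub_one_of_pos h2
    rw [Real.log_sqrt (Real.sqrt_nonneg _), Real.log_sqrt hp.le] at h3
    have h4 : Real.log p ≤ 4 * Real.sqrt (Real.sqrt p) := by linarith
    have h5 := pow_le_pow_left₀ h1 h4 2
    rw [mul_pow, Real.sq_sqrt (Real.sqrt_nonneg _)] at h5
    linarith

/-- the weights `p^(-(w-1))` -/
noncomputable def wt (w : ℝ) (i : ℕ) : ℝ := (max (i : ℝ) 1) ^ (-(w - 1))

theorem wt_nonneg (w : ℝ) (i : ℕ) : 0 ≤ wt w i := by
  unfold wt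
  positivity

theorem wt_anti {w : ℝ} (hw : 1 ≤ w) : Antitone (wt w) := by
  intro i j hij
  unfold wt
  have h1 : max (i : ℝ) 1 ≤ max (j : ℝ) 1 := max_le_max_right _ (by exact_mod_cast hij)
  have h0 : (0 : ℝ) < max (i : ℝ) 1 := lt_of_lt_of_le one_pos (le_max_right _ _)
  exact Real.rpow_le_rpow_of_nonpos h0 h1 (by linarith)

theorem wt_zero (w : ℝ) : wt w 0 = 1 := by
  unfold wt
  rw [Nat.cast_zero, max_eq_right zero_le_one, Real.one_rpow]

theorem wt_prime (w : ℝ) {p : ℕ} (hp : p.Prime) :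
    (p : ℝ) ^ (-w) = wt w p / p := by
  unfold wt
  have hp1 : (1 : ℝ) ≤ p := by exact_mod_cast hp.one_le
  have hp0 : (0 : ℝ) < p := by linarith
  rw [max_eq_left hp1, show -w = -(w - 1) + -1 by ring, Real.rpow_add hp0, Real.rpow_neg_one]
  rfl

/-- **Truncated Dirichlet series for almost all integers** -/
theorem few_series : ∃ C : ℝ, 0 < C ∧ ∀ ψ : ℕ → ℤ → ℝ,
    (∀ (p : ℕ) (t u : ℤ), p.Prime → (p : ℤ) ∣ t - u → ψ p t = ψ p u) →
    ∀ D : ℝ, 0 ≤ D → ∀ (M : ℤ) (N z : ℕ),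
    (∀ p : ℕ, p.Prime → p ≤ z → (∑ u ∈ range p, ψ p (u : ℤ) ^ 2) / p ≤ D) →
    ∀ K : ℝ, 0 < K →
    ({t : ℤ | M < t ∧ t ≤ M + N ∧ ∃ x : ℕ, x ≤ z ∧ ∃ w : ℝ, 1 ≤ w ∧
      K * D < (∑ p ∈ Prm x, (ψ p t - mv ψ p) * (Real.log p * (p : ℝ) ^ (-w))) ^ 2}.ncard : ℝ) ≤
      C * (N + (z : ℝ) ^ 2) / K := by
  obtain ⟨C, hC, hmax⟩ := bounded_max
  refine ⟨C * 16, by positivity, ?_⟩
  intro ψ hψ D hD M N z hvar K hK
  classical
  set φ : ℕ → ℤ → ℝ := fun p t => ψ p t * (Real.log p / p) with hφ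
  have hper : ∀ (p : ℕ) (t u : ℤ), p.Prime → (p : ℤ) ∣ t - u → φ p t = φ p u := by
    intro p t u hp h
    rw [hφ]
    simp only
    rw [hψ p t u hp h]
  have hmv : ∀ p, mv φ p = mv ψ p * (Real.log p / p) := by
    intro p
    unfold mv
    rw [hφ]
    simp only
    rw [← sum_mul]
    ring
  have hvar' : ∀ p : ℕ, p.Prime → p ≤ z →
      (∑ u ∈ range p, φ p (u : ℤ) ^ 2) / p ≤ 16 * D / (p * Real.sqrt p) := by
    intro p hp hpz
    have hp0 : (0 : ℝ) < p := by exact_mod_cast hp.pos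
    have h1 := hvar p hp hpz
    have h2 : (∑ u ∈ range p, φ p (u : ℤ) ^ 2) / p =
        (∑ u ∈ range p, ψ p (u : ℤ) ^ 2) / p * (Real.log p / p) ^ 2 := by
      rw [hφ]
      simp only
      simp only [mul_pow]
      rw [← sum_mul]
      ring
    rw [h2]
    have h3 : (Real.log p / p) ^ 2 ≤ 16 / (p * Real.sqrt p) := by
      rcases log_sq_le hp0 with h4 | h4
      · rw [div_pow, div_le_div_iff₀ (by positivity) (by positivity)]
        have h5 : Real.sqrt p * Real.sqrt p = p := Real.mul_self_sqrt hp0.le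
        have h6 : 0 < (p : ℝ) * Real.sqrt p := by positivity
        calc Real.log p ^ 2 * (p * Real.sqrt p) ≤ 16 * Real.sqrt p * (p * Real.sqrt p) :=
              mul_le_mul_of_nonneg_right h4 h6.le
          _ = 16 * p * (Real.sqrt p * Real.sqrt p) := by ring
          _ = 16 * (p : ℝ) ^ 2 := by rw [h5]; ring
      · exact absurd h4 (not_lt.2 (by exact_mod_cast hp.one_le))
    calc (∑ u ∈ range p, ψ p (u : ℤ) ^ 2) / p * (Real.log p / p) ^ 2
        ≤ D * (16 / (p * Real.sqrt p)) := mul_le_mul h1 h3 (sq_nonneg _) hD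
      _ = _ := by ring
  -- the bad set
  set bad : ℤ → Prop := fun t => ∃ x : ℕ, x ≤ z ∧
    K * D < (∑ p ∈ Prm x, (φ p t - mv φ p)) ^ 2 with hbad
  have hsub : {t : ℤ | M < t ∧ t ≤ M + N ∧ ∃ x : ℕ, x ≤ z ∧ ∃ w : ℝ, 1 ≤ w ∧
      K * D < (∑ p ∈ Prm x, (ψ p t - mv ψ p) * (Real.log p * (p : ℝ) ^ (-w))) ^ 2} ⊆
      {t : ℤ | M < t ∧ t ≤ M + N ∧ bad t} := by
    rintro t ⟨h1, h2, x, hx, w, hw, h3⟩
    refine ⟨h1, h2, ?_⟩
    by_contra hgood
    have hg : ∀ y ≤ z, |∑ p ∈ Prm y, (φ p t - mv φ p)| ≤ Real.sqrt (K * D) := by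
      intro y hy
      refine Real.abs_le_sqrt ?_
      by_contra h4
      exact hgood ⟨y, hy, not_le.1 h4⟩
    set b : ℕ → ℝ := fun i => if i.Prime then φ i t - mv φ i else 0 with hb
    have hsumb : ∀ y, ∑ i ∈ range (y + 1), b i = ∑ p ∈ Prm y, (φ p t - mv φ p) := by
      intro y
      unfold Prm
      rw [sum_filter]
    have hB : ∀ k ≤ x + 1, |∑ i ∈ range k, b i| ≤ Real.sqrt (K * D) := by
      intro k hk
      rcases Nat.eq_zero_or_pos k with h4 | h4
      · rw [h4, range_zero, sum_empty, abs_zero]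
        exact Real.sqrt_nonneg _
      · obtain ⟨y, rfl⟩ : ∃ y, k = y + 1 := ⟨k - 1, by omega⟩
        rw [hsumb]
        exact hg y (by omega)
    have h4 := abel_ineq b (wt w) (wt_anti hw) (wt_nonneg w) (x + 1) hB
    rw [wt_zero, one_mul] at h4
    have h5 : ∑ i ∈ range (x + 1), wt w i * b i =
        ∑ p ∈ Prm x, (ψ p t - mv ψ p) * (Real.log p * (p : ℝ) ^ (-w)) := by
      unfold Prm
      rw [sum_filter]
      refine sum_congr rfl fun i _ => ?_
      rw [hb]
      simp only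
      split_ifs with h6
      · rw [wt_prime w h6, hmv, hφ]
        simp only
        ring
      · rw [mul_zero]
    rw [h5] at h4
    have h6 := pow_le_pow_left₀ (abs_nonneg _) h4 2
    rw [sq_abs, Real.sq_sqrt (by positivity)] at h6
    linarith
  have hfin : {t : ℤ | M < t ∧ t ≤ M + N ∧ bad t}.Finite :=
    (Set.finite_Ioc M (M + N)).subset fun _ h => ⟨h.1, h.2.1⟩
  have hle := Set.ncard_le_ncard hsub hfin
  refine le_trans (Nat.cast_le.2 hle) ?_
  -- Chebyshev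
  set X : ℤ → ℕ := fun t => if h : bad t then h.choose else 0 with hXd
  have hX : ∀ t, X t ≤ z := by
    intro t
    rw [hXd]
    by_cases h : bad t
    · simp only [dif_pos h]
      exact h.choose_spec.1
    · simp only [dif_neg h]
      exact Nat.zero_le _
  have hXb : ∀ t, bad t → K * D < (∑ p ∈ Prm (X t), (φ p t - mv φ p)) ^ 2 := by
    intro t h
    have h1 := h.choose_spec.2
    rw [hXd]
    simp only [dif_pos h]
    exact h1
  have hsum := hmax φ hper (16 * D) (by positivity) M N z hvar' X hX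
  set B := (Icc 1 N).filter fun n : ℕ => bad (M + (n : ℤ)) with hB
  have hcard : ({t : ℤ | M < t ∧ t ≤ M + N ∧ bad t}.ncard : ℝ) ≤ B.card := by
    have h1 : {t : ℤ | M < t ∧ t ≤ M + N ∧ bad t} ⊆
        ((B.image fun n : ℕ => M + (n : ℤ) : Finset ℤ) : Set ℤ) := by
      rintro a ⟨h2, h3, h4⟩
      rw [Finset.mem_coe, Finset.mem_image]
      have e : M + ((a - M).toNat : ℤ) = a := by omega
      refine ⟨(a - M).toNat, ?_, e⟩
      rw [hB, Finset.mem_filter, Finset.mem_Icc, e]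
      exact ⟨⟨by omega, by omega⟩, h4⟩
    have h2 := Set.ncard_le_ncard h1 (Finset.finite_toSet _)
    rw [Set.ncard_coe_finset] at h2
    exact_mod_cast h2.trans Finset.card_image_le
  refine hcard.trans ?_
  have hBle : ∀ n ∈ B, K * D < (∑ p ∈ Prm (X (M + (n : ℤ))), (φ p (M + (n : ℤ)) - mv φ p)) ^ 2 := by
    intro n hn
    rw [hB, mem_filter] at hn
    exact hXb _ hn.2
  have hsub2 : ∑ n ∈ B, (∑ p ∈ Prm (X (M + (n : ℤ))), (φ p (M + (n : ℤ)) - mv φ p)) ^ 2 ≤
      C * (N + (z : ℝ) ^ 2) * (16 * D) :=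
    le_trans (sum_le_sum_of_subset_of_nonneg (filter_subset _ _) fun n _ _ => sq_nonneg _) hsum
  rcases B.eq_empty_or_nonempty with h0 | h0
  · rw [h0, card_empty, Nat.cast_zero]
    positivity
  · have h1 := sum_lt_sum_of_nonempty h0 hBle
    rw [sum_const, nsmul_eq_mul] at h1
    have h2 := h1.trans_le hsub2
    have hDp : 0 < D := by
      rcases hD.eq_or_lt with h3 | h3
      · rw [← h3, mul_zero, mul_zero, mul_zero, mul_zero] at h2
        exact absurd h2 (lt_irrefl _)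
      · exact h3
    rw [le_div_iff₀ hK]
    have h3 : (B.card * K : ℝ) * D < (C * 16 * (N + (z : ℝ) ^ 2)) * D := by
      calc (B.card * K : ℝ) * D = B.card * (K * D) := by ring
        _ < C * (N + (z : ℝ) ^ 2) * (16 * D) := h2
        _ = _ := by ring
    exact (lt_of_mul_lt_mul_right h3 hDp.le).le

end Pool.Agent.TH375.KL
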