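import Pool.Agent.Helper112.LS
import Pool.Agent.Helper916.Kloos

set_option autoImplicit false

/-!
# The dual large sieve for functions modulo primes
-/

namespace Pool.Agent.TH375.KL

open Finset Pool.Agent.Helper112 ComplexConjugate

theorem sum_range_zmod {p : ℕ} [NeZero p] {E : Type*} [AddCommMonoid E] (f : ZMod p → E) :
    ∑ a ∈ range p, f (a : ZMod p) = ∑ a : ZMod p, f a := by
  refine Finset.sum_nbij' (fun a => (a : ZMod p)) ZMod.val ?_ ?_ ?_ ?_ ?_
  · intro a _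
    exact mem_univ _
  · intro a _
    exact mem_range.2 (ZMod.val_lt a)
  · intro a ha
    exact ZMod.val_cast_of_lt (mem_range.1 ha)
  · intro a _
    exact ZMod.natCast_zmod_val a
  · intro a _
    rfl

theorem std_ee {p : ℕ} [NeZero p] (n h : ℕ) :
    ZMod.stdAddChar ((n : ZMod p) * (h : ZMod p)) = ee (n * h / p) := by
  have h1 : ((n : ZMod p) * (h : ZMod p)) = (((n * h : ℕ) : ℤ) : ZMod p) := by push_cast; rfl
  rw [h1, ZMod.stdAddChar_coe]
  unfold ee
  congr 1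
  push_cast
  ring

/-- the sum over a residue class -/
noncomputable def Zc {p : ℕ} (N : ℕ) (α : ℕ → ℂ) (a : ZMod p) : ℂ :=
  ∑ n ∈ (Icc 1 N).filter (fun n : ℕ => (n : ZMod p) = a), α n

theorem sum_Zc {p : ℕ} [NeZero p] (N : ℕ) (α : ℕ → ℂ) (f : ZMod p → ℂ) :
    ∑ a : ZMod p, Zc N α a * f a = ∑ n ∈ Icc 1 N, α n * f (n : ZMod p) := by
  unfold Zc
  have h1 : ∀ a : ZMod p, (∑ n ∈ (Icc 1 N).filter (fun n : ℕ => (n : ZMod p) = a), α n) * f a =
      ∑ n ∈ Icc 1 N, if (n : ZMod p) = a then α n * f (n : ZMod p) else 0 := by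
    intro a
    rw [Finset.sum_mul, Finset.sum_filter]
    refine Finset.sum_congr rfl fun n _ => ?_
    split_ifs with h
    · rw [h]
    · rfl
  rw [Finset.sum_congr rfl fun a _ => h1 a, Finset.sum_comm]
  refine Finset.sum_congr rfl fun n _ => ?_
  rw [Finset.sum_ite_eq]
  simp

theorem prime_ls {p : ℕ} [hp : Fact p.Prime] (N : ℕ) (α : ℕ → ℂ) :
    ∑ h ∈ (range p).filter (fun a => a.Coprime p), ‖∑ n ∈ Icc 1 N, α n * ee (n * h / p)‖ ^ 2 =
      p * ∑ a : ZMod p, ‖Zc N α a‖ ^ 2 - ‖∑ n ∈ Icc 1 N, α n‖ ^ 2 := by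
  have hprim : (ZMod.stdAddChar (N := p)).IsPrimitive := ZMod.isPrimitive_stdAddChar p
  have h1 := Pool.Agent.Helper916.parseval (ZMod.stdAddChar (N := p)) hprim (Zc N α)
  rw [ZMod.card] at h1
  rw [← h1]
  have h2 : ∀ c : ZMod p, ∑ z : ZMod p, Zc N α z * ZMod.stdAddChar (z * c) =
      ∑ n ∈ Icc 1 N, α n * ZMod.stdAddChar ((n : ZMod p) * c) := fun c =>
    sum_Zc N α fun z => ZMod.stdAddChar (z * c)
  simp only [h2]
  rw [← sum_range_zmod (p := p)
    (f := fun c => ‖∑ n ∈ Icc 1 N, α n * ZMod.stdAddChar ((n : ZMod p) * c)‖ ^ 2)]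
  have h3 : range p = insert 0 ((range p).filter (fun a => a.Coprime p)) := by
    ext a
    simp only [mem_range, mem_insert, mem_filter]
    constructor
    · intro ha
      rcases Nat.eq_zero_or_pos a with h0 | h0
      · exact Or.inl h0
      · exact Or.inr ⟨ha, (Nat.coprime_comm.1 ((Nat.Prime.coprime_iff_not_dvd hp.out).2
          (fun hd => absurd (Nat.le_of_dvd h0 hd) (not_le.2 ha))))⟩
    · rintro (h0 | h0)
      · rw [h0]; exact hp.out.pos
      · exact h0.1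
  have h4 : (0 : ℕ) ∉ (range p).filter (fun a => a.Coprime p) := by
    rw [mem_filter]
    rintro ⟨_, h5⟩
    rw [Nat.coprime_zero_left] at h5
    exact hp.out.one_lt.ne' h5
  conv_rhs => rw [h3]
  rw [Finset.sum_insert h4]
  have h5 : ‖∑ n ∈ Icc 1 N, α n * ZMod.stdAddChar ((n : ZMod p) * ((0 : ℕ) : ZMod p))‖ ^ 2 =
      ‖∑ n ∈ Icc 1 N, α n‖ ^ 2 := by
    congr 2
    refine Finset.sum_congr rfl fun n _ => ?_
    rw [Nat.cast_zero, mul_zero, AddChar.map_zero_eq_one, mul_one]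
  rw [h5, add_sub_cancel_left]
  refine Finset.sum_congr rfl fun h _ => ?_
  congr 2
  refine Finset.sum_congr rfl fun n _ => ?_
  rw [std_ee]

/-- the variance over the residue classes -/
theorem variance {p : ℕ} [hp : Fact p.Prime] (N : ℕ) (α : ℕ → ℂ) :
    (p : ℝ) * ∑ a : ZMod p, ‖Zc N α a - (∑ n ∈ Icc 1 N, α n) / p‖ ^ 2 =
      ∑ h ∈ (range p).filter (fun a => a.Coprime p), ‖∑ n ∈ Icc 1 N, α n * ee (n * h / p)‖ ^ 2 := by
  rw [prime_ls]
  set T := ∑ n ∈ Icc 1 N, α n with hT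
  have hp0 : (p : ℝ) ≠ 0 := by
    have := hp.out.pos
    positivity
  have h1 : ∑ a : ZMod p, Zc N α a = T := by
    have := sum_Zc (p := p) N α fun _ => 1
    simpa using this
  have h2 : ∀ a : ZMod p, ‖Zc N α a - T / p‖ ^ 2 =
      ‖Zc N α a‖ ^ 2 - 2 * (Zc N α a * conj (T / p)).re + ‖T / p‖ ^ 2 := by
    intro a
    rw [← Complex.normSq_eq_norm_sq, Complex.normSq_sub, Complex.normSq_eq_norm_sq,
      Complex.normSq_eq_norm_sq]
    ring
  simp only [h2]
  rw [Finset.sum_add_distrib, Finset.sum_sub_distrib, ← Finset.mul_sum, ← Complex.re_sum,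
    ← Finset.sum_mul, h1, Finset.sum_const, card_univ, ZMod.card, nsmul_eq_mul]
  have h3 : (T * conj (T / p)).re = ‖T‖ ^ 2 / p := by
    rw [map_div₀, Complex.conj_natCast, mul_div_assoc', Complex.mul_conj']
    rw [← Complex.ofReal_pow, ← Complex.ofReal_natCast, ← Complex.ofReal_div, Complex.ofReal_re]
  have h4 : ‖T / (p : ℂ)‖ ^ 2 = ‖T‖ ^ 2 / p ^ 2 := by
    rw [norm_div, Complex.norm_natCast, div_pow]
  rw [h3, h4]
  field_simp
  ring

/-- the correlation of a sequence with a function modulo `p` of mean zero -/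
theorem corr {p : ℕ} [hp : Fact p.Prime] (N : ℕ) (α : ℕ → ℂ) (g : ZMod p → ℝ)
    (hg : ∑ a : ZMod p, g a = 0) :
    ‖∑ n ∈ Icc 1 N, α n * (g (n : ZMod p) : ℂ)‖ ≤
      Real.sqrt ((∑ a : ZMod p, g a ^ 2) / p) *
      Real.sqrt (∑ h ∈ (range p).filter (fun a => a.Coprime p),
        ‖∑ n ∈ Icc 1 N, α n * ee (n * h / p)‖ ^ 2) := by
  rw [← variance]
  set T := ∑ n ∈ Icc 1 N, α n with hT
  have hp0 : (0 : ℝ) < p := by
    have := hp.out.pos
    positivity
  have h1 : ∑ n ∈ Icc 1 N, α n * (g (n : ZMod p) : ℂ) =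
      ∑ a : ZMod p, (Zc N α a - T / p) * (g a : ℂ) := by
    rw [← sum_Zc N α fun a => (g a : ℂ)]
    simp only [sub_mul]
    rw [Finset.sum_sub_distrib, ← Finset.mul_sum]
    have : ∑ a : ZMod p, (g a : ℂ) = 0 := by exact_mod_cast hg
    rw [this, mul_zero, sub_zero]
  rw [h1, ← Real.sqrt_mul (by positivity)]
  refine Real.le_sqrt_of_sq_le ?_
  have h2 : ‖∑ a : ZMod p, (Zc N α a - T / p) * (g a : ℂ)‖ ≤
      ∑ a : ZMod p, ‖Zc N α a - T / p‖ * |g a| := by
    refine (norm_sum_le _ _).trans (le_of_eq ?_)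
    exact Finset.sum_congr rfl fun a _ => by rw [norm_mul, Complex.norm_real, Real.norm_eq_abs]
  have h3 := pow_le_pow_left₀ (norm_nonneg _) h2 2
  refine h3.trans ((Finset.sum_mul_sq_le_sq_mul_sq _ _ _).trans (le_of_eq ?_))
  simp only [sq_abs]
  field_simp

/-- **The dual large sieve** for functions modulo primes -/
theorem dual (F N : ℕ) (P : Finset ℕ) (hP : ∀ p ∈ P, p.Prime ∧ p ≤ F) (M : ℤ)
    (g : ∀ p : ℕ, ZMod p → ℝ) (hg : ∀ p ∈ P, ∑ a ∈ range p, g p (a : ZMod p) = 0) :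
    ∑ n ∈ Icc 1 N, (∑ p ∈ P, g p ((M + (n : ℤ) : ℤ) : ZMod p)) ^ 2 ≤
      6 * (N + (F : ℝ) ^ 2) * ∑ p ∈ P, (∑ a ∈ range p, g p (a : ZMod p) ^ 2) / p := by
  set s : ℕ → ℝ := fun n => ∑ p ∈ P, g p ((M + (n : ℤ) : ℤ) : ZMod p) with hs
  set V : ℝ := ∑ n ∈ Icc 1 N, s n ^ 2 with hV
  have hV0 : 0 ≤ V := Finset.sum_nonneg fun _ _ => sq_nonneg _
  set A : ℕ → ℝ := fun p => (∑ a ∈ range p, g p (a : ZMod p) ^ 2) / p with hA
  have hA0 : ∀ p, 0 ≤ A p := fun p => by
    rw [hA]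
    positivity
  set α : ℕ → ℂ := fun n => (s n : ℂ) with hα
  set B : ℕ → ℝ := fun p => ∑ h ∈ (range p).filter (fun a => a.Coprime p),
    ‖∑ n ∈ Icc 1 N, α n * ee (n * h / p)‖ ^ 2 with hB
  have hB0 : ∀ p, 0 ≤ B p := fun p => Finset.sum_nonneg fun _ _ => by positivity
  -- the large sieve
  have hLS : ∑ p ∈ P, B p ≤ 6 * (N + (F : ℝ) ^ 2) * V := by
    have h1 := additive_large_sieve N F α
    have h2 : ∑ n ∈ Icc 1 N, ‖α n‖ ^ 2 = V := by
      refine Finset.sum_congr rfl fun n _ => ?_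
      rw [hα]
      simp only
      rw [Complex.norm_real, Real.norm_eq_abs, sq_abs]
    rw [h2] at h1
    refine le_trans ?_ h1
    refine Finset.sum_le_sum_of_subset_of_nonneg ?_ fun p _ _ => hB0 p
    intro p hp
    rw [Finset.mem_Icc]
    exact ⟨(hP p hp).1.one_le, (hP p hp).2⟩
  -- the duality
  have hdual : V ≤ ∑ p ∈ P, Real.sqrt (A p) * Real.sqrt (B p) := by
    have h1 : (V : ℂ) = ∑ p ∈ P, ∑ n ∈ Icc 1 N, α n *
        (g p ((M + (n : ℤ) : ℤ) : ZMod p) : ℂ) := by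
      rw [hV]
      push_cast
      rw [Finset.sum_comm]
      refine Finset.sum_congr rfl fun n _ => ?_
      rw [← Finset.mul_sum, sq, hα]
      simp only
      congr 1
      rw [hs]
      push_cast
      rfl
    have h2 : V = ‖(V : ℂ)‖ := by
      rw [Complex.norm_real, Real.norm_of_nonneg hV0]
    rw [h2, h1]
    refine (norm_sum_le _ _).trans (Finset.sum_le_sum fun p hp => ?_)
    have : Fact p.Prime := ⟨(hP p hp).1⟩
    have h3 : ∑ a : ZMod p, g p (a + (M : ZMod p)) = 0 := by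
      rw [← hg p hp, sum_range_zmod (p := p) (f := fun a => g p a)]
      exact Equiv.sum_comp (Equiv.addRight (M : ZMod p)) fun a => g p a
    have h4 := corr N α (fun a => g p (a + (M : ZMod p))) h3
    have h5 : ∑ a : ZMod p, g p (a + (M : ZMod p)) ^ 2 = ∑ a ∈ range p, g p (a : ZMod p) ^ 2 := by
      rw [sum_range_zmod (p := p) (f := fun a => g p a ^ 2)]
      exact Equiv.sum_comp (Equiv.addRight (M : ZMod p)) fun a => g p a ^ 2
    rw [h5] at h4
    refine le_trans (le_of_eq ?_) h4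
    congr 1
    refine Finset.sum_congr rfl fun n _ => ?_
    congr 3
    push_cast
    ring
  have h1 : V ^ 2 ≤ (∑ p ∈ P, A p) * (6 * (N + (F : ℝ) ^ 2) * V) := by
    have h2 := pow_le_pow_left₀ hV0 hdual 2
    refine h2.trans ((Finset.sum_mul_sq_le_sq_mul_sq _ _ _).trans ?_)
    have h3 : ∑ p ∈ P, Real.sqrt (A p) ^ 2 = ∑ p ∈ P, A p :=
      Finset.sum_congr rfl fun p _ => Real.sq_sqrt (hA0 p)
    have h4 : ∑ p ∈ P, Real.sqrt (B p) ^ 2 = ∑ p ∈ P, B p :=
      Finset.sum_congr rfl fun p _ => Real.sq_sqrt (hB0 p)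
    rw [h3, h4]
    exact mul_le_mul_of_nonneg_left hLS (Finset.sum_nonneg fun p _ => hA0 p)
  rcases hV0.eq_or_lt with h0 | h0
  · rw [← h0]
    exact mul_nonneg (by positivity) (Finset.sum_nonneg fun p _ => hA0 p)
  · have h2 : V * V ≤ (6 * (N + (F : ℝ) ^ 2) * ∑ p ∈ P, A p) * V := by
      calc V * V = V ^ 2 := (sq V).symm
        _ ≤ _ := h1
        _ = _ := by ring
    exact le_of_mul_le_mul_right h2 h0

end Pool.Agent.TH375.KL
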