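import Pool.Agent.TH375.KL.BaseLocus

set_option autoImplicit false

/-!
# Zeros of polynomials modulo primes, error sums
-/

namespace Pool.Agent.TH375.KL

open Finset

theorem err_sum {D : ℝ} (hD : 0 ≤ D) (q : ℕ → ℝ) (s : Finset ℕ) {x : ℕ} (hx1 : 1 ≤ x)
    (hs : ∀ p ∈ s, p.Prime ∧ p ≤ x) (hq : ∀ p ∈ s, |q p| ≤ D * (1 / Real.sqrt p)) :
    (∑ p ∈ s, q p * Real.log p) ^ 2 ≤ 4 * D ^ 2 * thr x := by
  have hx0 : (0 : ℝ) < x := by exact_mod_cast hx1
  have hlogx : 0 ≤ Real.log x := Real.log_nonneg (by exact_mod_cast hx1)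
  have h4 : |∑ p ∈ s, q p * Real.log p| ≤ D * (2 * Real.sqrt x * Real.log x) := by
    refine (abs_sum_le_sum_abs _ _).trans ?_
    have h5 : ∀ p ∈ s, |q p * Real.log p| ≤ D * Real.log x * (1 / Real.sqrt p) := by
      intro p hp
      have hpr1 : (1 : ℝ) ≤ p := by exact_mod_cast (hs p hp).1.one_le
      have h9 : Real.log p ≤ Real.log x :=
        Real.log_le_log (by linarith) (by exact_mod_cast (hs p hp).2)
      have h10 : 0 ≤ Real.log p := Real.log_nonneg hpr1
      rw [abs_mul, abs_of_nonneg h10]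
      calc |q p| * Real.log p ≤ (D * (1 / Real.sqrt p)) * Real.log x :=
            mul_le_mul (hq p hp) h9 h10 (by positivity)
        _ = _ := by ring
    refine (sum_le_sum h5).trans ?_
    rw [← mul_sum]
    have h6 : ∑ p ∈ s, 1 / Real.sqrt p ≤ 2 * Real.sqrt x := by
      refine le_trans ?_ (sum_inv_sqrt x)
      refine sum_le_sum_of_subset_of_nonneg ?_ fun i _ _ => by positivity
      intro p hp
      rw [mem_range]
      have := (hs p hp).2
      omega
    calc D * Real.log x * ∑ p ∈ s, 1 / Real.sqrt p ≤ D * Real.log x * (2 * Real.sqrt x) :=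
          mul_le_mul_of_nonneg_left h6 (by positivity)
      _ = _ := by ring
  have h6 := pow_le_pow_left₀ (abs_nonneg _) h4 2
  rw [sq_abs] at h6
  have h7 : (D * (2 * Real.sqrt x * Real.log x)) ^ 2 = 4 * D ^ 2 * (x * Real.log x ^ 2) := by
    have h8 : Real.sqrt x ^ 2 = x := Real.sq_sqrt (Nat.cast_nonneg _)
    calc (D * (2 * Real.sqrt x * Real.log x)) ^ 2
        = 4 * D ^ 2 * (Real.sqrt x ^ 2 * Real.log x ^ 2) := by ring
      _ = _ := by rw [h8]
  rw [h7] at h6
  refine h6.trans ?_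
  refine mul_le_mul_of_nonneg_left ?_ (by positivity)
  unfold thr
  refine mul_le_mul_of_nonneg_left ?_ hx0.le
  have h8 : Real.log x ≤ (Nat.log 2 x : ℝ) + 1 := by
    have h9 : x < 2 ^ (Nat.log 2 x + 1) := Nat.lt_pow_succ_log_self (by norm_num) x
    have h10 : (x : ℝ) ≤ 2 ^ (Nat.log 2 x + 1) := by exact_mod_cast h9.le
    have h11 := Real.log_le_log hx0 h10
    rw [Real.log_pow] at h11
    have h12 := Real.log_two_lt_d9
    push_cast at h11
    have h13 : (0 : ℝ) ≤ (Nat.log 2 x : ℝ) + 1 := by positivity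
    nlinarith
  have h9 : (1 : ℝ) ≤ (Nat.log 2 x : ℝ) + 1 := by
    have : (0 : ℝ) ≤ Nat.log 2 x := Nat.cast_nonneg _
    linarith
  calc Real.log x ^ 2 ≤ ((Nat.log 2 x : ℝ) + 1) ^ 2 := pow_le_pow_left₀ hlogx h8 2
    _ ≤ ((Nat.log 2 x : ℝ) + 1) ^ 5 := pow_le_pow_right₀ h9 (by norm_num)

theorem totalDegree_map_le' {k : ℕ} {R S : Type*} [CommSemiring R] [CommSemiring S] (f : R →+* S)
    (G : MvPolynomial (Fin k) R) : (MvPolynomial.map f G).totalDegree ≤ G.totalDegree := by
  unfold MvPolynomial.totalDegree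
  exact Finset.sup_mono (MvPolynomial.support_map_subset f G)

theorem zero_count {k : ℕ} (G : MvPolynomial (Fin k) ℤ) (hG : G ≠ 0) : ∃ D : ℝ, 0 ≤ D ∧
    ∀ (p : ℕ) (_ : Fact p.Prime),
    ((univ.filter fun t : Fin k → ZMod p => MvPolynomial.aeval t G = 0).card : ℝ) ≤
      D * (1 / Real.sqrt p) * (p : ℝ) ^ k := by
  classical
  obtain ⟨s, hs⟩ := MvPolynomial.ne_zero_iff.1 hG
  set a := MvPolynomial.coeff s G with ha
  refine ⟨G.totalDegree + Real.sqrt a.natAbs, by positivity, ?_⟩
  intro p hp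
  have hp0 : (0 : ℝ) < p := by exact_mod_cast hp.out.pos
  have hp1 : (1 : ℝ) ≤ p := by exact_mod_cast hp.out.one_le
  have hs0 : 0 < Real.sqrt p := Real.sqrt_pos.2 hp0
  by_cases h : (p : ℤ) ∣ a
  · have h1 : p ≤ a.natAbs := by
      refine Nat.le_of_dvd (Int.natAbs_pos.2 hs) ?_
      exact Int.natCast_dvd.1 h
    have h2 : Real.sqrt p ≤ Real.sqrt a.natAbs := Real.sqrt_le_sqrt (by exact_mod_cast h1)
    have h3 : ((univ.filter fun t : Fin k → ZMod p => MvPolynomial.aeval t G = 0).card : ℝ) ≤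
        (p : ℝ) ^ k := by
      have := card_filter_le (univ : Finset (Fin k → ZMod p))
        fun t => MvPolynomial.aeval t G = 0
      rw [card_univ, Fintype.card_fun, ZMod.card, Fintype.card_fin] at this
      exact_mod_cast this
    refine h3.trans ?_
    have h4 : 1 ≤ ((G.totalDegree : ℝ) + Real.sqrt a.natAbs) * (1 / Real.sqrt p) := by
      rw [mul_one_div, le_div_iff₀ hs0, one_mul]
      have : (0 : ℝ) ≤ G.totalDegree := Nat.cast_nonneg _
      linarith
    have h5 : (0 : ℝ) ≤ (p : ℝ) ^ k := by positivity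
    calc (p : ℝ) ^ k = 1 * (p : ℝ) ^ k := (one_mul _).symm
      _ ≤ _ := mul_le_mul_of_nonneg_right h4 h5
  · set G' := MvPolynomial.map (Int.castRingHom (ZMod p)) G with hG'
    have h1 : G' ≠ 0 := by
      rw [MvPolynomial.ne_zero_iff]
      refine ⟨s, ?_⟩
      rw [hG', MvPolynomial.coeff_map]
      intro h2
      exact h ((ZMod.intCast_zmod_eq_zero_iff_dvd _ _).1 h2)
    have h2 := MvPolynomial.schwartz_zippel_totalDegree h1 (univ : Finset (ZMod p))
    have hpq : (0 : ℚ≥0) < (p : ℚ≥0) := by exact_mod_cast hp.out.pos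
    rw [card_univ, ZMod.card, div_le_div_iff₀ (by positivity) hpq] at h2
    have h3 : (univ.filter fun t : Fin k → ZMod p => MvPolynomial.aeval t G = 0) =
        (Fintype.piFinset fun _ : Fin k => (univ : Finset (ZMod p))).filter
          fun f => MvPolynomial.eval f G' = 0 := by
      rw [Fintype.piFinset_univ]
      refine filter_congr fun t _ => ?_
      rw [hG', MvPolynomial.eval_map, MvPolynomial.aeval_def, algebraMap_int_eq]
    rw [← h3] at h2
    have h4 : (univ.filter fun t : Fin k → ZMod p => MvPolynomial.aeval t G = 0).card * p ≤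
        G'.totalDegree * p ^ k := by exact_mod_cast h2
    have h5 : G'.totalDegree ≤ G.totalDegree := totalDegree_map_le' _ G
    have h6 : ((univ.filter fun t : Fin k → ZMod p => MvPolynomial.aeval t G = 0).card : ℝ) * p ≤
        G.totalDegree * (p : ℝ) ^ k := by
      exact_mod_cast h4.trans (Nat.mul_le_mul_right _ h5)
    have h7 : 1 / (p : ℝ) ≤ 1 / Real.sqrt p := by
      refine one_div_le_one_div_of_le hs0 ?_
      rw [Real.sqrt_le_left hp0.le]
      nlinarith
    calc ((univ.filter fun t : Fin k → ZMod p => MvPolynomial.aeval t G = 0).card : ℝ)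
        ≤ G.totalDegree * (p : ℝ) ^ k / p := by
          rw [le_div_iff₀ hp0]
          exact h6
      _ = G.totalDegree * (1 / p) * (p : ℝ) ^ k := by ring
      _ ≤ (G.totalDegree + Real.sqrt a.natAbs) * (1 / Real.sqrt p) * (p : ℝ) ^ k := by
          refine mul_le_mul_of_nonneg_right ?_ (by positivity)
          refine mul_le_mul ?_ h7 (by positivity) (by positivity)
          have := Real.sqrt_nonneg (a.natAbs : ℝ)
          linarith

theorem cast_eval {n p : ℕ} [hp : Fact p.Prime] (G : MvPolynomial (Fin n) ℤ) (u : Fin n → ℕ) :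
    ((MvPolynomial.eval (fun i => (u i : ℤ)) G : ℤ) : ZMod p) =
      MvPolynomial.aeval (fun i => (u i : ZMod p)) G := by
  induction G using MvPolynomial.induction_on with
  | C a => simp
  | add f g hf hg => simp only [map_add, Int.cast_add, hf, hg]
  | mul_X f i hf => simp only [map_mul, Int.cast_mul, hf, MvPolynomial.eval_X,
      MvPolynomial.aeval_X, Int.cast_natCast]

theorem sum_cons {k p : ℕ} [hp : Fact p.Prime] (F : (Fin (k + 1) → ZMod p) → ℝ) :
    ∑ v, F v = ∑ t : Fin k → ZMod p, ∑ x : ZMod p, F (Fin.cons x t) := by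
  rw [← (Fin.consEquiv fun _ => ZMod p).sum_comp, Fintype.sum_prod_type_right]
  rfl

end Pool.Agent.TH375.KL
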